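import Pool.Agent.H70.AM.Graph

/-!
A calculus of maps that are, up to a countable decomposition, locally dominated by another map.
-/

set_option autoImplicit false

open Set Topology Filter
open scoped ENNReal NNReal

namespace Pool.Agent.H70.AM

/-- `f` is locally dominated by `q` on each piece of a countable decomposition of `s`. -/
def Dom {X Y Z : Type*} [TopologicalSpace X] [PseudoEMetricSpace Y] [PseudoEMetricSpace Z]
    (s : Set X) (f : X → Y) (q : X → Z) : Prop :=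
  ∃ (ι : Type) (_ : Countable ι) (S : ι → Set X), (∀ i, S i ⊆ s) ∧ s ⊆ ⋃ i, S i ∧
    ∀ i, ∀ x ∈ S i, ∃ K : ℝ≥0, ∃ t ∈ 𝓝[S i] x, ∀ a ∈ t, ∀ b ∈ t,
      edist (f a) (f b) ≤ K * edist (q a) (q b)

section

variable {X Y Z W : Type*} [TopologicalSpace X] [PseudoEMetricSpace Y] [PseudoEMetricSpace Z]
  [PseudoEMetricSpace W]

lemma Dom.mono {s s' : Set X} {f : X → Y} {q : X → Z} (h : Dom s f q) (hs : s' ⊆ s) :
    Dom s' f q := by
  obtain ⟨ι, hι, S, h1, h2, h3⟩ := h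
  refine ⟨ι, hι, fun i => S i ∩ s', fun i => inter_subset_right, ?_, ?_⟩
  · intro x hx
    obtain ⟨i, hi⟩ := mem_iUnion.1 (h2 (hs hx))
    exact mem_iUnion.2 ⟨i, hi, hx⟩
  · rintro i x ⟨hx, hx'⟩
    obtain ⟨K, t, ht, hK⟩ := h3 i x hx
    exact ⟨K, t, nhdsWithin_mono x inter_subset_left ht, hK⟩

lemma Dom.trans {s : Set X} {f : X → Y} {g : X → Z} {q : X → W} (h : Dom s f g)
    (h' : Dom s g q) : Dom s f q := by
  obtain ⟨ι, hι, S, h1, h2, h3⟩ := h
  obtain ⟨ι', hι', S', h1', h2', h3'⟩ := h'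
  refine ⟨ι × ι', inferInstance, fun p => S p.1 ∩ S' p.2,
    fun p => inter_subset_left.trans (h1 p.1), ?_, ?_⟩
  · intro x hx
    obtain ⟨i, hi⟩ := mem_iUnion.1 (h2 hx)
    obtain ⟨i', hi'⟩ := mem_iUnion.1 (h2' hx)
    exact mem_iUnion.2 ⟨(i, i'), hi, hi'⟩
  · rintro ⟨i, i'⟩ x ⟨hx, hx'⟩
    obtain ⟨K, t, ht, hK⟩ := h3 i x hx
    obtain ⟨K', t', ht', hK'⟩ := h3' i' x hx'
    refine ⟨K * K', t ∩ t', inter_mem (nhdsWithin_mono x inter_subset_left ht)
      (nhdsWithin_mono x inter_subset_right ht'), ?_⟩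
    rintro a ⟨ha, ha'⟩ b ⟨hb, hb'⟩
    calc edist (f a) (f b) ≤ K * edist (g a) (g b) := hK a ha b hb
      _ ≤ K * (K' * edist (q a) (q b)) := by gcongr; exact hK' a ha' b hb'
      _ = _ := by rw [ENNReal.coe_mul, mul_assoc]

lemma Dom.refl (s : Set X) (q : X → Z) : Dom s q q :=
  ⟨Unit, inferInstance, fun _ => s, fun _ => Subset.rfl, fun x hx => mem_iUnion.2 ⟨(), hx⟩,
    fun _ _ _ => ⟨1, s, self_mem_nhdsWithin, fun a _ b _ => by simp⟩⟩

lemma Dom.of_lipschitz {s : Set X} {f : X → Y} {q : X → Z} (K : ℝ≥0)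
    (h : ∀ a ∈ s, ∀ b ∈ s, edist (f a) (f b) ≤ K * edist (q a) (q b)) : Dom s f q :=
  ⟨Unit, inferInstance, fun _ => s, fun _ => Subset.rfl, fun x hx => mem_iUnion.2 ⟨(), hx⟩,
    fun _ _ _ => ⟨K, s, self_mem_nhdsWithin, h⟩⟩

lemma Dom.congr {s : Set X} {f f' : X → Y} {q : X → Z} (h : Dom s f q)
    (hf : ∀ x ∈ s, f' x = f x) : Dom s f' q := by
  refine Dom.trans (g := f) ?_ h
  refine Dom.of_lipschitz 1 fun a ha b hb => ?_
  rw [hf a ha, hf b hb]
  simp

/-- a coordinate with countably many values is dominated by anything -/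
lemma Dom.of_countable {s : Set X} {f : X → Y} {q : X → Z} (h : (f '' s).Countable) :
    Dom s f q := by
  classical
  by_cases hs : s = ∅
  · subst hs
    exact ⟨Unit, inferInstance, fun _ => ∅, fun _ => Subset.rfl, empty_subset _,
      fun _ x hx => absurd hx (notMem_empty x)⟩
  have hne : (f '' s).Nonempty := (nonempty_iff_ne_empty.2 hs).image f
  obtain ⟨e, he⟩ := h.exists_eq_range hne
  refine ⟨ℕ, inferInstance, fun i => {x | x ∈ s ∧ f x = e i}, fun i x hx => hx.1, ?_, ?_⟩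
  · intro x hx
    have : f x ∈ range e := he ▸ mem_image_of_mem f hx
    obtain ⟨i, hi⟩ := this
    exact mem_iUnion.2 ⟨i, hx, hi.symm⟩
  · intro i x _
    refine ⟨0, _, self_mem_nhdsWithin, ?_⟩
    rintro a ⟨-, ha⟩ b ⟨-, hb⟩
    rw [ha, hb]
    simp

lemma Dom.pi {J : Type*} [Fintype J] {π : J → Type*} [∀ j, PseudoEMetricSpace (π j)]
    {s : Set X} {f : X → ∀ j, π j} {q : X → Z} (h : ∀ j, Dom s (fun x => f x j) q) :
    Dom s f q := by
  classical
  choose ι hι S h1 h2 h3 using h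
  let e := Fintype.equivFin J
  let ι' : Fin (Fintype.card J) → Type := fun k => ι (e.symm k)
  have hι' : ∀ k, Countable (ι' k) := fun k => hι _
  refine ⟨∀ k, ι' k, inferInstance, fun i => {x | x ∈ s ∧ ∀ k, x ∈ S (e.symm k) (i k)},
    fun i x hx => hx.1, ?_, ?_⟩
  · intro x hx
    have h4 : ∀ k, ∃ i : ι' k, x ∈ S (e.symm k) i := fun k => mem_iUnion.1 (h2 (e.symm k) hx)
    choose i hi using h4
    exact mem_iUnion.2 ⟨i, hx, hi⟩
  · rintro i x ⟨hx, hxi⟩
    have h5 : ∀ k, ∃ K : ℝ≥0, ∃ t ∈ 𝓝[{x | x ∈ s ∧ ∀ k, x ∈ S (e.symm k) (i k)}] x,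
        ∀ a ∈ t, ∀ b ∈ t, edist (f a (e.symm k)) (f b (e.symm k)) ≤ K * edist (q a) (q b) := by
      intro k
      obtain ⟨K, t, ht, hK⟩ := h3 (e.symm k) (i k) x (hxi k)
      exact ⟨K, t, nhdsWithin_mono x (fun y hy => hy.2 k) ht, hK⟩
    choose K t ht hK using h5
    refine ⟨∑ k, K k, ⋂ k, t k, ?_, ?_⟩
    · exact iInter_mem.2 ht
    · intro a ha b hb
      rw [edist_pi_le_iff]
      intro j
      have h6 := hK (e j) a (mem_iInter.1 ha _) b (mem_iInter.1 hb _)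
      rw [e.symm_apply_apply] at h6
      refine h6.trans ?_
      gcongr
      exact Finset.single_le_sum (f := K) (fun _ _ => bot_le) (Finset.mem_univ (e j))

lemma Dom.prodMk {s : Set X} {f : X → Y} {g : X → Z} {q : X → W} (h : Dom s f q)
    (h' : Dom s g q) : Dom s (fun x => (f x, g x)) q := by
  obtain ⟨ι, hι, S, h1, h2, h3⟩ := h
  obtain ⟨ι', hι', S', h1', h2', h3'⟩ := h'
  refine ⟨ι × ι', inferInstance, fun p => S p.1 ∩ S' p.2,
    fun p => inter_subset_left.trans (h1 p.1), ?_, ?_⟩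
  · intro x hx
    obtain ⟨i, hi⟩ := mem_iUnion.1 (h2 hx)
    obtain ⟨i', hi'⟩ := mem_iUnion.1 (h2' hx)
    exact mem_iUnion.2 ⟨(i, i'), hi, hi'⟩
  · rintro ⟨i, i'⟩ x ⟨hx, hx'⟩
    obtain ⟨K, t, ht, hK⟩ := h3 i x hx
    obtain ⟨K', t', ht', hK'⟩ := h3' i' x hx'
    refine ⟨K + K', t ∩ t', inter_mem (nhdsWithin_mono x inter_subset_left ht)
      (nhdsWithin_mono x inter_subset_right ht'), ?_⟩
    rintro a ⟨ha, ha'⟩ b ⟨hb, hb'⟩
    rw [Prod.edist_eq]
    refine max_le ?_ ?_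
    · refine (hK a ha b hb).trans ?_
      gcongr
      simp
    · refine (hK' a ha' b hb').trans ?_
      gcongr
      simp

end

/-- dimension bound from domination -/
theorem Dom.dimH_le {X Z : Type*} [EMetricSpace X] [SecondCountableTopology X] [EMetricSpace Z]
    {s : Set X} {q : X → Z} (h : Dom s id q) : dimH s ≤ dimH (q '' s) := by
  obtain ⟨ι, hι, S, h1, h2, h3⟩ := h
  have h4 : ∀ i, dimH (S i) ≤ dimH (q '' S i) := by
    intro i
    apply dimH_le_image_of_locally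
    intro x hx
    exact h3 i x hx
  calc dimH s ≤ dimH (⋃ i, S i) := dimH_mono h2
    _ = ⨆ i, dimH (S i) := dimH_iUnion S
    _ ≤ dimH (q '' s) := iSup_le fun i => (h4 i).trans (dimH_mono (image_mono (h1 i)))

section

variable {X : Type*} [TopologicalSpace X] {E : Type*} [NormedAddCommGroup E] [NormedSpace ℂ E]

/-- analytic functions of `q` are dominated by `q` -/
lemma Dom.of_analytic {F : Type*} [NormedAddCommGroup F] [NormedSpace ℂ F] {s : Set X}
    {f : X → F} {q : X → E} (h : E → F) (hq : ∀ x ∈ s, ContinuousWithinAt q s x)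
    (hh : ∀ x ∈ s, AnalyticAt ℂ h (q x)) (hf : ∀ x ∈ s, f x = h (q x)) : Dom s f q := by
  refine ⟨Unit, inferInstance, fun _ => s, fun _ => Subset.rfl, fun x hx => mem_iUnion.2 ⟨(), hx⟩,
    fun _ x hx => ?_⟩
  have hst := (hh x hx).hasStrictFDerivAt
  obtain ⟨K, U, hU, hK⟩ := hst.exists_lipschitzOnWith
  refine ⟨K, {y | y ∈ s ∧ q y ∈ U}, ?_, ?_⟩
  · exact inter_mem self_mem_nhdsWithin ((hq x hx) hU)
  · rintro a ⟨ha, ha'⟩ b ⟨hb, hb'⟩
    rw [hf a ha, hf b hb]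
    exact hK ha' hb'

/-- a coordinate that solves an analytic equation over `q` is dominated by `q` -/
theorem Dom.solve {s : Set X} {x : X → ℂ} {q : X → E} (H : E × ℂ → ℂ)
    (hH : AnalyticOnNhd ℂ H univ) (hx : ∀ w ∈ s, ContinuousWithinAt x s w)
    (hq : ∀ w ∈ s, ContinuousWithinAt q s w) (h0 : ∀ w ∈ s, H (q w, x w) = 0)
    (hne : ∀ w ∈ s, ∃ y, H (q w, y) ≠ 0) : Dom s x q := by
  let S : ℕ → Set X := fun m =>
    {w | w ∈ s ∧ dxn H m (q w, x w) = 0 ∧ dx (dxn H m) (q w, x w) ≠ 0}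
  refine ⟨ℕ, inferInstance, S, fun m w hw => hw.1, ?_, ?_⟩
  · intro w hw
    obtain ⟨m, hm⟩ := exists_simple hH (q w) (x w) (h0 w hw) (hne w hw)
    exact mem_iUnion.2 ⟨m, hw, hm⟩
  · rintro m w₀ ⟨hw₀, hz, ha⟩
    set Kj := dxn H m with hKj
    set a := dx Kj (q w₀, x w₀) with ha'
    have han : AnalyticAt ℂ Kj (q w₀, x w₀) := dxn_analytic hH m _ (mem_univ _)
    have hst := han.hasStrictFDerivAt
    set L := fderiv ℂ Kj (q w₀, x w₀) with hL
    have hapos : 0 < ‖a‖ := norm_pos_iff.2 ha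
    set c : ℝ≥0 := ⟨‖a‖ / 2, by positivity⟩ with hc
    have hcpos : 0 < c := by
      rw [← NNReal.coe_pos]
      change 0 < ‖a‖ / 2
      positivity
    obtain ⟨U, hU, hUa⟩ := hst.approximates_deriv_on_nhds (c := c) (Or.inr hcpos)
    set K : ℝ≥0 := ⟨2 * (‖L‖ + ‖a‖ / 2) / ‖a‖, by positivity⟩ with hK
    refine ⟨K, {w | w ∈ S m ∧ (q w, x w) ∈ U}, ?_, ?_⟩
    · refine inter_mem self_mem_nhdsWithin ?_
      have hc1 : ContinuousWithinAt (fun w => (q w, x w)) (S m) w₀ :=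
        ((hq w₀ hw₀).prodMk (hx w₀ hw₀)).mono (fun w hw => hw.1)
      exact hc1 hU
    · rintro w ⟨hw, hwU⟩ w' ⟨hw', hwU'⟩
      have e1 := hUa _ hwU _ hwU'
      have z1 : Kj (q w, x w) = 0 := hw.2.1
      have z2 : Kj (q w', x w') = 0 := hw'.2.1
      rw [z1, z2] at e1
      have e2 : L ((q w, x w) - (q w', x w')) = L (q w - q w', 0) + (x w - x w') * a := by
        have : ((q w, x w) - (q w', x w') : E × ℂ) =
            (q w - q w', 0) + (x w - x w') • ((0 : E), (1 : ℂ)) := by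
          ext <;> simp
        rw [this, map_add, map_smul]
        rfl
      rw [e2] at e1
      have e3 : ‖L (q w - q w', 0)‖ ≤ ‖L‖ * ‖q w - q w'‖ := by
        refine (L.le_opNorm _).trans ?_
        gcongr
        simp [Prod.norm_def]
      have e4 : ‖((q w, x w) - (q w', x w') : E × ℂ)‖ ≤ ‖q w - q w'‖ + ‖x w - x w'‖ := by
        rw [Prod.norm_def]
        exact max_le (by simp) (by simp)
      have e5 : (c : ℝ) = ‖a‖ / 2 := rfl
      rw [e5] at e1
      have e6 : ‖x w - x w'‖ * ‖a‖ ≤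
          ‖(0 : ℂ) - 0 - (L (q w - q w', 0) + (x w - x w') * a)‖ + ‖L (q w - q w', 0)‖ := by
        rw [← norm_mul]
        have : (x w - x w') * a = -((0 : ℂ) - 0 - (L (q w - q w', 0) + (x w - x w') * a)) +
            -(L (q w - q w', 0)) := by ring
        calc ‖(x w - x w') * a‖ = ‖-((0 : ℂ) - 0 - (L (q w - q w', 0) + (x w - x w') * a)) +
            -(L (q w - q w', 0))‖ := by rw [← this]
          _ ≤ _ := by
            refine (norm_add_le _ _).trans ?_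
            rw [norm_neg, norm_neg]
      have e9 : ‖x w - x w'‖ ≤ (K : ℝ) * ‖q w - q w'‖ := by
        change ‖x w - x w'‖ ≤ 2 * (‖L‖ + ‖a‖ / 2) / ‖a‖ * ‖q w - q w'‖
        rw [div_mul_eq_mul_div, le_div_iff₀ hapos]
        have e7 := e1.trans (mul_le_mul_of_nonneg_left e4 (by positivity : 0 ≤ ‖a‖ / 2))
        have e8 : ‖x w - x w'‖ * ‖a‖ ≤
            ‖a‖ / 2 * (‖q w - q w'‖ + ‖x w - x w'‖) + ‖L‖ * ‖q w - q w'‖ := by
          refine e6.trans (add_le_add e7 e3)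
        linarith
      rw [edist_dist, edist_dist, dist_eq_norm, dist_eq_norm, ← ENNReal.ofReal_coe_nnreal,
        ← ENNReal.ofReal_mul (by positivity)]
      exact ENNReal.ofReal_le_ofReal e9

end

end Pool.Agent.H70.AM
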