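import Pool.Agent.H70.AM.Graph

/-!
Singularities of sums of products of one variable functions.
-/

set_option autoImplicit false

open Set Topology Filter
open scoped ENNReal NNReal

namespace Pool.Agent.H70.AM

set_option linter.unusedSectionVars false

section

variable {J : Type*} [Fintype J] [DecidableEq J] {N : ℕ}

/-- the hypotheses on the one variable functions -/
structure Good (X : J → Fin N → ℂ → ℂ) : Prop where
  diff : ∀ j c, Differentiable ℂ (X j c)
  simple : ∀ j c x, X j c x = 0 → deriv (X j c) x ≠ 0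
  disj : ∀ j c c' x, X j c x = 0 → X j c' x = 0 → c = c'
  zero : ∀ j c, ∃ x, X j c x = 0

/-- the sum of products -/
noncomputable def FF (X : J → Fin N → ℂ → ℂ) (w : J → ℂ) : ℂ := ∑ c, ∏ j, X j c (w j)

/-- the formula for the derivative -/
lemma FF_hasFDerivAt {X : J → Fin N → ℂ → ℂ} (hX : ∀ j c, Differentiable ℂ (X j c)) (w : J → ℂ) :
    HasFDerivAt (FF X) (∑ c, ∑ j, (∏ i ∈ Finset.univ.erase j, X i c (w i)) •
      (deriv (X j c) (w j) • (ContinuousLinearMap.proj j : (J → ℂ) →L[ℂ] ℂ))) w := by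
  unfold FF
  refine HasFDerivAt.fun_sum fun c _ => ?_
  refine HasFDerivAt.finsetProd fun j _ => ?_
  have h1 : HasDerivAt (X j c) (deriv (X j c) (w j)) (w j) := (hX j c (w j)).hasDerivAt
  have h2 : HasFDerivAt (fun w : J → ℂ => w j)
    (ContinuousLinearMap.proj j : (J → ℂ) →L[ℂ] ℂ) w := hasFDerivAt_apply j w
  exact h1.comp_hasFDerivAt w h2

lemma FF_differentiable {X : J → Fin N → ℂ → ℂ} (hX : ∀ j c, Differentiable ℂ (X j c)) :
    Differentiable ℂ (FF X) := fun w => (FF_hasFDerivAt hX w).differentiableAt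

lemma FF_partial {X : J → Fin N → ℂ → ℂ} (hX : ∀ j c, Differentiable ℂ (X j c)) (w : J → ℂ)
    (h : fderiv ℂ (FF X) w = 0) (j : J) :
    ∑ c, (∏ i ∈ Finset.univ.erase j, X i c (w i)) * deriv (X j c) (w j) = 0 := by
  have h1 := (FF_hasFDerivAt hX w).fderiv
  rw [h] at h1
  have h2 := congrArg (fun L => L (Pi.single j 1)) h1
  simp only [_root_.zero_apply, _root_.sum_apply,
    _root_.smul_apply, ContinuousLinearMap.proj_apply, smul_eq_mul] at h2
  rw [h2]
  refine Finset.sum_congr rfl fun c _ => ?_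
  rw [Finset.sum_eq_single j]
  · simp
  · intro i _ hi
    simp [Pi.single_eq_of_ne hi]
  · simp

/-- the set where each product has two vanishing factors -/
def S0 (X : J → Fin N → ℂ → ℂ) : Set (J → ℂ) :=
  {w | ∀ c, ∃ j₁ j₂, j₁ ≠ j₂ ∧ X j₁ c (w j₁) = 0 ∧ X j₂ c (w j₂) = 0}

/-- the part of `S0` with given positions -/
def Sa (X : J → Fin N → ℂ → ℂ) (a : Fin N × Bool → J) : Set (J → ℂ) :=
  {w | ∀ q, X (a q) q.1 (w (a q)) = 0}

lemma S0_sub {X : J → Fin N → ℂ → ℂ} (hX : Good X) :
    S0 X ⊆ ⋃ a : {a : Fin N × Bool → J // Function.Injective a}, Sa X a := by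
  intro w hw
  choose j₁ j₂ hne h1 h2 using hw
  let a : Fin N × Bool → J := fun q => if q.2 then j₁ q.1 else j₂ q.1
  have ha0 : ∀ q, X (a q) q.1 (w (a q)) = 0 := by
    rintro ⟨c, b⟩
    cases b
    · exact h2 c
    · exact h1 c
  have hinj : Function.Injective a := by
    intro q q' hqq
    have e1 := ha0 q
    have e2 := ha0 q'
    rw [← hqq] at e2
    have e3 : q.1 = q'.1 := hX.disj _ _ _ _ e1 e2
    obtain ⟨c, b⟩ := q
    obtain ⟨c', b'⟩ := q'
    simp only at e3
    subst e3
    cases b <;> cases b'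
    · rfl
    · exact absurd hqq.symm (hne c)
    · exact absurd hqq (hne c)
    · rfl
  exact mem_iUnion.2 ⟨⟨a, hinj⟩, ha0⟩

lemma not_identically {X : J → Fin N → ℂ → ℂ} (hX : Good X) (j : J) (c : Fin N) :
    ∃ x, X j c x ≠ 0 := by
  by_contra hcon
  push Not at hcon
  have h1 : X j c = fun _ => 0 := funext hcon
  have h2 := hX.simple j c 0 (hcon 0)
  rw [h1] at h2
  simp at h2

lemma finrank_fun (ι : Type*) [Fintype ι] : Module.finrank ℝ (ι → ℂ) = 2 * Fintype.card ι := by
  rw [Module.finrank_pi_fintype, Finset.sum_const, Complex.finrank_real_complex,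
    Finset.card_univ, smul_eq_mul, mul_comm]

lemma dimH_le_card {ι : Type*} [Fintype ι] (s : Set (ι → ℂ)) :
    dimH s ≤ ((2 * Fintype.card ι : ℕ) : ℝ≥0∞) := by
  calc dimH s ≤ dimH (univ : Set (ι → ℂ)) := dimH_mono (subset_univ _)
    _ = _ := by rw [Real.dimH_univ_eq_finrank, finrank_fun]

open Classical in
lemma Sa_dim {X : J → Fin N → ℂ → ℂ} (hX : Good X) (a : Fin N × Bool → J)
    (ha : Function.Injective a) :
    dimH (Sa X a) ≤ ((2 * (Fintype.card J - 2 * N) : ℕ) : ℝ≥0∞) := by
  let R : Set J := range a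
  let p : (J → ℂ) → ((↥Rᶜ) → ℂ) := fun w j => w j
  have hq : ∀ j : J, j ∈ R → ∃ q, a q = j := fun j hj => hj
  let H : J → ((↥Rᶜ) → ℂ) × ℂ → ℂ := fun j z =>
    if h : j ∈ R then X j (hq j h).choose.1 z.2 else z.2 - z.1 ⟨j, h⟩
  have h1 := dimH_le_of_param (Sa X a) p H ?_ ?_ ?_ ?_
  · refine h1.trans ((dimH_le_card _).trans (le_of_eq ?_))
    congr 2
    rw [Fintype.card_compl_set]
    congr 1
    have : Fintype.card (↥R) = Fintype.card (Fin N × Bool) := by
      rw [← Set.card_range_of_injective ha]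
    rw [this]
    simp [mul_comm]
  · intro j z _
    by_cases h : j ∈ R
    · have : H j = fun z => X j (hq j h).choose.1 z.2 := by
        funext z
        simp only [H, dif_pos h]
      rw [this]
      have h2 : AnalyticAt ℂ (X j (hq j h).choose.1) z.2 :=
        (hX.diff j _).analyticAt z.2
      exact h2.comp analyticAt_snd
    · have : H j = fun z => z.2 - z.1 ⟨j, h⟩ := by
        funext z
        simp only [H, dif_neg h]
      rw [this]
      have h3 : AnalyticAt ℂ (fun z : ((↥Rᶜ) → ℂ) × ℂ => z.1 ⟨j, h⟩) z :=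
        ((ContinuousLinearMap.proj (R := ℂ) (φ := fun _ : ↥Rᶜ => ℂ) ⟨j, h⟩).comp
          (ContinuousLinearMap.fst ℂ ((↥Rᶜ) → ℂ) ℂ)).analyticAt z
      exact analyticAt_snd.sub h3
  · intro w _
    have hpc : Continuous p := continuous_pi fun j => continuous_apply (A := fun _ : J => ℂ) (j : J)
    exact hpc.continuousWithinAt
  · intro w hw j
    by_cases h : j ∈ R
    · simp only [H, dif_pos h]
      have := hw (hq j h).choose
      rw [(hq j h).choose_spec] at this
      exact this
    · simp only [H, dif_neg h]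
      exact sub_self _
  · intro w hw j
    by_cases h : j ∈ R
    · simp only [H, dif_pos h]
      exact not_identically hX j _
    · simp only [H, dif_neg h]
      exact ⟨p w ⟨j, h⟩ + 1, by simp⟩

lemma S0_dim {X : J → Fin N → ℂ → ℂ} (hX : Good X) :
    dimH (S0 X) ≤ ((2 * (Fintype.card J - 2 * N) : ℕ) : ℝ≥0∞) := by
  refine (dimH_mono (S0_sub hX)).trans ?_
  rw [dimH_iUnion]
  exact iSup_le fun a => Sa_dim hX a.1 a.2

/-- the product -/
noncomputable def PP (X : J → Fin N → ℂ → ℂ) (c : Fin N) (w : J → ℂ) : ℂ := ∏ j, X j c (w j)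

lemma PP_erase (X : J → Fin N → ℂ → ℂ) (c : Fin N) (w : J → ℂ) (j : J) :
    PP X c w = X j c (w j) * ∏ i ∈ Finset.univ.erase j, X i c (w i) := by
  unfold PP
  rw [Finset.mul_prod_erase _ (fun i => X i c (w i)) (Finset.mem_univ j)]

lemma sing_P_zero {X : J → Fin N → ℂ → ℂ} (hX : Good X) (w : J → ℂ)
    (hd : fderiv ℂ (FF X) w = 0) (hP : ∀ c, PP X c w = 0) : w ∈ S0 X := by
  intro c
  have h1 := hP c
  unfold PP at h1
  rw [Finset.prod_eq_zero_iff] at h1
  obtain ⟨j, -, hj⟩ := h1
  have h2 := FF_partial hX.diff w hd j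
  rw [Finset.sum_eq_single c] at h2
  · have h3 := (mul_eq_zero.1 h2).resolve_right (hX.simple j c _ hj)
    rw [Finset.prod_eq_zero_iff] at h3
    obtain ⟨i, hi, hi0⟩ := h3
    exact ⟨j, i, (Finset.ne_of_mem_erase hi).symm, hj, hi0⟩
  · intro c' _ hc'
    have h4 : X j c' (w j) ≠ 0 := fun h => hc' (hX.disj j c' c _ h hj)
    have h5 := hP c'
    rw [PP_erase X c' w j] at h5
    rw [(mul_eq_zero.1 h5).resolve_left h4, zero_mul]
  · simp

/-- the auxiliary functions of the residual part -/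
noncomputable def VV (X : J → Fin N → ℂ → ℂ) (j : J) (c : Fin N) (x : ℂ) : ℂ :=
  deriv (X j c) x * ∏ c' ∈ Finset.univ.erase c, X j c' x

lemma VV_analytic {X : J → Fin N → ℂ → ℂ} (hX : Good X) (j : J) (c : Fin N) (x : ℂ) :
    AnalyticAt ℂ (VV X j c) x := by
  unfold VV
  refine AnalyticAt.mul ((hX.diff j c).analyticAt x).deriv ?_
  exact Finset.analyticAt_fun_prod _ fun c' _ => (hX.diff j c').analyticAt x

lemma res_dim {X : J → Fin N → ℂ → ℂ} (hX : Good X) (c₁ : Fin N) :
    dimH {w | FF X w = 0 ∧ fderiv ℂ (FF X) w = 0 ∧ PP X c₁ w ≠ 0} ≤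
      ((2 * (N - 2) : ℕ) : ℝ≥0∞) := by
  set S : Set (J → ℂ) := {w | FF X w = 0 ∧ fderiv ℂ (FF X) w = 0 ∧ PP X c₁ w ≠ 0} with hS
  by_cases hc : ∃ c₂, c₂ ≠ c₁
  swap
  · push Not at hc
    have : S = ∅ := by
      rw [eq_empty_iff_forall_notMem]
      rintro w ⟨h1, -, h3⟩
      apply h3
      unfold FF at h1
      rw [Finset.sum_eq_single c₁] at h1
      · exact h1
      · intro c _ hcc
        exact absurd (hc c) hcc
      · simp
    rw [this, dimH_empty]
    exact bot_le
  obtain ⟨c₂, hc₂⟩ := hc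
  let K : Type := {c : Fin N // c ≠ c₁ ∧ c ≠ c₂}
  have hcard : Fintype.card K = N - 2 := by
    have h1 : Fintype.card K = (Finset.univ.filter fun c : Fin N => c ≠ c₁ ∧ c ≠ c₂).card :=
      Fintype.card_subtype _
    rw [h1]
    have h2 : (Finset.univ.filter fun c : Fin N => c ≠ c₁ ∧ c ≠ c₂) =
        (Finset.univ.erase c₁).erase c₂ := by
      ext c
      simp [and_comm]
    rw [h2, Finset.card_erase_of_mem (Finset.mem_erase.2 ⟨hc₂, Finset.mem_univ _⟩),
      Finset.card_erase_of_mem (Finset.mem_univ _), Finset.card_univ, Fintype.card_fin]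
    omega
  let p : (J → ℂ) → (K → ℂ) := fun w c => PP X c.1 w / PP X c₁ w
  let ex : (K → ℂ) → Fin N → ℂ := fun t c =>
    if h : c = c₁ then 1 else if h' : c = c₂ then -1 - ∑ k, t k else t ⟨c, h, h'⟩
  have hex : ∀ w ∈ S, ∀ c, ex (p w) c = PP X c w / PP X c₁ w := by
    rintro w ⟨h1, -, h3⟩ c
    by_cases h : c = c₁
    · subst h
      simp only [ex, dif_pos]
      exact (div_self h3).symm
    · by_cases h' : c = c₂
      · subst h'
        simp only [ex, dif_neg h, dif_pos]
        have h4 : ∑ c, PP X c w = 0 := h1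
        rw [← Finset.add_sum_erase _ _ (Finset.mem_univ c₁),
          ← Finset.add_sum_erase _ _ (Finset.mem_erase.2 ⟨h, Finset.mem_univ c⟩)] at h4
        have h5 : ∑ k : K, p w k = (∑ x ∈ (Finset.univ.erase c₁).erase c, PP X x w) /
            PP X c₁ w := by
          rw [Finset.sum_div]
          rw [Finset.sum_subtype (p := fun x : Fin N => x ≠ c₁ ∧ x ≠ c) _ _
            (fun x => PP X x w / PP X c₁ w)]
          intro x
          simp [and_comm]
        rw [h5, eq_div_iff h3, sub_mul, div_mul_cancel₀ _ h3]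
        linear_combination -h4
      · simp only [ex, dif_neg h, dif_neg h']
        rfl
  let H : J → (K → ℂ) × ℂ → ℂ := fun j z => ∑ c, ex z.1 c * VV X j c z.2
  have h1 := dimH_le_of_param S p H ?_ ?_ ?_ ?_
  · refine h1.trans ((dimH_le_card _).trans (le_of_eq ?_))
    rw [hcard]
  · intro j z _
    refine Finset.analyticAt_fun_sum _ fun c _ => ?_
    refine AnalyticAt.mul ?_ ((VV_analytic hX j c z.2).comp analyticAt_snd)
    have hpr : ∀ k : K, AnalyticAt ℂ (fun z : (K → ℂ) × ℂ => z.1 k) z := fun k =>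
      ((ContinuousLinearMap.proj (R := ℂ) (φ := fun _ : K => ℂ) k).comp
          (ContinuousLinearMap.fst ℂ (K → ℂ) ℂ)).analyticAt z
    by_cases h : c = c₁
    · simp only [ex, dif_pos h]
      exact analyticAt_const
    · by_cases h' : c = c₂
      · simp only [ex, dif_neg h, dif_pos h']
        exact analyticAt_const.sub (Finset.analyticAt_fun_sum _ fun k _ => hpr k)
      · simp only [ex, dif_neg h, dif_neg h']
        exact hpr _
  · rintro w ⟨-, -, h3⟩
    refine ContinuousAt.continuousWithinAt ?_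
    refine continuousAt_pi.2 fun k => ?_
    have hPc : ∀ c, ContinuousAt (PP X c) w := by
      intro c
      unfold PP
      refine tendsto_finsetProd _ fun j _ => ?_
      exact ((hX.diff j c).continuous.comp (continuous_apply j)).continuousAt
    exact (hPc _).div (hPc _) h3
  · intro w hw j
    have hw' := hw
    obtain ⟨-, h2, h3⟩ := hw'
    simp only [H]
    have h4 := FF_partial hX.diff w h2 j
    have h5 : ∀ c, ex (p w) c * VV X j c (w j) = ((∏ c', X j c' (w j)) / PP X c₁ w) *
        ((∏ i ∈ Finset.univ.erase j, X i c (w i)) * deriv (X j c) (w j)) := by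
      intro c
      rw [hex w hw c, PP_erase X c w j]
      unfold VV
      rw [← Finset.mul_prod_erase _ (fun c' => X j c' (w j)) (Finset.mem_univ c)]
      ring
    rw [Finset.sum_congr rfl fun c _ => h5 c, ← Finset.mul_sum, h4, mul_zero]
  · intro w hw j
    obtain ⟨x, hx⟩ := hX.zero j c₁
    refine ⟨x, ?_⟩
    simp only [H]
    rw [Finset.sum_eq_single c₁]
    · have h6 : ex (p w) c₁ = 1 := by simp [ex]
      rw [h6, one_mul]
      unfold VV
      refine mul_ne_zero (hX.simple j c₁ x hx) ?_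
      rw [Finset.prod_ne_zero_iff]
      intro c' hc' h7
      exact (Finset.ne_of_mem_erase hc') (hX.disj j c' c₁ x h7 hx)
    · intro c _ hcc
      have h8 : VV X j c x = 0 := by
        unfold VV
        rw [Finset.prod_eq_zero (Finset.mem_erase.2 ⟨Ne.symm hcc, Finset.mem_univ _⟩) hx, mul_zero]
      rw [h8, mul_zero]
    · simp

/-- the upper bound -/
theorem sing_dim_le {X : J → Fin N → ℂ → ℂ} (hX : Good X) {k : ℕ}
    (h1 : Fintype.card J ≤ k + 2 * N) (h2 : N ≤ k + 2) :
    dimH {w | FF X w = 0 ∧ fderiv ℂ (FF X) w = 0} ≤ ((2 * k : ℕ) : ℝ≥0∞) := by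
  have hsub : {w | FF X w = 0 ∧ fderiv ℂ (FF X) w = 0} ⊆ S0 X ∪
      ⋃ c₁, {w | FF X w = 0 ∧ fderiv ℂ (FF X) w = 0 ∧ PP X c₁ w ≠ 0} := by
    rintro w ⟨hw1, hw2⟩
    by_cases h : ∀ c, PP X c w = 0
    · exact Or.inl (sing_P_zero hX w hw2 h)
    · push Not at h
      obtain ⟨c, hc⟩ := h
      exact Or.inr (mem_iUnion.2 ⟨c, hw1, hw2, hc⟩)
  refine (dimH_mono hsub).trans ?_
  rw [dimH_union, dimH_iUnion]
  refine max_le ((S0_dim hX).trans ?_) (iSup_le fun c => (res_dim hX c).trans ?_)
  · exact_mod_cast Nat.mul_le_mul_left 2 (by omega)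
  · exact_mod_cast Nat.mul_le_mul_left 2 (by omega)

open Classical in
/-- the lower bound -/
theorem le_sing_dim {X : J → Fin N → ℂ → ℂ} (hX : Good X) {k : ℕ}
    (h1 : Fintype.card J = k + 2 * N) :
    {w | FF X w = 0 ∧ fderiv ℂ (FF X) w = 0}.Nonempty ∧
    ((2 * k : ℕ) : ℝ≥0∞) ≤ dimH {w | FF X w = 0 ∧ fderiv ℂ (FF X) w = 0} := by
  set S : Set (J → ℂ) := {w | FF X w = 0 ∧ fderiv ℂ (FF X) w = 0} with hS
  have hcard : Fintype.card (Fin N × Bool) ≤ Fintype.card J := by
    rw [h1]
    simp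
    omega
  obtain ⟨a⟩ := Function.Embedding.nonempty_of_card_le hcard
  let R : Set J := range a
  have hq : ∀ j : J, j ∈ R → ∃ q, a q = j := fun j hj => hj
  choose β hβ using hX.zero
  -- the extension map
  let ext : ((↥Rᶜ) → ℂ) → (J → ℂ) := fun t j =>
    if h : j ∈ R then β j (hq j h).choose.1 else t ⟨j, h⟩
  have hext0 : ∀ t q, X (a q) q.1 (ext t (a q)) = 0 := by
    intro t q
    have hR : a q ∈ R := mem_range_self q
    have h2 : (hq (a q) hR).choose = q := a.injective (hq (a q) hR).choose_spec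
    simp only [ext, dif_pos hR]
    rw [h2]
    exact hβ _ _
  have hextS : ∀ t, ext t ∈ S := by
    intro t
    have hz : ∀ c j, ∏ i ∈ Finset.univ.erase j, X i c (ext t i) = 0 := by
      intro c j
      by_cases hj : j = a (c, true)
      · refine Finset.prod_eq_zero (Finset.mem_erase.2 ⟨?_, Finset.mem_univ (a (c, false))⟩)
          (hext0 t (c, false))
        rw [hj]
        intro h
        have := a.injective h
        simp at this
      · exact Finset.prod_eq_zero (Finset.mem_erase.2 ⟨Ne.symm hj, Finset.mem_univ (a (c, true))⟩)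
          (hext0 t (c, true))
    constructor
    · unfold FF
      refine Finset.sum_eq_zero fun c _ => ?_
      exact Finset.prod_eq_zero (Finset.mem_univ (a (c, true))) (hext0 t (c, true))
    · rw [(FF_hasFDerivAt hX.diff (ext t)).fderiv]
      refine Finset.sum_eq_zero fun c _ => Finset.sum_eq_zero fun j _ => ?_
      have h5 : ∀ L : (J → ℂ) →L[ℂ] ℂ, (0 : ℂ) • L = 0 := fun L => zero_smul ℂ L
      rw [hz c j]
      exact h5 _
  refine ⟨⟨ext 0, hextS 0⟩, ?_⟩
  let p : (J → ℂ) → ((↥Rᶜ) → ℂ) := fun w j => w j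
  have hp : LipschitzWith 1 p := by
    refine LipschitzWith.of_dist_le_mul fun w w' => ?_
    rw [NNReal.coe_one, one_mul, dist_pi_le_iff dist_nonneg]
    intro j
    exact dist_le_pi_dist w w' j
  have h3 := hp.dimH_image_le S
  have h4 : p '' S = univ := by
    rw [eq_univ_iff_forall]
    intro t
    refine ⟨ext t, hextS t, ?_⟩
    funext j
    have : (j : J) ∉ R := j.2
    simp only [p, ext, dif_neg this]
  rw [h4, Real.dimH_univ_eq_finrank, finrank_fun] at h3
  refine le_trans (le_of_eq ?_) h3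
  congr 2
  rw [Fintype.card_compl_set, h1]
  have : Fintype.card (↥R) = Fintype.card (Fin N × Bool) := by
    rw [← Set.card_range_of_injective a.injective]
  rw [this]
  simp
  omega

end

end Pool.Agent.H70.AM
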