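import Pool.Agent.H70.AM.Res

/-!
All even codimensions.
-/

set_option autoImplicit false

open Set Topology Filter Complex Matrix
open scoped ENNReal NNReal

namespace Pool.Agent.H70.AM

/-- the theta functions of the progressions, with moduli `Q j i` -/
noncomputable def qX {n : ℕ} (N : ℕ) (Q : Fin (n + 1) → ℝ) : Fin (n + 1) → Fin N → ℂ → ℂ :=
  fun j c => Y ((Q j : ℂ) * I) N (((c : ℕ) : ℝ) : ℂ)

lemma qI_im {Q : ℝ} (hQ : 0 < Q) : 0 < ((Q : ℂ) * I).im := by simp [hQ]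

lemma qX_good {n : ℕ} (N : ℕ) (hN : 0 < N) (Q : Fin (n + 1) → ℝ) (hQ : ∀ j, 0 < Q j) :
    Good (qX N Q) where
  diff j _ := Y_differentiable (qI_im (hQ j)) hN _
  simple j _ x h := Y_simple (qI_im (hQ j)) hN _ x h
  disj j c c' x h h' := by
    obtain ⟨b, hb⟩ := Y_disjoint (qI_im (hQ j)) hN _ _ x h h'
    have h1 : ((c : ℕ) : ℤ) - ((c' : ℕ) : ℤ) = N * b := by exact_mod_cast hb
    have hc : ((c : ℕ) : ℤ) < N := by exact_mod_cast c.2
    have hc' : ((c' : ℕ) : ℤ) < N := by exact_mod_cast c'.2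
    have h2 : b = 0 := by
      by_contra hb0
      rcases lt_or_gt_of_ne hb0 with h | h
      · nlinarith
      · nlinarith
    rw [h2, mul_zero, sub_eq_zero] at h1
    exact Fin.ext (by exact_mod_cast h1)
  zero j _ := Y_exists_zero (qI_im (hQ j)) hN _

lemma tendsto_q : Tendsto (fun Q : ℝ => Real.exp (-(Real.pi * Q / 2))) atTop (𝓝 0) := by
  refine Real.tendsto_exp_neg_atTop_nhds_zero.comp ?_
  have h1 : Tendsto (fun Q : ℝ => Q * (Real.pi / 2)) atTop atTop :=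
    tendsto_id.atTop_mul_const (by have := Real.pi_pos; positivity)
  refine h1.congr fun Q => ?_
  ring

theorem exists_empty (n N : ℕ) (hN : 0 < N) : ∃ Q : Fin (n + 1) → ℝ, (∀ j, 0 < Q j) ∧
    ∀ w : Fin (n + 1) → ℂ, FF (qX N Q) w = 0 → fderiv ℂ (FF (qX N Q)) w = 0 →
      ∀ c, PP (qX N Q) c w = 0 := by
  have hpi := Real.pi_pos
  have hκ := kap_pos N
  have hN1 : (1 : ℝ) ≤ N := by exact_mod_cast hN
  -- the condition for all factors
  have hev : ∀ᶠ Q : ℝ in atTop, 0 < Q ∧ 2 ≤ Real.pi * Q ∧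
      kap N * Real.exp (1 - Real.pi * Q / 2) ≤ 1 / 32 := by
    have h1 : Tendsto (fun Q : ℝ => kap N * Real.exp (1 - Real.pi * Q / 2)) atTop (𝓝 0) := by
      have h2 := (tendsto_q.const_mul (kap N * Real.exp 1))
      rw [mul_zero] at h2
      refine h2.congr fun Q => ?_
      rw [mul_assoc, ← Real.exp_add]
      congr 2
    filter_upwards [eventually_gt_atTop 0, eventually_ge_atTop (2 / Real.pi),
      h1.eventually (eventually_le_nhds (by norm_num : (0 : ℝ) < 1 / 32))] with Q a1 a2 a3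
    refine ⟨a1, ?_, a3⟩
    rw [div_le_iff₀ hpi] at a2
    linarith
  obtain ⟨Q₀, hQ₀0, hQ₀2, hQ₀δ⟩ := hev.exists
  obtain ⟨K, hK⟩ : ∃ K : ℝ, K = Real.exp 1 * kap N := ⟨_, rfl⟩
  have hK0 : 0 < K := by rw [hK]; positivity
  obtain ⟨H, hH⟩ : ∃ H : ℝ, H = 8 * ((N : ℝ) + 1) ^ 2 := ⟨_, rfl⟩
  have hH1 : 1 ≤ H := by rw [hH]; nlinarith
  obtain ⟨ε, hε⟩ : ∃ ε : ℝ, ε = Real.exp (-(Real.pi * Q₀ * (N : ℝ) ^ 2)) /
    (2 * N * (N + 1) * H) := ⟨_, rfl⟩
  have hε0 : 0 < ε := by rw [hε]; positivity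
  obtain ⟨A, hA⟩ : ∃ A : ℝ, A = K ^ n + (1 / ε) ^ n := ⟨_, rfl⟩
  have hA0 : 0 < A := by rw [hA]; positivity
  have hev1 : ∀ᶠ Q : ℝ in atTop, 2 * (N + 1) * H *
      (K * A ^ 2 * Real.exp (-(Real.pi * Q / 2))) < 1 := by
    have h2 := (tendsto_q.const_mul (2 * (N + 1) * H * (K * A ^ 2)))
    rw [mul_zero] at h2
    filter_upwards [h2.eventually (eventually_lt_nhds one_pos)] with Q hQ
    calc 2 * (N + 1) * H * (K * A ^ 2 * Real.exp (-(Real.pi * Q / 2))) =
      2 * (N + 1) * H * (K * A ^ 2) * Real.exp (-(Real.pi * Q / 2)) := by ring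
      _ < 1 := hQ
  obtain ⟨Q₁, ⟨hQ₁0, hQ₁2, hQ₁δ⟩, hQ₁q⟩ := (hev.and hev1).exists
  let Q : Fin (n + 1) → ℝ := fun j => if j = 0 then Q₁ else Q₀
  have hQ0 : Q 0 = Q₁ := by simp [Q]
  have hQj : ∀ j, j ≠ 0 → Q j = Q₀ := fun j hj => by simp [Q, hj]
  have hQpos : ∀ j, 0 < Q j := by
    intro j
    by_cases hj : j = 0
    · rw [hj, hQ0]; exact hQ₁0
    · rw [hQj j hj]; exact hQ₀0
  refine ⟨Q, hQpos, fun w h0 h1 => ?_⟩
  have hX := qX_good N hN Q hQpos
  -- the equations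
  have hB1 : ∀ j, ∑ c, qX N Q j c (w j) * ∏ i ∈ Finset.univ.erase j, qX N Q i c (w i) = 0 := by
    intro j
    have : ∑ c, PP (qX N Q) c w = 0 := h0
    rw [← this]
    exact Finset.sum_congr rfl fun c _ => (PP_erase (qX N Q) c w j).symm
  have hB2 : ∀ j, ∑ c, deriv (qX N Q j c) (w j) / (2 * Real.pi * I) *
      ∏ i ∈ Finset.univ.erase j, qX N Q i c (w i) = 0 := by
    intro j
    have h2 := FF_partial hX.diff w h1 j
    have h3 : ∑ c, deriv (qX N Q j c) (w j) / (2 * Real.pi * I) *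
      ∏ i ∈ Finset.univ.erase j, qX N Q i c (w i) = (∑ c, (∏ i ∈ Finset.univ.erase j,
        qX N Q i c (w i)) * deriv (qX N Q j c) (w j)) / (2 * Real.pi * I) := by
      rw [Finset.sum_div]
      exact Finset.sum_congr rfl fun c _ => by ring
    rw [h3, h2, zero_div]
  -- the fixed factors
  have hlow : ∀ j, ∃ E : ℝ, 0 < E ∧ (j ≠ 0 → (∀ c, ‖qX N Q j c (w j)‖ ≤ K * E) ∧
      ∀ l, PP (qX N Q) l w ≠ 0 → (∀ c, ‖PP (qX N Q) c w‖ ≤ H * ‖PP (qX N Q) l w‖) →
        ε * E ≤ ‖qX N Q j l (w j)‖) := by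
    intro j
    by_cases hj : j = 0
    · exact ⟨1, one_pos, fun h => absurd hj h⟩
    · have hL := Y_loc hN hQ₀0 hQ₀2 (by linarith) (w j)
      obtain ⟨E, hE0, hE1, hE2⟩ := loc_lower hN (H := H) hQ₀0 (by linarith) hH1
        (by rw [← hK]; exact hK0.le) hL
      have hXj : ∀ c : Fin N, qX N Q j c = Y ((Q₀ : ℂ) * I) N (((c : ℕ) : ℝ) : ℂ) := by
        intro c
        simp only [qX]
        rw [hQj j hj]
      refine ⟨E, hE0, fun _ => ⟨fun c => ?_, fun l hl hmax => ?_⟩⟩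
      · rw [hXj, hK]
        exact hE1 c
      · have h3 := hE2 (fun c => ∏ i ∈ Finset.univ.erase j, qX N Q i c (w i)) ?_ ?_ l ?_ ?_
        · rw [hXj, hε]
          exact h3
        · rw [← hB1 j]
          exact Finset.sum_congr rfl fun c _ => by rw [hXj]
        · rw [← hB2 j]
          exact Finset.sum_congr rfl fun c _ => by rw [hXj]
        · rw [PP_erase (qX N Q) l w j, hXj] at hl
          exact hl
        · intro c
          have h4 := hmax c
          rw [PP_erase (qX N Q) l w j, PP_erase (qX N Q) c w j, hXj, hXj] at h4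
          exact h4
  choose E hE0 hE using hlow
  obtain ⟨G, hG⟩ : ∃ G : ℝ, G = ∏ j ∈ Finset.univ.erase (0 : Fin (n + 1)), E j := ⟨_, rfl⟩
  have hG0 : 0 < G := by rw [hG]; exact Finset.prod_pos fun j _ => hE0 j
  have hcard : (Finset.univ.erase (0 : Fin (n + 1))).card = n := by
    rw [Finset.card_erase_of_mem (Finset.mem_univ _), Finset.card_univ, Fintype.card_fin]
    rfl
  have hL := Y_loc hN hQ₁0 hQ₁2 (by linarith) (w 0)
  rw [← hK] at hL
  have hX0 : ∀ c : Fin N, qX N Q 0 c = Y ((Q₁ : ℂ) * I) N (((c : ℕ) : ℝ) : ℂ) := by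
    intro c
    simp only [qX]
    rw [hQ0]
  have hmain := loc_zero hN hQ₁0 (by linarith) hH.ge hK0 hA0 hG0 hL hQ₁q
    (fun c => ∏ i ∈ Finset.univ.erase 0, qX N Q i c (w i)) ?_ ?_ ?_ ?_
  · intro c
    rw [PP_erase (qX N Q) c w 0, hX0]
    exact hmain c
  · rw [← hB1 0]
    exact Finset.sum_congr rfl fun c _ => by rw [hX0]
  · rw [← hB2 0]
    exact Finset.sum_congr rfl fun c _ => by rw [hX0]
  · intro c
    rw [norm_prod]
    calc ∏ i ∈ Finset.univ.erase 0, ‖qX N Q i c (w i)‖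
        ≤ ∏ i ∈ Finset.univ.erase (0 : Fin (n + 1)), (K * E i) :=
          Finset.prod_le_prod (fun i _ => norm_nonneg _)
            fun i hi => (hE i (Finset.ne_of_mem_erase hi)).1 c
      _ = K ^ n * G := by
          rw [Finset.prod_mul_distrib, Finset.prod_const, hcard, hG]
      _ ≤ A * G := by
          gcongr
          rw [hA]
          have : 0 < (1 / ε) ^ n := by positivity
          linarith
  · intro c hc hmax
    have h3 : ε ^ n * G ≤ ‖∏ i ∈ Finset.univ.erase 0, qX N Q i c (w i)‖ := by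
      rw [norm_prod]
      calc ε ^ n * G = ∏ i ∈ Finset.univ.erase (0 : Fin (n + 1)), (ε * E i) := by
            rw [Finset.prod_mul_distrib, Finset.prod_const, hcard, hG]
        _ ≤ _ := Finset.prod_le_prod (fun i _ => by have := hE0 i; positivity) fun i hi => by
            refine (hE i (Finset.ne_of_mem_erase hi)).2 c ?_ ?_
            · rw [PP_erase (qX N Q) c w 0, hX0]
              exact hc
            · intro c'
              rw [PP_erase (qX N Q) c w 0, PP_erase (qX N Q) c' w 0, hX0, hX0]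
              exact hmax c'
    have h4 : (1 / ε) ^ n * (ε ^ n * G) = G := by
      rw [← mul_assoc, ← mul_pow, one_div_mul_cancel hε0.ne', one_pow, one_mul]
    calc G = (1 / ε) ^ n * (ε ^ n * G) := h4.symm
      _ ≤ (1 / ε) ^ n * ‖∏ i ∈ Finset.univ.erase 0, qX N Q i c (w i)‖ := by gcongr
      _ ≤ A * ‖∏ i ∈ Finset.univ.erase 0, qX N Q i c (w i)‖ := by
          gcongr
          rw [hA]
          have : 0 < K ^ n := by positivity
          linarith

/-- the period matrix -/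
noncomputable def qT (n N : ℕ) (Q : Fin (n + 1) → ℝ) : Matrix (Fin (n + 1)) (Fin (n + 1)) ℂ :=
  pm (evA n N) (fun j => (Q j : ℂ) * I)

theorem qT_riem (n N : ℕ) (hN : 0 < N) (Q : Fin (n + 1) → ℝ) (hQ : ∀ j, 0 < Q j)
    (w : Fin (n + 1) → ℂ) :
    riem (qT n N Q) ((cx (evA n N))ᵀ *ᵥ w) = FF (qX N Q) w := by
  unfold qT
  rw [riem_eq (evA n N) (fun j => (Q j : ℂ) * I) (fun j => qI_im (hQ j)) (evE n N hN)
    (fun _ => N) (fun _ => hN) (fun _ c => ((c : ℕ) : ℝ))]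
  · rfl
  · intro c m j
    rw [evA_cx]
    by_cases hj : j = 0
    · subst hj
      simp [evE]
    · simp [evE, hj]
      ring

theorem even_all (k N : ℕ) (hN : 0 < N) :
    ∃ τ : Matrix (Fin (k + 2 * N)) (Fin (k + 2 * N)) ℂ, τᵀ = τ ∧ (τ.map Complex.im).PosDef ∧
      (Sg (riem τ)).Nonempty ∧ dimH (Sg (riem τ)) = ((2 * k : ℕ) : ℝ≥0∞) := by
  obtain ⟨n, hn⟩ : ∃ n, k + 2 * N = n + 1 := ⟨k + 2 * N - 1, by omega⟩
  rw [hn]
  obtain ⟨Q, hQ, hres⟩ := exists_empty n N hN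
  have hX := qX_good N hN Q hQ
  have hinj := evA_inj n N hN
  obtain ⟨h1, h2⟩ := Sg_transfer ((cx (evA n N))ᵀ) (cx_det_isUnit _ hinj) (riem (qT n N Q))
    (FF (qX N Q)) (qT_riem n N hN Q hQ) (FF_differentiable hX.diff)
  have hcard : Fintype.card (Fin (n + 1)) = k + 2 * N := by rw [Fintype.card_fin, hn]
  obtain ⟨h3, h4⟩ := le_sing_dim hX hcard
  have h5 : dimH {w | FF (qX N Q) w = 0 ∧ fderiv ℂ (FF (qX N Q)) w = 0} ≤
      ((2 * k : ℕ) : ℝ≥0∞) := by
    have hsub : {w | FF (qX N Q) w = 0 ∧ fderiv ℂ (FF (qX N Q)) w = 0} ⊆ S0 (qX N Q) := by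
      rintro w ⟨hw1, hw2⟩
      exact sing_P_zero hX w hw2 (hres w hw1 hw2)
    refine (dimH_mono hsub).trans ((S0_dim hX).trans ?_)
    exact_mod_cast Nat.mul_le_mul_left 2 (by omega)
  refine ⟨qT n N Q, pm_symm _ _, pm_posDef _ hinj _ (fun j => qI_im (hQ j)), h2.2 h3, ?_⟩
  rw [h1]
  exact le_antisymm h5 h4

end Pool.Agent.H70.AM
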