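import Pool.Agent.H70.AM.Theta2

/-!
Riemann theta functions of period matrices of products of elliptic curves up to isogeny.
-/

set_option autoImplicit false

open Set Topology Filter Complex Matrix

namespace Pool.Agent.H70.AM

theorem tsum_pi_prod (g : ℕ) : ∀ (ψ : Fin g → ℤ → ℂ), (∀ j, Summable fun m => ‖ψ j m‖) →
    (Summable fun m : Fin g → ℤ => ‖∏ j, ψ j (m j)‖) ∧
      ∑' m : Fin g → ℤ, ∏ j, ψ j (m j) = ∏ j, ∑' m, ψ j m := by
  induction g with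
  | zero =>
    intro ψ _
    constructor
    · exact Summable.of_finite
    · simp
  | succ n ih =>
    intro ψ h
    obtain ⟨h1, h2⟩ := ih (fun j => ψ j.succ) (fun j => h j.succ)
    have h3 := (h 0).mul_norm h1
    have h4 := tsum_mul_tsum_of_summable_norm (h 0) h1
    let e : (ℤ × (Fin n → ℤ)) ≃ (Fin (n + 1) → ℤ) := Fin.consEquiv (fun _ => ℤ)
    have h5 : ∀ x : ℤ × (Fin n → ℤ), ∏ j, ψ j (e x j) = ψ 0 x.1 * ∏ j : Fin n, ψ j.succ (x.2 j) := by
      intro x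
      rw [Fin.prod_univ_succ]
      rfl
    constructor
    · rw [← e.summable_iff]
      refine h3.congr fun x => ?_
      rw [Function.comp_apply, h5]
    · rw [← e.tsum_eq, Fin.prod_univ_succ, ← h2, h4]
      exact tsum_congr h5

/-- the Riemann theta function, as in the frozen statement -/
noncomputable def riem {g : ℕ} (τ : Matrix (Fin g) (Fin g) ℂ) (z : Fin g → ℂ) : ℂ :=
  ∑' n : Fin g → ℤ,
    Complex.exp ((Real.pi : ℂ) * Complex.I *
        ((fun i => (n i : ℂ)) ⬝ᵥ (τ *ᵥ (fun i => (n i : ℂ)))) +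
      2 * (Real.pi : ℂ) * Complex.I * ((fun i => (n i : ℂ)) ⬝ᵥ z))

/-- complexification of a real matrix -/
noncomputable def cx {g : ℕ} (A : Matrix (Fin g) (Fin g) ℝ) : Matrix (Fin g) (Fin g) ℂ :=
  A.map (fun x => (x : ℂ))

/-- the period matrix `Aᵀ D A` -/
noncomputable def pm {g : ℕ} (A : Matrix (Fin g) (Fin g) ℝ) (D : Fin g → ℂ) :
    Matrix (Fin g) (Fin g) ℂ :=
  (cx A)ᵀ * (diagonal D * cx A)

lemma pm_symm {g : ℕ} (A : Matrix (Fin g) (Fin g) ℝ) (D : Fin g → ℂ) :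
    (pm A D)ᵀ = pm A D := by
  unfold pm
  rw [transpose_mul, transpose_mul, transpose_transpose, diagonal_transpose, Matrix.mul_assoc]

lemma pm_im {g : ℕ} (A : Matrix (Fin g) (Fin g) ℝ) (D : Fin g → ℂ) :
    (pm A D).map Complex.im = Aᴴ * diagonal (fun j => (D j).im) * A := by
  ext a b
  simp only [pm, cx, map_apply, Matrix.mul_apply, transpose_apply, conjTranspose_apply,
    Complex.im_sum, diagonal_apply, star_trivial]
  refine Finset.sum_congr rfl fun i _ => ?_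
  have h1 : ∑ x, (if i = x then D i else 0) * (A x b : ℂ) = D i * (A i b : ℂ) := by
    rw [Finset.sum_eq_single i]
    · simp
    · intro x _ hx
      simp [Ne.symm hx]
    · simp
  have h2 : ∑ x, A x a * (if x = i then (D x).im else 0) = A i a * (D i).im := by
    rw [Finset.sum_eq_single i]
    · simp
    · intro x _ hx
      simp [hx]
    · simp
  rw [h1, h2, Complex.im_ofReal_mul, Complex.im_mul_ofReal]
  ring

lemma pm_posDef {g : ℕ} (A : Matrix (Fin g) (Fin g) ℝ) (hA : Function.Injective A.mulVec)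
    (D : Fin g → ℂ) (hD : ∀ j, 0 < (D j).im) : ((pm A D).map Complex.im).PosDef := by
  rw [pm_im]
  exact (PosDef.diagonal hD).conjTranspose_mul_mul_same hA

lemma term_eq {g : ℕ} (A : Matrix (Fin g) (Fin g) ℝ) (D : Fin g → ℂ) (n : Fin g → ℂ)
    (w : Fin g → ℂ) :
    Complex.exp ((Real.pi : ℂ) * Complex.I * (n ⬝ᵥ (pm A D *ᵥ n)) +
      2 * (Real.pi : ℂ) * Complex.I * (n ⬝ᵥ ((cx A)ᵀ *ᵥ w))) =
      ∏ j, et (D j) ((cx A *ᵥ n) j) (w j) := by
  unfold et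
  rw [← Complex.exp_sum]
  congr 1
  have h1 : n ⬝ᵥ (pm A D *ᵥ n) = ∑ j, (cx A *ᵥ n) j * (D j * (cx A *ᵥ n) j) := by
    unfold pm
    rw [← mulVec_mulVec, ← mulVec_mulVec, mulVec_transpose, dotProduct_comm, ← dotProduct_mulVec,
      dotProduct_comm, dotProduct]
    refine Finset.sum_congr rfl fun j _ => ?_
    rw [mulVec_diagonal]
  have h2 : n ⬝ᵥ ((cx A)ᵀ *ᵥ w) = ∑ j, (cx A *ᵥ n) j * w j := by
    rw [mulVec_transpose, dotProduct_comm, ← dotProduct_mulVec, dotProduct_comm, dotProduct]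
  rw [h1, h2, Finset.mul_sum, Finset.mul_sum, ← Finset.sum_add_distrib]
  refine Finset.sum_congr rfl fun j _ => ?_
  ring

/-- The factorization of the theta function. -/
theorem riem_eq {g : ℕ} (A : Matrix (Fin g) (Fin g) ℝ) (D : Fin g → ℂ) (hD : ∀ j, 0 < (D j).im)
    {κ : Type*} [Fintype κ] (e : (κ × (Fin g → ℤ)) ≃ (Fin g → ℤ)) (M : Fin g → ℕ)
    (hM : ∀ j, 0 < M j) (s : Fin g → κ → ℝ)
    (hA : ∀ c m j, (cx A *ᵥ (fun i => ((e (c, m) i : ℤ) : ℂ))) j = (M j : ℂ) * (m j : ℂ) + (s j c : ℂ))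
    (w : Fin g → ℂ) :
    riem (pm A D) ((cx A)ᵀ *ᵥ w) = ∑ c, ∏ j, Y (D j) (M j) (s j c) (w j) := by
  unfold riem
  have h0 : ∀ n : Fin g → ℤ, Complex.exp ((Real.pi : ℂ) * Complex.I *
        ((fun i => (n i : ℂ)) ⬝ᵥ (pm A D *ᵥ (fun i => (n i : ℂ)))) +
      2 * (Real.pi : ℂ) * Complex.I * ((fun i => (n i : ℂ)) ⬝ᵥ ((cx A)ᵀ *ᵥ w))) =
      ∏ j, et (D j) ((cx A *ᵥ (fun i => (n i : ℂ))) j) (w j) :=
    fun n => term_eq A D (fun i => (n i : ℂ)) w
  rw [tsum_congr h0]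
  rw [← e.tsum_eq]
  have h1 : ∀ x : κ × (Fin g → ℤ),
      ∏ j, et (D j) ((cx A *ᵥ (fun i => ((e x i : ℤ) : ℂ))) j) (w j) =
      ∏ j, et (D j) ((M j : ℂ) * (x.2 j : ℂ) + (s j x.1 : ℂ)) (w j) := by
    rintro ⟨c, m⟩
    refine Finset.prod_congr rfl fun j _ => ?_
    rw [hA c m j]
  rw [tsum_congr h1]
  have h2 : ∀ c : κ, (Summable fun m : Fin g → ℤ =>
        ‖∏ j, et (D j) ((M j : ℂ) * (m j : ℂ) + (s j c : ℂ)) (w j)‖) ∧
      ∑' m : Fin g → ℤ, ∏ j, et (D j) ((M j : ℂ) * (m j : ℂ) + (s j c : ℂ)) (w j) =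
        ∏ j, ∑' m : ℤ, et (D j) ((M j : ℂ) * (m : ℂ) + (s j c : ℂ)) (w j) := by
    intro c
    exact tsum_pi_prod g (fun j m => et (D j) ((M j : ℂ) * (m : ℂ) + (s j c : ℂ)) (w j))
      (fun j => summable_et (hD j) (hM j) (s j c) (w j))
  have h3 : Summable fun x : κ × (Fin g → ℤ) =>
      ∏ j, et (D j) ((M j : ℂ) * (x.2 j : ℂ) + (s j x.1 : ℂ)) (w j) := by
    apply Summable.of_norm
    rw [summable_prod_of_nonneg (fun _ => norm_nonneg _)]
    exact ⟨fun c => (h2 c).1, Summable.of_finite⟩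
  rw [h3.tsum_prod, tsum_fintype]
  refine Finset.sum_congr rfl fun c _ => ?_
  rw [(h2 c).2]
  rfl

/-- the singular set of the zero locus of `θ` -/
def Sg {g : ℕ} (θ : (Fin g → ℂ) → ℂ) : Set (Fin g → ℂ) := {z | θ z = 0 ∧ fderiv ℂ θ z = 0}

theorem Sg_transfer {g : ℕ} (B : Matrix (Fin g) (Fin g) ℂ) (hB : IsUnit B.det)
    (θ F : (Fin g → ℂ) → ℂ) (h : ∀ w, θ (B *ᵥ w) = F w) (hF : Differentiable ℂ F) :
    dimH (Sg θ) = dimH (Sg F) ∧ ((Sg θ).Nonempty ↔ (Sg F).Nonempty) := by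
  have hI : Invertible B := Matrix.invertibleOfIsUnitDet B hB
  let e₀ : (Fin g → ℂ) ≃ₗ[ℂ] (Fin g → ℂ) := B.toLinearEquiv' hI
  let e : (Fin g → ℂ) ≃L[ℂ] (Fin g → ℂ) := e₀.toContinuousLinearEquiv
  have he : ∀ w, e w = B *ᵥ w := fun w => rfl
  have hθ : θ = F ∘ e.symm := by
    funext z
    have := h (e.symm z)
    rw [← he, e.apply_symm_apply] at this
    rw [this]
    rfl
  have hSg : Sg θ = e '' Sg F := by
    ext z
    have hfd : fderiv ℂ θ z = (fderiv ℂ F (e.symm z)).comp (e.symm : (Fin g → ℂ) →L[ℂ] (Fin g → ℂ)) := by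
      rw [hθ]
      rw [fderiv_comp z (hF _) e.symm.differentiableAt, ContinuousLinearEquiv.fderiv]
    have hfd0 : fderiv ℂ θ z = 0 ↔ fderiv ℂ F (e.symm z) = 0 := by
      rw [hfd]
      constructor
      · intro h0
        ext v
        have := congrArg (fun L => L (e v)) h0
        simpa using this
      · intro h0
        rw [h0, ContinuousLinearMap.zero_comp]
    constructor
    · rintro ⟨h1, h2⟩
      refine ⟨e.symm z, ⟨?_, hfd0.1 h2⟩, e.apply_symm_apply z⟩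
      rw [hθ] at h1
      exact h1
    · rintro ⟨w, ⟨h1, h2⟩, rfl⟩
      refine ⟨?_, ?_⟩
      · rw [he, h, h1]
      · rw [hfd0, e.symm_apply_apply]
        exact h2
  rw [hSg]
  exact ⟨e.dimH_image _, image_nonempty⟩

end Pool.Agent.H70.AM
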