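import Pool.Agent.H70.AM.Even
import Pool.Agent.H70.AM.RT

/-!
The period matrices of even codimension.
-/

set_option autoImplicit false

open Set Topology Filter Complex Matrix
open scoped ENNReal NNReal

namespace Pool.Agent.H70.AM

/-- the lattice matrix -/
noncomputable def evA (n N : ℕ) : Matrix (Fin (n + 1)) (Fin (n + 1)) ℝ := fun j i =>
  if j = 0 then (if i = 0 then 1 else 0) else (if i = 0 then 1 else if i = j then (N : ℝ) else 0)

lemma evA_mulVec {R : Type*} [CommRing R] (n : ℕ) (a : R) (v : Fin (n + 1) → R) (j : Fin (n + 1)) :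
    ((fun j i => if j = 0 then (if i = 0 then 1 else 0) else
      (if i = 0 then 1 else if i = j then a else 0) : Matrix (Fin (n + 1)) (Fin (n + 1)) R) *ᵥ v) j =
      if j = 0 then v 0 else v 0 + a * v j := by
  simp only [mulVec, dotProduct]
  rw [Fin.sum_univ_succ]
  by_cases hj : j = 0
  · simp [hj]
  · simp only [hj, if_false, if_true, one_mul, Fin.succ_ne_zero]
    congr 1
    obtain ⟨j', rfl⟩ := Fin.exists_succ_eq.2 hj
    rw [Finset.sum_eq_single j']
    · simp
    · intro i _ hi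
      simp [hi]
    · simp

lemma evA_cx (n N : ℕ) (v : Fin (n + 1) → ℂ) (j : Fin (n + 1)) :
    (cx (evA n N) *ᵥ v) j = if j = 0 then v 0 else v 0 + N * v j := by
  rw [← evA_mulVec n (N : ℂ) v j]
  congr 2
  ext j i
  simp only [cx, evA, map_apply]
  split_ifs <;> simp

lemma evA_inj (n N : ℕ) (hN : 0 < N) : Function.Injective (evA n N).mulVec := by
  have h0 : ∀ v : Fin (n + 1) → ℝ, evA n N *ᵥ v = 0 → v = 0 := by
    intro v hv
    have h1 : ∀ j, (if j = 0 then v 0 else v 0 + N * v j) = 0 := by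
      intro j
      rw [← evA_mulVec n (N : ℝ) v j]
      exact congrFun hv j
    have h2 : v 0 = 0 := by simpa using h1 0
    funext j
    by_cases hj : j = 0
    · rw [hj, h2]; rfl
    · have := h1 j
      rw [if_neg hj, h2, zero_add] at this
      have hN' : (N : ℝ) ≠ 0 := by exact_mod_cast hN.ne'
      exact (mul_eq_zero.1 this).resolve_left hN'
  intro v w hvw
  have : evA n N *ᵥ (v - w) = 0 := by
    rw [mulVec_sub, sub_eq_zero]
    exact hvw
  exact sub_eq_zero.1 (h0 _ this)

lemma cx_det_isUnit {g : ℕ} (A : Matrix (Fin g) (Fin g) ℝ) (hA : Function.Injective A.mulVec) :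
    IsUnit ((cx A)ᵀ).det := by
  rw [mulVec_injective_iff_isUnit, isUnit_iff_isUnit_det] at hA
  rw [det_transpose]
  have : (cx A).det = ((A.det : ℝ) : ℂ) := by
    have := (RingHom.map_det Complex.ofRealHom A).symm
    exact this
  rw [this]
  exact hA.map Complex.ofRealHom

/-- the reindexing -/
def evE (n N : ℕ) (hN : 0 < N) :
    (Fin N × (Fin (n + 1) → ℤ)) ≃ (Fin (n + 1) → ℤ) where
  toFun x := fun j => if j = 0 then (N : ℤ) * x.2 0 + (x.1 : ℕ) else x.2 j - x.2 0
  invFun v := (⟨(v 0 % N).toNat, by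
    have h1 : (0 : ℤ) < N := by exact_mod_cast hN
    have h2 := Int.emod_nonneg (v 0) h1.ne'
    have h3 := Int.emod_lt_of_pos (v 0) h1
    omega⟩, fun j => if j = 0 then v 0 / N else v j + v 0 / N)
  left_inv := by
    rintro ⟨c, m⟩
    have h1 : (0 : ℤ) < N := by exact_mod_cast hN
    have hc : ((c : ℕ) : ℤ) < N := by exact_mod_cast c.2
    have h2 : ((N : ℤ) * m 0 + (c : ℕ)) % N = (c : ℕ) := by
      rw [Int.add_comm, Int.add_mul_emod_self_left]
      exact Int.emod_eq_of_lt (by positivity) hc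
    have h3 : ((N : ℤ) * m 0 + (c : ℕ)) / N = m 0 := by
      rw [Int.add_comm, Int.add_mul_ediv_left _ _ h1.ne', Int.ediv_eq_zero_of_lt (by positivity) hc,
        zero_add]
    ext j
    · simp [h2]
    · by_cases hj : j = 0
      · simp [hj, h3]
      · simp [hj, h3]
  right_inv := by
    intro v
    have h1 : (0 : ℤ) < N := by exact_mod_cast hN
    have h2 := Int.emod_nonneg (v 0) h1.ne'
    have h4 : (((v 0 % N).toNat : ℕ) : ℤ) = v 0 % N := Int.toNat_of_nonneg h2
    funext j
    by_cases hj : j = 0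
    · subst hj
      simp only [if_true, h4]
      exact Int.mul_ediv_add_emod (v 0) N
    · simp [hj]

/-- the functions -/
noncomputable def evX (n N : ℕ) : Fin (n + 1) → Fin N → ℂ → ℂ := fun _ c => Y I N (((c : ℕ) : ℝ) : ℂ)

lemma evX_good (n N : ℕ) (hN : 0 < N) : Good (evX n N) where
  diff _ _ := Y_differentiable (by simp) hN _
  simple _ _ x h := Y_simple (by simp) hN _ x h
  disj _ c c' x h h' := by
    obtain ⟨b, hb⟩ := Y_disjoint (τ := I) (by simp) hN _ _ x h h'
    have h1 : ((c : ℕ) : ℤ) - ((c' : ℕ) : ℤ) = N * b := by exact_mod_cast hb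
    have hc : ((c : ℕ) : ℤ) < N := by exact_mod_cast c.2
    have hc' : ((c' : ℕ) : ℤ) < N := by exact_mod_cast c'.2
    have h2 : b = 0 := by
      by_contra hb0
      rcases lt_or_gt_of_ne hb0 with h | h
      · nlinarith
      · nlinarith
    rw [h2, mul_zero, sub_eq_zero] at h1
    exact Fin.ext (by exact_mod_cast h1)
  zero _ _ := Y_exists_zero (by simp) hN _

/-- the period matrix -/
noncomputable def evT (n N : ℕ) : Matrix (Fin (n + 1)) (Fin (n + 1)) ℂ := pm (evA n N) (fun _ => I)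

theorem evT_riem (n N : ℕ) (hN : 0 < N) (w : Fin (n + 1) → ℂ) :
    riem (evT n N) ((cx (evA n N))ᵀ *ᵥ w) = FF (evX n N) w := by
  unfold evT
  rw [riem_eq (evA n N) (fun _ => I) (fun _ => by simp) (evE n N hN) (fun _ => N) (fun _ => hN)
    (fun _ c => ((c : ℕ) : ℝ))]
  · rfl
  · intro c m j
    rw [evA_cx]
    by_cases hj : j = 0
    · subst hj
      simp [evE]
    · simp [evE, hj]
      ring

theorem even_main (k N : ℕ) (hN : 0 < N) (hk : N ≤ k + 2) :
    ∃ τ : Matrix (Fin (k + 2 * N)) (Fin (k + 2 * N)) ℂ, τᵀ = τ ∧ (τ.map Complex.im).PosDef ∧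
      (Sg (riem τ)).Nonempty ∧ dimH (Sg (riem τ)) = ((2 * k : ℕ) : ℝ≥0∞) := by
  obtain ⟨n, hn⟩ : ∃ n, k + 2 * N = n + 1 := ⟨k + 2 * N - 1, by omega⟩
  rw [hn]
  have hX := evX_good n N hN
  have hinj := evA_inj n N hN
  obtain ⟨h1, h2⟩ := Sg_transfer ((cx (evA n N))ᵀ) (cx_det_isUnit _ hinj) (riem (evT n N))
    (FF (evX n N)) (evT_riem n N hN) (FF_differentiable hX.diff)
  have hcard : Fintype.card (Fin (n + 1)) = k + 2 * N := by rw [Fintype.card_fin, hn]
  obtain ⟨h3, h4⟩ := le_sing_dim hX hcard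
  have h5 := sing_dim_le hX hcard.le hk
  refine ⟨evT n N, pm_symm _ _, pm_posDef _ hinj _ (fun _ => by simp), h2.2 h3, ?_⟩
  rw [h1]
  exact le_antisymm h5 h4

end Pool.Agent.H70.AM
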