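import Mathlib

/-!
Hausdorff dimension of sets cut out, over a parameter, by one analytic equation per coordinate.
-/

set_option autoImplicit false

open Set Topology Filter
open scoped ENNReal NNReal

namespace Pool.Agent.H70.AM

/-- If `p` is antilipschitz near each point of `s` then `dimH s ≤ dimH (p '' s)`. -/
theorem dimH_le_image_of_locally {X Y : Type*} [EMetricSpace X] [EMetricSpace Y]
    [SecondCountableTopology X] (s : Set X) (p : X → Y)
    (h : ∀ x ∈ s, ∃ K : ℝ≥0, ∃ t ∈ 𝓝[s] x, ∀ a ∈ t, ∀ b ∈ t,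
      edist a b ≤ K * edist (p a) (p b)) :
    dimH s ≤ dimH (p '' s) := by
  by_contra hlt
  push Not at hlt
  obtain ⟨x, hx, hx'⟩ := exists_mem_nhdsWithin_lt_dimH_of_lt_dimH hlt
  obtain ⟨K, t, ht, hK⟩ := h x hx
  have ht' : t ∩ s ∈ 𝓝[s] x := inter_mem ht self_mem_nhdsWithin
  have h1 := hx' _ ht'
  have h2 : dimH (t ∩ s) ≤ dimH (p '' (t ∩ s)) := by
    let f : (↥(t ∩ s)) → Y := fun a => p a
    have hf : AntilipschitzWith K f := fun a b => hK _ a.2.1 _ b.2.1
    have h3 := hf.le_dimH_image univ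
    have h4 : dimH (t ∩ s) = dimH (univ : Set ↥(t ∩ s)) := by
      have := (isometry_subtype_coe (s := t ∩ s)).dimH_image univ
      rw [← this, image_univ, Subtype.range_coe]
    have h5 : f '' univ = p '' (t ∩ s) := by
      ext y
      constructor
      · rintro ⟨a, -, rfl⟩
        exact ⟨a, a.2, rfl⟩
      · rintro ⟨a, ha, rfl⟩
        exact ⟨⟨a, ha⟩, trivial, rfl⟩
    rw [h4, ← h5]
    exact h3
  have h3 : dimH (p '' (t ∩ s)) ≤ dimH (p '' s) := dimH_mono (image_mono inter_subset_right)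
  exact absurd (h1.trans_le (h2.trans h3)) (lt_irrefl _)

section dx

variable {E : Type*} [NormedAddCommGroup E] [NormedSpace ℂ E]

/-- the derivative in the last variable -/
noncomputable def dx (H : E × ℂ → ℂ) : E × ℂ → ℂ := fun q => fderiv ℂ H q (0, 1)

lemma dx_analytic {H : E × ℂ → ℂ} (hH : AnalyticOnNhd ℂ H univ) :
    AnalyticOnNhd ℂ (dx H) univ := by
  intro q hq
  have h1 := (hH q hq).fderiv
  exact ((ContinuousLinearMap.apply ℂ ℂ ((0 : E), (1 : ℂ))).analyticAt _).comp h1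

lemma hasDerivAt_dx {H : E × ℂ → ℂ} (hH : AnalyticOnNhd ℂ H univ) (t : E) (x : ℂ) :
    HasDerivAt (fun y => H (t, y)) (dx H (t, x)) x := by
  have h1 : HasFDerivAt H (fderiv ℂ H (t, x)) (t, x) :=
    (hH (t, x) (mem_univ _)).differentiableAt.hasFDerivAt
  have h2 : HasDerivAt (fun y : ℂ => (t, y)) ((0 : E), (1 : ℂ)) x :=
    (hasDerivAt_const x t).prodMk (hasDerivAt_id x)
  exact h1.comp_hasDerivAt x h2

/-- the iterated derivative in the last variable -/
noncomputable def dxn (H : E × ℂ → ℂ) (m : ℕ) : E × ℂ → ℂ := dx^[m] H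

lemma dxn_zero (H : E × ℂ → ℂ) : dxn H 0 = H := rfl

lemma dxn_succ (H : E × ℂ → ℂ) (m : ℕ) : dxn H (m + 1) = dx (dxn H m) := by
  unfold dxn
  rw [Function.iterate_succ_apply']

lemma dxn_analytic {H : E × ℂ → ℂ} (hH : AnalyticOnNhd ℂ H univ) (m : ℕ) :
    AnalyticOnNhd ℂ (dxn H m) univ := by
  induction m with
  | zero => exact hH
  | succ m ih => rw [dxn_succ]; exact dx_analytic ih

lemma iteratedDeriv_eq_dxn {H : E × ℂ → ℂ} (hH : AnalyticOnNhd ℂ H univ) (t : E) (m : ℕ) :
    iteratedDeriv m (fun y => H (t, y)) = fun y => dxn H m (t, y) := by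
  induction m with
  | zero => rw [iteratedDeriv_zero, dxn_zero]
  | succ m ih =>
    rw [iteratedDeriv_succ, ih]
    funext y
    rw [dxn_succ]
    exact (hasDerivAt_dx (dxn_analytic hH m) t y).deriv

lemma exists_dxn_ne {H : E × ℂ → ℂ} (hH : AnalyticOnNhd ℂ H univ) (t : E) (x : ℂ)
    (hne : ∃ y, H (t, y) ≠ 0) : ∃ m, dxn H m (t, x) ≠ 0 := by
  by_contra hcon
  push Not at hcon
  obtain ⟨y, hy⟩ := hne
  have hd : Differentiable ℂ (fun y => H (t, y)) :=
    fun y => (hasDerivAt_dx hH t y).differentiableAt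
  have h1 := Complex.taylorSeries_eq_of_entire hd x y
  apply hy
  rw [← h1]
  convert tsum_zero with n
  rw [iteratedDeriv_eq_dxn hH t n]
  simp [hcon n]

/-- the minimal order of vanishing, in the form used below -/
lemma exists_simple {H : E × ℂ → ℂ} (hH : AnalyticOnNhd ℂ H univ) (t : E) (x : ℂ)
    (h0 : H (t, x) = 0) (hne : ∃ y, H (t, y) ≠ 0) :
    ∃ m, dxn H m (t, x) = 0 ∧ dx (dxn H m) (t, x) ≠ 0 := by
  classical
  have h1 := exists_dxn_ne hH t x hne
  have h2 := Nat.find_spec h1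
  have h3 : Nat.find h1 ≠ 0 := by
    intro h
    rw [h] at h2
    exact h2 h0
  obtain ⟨m, hm⟩ := Nat.exists_eq_succ_of_ne_zero h3
  refine ⟨m, ?_, ?_⟩
  · have := Nat.find_min h1 (m := m) (by omega)
    push Not at this
    exact this
  · rw [← dxn_succ]
    rw [hm] at h2
    exact h2

/-- The main dimension estimate: if the coordinates `w j` of the points of `s` are zeros of
analytic functions `H j (p w, ·)` that are not identically zero, then
`dimH s ≤ dimH (p '' s)`. -/
theorem dimH_le_of_param {J : Type*} [Fintype J] (s : Set (J → ℂ)) (p : (J → ℂ) → E)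
    (H : J → E × ℂ → ℂ) (hH : ∀ j, AnalyticOnNhd ℂ (H j) univ)
    (hp : ∀ w ∈ s, ContinuousWithinAt p s w)
    (h0 : ∀ w ∈ s, ∀ j, H j (p w, w j) = 0)
    (hne : ∀ w ∈ s, ∀ j, ∃ x, H j (p w, x) ≠ 0) :
    dimH s ≤ dimH (p '' s) := by
  classical
  let S : (J → ℕ) → Set (J → ℂ) := fun m =>
    {w | w ∈ s ∧ ∀ j, dxn (H j) (m j) (p w, w j) = 0 ∧ dx (dxn (H j) (m j)) (p w, w j) ≠ 0}
  have hS : s = ⋃ m, S m := by
    ext w
    constructor
    · intro hw
      choose m hm using fun j => exists_simple (hH j) (p w) (w j) (h0 w hw j) (hne w hw j)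
      exact mem_iUnion.2 ⟨m, hw, hm⟩
    · intro hw
      obtain ⟨m, hm⟩ := mem_iUnion.1 hw
      exact hm.1
  have hSs : ∀ m, S m ⊆ s := fun m w hw => hw.1
  have key : ∀ m, dimH (S m) ≤ dimH (p '' (S m)) := by
    intro m
    apply dimH_le_image_of_locally
    intro w₀ hw₀
    -- local estimate for each coordinate
    have hloc : ∀ j, ∃ K : ℝ, 0 ≤ K ∧ ∃ U ∈ 𝓝 (p w₀, w₀ j), ∀ w ∈ S m, ∀ w' ∈ S m,
        (p w, w j) ∈ U → (p w', w' j) ∈ U → ‖w j - w' j‖ ≤ K * ‖p w - p w'‖ := by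
      intro j
      obtain ⟨hz, ha⟩ := hw₀.2 j
      set Kj := dxn (H j) (m j) with hKj
      set a := dx Kj (p w₀, w₀ j) with ha'
      have han : AnalyticAt ℂ Kj (p w₀, w₀ j) := dxn_analytic (hH j) (m j) _ (mem_univ _)
      have hst := han.hasStrictFDerivAt
      set L := fderiv ℂ Kj (p w₀, w₀ j) with hL
      have hapos : 0 < ‖a‖ := norm_pos_iff.2 ha
      set c : ℝ≥0 := ⟨‖a‖ / 2, by positivity⟩ with hc
      have hcpos : 0 < c := by
        rw [← NNReal.coe_pos]
        change 0 < ‖a‖ / 2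
        positivity
      obtain ⟨U, hU, hUa⟩ := hst.approximates_deriv_on_nhds (c := c) (Or.inr hcpos)
      refine ⟨2 * (‖L‖ + ‖a‖ / 2) / ‖a‖, by positivity, U, hU, ?_⟩
      intro w hw w' hw' hwU hwU'
      have e1 := hUa _ hwU _ hwU'
      have z1 : Kj (p w, w j) = 0 := (hw.2 j).1
      have z2 : Kj (p w', w' j) = 0 := (hw'.2 j).1
      rw [z1, z2] at e1
      have e2 : L ((p w, w j) - (p w', w' j)) = L (p w - p w', 0) + (w j - w' j) * a := by
        have : ((p w, w j) - (p w', w' j) : E × ℂ) =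
            (p w - p w', 0) + (w j - w' j) • ((0 : E), (1 : ℂ)) := by
          ext <;> simp
        rw [this, map_add, map_smul]
        rfl
      rw [e2] at e1
      have e3 : ‖L (p w - p w', 0)‖ ≤ ‖L‖ * ‖p w - p w'‖ := by
        refine (L.le_opNorm _).trans ?_
        gcongr
        simp [Prod.norm_def]
      have e4 : ‖((p w, w j) - (p w', w' j) : E × ℂ)‖ ≤ ‖p w - p w'‖ + ‖w j - w' j‖ := by
        rw [Prod.norm_def]
        exact max_le (by simp) (by simp)
      have e5 : (c : ℝ) = ‖a‖ / 2 := rfl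
      rw [e5] at e1
      have e6 : ‖w j - w' j‖ * ‖a‖ ≤
          ‖(0 : ℂ) - 0 - (L (p w - p w', 0) + (w j - w' j) * a)‖ + ‖L (p w - p w', 0)‖ := by
        rw [← norm_mul]
        have : (w j - w' j) * a = -((0 : ℂ) - 0 - (L (p w - p w', 0) + (w j - w' j) * a)) +
            -(L (p w - p w', 0)) := by ring
        calc ‖(w j - w' j) * a‖ = ‖-((0 : ℂ) - 0 - (L (p w - p w', 0) + (w j - w' j) * a)) +
            -(L (p w - p w', 0))‖ := by rw [← this]
          _ ≤ _ := by
            refine (norm_add_le _ _).trans ?_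
            rw [norm_neg, norm_neg]
      rw [div_mul_eq_mul_div, le_div_iff₀ hapos]
      have e7 := e1.trans (mul_le_mul_of_nonneg_left e4 (by positivity : 0 ≤ ‖a‖ / 2))
      have e8 : ‖w j - w' j‖ * ‖a‖ ≤
          ‖a‖ / 2 * (‖p w - p w'‖ + ‖w j - w' j‖) + ‖L‖ * ‖p w - p w'‖ := by
        refine e6.trans (add_le_add e7 e3)
      linarith
    choose K hK0 U hU hUK using hloc
    set Kt : ℝ≥0 := ⟨∑ j, K j, Finset.sum_nonneg fun j _ => hK0 j⟩ with hKt
    refine ⟨Kt, (⋂ j, {w | (p w, w j) ∈ U j}) ∩ S m, ?_, ?_⟩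
    · refine inter_mem ?_ self_mem_nhdsWithin
      rw [iInter_mem]
      intro j
      have hc1 : ContinuousWithinAt p (S m) w₀ := (hp w₀ hw₀.1).mono (hSs m)
      have hc2 : ContinuousWithinAt (fun w : J → ℂ => w j) (S m) w₀ :=
        (continuous_apply j).continuousWithinAt
      have hc3 : ContinuousWithinAt (fun w : J → ℂ => (p w, w j)) (S m) w₀ := hc1.prodMk hc2
      exact hc3 (hU j)
    · rintro w ⟨hw, hwS⟩ w' ⟨hw', hwS'⟩
      rw [mem_iInter] at hw hw'
      have h1 : ∀ j, ‖w j - w' j‖ ≤ (∑ j, K j) * ‖p w - p w'‖ := by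
        intro j
        refine (hUK j w hwS w' hwS' (hw j) (hw' j)).trans ?_
        gcongr
        exact Finset.single_le_sum (f := K) (fun j _ => hK0 j) (Finset.mem_univ j)
      have h2 : dist w w' ≤ (Kt : ℝ) * dist (p w) (p w') := by
        rw [dist_pi_le_iff (by positivity)]
        intro j
        rw [dist_eq_norm, dist_eq_norm]
        exact h1 j
      rw [edist_dist, edist_dist, ← ENNReal.ofReal_coe_nnreal, ← ENNReal.ofReal_mul (by positivity)]
      exact ENNReal.ofReal_le_ofReal h2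
  calc dimH s = ⨆ m, dimH (S m) := by
        conv_lhs => rw [hS]
        exact dimH_iUnion S
    _ ≤ dimH (p '' s) := by
        refine iSup_le fun m => (key m).trans (dimH_mono (image_mono (hSs m)))

end dx

end Pool.Agent.H70.AM
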