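import Mathlib

/-!
The Jacobi triple product over the complex numbers.
-/

set_option autoImplicit false

open Filter Topology Finset

namespace Pool.Agent.H70.AM.JTP

variable {q x : ℂ}

/-- the finite product of `1 - q^i` -/
noncomputable def G (q : ℂ) (n : ℕ) : ℂ := ∏ i ∈ range n, (1 - q ^ (i + 1))

lemma G_zero (q : ℂ) : G q 0 = 1 := by simp [G]

lemma G_succ (q : ℂ) (n : ℕ) : G q (n + 1) = G q n * (1 - q ^ (n + 1)) := by
  unfold G
  rw [prod_range_succ]

lemma fac_ne (hq : ‖q‖ < 1) (n : ℕ) : 1 - q ^ (n + 1) ≠ 0 := by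
  intro h
  have h1 : q ^ (n + 1) = 1 := (sub_eq_zero.1 h).symm
  have h2 : ‖q‖ ^ (n + 1) < 1 := pow_lt_one₀ (norm_nonneg _) hq (Nat.succ_ne_zero n)
  rw [← norm_pow, h1, norm_one] at h2
  exact lt_irrefl _ h2

lemma G_ne (hq : ‖q‖ < 1) (n : ℕ) : G q n ≠ 0 := prod_ne_zero_iff.2 fun i _ => fac_ne hq i

/-- the infinite product of `1 - q^i` -/
noncomputable def Gi (q : ℂ) : ℂ := ∏' n : ℕ, (1 + -q ^ (n + 1))

lemma summable_pow (hq : ‖q‖ < 1) : Summable fun n : ℕ => ‖-q ^ (n + 1)‖ := by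
  have h1 : Summable fun n : ℕ => ‖q‖ ^ n := summable_geometric_of_lt_one (norm_nonneg _) hq
  refine ((summable_nat_add_iff 1).2 h1).congr fun n => ?_
  rw [norm_neg, norm_pow]

lemma Gi_ne (hq : ‖q‖ < 1) : Gi q ≠ 0 := by
  refine tprod_one_add_ne_zero_of_summable (fun n => ?_) (summable_pow hq)
  rw [← sub_eq_add_neg]
  exact fac_ne hq n

lemma G_tendsto (hq : ‖q‖ < 1) : Tendsto (G q) atTop (𝓝 (Gi q)) := by
  have h1 := (multipliable_one_add_of_summable (summable_pow hq)).hasProd.tendsto_prod_nat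
  refine h1.congr fun n => ?_
  unfold G
  exact prod_congr rfl fun i _ => by ring

/-- the inverse of `G`, zero for negative arguments -/
noncomputable def gi (q : ℂ) (m : ℤ) : ℂ := if m < 0 then 0 else (G q m.toNat)⁻¹

lemma gi_nat (n : ℕ) : gi q (n : ℤ) = (G q n)⁻¹ := by
  unfold gi
  rw [if_neg (by omega), Int.toNat_natCast]

lemma gi_neg {m : ℤ} (h : m < 0) : gi q m = 0 := by
  unfold gi
  rw [if_pos h]

lemma gi_rec (hq : ‖q‖ < 1) (m : ℤ) : gi q (m - 1) = (1 - q ^ m) * gi q m := by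
  rcases lt_trichotomy m 0 with h | h | h
  · rw [gi_neg h, gi_neg (by omega), mul_zero]
  · subst h
    rw [gi_neg (by omega)]
    simp
  · obtain ⟨n, rfl⟩ : ∃ n : ℕ, m = (n : ℤ) + 1 := ⟨(m - 1).toNat, by omega⟩
    have e1 : ((n : ℤ) + 1 - 1) = (n : ℤ) := by ring
    have e2 : ((n : ℤ) + 1) = ((n + 1 : ℕ) : ℤ) := by push_cast; ring
    rw [e1, e2, gi_nat, gi_nat, G_succ, zpow_natCast]
    have h1 := G_ne hq n
    have h2 := fac_ne hq n
    field_simp

/-- the triangular numbers -/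
def tri (j : ℤ) : ℤ := j * (j - 1) / 2

lemma two_tri (j : ℤ) : 2 * tri j = j * (j - 1) := by
  unfold tri
  have : Even (j * (j - 1)) := Int.even_mul_pred_self j
  exact Int.two_mul_ediv_two_of_even this

lemma tri_pred (j : ℤ) : tri (j - 1) = tri j - (j - 1) := by
  have h1 := two_tri j
  have h2 := two_tri (j - 1)
  have : 2 * tri (j - 1) = 2 * (tri j - (j - 1)) := by linear_combination h2 - h1
  omega

lemma tri_succ (j : ℤ) : tri (j + 1) = tri j + j := by
  have h1 := two_tri j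
  have h2 := two_tri (j + 1)
  have : 2 * tri (j + 1) = 2 * (tri j + j) := by linear_combination h2 - h1
  omega

/-- the coefficients of the finite product -/
noncomputable def co (q : ℂ) (m : ℕ) (j : ℤ) : ℂ :=
  (-1) ^ j * q ^ tri j * G q (2 * m) * (gi q (m + j) * gi q (m - j))

lemma co_rec (h0 : q ≠ 0) (hq : ‖q‖ < 1) (m : ℕ) (j : ℤ) :
    co q (m + 1) j = (1 + q ^ (2 * m + 1)) * co q m j - q ^ m * co q m (j - 1) -
      q ^ (m + 1) * co q m (j + 1) := by
  unfold co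
  have a1 := gi_rec hq ((m : ℤ) + 1 + j)
  have a2 := gi_rec hq ((m : ℤ) + j)
  have b1 := gi_rec hq ((m : ℤ) + 1 - j)
  have b2 := gi_rec hq ((m : ℤ) - j)
  have e1 : (m : ℤ) + 1 + j - 1 = m + j := by ring
  have e2 : (m : ℤ) + 1 - j - 1 = m - j := by ring
  rw [e1] at a1
  rw [e2] at b1
  have c1 : ((m + 1 : ℕ) : ℤ) + j = (m : ℤ) + 1 + j := by push_cast; ring
  have c2 : ((m + 1 : ℕ) : ℤ) - j = (m : ℤ) + 1 - j := by push_cast; ring
  have c3 : (m : ℤ) + (j - 1) = m + j - 1 := by ring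
  have c4 : (m : ℤ) - (j - 1) = m + 1 - j := by ring
  have c5 : (m : ℤ) + (j + 1) = m + 1 + j := by ring
  have c6 : (m : ℤ) - (j + 1) = m - j - 1 := by ring
  rw [c1, c2, c3, c4, c5, c6, a2, b2, a1, b1, tri_pred, tri_succ]
  have g1 : G q (2 * (m + 1)) = G q (2 * m) * (1 - q ^ (2 * m + 1)) * (1 - q ^ (2 * m + 2)) := by
    rw [show 2 * (m + 1) = 2 * m + 1 + 1 by ring, G_succ, G_succ]
  rw [g1]
  have s1 : ((-1 : ℂ)) ^ (j - 1) = -(-1) ^ j := by
    rw [zpow_sub_one₀ (by norm_num)]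
    norm_num
  have s2 : ((-1 : ℂ)) ^ (j + 1) = -(-1) ^ j := by
    rw [zpow_add_one₀ (by norm_num)]
    ring
  rw [s1, s2]
  have z1 : q ^ (tri j - (j - 1)) = q ^ tri j * (q ^ j)⁻¹ * q := by
    rw [zpow_sub₀ h0, zpow_sub_one₀ h0]
    field_simp
  have z2 : q ^ (tri j + j) = q ^ tri j * q ^ j := by rw [zpow_add₀ h0]
  have z3 : q ^ ((m : ℤ) + 1 + j) = q ^ m * q * q ^ j := by
    rw [zpow_add₀ h0, zpow_add_one₀ h0, zpow_natCast]
  have z4 : q ^ ((m : ℤ) + 1 - j) = q ^ m * q * (q ^ j)⁻¹ := by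
    rw [zpow_sub₀ h0, zpow_add_one₀ h0, zpow_natCast, div_eq_mul_inv]
  have z5 : q ^ ((m : ℤ) + j) = q ^ m * q ^ j := by rw [zpow_add₀ h0, zpow_natCast]
  have z6 : q ^ ((m : ℤ) - j) = q ^ m * (q ^ j)⁻¹ := by
    rw [zpow_sub₀ h0, zpow_natCast, div_eq_mul_inv]
  have z7 : q ^ (2 * m + 1) = (q ^ m) ^ 2 * q := by rw [pow_succ, pow_mul']
  have z8 : q ^ (2 * m + 2) = (q ^ m) ^ 2 * q ^ 2 := by
    rw [pow_add, pow_mul']
  have z9 : q ^ (m + 1) = q ^ m * q := pow_succ _ _
  rw [z1, z2, z3, z4, z5, z6, z7, z8, z9]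
  have hy : q ^ j ≠ 0 := zpow_ne_zero _ h0
  generalize q ^ j = y at hy ⊢
  generalize q ^ m = M
  generalize q ^ tri j = t
  generalize ((-1 : ℂ)) ^ j = s
  generalize gi q ((m : ℤ) + 1 + j) = A
  generalize gi q ((m : ℤ) + 1 - j) = B
  generalize G q (2 * m) = g
  field_simp
  ring

/-- the finite product -/
noncomputable def F (q x : ℂ) (m : ℕ) : ℂ :=
  ∏ k ∈ range m, ((1 - x * q ^ k) * (1 - q ^ (k + 1) * x⁻¹))

lemma hasSum_F (h0 : q ≠ 0) (hq : ‖q‖ < 1) (hx : x ≠ 0) (m : ℕ) :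
    HasSum (fun j : ℤ => co q m j * x ^ j) (F q x m) := by
  induction m with
  | zero =>
    have h1 := hasSum_single (f := fun j : ℤ => co q 0 j * x ^ j) 0 (by
      intro j hj
      rcases lt_or_gt_of_ne hj with h | h
      · unfold co
        rw [gi_neg (m := ((0 : ℕ) : ℤ) + j) (by push_cast; omega)]
        ring
      · unfold co
        rw [gi_neg (m := ((0 : ℕ) : ℤ) - j) (by push_cast; omega)]
        ring)
    have h2 : co q 0 0 * x ^ (0 : ℤ) = F q x 0 := by
      unfold co F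
      have := gi_nat (q := q) 0
      simp only [Nat.cast_zero] at this
      simp [this, G_zero, tri]
    rw [h2] at h1
    exact h1
  | succ m ih =>
    have h1 := (Equiv.subRight (1 : ℤ)).hasSum_iff.2 ih
    have h2 := (Equiv.addRight (1 : ℤ)).hasSum_iff.2 ih
    have h3 := ((ih.mul_left (1 + q ^ (2 * m + 1))).sub (h1.mul_left (q ^ m * x))).sub
      (h2.mul_left (q ^ (m + 1) * x⁻¹))
    have e : F q x (m + 1) = (1 + q ^ (2 * m + 1)) * F q x m - q ^ m * x * F q x m -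
        q ^ (m + 1) * x⁻¹ * F q x m := by
      have : F q x (m + 1) = F q x m * ((1 - x * q ^ m) * (1 - q ^ (m + 1) * x⁻¹)) := by
        unfold F
        rw [prod_range_succ]
      rw [this]
      field_simp
      ring
    rw [e]
    refine h3.congr_fun ?_ |> fun y => y
    intro j
    simp only [Function.comp_apply, Equiv.subRight_apply, Equiv.coe_addRight]
    rw [co_rec h0 hq, zpow_sub_one₀ hx, zpow_add_one₀ hx]
    field_simp

lemma gi_bound (hq : ‖q‖ < 1) : ∃ B : ℝ, 0 ≤ B ∧ ∀ m : ℤ, ‖gi q m‖ ≤ B := by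
  have h1 : Tendsto (fun n => (G q n)⁻¹) atTop (𝓝 (Gi q)⁻¹) := (G_tendsto hq).inv₀ (Gi_ne hq)
  obtain ⟨B, hB⟩ := (Metric.isBounded_range_of_tendsto _ h1).exists_norm_le
  have hB0 : 0 ≤ B := (norm_nonneg _).trans (hB _ ⟨0, rfl⟩)
  refine ⟨B, hB0, fun m => ?_⟩
  unfold gi
  split_ifs
  · simpa using hB0
  · exact hB _ ⟨_, rfl⟩

lemma G_bound (hq : ‖q‖ < 1) : ∃ B : ℝ, ∀ m : ℕ, ‖G q m‖ ≤ B := by
  obtain ⟨B, hB⟩ := (Metric.isBounded_range_of_tendsto _ (G_tendsto hq)).exists_norm_le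
  exact ⟨B, fun m => hB _ ⟨_, rfl⟩⟩

/-- the terms of the theta series -/
noncomputable def te (q x : ℂ) (j : ℤ) : ℂ := (-1) ^ j * q ^ tri j * x ^ j

lemma summable_aux {r y : ℝ} (hr : 0 < r) (hr1 : r < 1) (hy : 0 < y) :
    Summable fun j : ℤ => r ^ tri j * y ^ j := by
  set τ : ℂ := Complex.I * ((-Real.log r / (2 * Real.pi) : ℝ) : ℂ) with hτ
  set z : ℂ := ((Real.log y - Real.log r / 2 : ℝ) : ℂ) / (2 * Real.pi * Complex.I) with hz
  have hpi := Real.pi_pos
  have him : 0 < τ.im := by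
    have h1 : Real.log r < 0 := Real.log_neg hr hr1
    have h2 : 0 < -Real.log r / (2 * Real.pi) := by
      apply div_pos <;> linarith
    rw [hτ, Complex.I_mul_im, Complex.ofReal_re]
    exact h2
  have h1 := ((summable_jacobiTheta₂_term_iff z τ).2 him).norm
  refine h1.congr fun j => ?_
  have hI : (Complex.I : ℂ) ≠ 0 := Complex.I_ne_zero
  have hp : (Real.pi : ℂ) ≠ 0 := by exact_mod_cast Real.pi_ne_zero
  have h2 : 2 * (Real.pi : ℂ) * Complex.I * j * z + Real.pi * Complex.I * j ^ 2 * τ =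
      (((tri j : ℤ) * Real.log r + (j : ℝ) * Real.log y : ℝ) : ℂ) := by
    have h3 : (((tri j : ℤ) : ℝ)) = ((j : ℝ) * (j - 1)) / 2 := by
      have := two_tri j
      have h4 : (2 : ℝ) * ((tri j : ℤ) : ℝ) = (j : ℝ) * (j - 1) := by exact_mod_cast this
      linarith
    rw [h3, hτ, hz]
    push_cast
    field_simp
    ring_nf
    rw [Complex.I_sq]
    ring
  unfold jacobiTheta₂_term
  rw [h2, ← Complex.ofReal_exp, Complex.norm_real, Real.norm_eq_abs, abs_of_pos (Real.exp_pos _),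
    Real.exp_add]
  congr 1
  · rw [mul_comm, ← Real.rpow_def_of_pos hr, Real.rpow_intCast]
  · rw [mul_comm, ← Real.rpow_def_of_pos hy, Real.rpow_intCast]

lemma norm_te (j : ℤ) : ‖te q x j‖ = ‖q‖ ^ tri j * ‖x‖ ^ j := by
  unfold te
  rw [norm_mul, norm_mul, norm_zpow, norm_zpow, norm_zpow, norm_neg, norm_one, one_zpow, one_mul]

lemma summable_norm_te (h0 : q ≠ 0) (hq : ‖q‖ < 1) (hx : x ≠ 0) :
    Summable fun j : ℤ => ‖te q x j‖ :=
  (summable_aux (norm_pos_iff.2 h0) hq (norm_pos_iff.2 hx)).congr fun j => (norm_te j).symm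

/-- the product over `k` -/
noncomputable def Px (q x : ℂ) : ℂ :=
  (∏' k : ℕ, (1 + -(x * q ^ k))) * ∏' k : ℕ, (1 + -(q ^ (k + 1) * x⁻¹))

lemma sum1 (hq : ‖q‖ < 1) : Summable fun k : ℕ => ‖-(x * q ^ k)‖ := by
  refine ((summable_geometric_of_lt_one (norm_nonneg _) hq).mul_left ‖x‖).congr fun k => ?_
  rw [norm_neg, norm_mul, norm_pow]

lemma sum2 (hq : ‖q‖ < 1) : Summable fun k : ℕ => ‖-(q ^ (k + 1) * x⁻¹)‖ := by
  refine ((summable_pow hq).mul_right ‖x⁻¹‖).congr fun k => ?_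
  rw [norm_neg, norm_neg, norm_mul]

lemma F_tendsto (hq : ‖q‖ < 1) : Tendsto (F q x) atTop (𝓝 (Px q x)) := by
  have h1 := (multipliable_one_add_of_summable (sum1 (x := x) hq)).hasProd.tendsto_prod_nat
  have h2 := (multipliable_one_add_of_summable (sum2 (x := x) hq)).hasProd.tendsto_prod_nat
  refine (h1.mul h2).congr fun n => ?_
  unfold F
  rw [← prod_mul_distrib]
  exact prod_congr rfl fun i _ => by ring

/-- the Jacobi triple product -/
theorem jtp (h0 : q ≠ 0) (hq : ‖q‖ < 1) (hx : x ≠ 0) :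
    HasSum (te q x) (Gi q * Px q x) := by
  obtain ⟨B, hB0, hB⟩ := gi_bound hq
  obtain ⟨B', hB'⟩ := G_bound hq
  have hB'0 : 0 ≤ B' := (norm_nonneg _).trans (hB' 0)
  have hG := Gi_ne hq
  have h2m : Tendsto (fun m : ℕ => 2 * m) atTop atTop :=
    tendsto_atTop_mono (fun m => by change m ≤ 2 * m; omega) tendsto_id
  have h1 : Tendsto (fun m => ∑' j : ℤ, co q m j * x ^ j) atTop
      (𝓝 (∑' j : ℤ, te q x j * (Gi q)⁻¹)) := by
    refine tendsto_tsum_of_dominated_convergence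
      (bound := fun j : ℤ => ‖te q x j‖ * (B' * (B * B)))
      ((summable_norm_te h0 hq hx).mul_right _) ?_ ?_
    · intro j
      have e1 : Tendsto (fun m : ℕ => gi q ((m : ℤ) + j)) atTop (𝓝 (Gi q)⁻¹) := by
        have t1 : Tendsto (fun m : ℕ => ((m : ℤ) + j).toNat) atTop atTop := by
          refine tendsto_atTop.2 fun b => ?_
          filter_upwards [eventually_ge_atTop (b + j.natAbs)] with m hm
          omega
        refine (((G_tendsto hq).inv₀ hG).comp t1).congr' ?_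
        filter_upwards [eventually_ge_atTop j.natAbs] with m hm
        unfold gi
        rw [if_neg (by omega)]
        rfl
      have e2 : Tendsto (fun m : ℕ => gi q ((m : ℤ) - j)) atTop (𝓝 (Gi q)⁻¹) := by
        have t1 : Tendsto (fun m : ℕ => ((m : ℤ) - j).toNat) atTop atTop := by
          refine tendsto_atTop.2 fun b => ?_
          filter_upwards [eventually_ge_atTop (b + j.natAbs)] with m hm
          omega
        refine (((G_tendsto hq).inv₀ hG).comp t1).congr' ?_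
        filter_upwards [eventually_ge_atTop j.natAbs] with m hm
        unfold gi
        rw [if_neg (by omega)]
        rfl
      have e3 := (G_tendsto hq).comp h2m
      have e4 := ((e3.mul (e1.mul e2)).const_mul ((-1) ^ j * q ^ tri j)).mul_const (x ^ j)
      have e5 : te q x j * (Gi q)⁻¹ = (-1) ^ j * q ^ tri j * (Gi q * ((Gi q)⁻¹ * (Gi q)⁻¹)) *
          x ^ j := by
        unfold te
        field_simp
      rw [e5]
      refine e4.congr fun m => ?_
      unfold co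
      simp only [Function.comp_apply]
      ring
    · refine Eventually.of_forall fun m j => ?_
      have e6 : co q m j * x ^ j = te q x j * (G q (2 * m) * (gi q (m + j) * gi q (m - j))) := by
        unfold co te
        ring
      rw [e6, norm_mul, norm_mul, norm_mul]
      gcongr
      · exact hB' _
      · exact hB _
      · exact hB _
  have h2 : Tendsto (fun m => ∑' j : ℤ, co q m j * x ^ j) atTop (𝓝 (Px q x)) := by
    refine (F_tendsto hq).congr fun m => ?_
    rw [(hasSum_F h0 hq hx m).tsum_eq]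
  have h3 := tendsto_nhds_unique h1 h2
  rw [tsum_mul_right] at h3
  have h4 : ∑' j : ℤ, te q x j = Gi q * Px q x := by
    rw [← h3]
    field_simp
  rw [← h4]
  exact (summable_norm_te h0 hq hx).of_norm.hasSum

theorem te_ne (h0 : q ≠ 0) (hq : ‖q‖ < 1) (hx : x ≠ 0) (h : ∀ n : ℤ, x ≠ q ^ n) :
    ∑' j : ℤ, te q x j ≠ 0 := by
  rw [(jtp h0 hq hx).tsum_eq]
  refine mul_ne_zero (Gi_ne hq) (mul_ne_zero ?_ ?_)
  · refine tprod_one_add_ne_zero_of_summable (fun k => ?_) (sum1 hq)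
    intro h1
    have h2 : x * q ^ k = 1 := by linear_combination -h1
    refine h (-(k : ℤ)) ?_
    rw [zpow_neg, zpow_natCast]
    exact eq_inv_of_mul_eq_one_left h2
  · refine tprod_one_add_ne_zero_of_summable (fun k => ?_) (sum2 hq)
    intro h1
    have h2 : q ^ (k + 1) * x⁻¹ = 1 := by linear_combination -h1
    refine h ((k + 1 : ℕ) : ℤ) ?_
    rw [zpow_natCast]
    field_simp at h2
    exact h2.symm

end Pool.Agent.H70.AM.JTP
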