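import Pool.Agent.H70.AM.Theta2

/-!
Real theta series and the tuning of the moduli.
-/

set_option autoImplicit false

open Set Topology Filter Complex

namespace Pool.Agent.H70.AM

/-- the exponent -/
noncomputable def qd (N : ℕ) (s b : ℝ) (m : ℤ) : ℝ := (N * m + s) ^ 2 - b * (N * m + s)

/-- the real theta series -/
noncomputable def SR (t : ℝ) (N : ℕ) (s b : ℝ) : ℝ := ∑' m : ℤ, Real.exp (-(Real.pi * t * qd N s b m))

lemma tI_im (t a : ℝ) : ((a : ℂ) + t * I).im = t := by simp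

lemma et_real (t s b : ℝ) (N : ℕ) (m : ℤ) :
    et (t * I) (N * m + s) (-(b * (t * I)) / 2) =
      ((Real.exp (-(Real.pi * t * qd N s b m)) : ℝ) : ℂ) := by
  unfold et qd
  rw [Complex.ofReal_exp]
  congr 1
  push_cast
  linear_combination (Real.pi * t * ((N * m + s) ^ 2 - b * (N * m + s)) : ℂ) * I_sq

lemma SR_summable {t : ℝ} (ht : 0 < t) {N : ℕ} (hN : 0 < N) (s b : ℝ) :
    Summable fun m : ℤ => Real.exp (-(Real.pi * t * qd N s b m)) := by
  have h := summable_et (τ := (t * I)) (by simpa using ht) hN (s : ℂ) (-(b * (t * I)) / 2)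
  refine h.congr fun m => ?_
  rw [et_real, Complex.norm_real, Real.norm_of_nonneg (Real.exp_pos _).le]

lemma Y_real (t s b : ℝ) (N : ℕ) :
    Y (t * I) N s (-(b * (t * I)) / 2) = ((SR t N s b : ℝ) : ℂ) := by
  unfold Y SR
  rw [Complex.ofReal_tsum]
  exact tsum_congr fun m => et_real t s b N m

lemma et_real' (t : ℝ) (ε : ℕ) (m : ℤ) :
    et (1 + t * I) (2 * m + ε) 0 =
      ((-1) ^ ε * (Real.exp (-(Real.pi * t * qd 2 ε 0 m)) : ℝ) : ℂ) := by
  unfold et qd
  rw [Complex.ofReal_exp]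
  have h1 : ((-1 : ℂ)) ^ ε = cexp (((2 * m + ε : ℤ) : ℂ) ^ 2 * (Real.pi * I)) := by
    have h2 : (((2 * m + ε : ℤ) : ℂ) ^ 2 * (Real.pi * I)) =
        (((2 * m + ε) ^ 2 : ℤ) : ℂ) * (Real.pi * I) := by push_cast; ring
    rw [h2, Complex.exp_int_mul, Complex.exp_pi_mul_I]
    rcases Nat.even_or_odd ε with he | ho
    · rw [he.neg_one_pow]
      have : Even ((2 * m + (ε : ℤ)) ^ 2) := by
        rw [Int.even_pow' two_ne_zero]
        obtain ⟨r, hr⟩ := he
        exact ⟨m + r, by rw [hr]; push_cast; ring⟩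
      rw [this.neg_one_zpow]
    · rw [ho.neg_one_pow]
      have : Odd ((2 * m + (ε : ℤ)) ^ 2) := by
        refine Odd.pow ?_
        obtain ⟨r, hr⟩ := ho
        exact ⟨m + r, by rw [hr]; push_cast; ring⟩
      rw [this.neg_one_zpow]
  rw [h1, ← Complex.exp_add]
  congr 1
  push_cast
  linear_combination (Real.pi * t * (2 * m + ε) ^ 2 : ℂ) * I_sq

lemma Y_real' (t : ℝ) (ε : ℕ) :
    Y (1 + t * I) 2 ε 0 = ((-1) ^ ε * (SR t 2 ε 0 : ℝ) : ℂ) := by
  unfold Y SR
  rw [Complex.ofReal_tsum, ← tsum_mul_left]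
  refine tsum_congr fun m => ?_
  rw [← et_real' t ε m]
  norm_num

lemma SR_pos {t : ℝ} (ht : 0 < t) {N : ℕ} (hN : 0 < N) (s b : ℝ) : 0 < SR t N s b :=
  (SR_summable ht hN s b).tsum_pos (fun _ => (Real.exp_pos _).le) 0 (Real.exp_pos _)

lemma le_SR {t : ℝ} (ht : 0 < t) {N : ℕ} (hN : 0 < N) (s b : ℝ) (m : ℤ) :
    Real.exp (-(Real.pi * t * qd N s b m)) ≤ SR t N s b :=
  (SR_summable ht hN s b).le_tsum m (fun _ _ => (Real.exp_pos _).le)

lemma SR_le {t : ℝ} (ht : 1 ≤ t) {N : ℕ} (hN : 0 < N) (s b K : ℝ) (hK : ∀ m, -K ≤ qd N s b m) :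
    SR t N s b ≤ Real.exp (Real.pi * (t - 1) * K) * SR 1 N s b := by
  unfold SR
  rw [← tsum_mul_left]
  refine Summable.tsum_le_tsum (fun m => ?_) (SR_summable (by linarith) hN s b)
    ((SR_summable one_pos hN s b).mul_left _)
  rw [← Real.exp_add]
  refine Real.exp_le_exp.2 ?_
  have h1 := hK m
  have h2 : 0 ≤ Real.pi * (t - 1) := mul_nonneg Real.pi_pos.le (by linarith)
  nlinarith [mul_le_mul_of_nonneg_left h1 h2]

lemma SR_cont (ε : ℝ) : ContinuousOn (fun t => SR t 2 ε 0) (Ici 1) := by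
  unfold SR
  refine continuousOn_tsum (u := fun m : ℤ => Real.exp (-(Real.pi * 1 * qd 2 ε 0 m)))
    (fun m => ?_) (SR_summable one_pos two_pos ε 0) ?_
  · exact (by fun_prop : Continuous fun t => Real.exp (-(Real.pi * t * qd 2 ε 0 m))).continuousOn
  · intro m t ht
    rw [Real.norm_of_nonneg (Real.exp_pos _).le]
    refine Real.exp_le_exp.2 ?_
    have h1 : 0 ≤ qd 2 ε 0 m := by unfold qd; nlinarith [sq_nonneg (2 * (m : ℝ) + ε)]
    have h2 : (1 : ℝ) ≤ t := ht
    have h3 : 0 ≤ Real.pi * (t - 1) * qd 2 ε 0 m :=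
      mul_nonneg (mul_nonneg Real.pi_pos.le (by linarith)) h1
    nlinarith

lemma qd_ge (N : ℕ) (hN : 0 < N) (m : ℤ) : -(N : ℝ) ≤ qd N 0 (1 + N) m := by
  unfold qd
  have h1 : (0 : ℤ) ≤ (N * m - 1) * (m - 1) := by
    have hN' : (1 : ℤ) ≤ N := by exact_mod_cast hN
    rcases le_or_gt 1 m with h | h
    · exact mul_nonneg (by nlinarith) (by linarith)
    · refine mul_nonneg_of_nonpos_of_nonpos ?_ (by linarith)
      have : m ≤ 0 := by linarith
      nlinarith
  have h2 : (0 : ℝ) ≤ (N * m - 1) * (m - 1) := by exact_mod_cast h1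
  have h3 : (0 : ℝ) ≤ N := Nat.cast_nonneg N
  nlinarith [mul_nonneg h3 h2]

lemma qd_ge_one (m : ℤ) : -(-1 : ℝ) ≤ qd 2 1 0 m := by
  unfold qd
  have h1 : (1 : ℤ) ≤ (2 * m + 1) ^ 2 := by
    have : (2 * m + 1) ^ 2 = 4 * (m * (m + 1)) + 1 := by ring
    rw [this]
    have h2 : 0 ≤ m * (m + 1) := by
      rcases le_or_gt 0 m with h | h
      · positivity
      · exact mul_nonneg_of_nonpos_of_nonpos h.le (by omega)
    linarith
  have h2 : (1 : ℝ) ≤ (2 * m + 1) ^ 2 := by exact_mod_cast h1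
  push_cast
  linarith

/-- The tuning. -/
theorem tune (N : ℕ) (hN : 3 ≤ N) : ∃ t₁ t₂ : ℝ, 0 < t₁ ∧ 0 < t₂ ∧
    SR t₂ 2 0 0 * SR t₁ N 0 (1 + N) = SR t₂ 2 1 0 * SR t₁ N (N / 2) (1 + N) := by
  have hN0 : 0 < N := by omega
  have hNr : (3 : ℝ) ≤ N := by exact_mod_cast hN
  set C0 := SR 1 2 0 0 with hC0
  set C1 := SR 1 2 1 0 with hC1
  set A1 := SR 1 N 0 (1 + N) with hA1
  have pC0 : 0 < C0 := SR_pos one_pos two_pos _ _
  have pC1 : 0 < C1 := SR_pos one_pos two_pos _ _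
  have pA1 : 0 < A1 := SR_pos one_pos hN0 _ _
  set t₁ : ℝ := 1 + C0 * A1 / C1 with ht₁
  have h1t : 1 ≤ t₁ := by
    have : 0 < C0 * A1 / C1 := by positivity
    linarith
  have ht₁0 : 0 < t₁ := by linarith
  set A := SR t₁ N 0 (1 + N) with hA
  set B := SR t₁ N (N / 2) (1 + N) with hB
  have pA : 0 < A := SR_pos ht₁0 hN0 _ _
  have pB : 0 < B := SR_pos ht₁0 hN0 _ _
  have hAle : A ≤ Real.exp (Real.pi * (t₁ - 1) * N) * A1 := SR_le h1t hN0 0 (1 + N) N (qd_ge N hN0)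
  have hBge : Real.exp (-(Real.pi * t₁ * qd N (N / 2) (1 + N) 0)) ≤ B := le_SR ht₁0 hN0 _ _ 0
  have hneg : C0 * A ≤ C1 * B := by
    have e1 : -(Real.pi * t₁ * qd N (N / 2) (1 + N) 0) =
        Real.pi * t₁ * N + Real.pi * t₁ * (N * (N - 2) / 4) := by
      unfold qd; push_cast; ring
    rw [e1, Real.exp_add] at hBge
    have h2 : t₁ ≤ Real.exp (Real.pi * t₁ * (N * (N - 2) / 4)) := by
      have h3 : t₁ ≤ Real.pi * t₁ * (N * (N - 2) / 4) := by
        have h4 : (3 : ℝ) / 4 ≤ N * (N - 2) / 4 := by nlinarith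
        have h5 := Real.pi_gt_three
        have h6 : 1 ≤ Real.pi * (N * (N - 2) / 4) := by nlinarith
        nlinarith
      linarith [Real.add_one_le_exp (Real.pi * t₁ * (N * (N - 2) / 4))]
    have h3 : Real.exp (Real.pi * (t₁ - 1) * N) ≤ Real.exp (Real.pi * t₁ * N) := by
      refine Real.exp_le_exp.2 ?_
      have := Real.pi_pos
      nlinarith [mul_pos this (by linarith : (0 : ℝ) < N)]
    have h4 : C0 * A1 ≤ C1 * t₁ := by
      rw [ht₁, mul_add, mul_one, mul_div_cancel₀ _ pC1.ne']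
      linarith
    set E := Real.exp (Real.pi * t₁ * N) with hE
    have pE : 0 < E := Real.exp_pos _
    calc C0 * A ≤ C0 * (E * A1) := by
          refine mul_le_mul_of_nonneg_left (hAle.trans ?_) pC0.le
          exact mul_le_mul_of_nonneg_right h3 pA1.le
      _ = E * (C0 * A1) := by ring
      _ ≤ E * (C1 * t₁) := mul_le_mul_of_nonneg_left h4 pE.le
      _ = C1 * (E * t₁) := by ring
      _ ≤ C1 * (E * Real.exp (Real.pi * t₁ * (N * (N - 2) / 4))) :=
          mul_le_mul_of_nonneg_left (mul_le_mul_of_nonneg_left h2 pE.le) pC1.le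
      _ ≤ C1 * B := mul_le_mul_of_nonneg_left hBge pC1.le
  set T : ℝ := 1 + C1 * B / A with hT
  have h1T : 1 ≤ T := by
    have : 0 < C1 * B / A := by positivity
    linarith
  have hT0 : 0 < T := by linarith
  have hpos : SR T 2 1 0 * B ≤ SR T 2 0 0 * A := by
    have h1 : SR T 2 1 0 ≤ Real.exp (Real.pi * (T - 1) * (-1)) * C1 :=
      SR_le h1T two_pos 1 0 (-1) qd_ge_one
    have h2 : (1 : ℝ) ≤ SR T 2 0 0 := by
      have := le_SR hT0 two_pos 0 0 0
      have e : qd 2 0 0 0 = 0 := by unfold qd; push_cast; ring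
      rw [e, mul_zero, neg_zero, Real.exp_zero] at this
      exact this
    have h3 : C1 * B / A ≤ Real.exp (Real.pi * (T - 1)) := by
      have h4 : T - 1 = C1 * B / A := by rw [hT]; ring
      have h5 : 0 < C1 * B / A := by positivity
      have h6 : C1 * B / A ≤ Real.pi * (T - 1) := by
        rw [h4]
        nlinarith [Real.pi_gt_three]
      linarith [Real.add_one_le_exp (Real.pi * (T - 1))]
    have h7 : Real.exp (Real.pi * (T - 1) * (-1)) * Real.exp (Real.pi * (T - 1)) = 1 := by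
      rw [← Real.exp_add]
      have : Real.pi * (T - 1) * (-1) + Real.pi * (T - 1) = 0 := by ring
      rw [this, Real.exp_zero]
    set e1 := Real.exp (Real.pi * (T - 1) * (-1)) with he1
    have pe1 : 0 < e1 := Real.exp_pos _
    calc SR T 2 1 0 * B ≤ (e1 * C1) * B := mul_le_mul_of_nonneg_right h1 pB.le
      _ = e1 * (C1 * B / A) * A := by field_simp
      _ ≤ e1 * Real.exp (Real.pi * (T - 1)) * A :=
          mul_le_mul_of_nonneg_right (mul_le_mul_of_nonneg_left h3 pe1.le) pA.le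
      _ = A := by rw [h7, one_mul]
      _ ≤ SR T 2 0 0 * A := by nlinarith
  have hcont : ContinuousOn (fun t => SR t 2 0 0 * A - SR t 2 1 0 * B) (Icc 1 T) :=
    (((SR_cont 0).mul continuousOn_const).sub ((SR_cont 1).mul continuousOn_const)).mono
      Icc_subset_Ici_self
  have hivt := intermediate_value_Icc h1T hcont
  have h0 : (0 : ℝ) ∈ Icc (SR 1 2 0 0 * A - SR 1 2 1 0 * B) (SR T 2 0 0 * A - SR T 2 1 0 * B) :=
    ⟨by rw [← hC0, ← hC1]; linarith, by linarith⟩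
  obtain ⟨t₂, ht₂, h⟩ := hivt h0
  refine ⟨t₁, t₂, ht₁0, by linarith [ht₂.1], ?_⟩
  simp only at h
  linarith

end Pool.Agent.H70.AM
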