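import Pool.Agent.H70.AM.PendRT
import Pool.Agent.H70.AM.Tune

/-!
Solvability in one variable (Liouville), and the special point of the two dimensional block.
-/

set_option autoImplicit false
set_option linter.unusedSectionVars false

open Set Topology Filter Complex
open scoped ENNReal NNReal

namespace Pool.Agent.H70.AM

lemma Y_add_one (τ : ℂ) (N : ℕ) (c : ℤ) (w : ℂ) :
    Y τ N (((c : ℝ)) : ℂ) (w + 1) = Y τ N (((c : ℝ)) : ℂ) w := by
  unfold Y
  refine tsum_congr fun m => ?_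
  rw [et_shift]
  have : 2 * Real.pi * I * (N * m + (((c : ℝ)) : ℂ)) * 1 =
      ((N * m + c : ℤ) : ℂ) * (2 * Real.pi * I) := by push_cast; ring
  rw [this, Complex.exp_int_mul_two_pi_mul_I, mul_one]

lemma Y_add_N (τ : ℂ) (N : ℕ) (s w : ℂ) : Y τ N (s + N) w = Y τ N s w := by
  unfold Y
  rw [← (Equiv.addRight (1 : ℤ)).tsum_eq (fun m : ℤ => et τ (N * m + s) w)]
  refine tsum_congr fun m => ?_
  congr 1
  simp only [Equiv.coe_addRight]
  push_cast
  ring

lemma Y_add_NI (N : ℕ) (s w : ℂ) :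
    Y I N s (w + N * I) = cexp (Real.pi * N ^ 2 - 2 * Real.pi * I * N * w) * Y I N s w := by
  rw [← Y_add_N I N s w]
  unfold Y
  rw [← tsum_mul_left]
  refine tsum_congr fun m => ?_
  unfold et
  rw [← Complex.exp_add]
  congr 1
  linear_combination (Real.pi * (N * m + s) ^ 2 - Real.pi * (N * m + (s + N)) ^ 2 +
    2 * Real.pi * (N * m + s) * N) * I_sq

/-- solvability of linear combinations -/
theorem lin_solve {N : ℕ} (hN : 0 < N) (a b : Fin N) (hab : a ≠ b) (α β : ℂ) :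
    ∃ x, α * Y I N ((((a : ℕ) : ℝ)) : ℂ) x + β * Y I N ((((b : ℕ) : ℝ)) : ℂ) x = 0 := by
  by_contra hcon
  push Not at hcon
  have hI : 0 < (I : ℂ).im := by simp
  set A : ℂ → ℂ := Y I N ((((a : ℕ) : ℝ)) : ℂ) with hA
  set B : ℂ → ℂ := Y I N ((((b : ℕ) : ℝ)) : ℂ) with hB
  have dA : Differentiable ℂ A := Y_differentiable hI hN _
  have dB : Differentiable ℂ B := Y_differentiable hI hN _
  let h : ℂ → ℂ := fun x => A x / (α * A x + β * B x)
  have dh : Differentiable ℂ h := fun x =>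
    (dA x).div (((dA x).const_mul α).add ((dB x).const_mul β)) (hcon x)
  have A1 : ∀ x, A (x + 1) = A x := fun x => by
    have := Y_add_one I N ((a : ℕ) : ℤ) x
    push_cast at this
    rw [hA]
    push_cast
    exact this
  have B1 : ∀ x, B (x + 1) = B x := fun x => by
    have := Y_add_one I N ((b : ℕ) : ℤ) x
    push_cast at this
    rw [hB]
    push_cast
    exact this
  have p1 : Function.Periodic h 1 := by
    intro x
    simp only [h]
    rw [A1, B1]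
  have p2 : Function.Periodic h (N * I) := by
    intro x
    simp only [h]
    rw [hA, hB, Y_add_NI, Y_add_NI, ← hA, ← hB]
    have he := Complex.exp_ne_zero (Real.pi * N ^ 2 - 2 * Real.pi * I * N * x)
    set e := cexp (Real.pi * N ^ 2 - 2 * Real.pi * I * N * x) with he'
    have : α * (e * A x) + β * (e * B x) = e * (α * A x + β * B x) := by ring
    rw [this, mul_div_mul_left _ _ he]
  have hNr : (0 : ℝ) < N := by exact_mod_cast hN
  set K : Set ℂ := Icc (0 : ℝ) 1 ×ℂ Icc (0 : ℝ) N with hK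
  have hKc : IsCompact K := isCompact_Icc.reProdIm isCompact_Icc
  have hb : Bornology.IsBounded (range h) := by
    refine (hKc.image dh.continuous).isBounded.subset ?_
    rintro _ ⟨x, rfl⟩
    let m : ℤ := ⌊x.im / N⌋
    let n : ℤ := ⌊x.re⌋
    refine ⟨x - m * (N * I) - n * 1, ?_, ?_⟩
    · rw [hK, Complex.mem_reProdIm]
      have e1 : (x - m * (N * I) - n * 1).re = x.re - n := by simp
      have e2 : (x - m * (N * I) - n * 1).im = x.im - m * N := by simp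
      rw [e1, e2]
      refine ⟨⟨by linarith [Int.floor_le x.re], by linarith [Int.lt_floor_add_one x.re]⟩, ?_, ?_⟩
      · have := Int.floor_le (x.im / N)
        rw [le_div_iff₀ hNr] at this
        linarith
      · have := (Int.lt_floor_add_one (x.im / N)).le
        rw [div_le_iff₀ hNr] at this
        simp only [m]
        nlinarith
    · rw [p1.sub_int_mul_eq, p2.sub_int_mul_eq]
  obtain ⟨xa, hxa⟩ := Y_exists_zero hI hN ((((a : ℕ) : ℝ)) : ℂ)
  obtain ⟨xb, hxb⟩ := Y_exists_zero hI hN ((((b : ℕ) : ℝ)) : ℂ)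
  have h1 := dh.apply_eq_apply_of_bounded hb xb xa
  simp only [h] at h1
  have hxa' : A xa = 0 := hxa
  rw [hxa', zero_div, div_eq_zero_iff, or_iff_left (hcon xb)] at h1
  obtain ⟨q, hq⟩ := Y_disjoint hI hN _ _ xb h1 hxb
  refine hab (fin_eq_of a b q ?_)
  exact_mod_cast hq

lemma Y_even (τ : ℂ) (ε : ℤ) (v : ℂ) :
    Y τ 2 (((ε : ℝ)) : ℂ) (-v) = Y τ 2 (((ε : ℝ)) : ℂ) v := by
  unfold Y
  rw [← (Equiv.subLeft (-ε : ℤ)).tsum_eq (fun m : ℤ => et τ ((2 : ℕ) * m + (((ε : ℝ)) : ℂ)) v)]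
  refine tsum_congr fun m => ?_
  simp only [Equiv.subLeft_apply]
  unfold et
  congr 1
  push_cast
  ring

lemma deriv_even_zero {f : ℂ → ℂ} (h : ∀ v, f (-v) = f v) : deriv f 0 = 0 := by
  have h1 : (fun v => f (-v)) = f := funext h
  have h2 := deriv_comp_neg f 0
  rw [h1, neg_zero] at h2
  have h3 : 2 * deriv f 0 = 0 := by linear_combination h2
  exact (mul_eq_zero.1 h3).resolve_left two_ne_zero

lemma Y_refl (τ : ℂ) (N : ℕ) (s : ℂ) :
    Y τ N s (-((1 + N) * τ) / 2) = Y τ N (1 - s) (-((1 + N) * τ) / 2) := by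
  unfold Y
  rw [← (Equiv.subLeft (1 : ℤ)).tsum_eq (fun m : ℤ => et τ (N * m + (1 - s)) (-((1 + N) * τ) / 2))]
  refine tsum_congr fun m => ?_
  simp only [Equiv.subLeft_apply]
  unfold et
  congr 1
  push_cast
  ring

/-- the special point -/
theorem special {N : ℕ} (hN : 3 ≤ N) : ∃ t₁ t₂ : ℝ, 0 < t₁ ∧ 0 < t₂ ∧ ∃ (a b : Fin N), a ≠ b ∧
    ∃ u v : ℂ, QQ (ox (1 + t₂ * I) 0) (ox (1 + t₂ * I) 1) (oy (t₁ * I) N) (oz (t₁ * I) N) a u v = 0 ∧
      QQ (ox (1 + t₂ * I) 0) (ox (1 + t₂ * I) 1) (oy (t₁ * I) N) (oz (t₁ * I) N) b u v = 0 ∧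
      deriv (ox (1 + t₂ * I) 0) v = 0 ∧ deriv (ox (1 + t₂ * I) 1) v = 0 := by
  obtain ⟨t₁, t₂, h1, h2, h3⟩ := tune N hN
  refine ⟨t₁, t₂, h1, h2, ⟨0, by omega⟩, ⟨1, by omega⟩, by simp, -((1 + N) * (t₁ * I)) / 2, 0,
    ?_, ?_, ?_, ?_⟩
  · unfold QQ ox oy oz
    have e1 : Y (1 + t₂ * I) 2 (((0 : ℝ)) : ℂ) 0 = ((SR t₂ 2 0 0 : ℝ) : ℂ) := by
      have := Y_real' t₂ 0
      simpa using this
    have e2 : Y (1 + t₂ * I) 2 (((1 : ℝ)) : ℂ) 0 = -((SR t₂ 2 1 0 : ℝ) : ℂ) := by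
      have := Y_real' t₂ 1
      simpa using this
    have e3 : Y (t₁ * I) N ((((0 : ℕ) : ℝ)) : ℂ) (-((1 + N) * (t₁ * I)) / 2) =
        ((SR t₁ N 0 (1 + N) : ℝ) : ℂ) := by
      have := Y_real t₁ 0 (1 + N) N
      simpa using this
    have e4 : Y (t₁ * I) N ((((0 : ℕ) : ℝ) + (N : ℝ) / 2 : ℝ) : ℂ) (-((1 + N) * (t₁ * I)) / 2) =
        ((SR t₁ N (N / 2) (1 + N) : ℝ) : ℂ) := by
      have := Y_real t₁ (N / 2) (1 + N) N
      simpa using this
    rw [e1, e2, e3, e4]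
    have h4 : ((SR t₂ 2 0 0 * SR t₁ N 0 (1 + N) : ℝ) : ℂ) =
        ((SR t₂ 2 1 0 * SR t₁ N (N / 2) (1 + N) : ℝ) : ℂ) := by rw [h3]
    push_cast at h4
    linear_combination h4
  · unfold QQ ox oy oz
    have e1 : Y (1 + t₂ * I) 2 (((0 : ℝ)) : ℂ) 0 = ((SR t₂ 2 0 0 : ℝ) : ℂ) := by
      have := Y_real' t₂ 0
      simpa using this
    have e2 : Y (1 + t₂ * I) 2 (((1 : ℝ)) : ℂ) 0 = -((SR t₂ 2 1 0 : ℝ) : ℂ) := by
      have := Y_real' t₂ 1
      simpa using this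
    have e3 : Y (t₁ * I) N ((((1 : ℕ) : ℝ)) : ℂ) (-((1 + N) * (t₁ * I)) / 2) =
        ((SR t₁ N 0 (1 + N) : ℝ) : ℂ) := by
      have := Y_real t₁ 0 (1 + N) N
      rw [← this, Y_refl]
      norm_num
    have e4 : Y (t₁ * I) N ((((1 : ℕ) : ℝ) + (N : ℝ) / 2 : ℝ) : ℂ) (-((1 + N) * (t₁ * I)) / 2) =
        ((SR t₁ N (N / 2) (1 + N) : ℝ) : ℂ) := by
      have := Y_real t₁ (N / 2) (1 + N) N
      rw [← this, Y_refl]
      have e5 : (1 - ((((1 : ℕ) : ℝ) + (N : ℝ) / 2 : ℝ) : ℂ)) = -((N : ℂ) / 2) := by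
        push_cast; ring
      rw [e5, ← Y_add_N]
      push_cast
      congr 1
      ring
    rw [e1, e2, e3, e4]
    have h4 : ((SR t₂ 2 0 0 * SR t₁ N 0 (1 + N) : ℝ) : ℂ) =
        ((SR t₂ 2 1 0 * SR t₁ N (N / 2) (1 + N) : ℝ) : ℂ) := by rw [h3]
    push_cast at h4
    linear_combination h4
  · refine deriv_even_zero fun v => ?_
    have := Y_even (1 + t₂ * I) 0 v
    simpa [ox] using this
  · refine deriv_even_zero fun v => ?_
    have := Y_even (1 + t₂ * I) 1 v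
    simpa [ox] using this

end Pool.Agent.H70.AM
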