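import Pool.Agent.H70.AM.EvenRT

/-!
Explicit size estimates for the theta functions of progressions on `ℂ / (ℤ + Q i ℤ)`.
-/

set_option autoImplicit false

open Set Topology Filter Complex

namespace Pool.Agent.H70.AM

lemma Y_hasSum {τ : ℂ} (hτ : 0 < τ.im) {N : ℕ} (hN : 0 < N) (s w : ℂ) :
    HasSum (fun m : ℤ => et τ (N * m + s) w) (Y τ N s w) :=
  (Summable.of_norm (summable_et hτ hN s w)).hasSum

lemma two_pi_I_ne : (2 * Real.pi * I : ℂ) ≠ 0 := by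
  refine mul_ne_zero (mul_ne_zero two_ne_zero ?_) I_ne_zero
  exact_mod_cast Real.pi_ne_zero

lemma Y_deriv_hasSum {τ : ℂ} (hτ : 0 < τ.im) {N : ℕ} (hN : 0 < N) (s w : ℂ) :
    HasSum (fun m : ℤ => (N * m + s) * et τ (N * m + s) w)
      (deriv (Y τ N s) w / (2 * Real.pi * I)) := by
  have hpi := two_pi_I_ne
  have him := im_pos hτ hN
  have h1 : HasDerivAt (fun w : ℂ => (N : ℂ) * (w + s * τ)) (N : ℂ) w := by
    simpa using ((hasDerivAt_id w).add_const (s * τ)).const_mul (N : ℂ)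
  have h2 : HasDerivAt (fun w => jacobiTheta₂ (N * (w + s * τ)) (N ^ 2 * τ))
      (jacobiTheta₂' (N * (w + s * τ)) (N ^ 2 * τ) * N) w :=
    HasDerivAt.comp (h₂ := fun z => jacobiTheta₂ z (N ^ 2 * τ)) w
      (hasDerivAt_jacobiTheta₂_fst _ him) h1
  have h3 := (et_hasDerivAt τ s w).mul h2
  have h4 : HasDerivAt (Y τ N s) (et τ s w * (2 * Real.pi * I * s) *
      jacobiTheta₂ (N * (w + s * τ)) (N ^ 2 * τ) +
      et τ s w * (jacobiTheta₂' (N * (w + s * τ)) (N ^ 2 * τ) * N)) w := by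
    have e1 : Y τ N s = fun w => et τ s w * jacobiTheta₂ (N * (w + s * τ)) (N ^ 2 * τ) := by
      funext w
      exact Y_eq τ N s w
    rw [e1]
    exact h3
  rw [h4.deriv]
  have h5 := ((hasSum_jacobiTheta₂_term (N * (w + s * τ)) him).mul_left
    (et τ s w * (2 * Real.pi * I * s))).add
    ((hasSum_jacobiTheta₂'_term (N * (w + s * τ)) him).mul_left (et τ s w * N))
  have h6 := h5.div_const (2 * Real.pi * I)
  have e2 : (fun m : ℤ => (N * m + s) * et τ (N * m + s) w) = fun i : ℤ =>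
      (et τ s w * (2 * Real.pi * I * s) * jacobiTheta₂_term i (N * (w + s * τ)) (N ^ 2 * τ) +
          et τ s w * N * jacobiTheta₂'_term i (N * (w + s * τ)) (N ^ 2 * τ)) /
        (2 * Real.pi * I) := by
    funext m
    rw [et_eq, jacobiTheta₂'_term, eq_div_iff hpi]
    ring
  have e3 : (et τ s w * (2 * Real.pi * I * s) * jacobiTheta₂ (N * (w + s * τ)) (N ^ 2 * τ) +
      et τ s w * (jacobiTheta₂' (N * (w + s * τ)) (N ^ 2 * τ) * N)) / (2 * Real.pi * I) =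
      (et τ s w * (2 * Real.pi * I * s) * jacobiTheta₂ (N * (w + s * τ)) (N ^ 2 * τ) +
      et τ s w * N * jacobiTheta₂' (N * (w + s * τ)) (N ^ 2 * τ)) / (2 * Real.pi * I) := by
    congr 1
    ring
  rw [e2, e3]
  exact h6

lemma norm_et {Q : ℝ} (hQ : 0 < Q) (x : ℝ) (w : ℂ) :
    ‖et ((Q : ℂ) * I) (x : ℂ) w‖ = Real.exp (Real.pi * Q * (-(w.im / Q)) ^ 2) *
      Real.exp (-(Real.pi * Q * (x - -(w.im / Q)) ^ 2)) := by
  unfold et
  rw [Complex.norm_exp, ← Real.exp_add]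
  congr 1
  have h1 : ((Real.pi : ℂ) * I * ((Q : ℂ) * I) * (x : ℂ) ^ 2 + 2 * Real.pi * I * (x : ℂ) * w) =
      ((-(Real.pi * Q * x ^ 2) : ℝ) : ℂ) + ((2 * Real.pi * x : ℝ) : ℂ) * (I * w) := by
    push_cast
    linear_combination (Real.pi * Q * x ^ 2 : ℂ) * Complex.I_sq
  rw [h1, Complex.add_re, Complex.ofReal_re, Complex.re_ofReal_mul]
  have h2 : (I * w).re = -w.im := by simp
  rw [h2]
  field_simp
  ring

/-- the weights of the tails -/
noncomputable def tw (N : ℕ) (j : ℤ) : ℝ := (N + 1) * ((1 + |(j : ℝ)|) * Real.exp (-|(j : ℝ)|))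

lemma tw_nonneg (N : ℕ) (j : ℤ) : 0 ≤ tw N j := by unfold tw; positivity

lemma tw_summable (N : ℕ) : Summable (tw N) := by
  unfold tw
  refine Summable.mul_left _ ?_
  have h1 : Summable fun n : ℕ => (1 + (n : ℝ)) * Real.exp (-(n : ℝ)) := by
    have h2 := Real.summable_pow_mul_exp_neg_nat_mul 0 (one_pos)
    have h3 := Real.summable_pow_mul_exp_neg_nat_mul 1 (one_pos)
    refine (h2.add h3).congr fun n => ?_
    simp
    ring
  refine Summable.of_nat_of_neg ?_ ?_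
  · refine h1.congr fun n => ?_
    simp
  · refine h1.congr fun n => ?_
    simp

/-- the constant -/
noncomputable def kap (N : ℕ) : ℝ := ∑' j, tw N j

lemma kap_pos (N : ℕ) : 0 < kap N := by
  refine (tw_summable N).tsum_pos (tw_nonneg N) 0 ?_
  unfold tw
  positivity

lemma tail_le {f : ℤ → ℂ} {S : ℂ} (hf : HasSum f S) (N : ℕ) (A : ℝ) (hA : 0 ≤ A)
    (h : ∀ j, j ≠ 0 → ‖f j‖ ≤ A * tw N j) : ‖S - f 0‖ ≤ A * kap N := by
  have h1 := hasSum_ite_sub_hasSum hf 0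
  refine h1.norm_le_of_bounded (((tw_summable N).hasSum).mul_left A) fun j => ?_
  by_cases hj : j = 0
  · simp only [hj, if_true, norm_zero]
    exact mul_nonneg hA (tw_nonneg N 0)
  · simp only [hj, if_false]
    exact h j hj

lemma all_le {f : ℤ → ℂ} {S : ℂ} (hf : HasSum f S) (N : ℕ) (A : ℝ)
    (h : ∀ j, ‖f j‖ ≤ A * tw N j) : ‖S‖ ≤ A * kap N :=
  hf.norm_le_of_bounded (((tw_summable N).hasSum).mul_left A) h

lemma abs_le_sq (j : ℤ) : |(j : ℝ)| ≤ (j : ℝ) ^ 2 := by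
  have : |j| ≤ j ^ 2 := by
    rw [← sq_abs]
    rcases eq_or_ne j 0 with h | h
    · simp [h]
    · have : 1 ≤ |j| := Int.one_le_abs h
      nlinarith
  exact_mod_cast this

/-- nontransitional decay -/
lemma decay1 {N : ℕ} (hN : 0 < N) {x : ℝ} (hx : |x| ≤ N / 2 - 1 / 4) (j : ℤ) :
    x ^ 2 + |(j : ℝ)| / 2 ≤ (x + N * j) ^ 2 := by
  have h1 : (1 : ℝ) ≤ N := by exact_mod_cast hN
  have h2 := abs_le_sq j
  have h3 : -(|x| * |(j : ℝ)|) ≤ x * j := by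
    rw [← abs_mul]; exact neg_abs_le _
  have h4 : |x| * |(j : ℝ)| ≤ (N / 2 - 1 / 4) * |(j : ℝ)| := by gcongr
  have h5 : (N : ℝ) * (-((N / 2 - 1 / 4) * |(j : ℝ)|)) ≤ N * (x * j) := by
    gcongr
    linarith
  have h6 : (N : ℝ) ^ 2 * |(j : ℝ)| ≤ N ^ 2 * (j : ℝ) ^ 2 := by gcongr
  have h7 : |(j : ℝ)| ≤ N * |(j : ℝ)| := by
    have := abs_nonneg (j : ℝ)
    nlinarith
  nlinarith

/-- general decay -/
lemma decay2 {N : ℕ} (hN : 0 < N) {x : ℝ} (hx : |x| ≤ N / 2) (j : ℤ) :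
    x ^ 2 + (|(j : ℝ)| - 1) ≤ (x + N * j) ^ 2 := by
  have h1 : (1 : ℝ) ≤ N := by exact_mod_cast hN
  have h2 := abs_le_sq j
  have h3 : -(|x| * |(j : ℝ)|) ≤ x * j := by
    rw [← abs_mul]; exact neg_abs_le _
  have h4 : |x| * |(j : ℝ)| ≤ (N / 2) * |(j : ℝ)| := by gcongr
  have h5 : (N : ℝ) * (-((N / 2) * |(j : ℝ)|)) ≤ N * (x * j) := by
    gcongr
    linarith
  have h6 : 0 ≤ ((N : ℝ) ^ 2 - 1) * ((j : ℝ) ^ 2 - |(j : ℝ)|) := by
    apply mul_nonneg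
    · nlinarith
    · linarith
  have h7 : (j : ℝ) ^ 2 = |(j : ℝ)| ^ 2 := (sq_abs _).symm
  nlinarith [sq_nonneg (|(j : ℝ)| - 1)]

/-- decay from the second nearest point -/
lemma decay3 {N : ℕ} (hN : 0 < N) {x : ℝ} (hx1 : |x| ≤ N / 2 + 1 / 4)
    (j : ℤ) (hj : 0 < j * x ∨ 2 ≤ |j|) :
    x ^ 2 + |(j : ℝ)| / 2 ≤ (x + N * j) ^ 2 := by
  have h1 : (1 : ℝ) ≤ N := by exact_mod_cast hN
  have h2 := abs_le_sq j
  have h8 : (1 : ℝ) ≤ (N : ℝ) ^ 2 := by nlinarith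
  rcases hj with hj | hj
  · have h3 : (0 : ℝ) < x * j := by rw [mul_comm]; exact hj
    have h4 : 0 ≤ ((N : ℝ) ^ 2 - 1) * (j : ℝ) ^ 2 := mul_nonneg (by linarith) (sq_nonneg _)
    have h5 : 0 < (N : ℝ) * (x * j) := by positivity
    have h6 := abs_nonneg (j : ℝ)
    nlinarith
  · have h3 : -(|x| * |(j : ℝ)|) ≤ x * j := by
      rw [← abs_mul]; exact neg_abs_le _
    have h4 : |x| * |(j : ℝ)| ≤ (N / 2 + 1 / 4) * |(j : ℝ)| := by gcongr
    have h5 : (N : ℝ) * (-((N / 2 + 1 / 4) * |(j : ℝ)|)) ≤ N * (x * j) := by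
      gcongr
      linarith
    have hj' : (2 : ℝ) ≤ |(j : ℝ)| := by exact_mod_cast hj
    have h7 : (j : ℝ) ^ 2 = |(j : ℝ)| ^ 2 := (sq_abs _).symm
    have h9 : 2 * |(j : ℝ)| ≤ (j : ℝ) ^ 2 := by rw [h7]; nlinarith
    have h10 : (N : ℝ) ^ 2 * (2 * |(j : ℝ)|) ≤ N ^ 2 * (j : ℝ) ^ 2 := by gcongr
    have h11 : (N : ℝ) * |(j : ℝ)| ≤ (N : ℝ) ^ 2 * |(j : ℝ)| := by
      gcongr
      nlinarith
    have h12 : |(j : ℝ)| ≤ N * |(j : ℝ)| := by
      have := abs_nonneg (j : ℝ)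
      nlinarith
    nlinarith

lemma ex1 {Q x x' : ℝ} {j : ℤ} (hQ : 2 ≤ Real.pi * Q) (hj : j ≠ 0)
    (h : x ^ 2 + |(j : ℝ)| / 2 ≤ x' ^ 2) :
    Real.exp (-(Real.pi * Q * x' ^ 2)) ≤ Real.exp (-(Real.pi * Q * x ^ 2)) *
      (Real.exp (1 - Real.pi * Q / 2) * Real.exp (-|(j : ℝ)|)) := by
  rw [← Real.exp_add, ← Real.exp_add]
  apply Real.exp_le_exp.2
  have h1 : (1 : ℝ) ≤ |(j : ℝ)| := by exact_mod_cast Int.one_le_abs hj
  have h2 : Real.pi * Q * (x ^ 2 + |(j : ℝ)| / 2) ≤ Real.pi * Q * x' ^ 2 := by gcongr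
  nlinarith

lemma ex2 {Q x : ℝ} {N : ℕ} {j : ℤ} (hQ : 2 ≤ Real.pi * Q)
    (h : x ^ 2 + (|(j : ℝ)| - 1) ≤ (x + N * j) ^ 2) :
    Real.exp (-(Real.pi * Q * (x + N * j) ^ 2)) ≤ Real.exp (-(Real.pi * Q * x ^ 2)) *
      (Real.exp 1 * Real.exp (-|(j : ℝ)|)) := by
  rw [← Real.exp_add, ← Real.exp_add]
  apply Real.exp_le_exp.2
  by_cases hj : j = 0
  · subst hj
    simp
  · have h1 : (1 : ℝ) ≤ |(j : ℝ)| := by exact_mod_cast Int.one_le_abs hj
    have h2 : Real.pi * Q * (x ^ 2 + (|(j : ℝ)| - 1)) ≤ Real.pi * Q * (x + N * j) ^ 2 := by gcongr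
    nlinarith

/-- the local description of the values `y c` and the derivatives `d c` of the theta functions -/
def Loc (N : ℕ) (Q K δ : ℝ) (y d : Fin N → ℂ) : Prop :=
  ∃ (t E : ℝ) (n : Fin N → ℤ), 0 < E ∧ (∀ c, (N : ℤ) ∣ n c - ((c : ℕ) : ℤ)) ∧
    (∀ c, |(n c : ℝ) - t| ≤ N / 2) ∧
    (∀ c, ‖y c‖ ≤ K * (E * Real.exp (-(Real.pi * Q * ((n c : ℝ) - t) ^ 2)))) ∧
    (∀ c, ‖d c - n c * y c‖ ≤ K * (E * Real.exp (-(Real.pi * Q * ((n c : ℝ) - t) ^ 2)))) ∧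
    (∀ c, |(n c : ℝ) - t| ≤ N / 2 - 1 / 4 →
      E * Real.exp (-(Real.pi * Q * ((n c : ℝ) - t) ^ 2)) ≤ 2 * ‖y c‖ ∧
      ‖d c - n c * y c‖ ≤ δ * ‖y c‖) ∧
    (∀ c, N / 2 - 1 / 4 < |(n c : ℝ) - t| →
      E * Real.exp (-(Real.pi * Q * (N : ℝ) ^ 2)) ≤ 2 * ‖d c - n c * y c‖)

/-- one class -/
lemma loc_one {N : ℕ} (hN : 0 < N) {Q : ℝ} (hQ0 : 0 < Q) (hQ : 2 ≤ Real.pi * Q)
    (hδ : kap N * Real.exp (1 - Real.pi * Q / 2) ≤ 1 / 2) (w : ℂ) (c : ℕ) :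
    ∃ n : ℤ, (N : ℤ) ∣ n - (c : ℤ) ∧ |(n : ℝ) - -(w.im / Q)| ≤ N / 2 ∧
    ‖Y ((Q : ℂ) * I) N (((c : ℕ) : ℝ) : ℂ) w‖ ≤ (Real.exp 1 * kap N) *
      (Real.exp (Real.pi * Q * (-(w.im / Q)) ^ 2) *
        Real.exp (-(Real.pi * Q * ((n : ℝ) - -(w.im / Q)) ^ 2))) ∧
    ‖deriv (Y ((Q : ℂ) * I) N (((c : ℕ) : ℝ) : ℂ)) w / (2 * Real.pi * I) -
      n * Y ((Q : ℂ) * I) N (((c : ℕ) : ℝ) : ℂ) w‖ ≤ (Real.exp 1 * kap N) *
      (Real.exp (Real.pi * Q * (-(w.im / Q)) ^ 2) *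
        Real.exp (-(Real.pi * Q * ((n : ℝ) - -(w.im / Q)) ^ 2))) ∧
    (|(n : ℝ) - -(w.im / Q)| ≤ N / 2 - 1 / 4 →
      (Real.exp (Real.pi * Q * (-(w.im / Q)) ^ 2) *
        Real.exp (-(Real.pi * Q * ((n : ℝ) - -(w.im / Q)) ^ 2)) ≤
        2 * ‖Y ((Q : ℂ) * I) N (((c : ℕ) : ℝ) : ℂ) w‖) ∧
      ‖deriv (Y ((Q : ℂ) * I) N (((c : ℕ) : ℝ) : ℂ)) w / (2 * Real.pi * I) -
      n * Y ((Q : ℂ) * I) N (((c : ℕ) : ℝ) : ℂ) w‖ ≤
      (2 * (kap N * Real.exp (1 - Real.pi * Q / 2))) *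
        ‖Y ((Q : ℂ) * I) N (((c : ℕ) : ℝ) : ℂ) w‖) ∧
    (N / 2 - 1 / 4 < |(n : ℝ) - -(w.im / Q)| →
      Real.exp (Real.pi * Q * (-(w.im / Q)) ^ 2) * Real.exp (-(Real.pi * Q * (N : ℝ) ^ 2)) ≤
      2 * ‖deriv (Y ((Q : ℂ) * I) N (((c : ℕ) : ℝ) : ℂ)) w / (2 * Real.pi * I) -
      n * Y ((Q : ℂ) * I) N (((c : ℕ) : ℝ) : ℂ) w‖) := by
  set t : ℝ := -(w.im / Q) with ht
  set E : ℝ := Real.exp (Real.pi * Q * t ^ 2) with hE
  have hE0 : 0 < E := Real.exp_pos _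
  set y : ℂ := Y ((Q : ℂ) * I) N (((c : ℕ) : ℝ) : ℂ) w with hy
  set d : ℂ := deriv (Y ((Q : ℂ) * I) N (((c : ℕ) : ℝ) : ℂ)) w / (2 * Real.pi * I) with hd
  set m₀ : ℤ := round ((t - c) / N) with hm₀
  set n : ℤ := N * m₀ + c with hn
  set x : ℝ := (n : ℝ) - t with hx
  have hN' : (0 : ℝ) < N := by exact_mod_cast hN
  have hN1 : (1 : ℝ) ≤ N := by exact_mod_cast hN
  have hκ := kap_pos N
  have hxN : |x| ≤ N / 2 := by
    have h1 := abs_sub_round ((t - c) / N)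
    have h2 : x = -(N * ((t - c) / N - (round ((t - c) / N) : ℝ))) := by
      rw [hx, hn, ← hm₀]
      push_cast
      field_simp
      ring
    rw [h2, abs_neg, abs_mul, abs_of_pos hN']
    calc (N : ℝ) * |(t - c) / N - (round ((t - c) / N) : ℝ)| ≤ N * (1 / 2) := by gcongr
      _ = N / 2 := by ring
  have him : 0 < ((Q : ℂ) * I).im := by simp [hQ0]
  let φ : ℤ → ℂ := fun j => et ((Q : ℂ) * I) (((n + N * j : ℝ)) : ℂ) w
  have hφn : ∀ j, ‖φ j‖ = E * Real.exp (-(Real.pi * Q * (x + N * j) ^ 2)) := by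
    intro j
    simp only [φ]
    rw [norm_et hQ0, ← ht, ← hE]
    congr 3
    rw [hx]
    ring
  have hφ0 : ‖φ 0‖ = E * Real.exp (-(Real.pi * Q * x ^ 2)) := by
    rw [hφn 0]; simp
  have hφ0p : 0 < ‖φ 0‖ := by rw [hφ0]; positivity
  have e1 : HasSum φ y := by
    have h1 := Y_hasSum him hN (((c : ℕ) : ℝ) : ℂ) w
    have h2 := (Equiv.addLeft m₀).hasSum_iff.2 h1
    have h3 : φ = (fun m : ℤ => et ((Q : ℂ) * I) (N * m + (((c : ℕ) : ℝ) : ℂ)) w) ∘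
        (Equiv.addLeft m₀) := by
      funext j
      simp only [φ, Function.comp_apply, Equiv.coe_addLeft]
      congr 1
      rw [hn]
      push_cast
      ring
    rw [h3]
    exact h2
  have e2 : HasSum (fun j : ℤ => ((N * j : ℝ) : ℂ) * φ j) (d - n * y) := by
    have h1 := Y_deriv_hasSum him hN (((c : ℕ) : ℝ) : ℂ) w
    have h2 := (Equiv.addLeft m₀).hasSum_iff.2 h1
    have h3 := h2.sub (e1.mul_left (n : ℂ))
    have h4 : (fun j : ℤ => ((N * j : ℝ) : ℂ) * φ j) = fun j : ℤ =>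
        ((fun m : ℤ => (N * m + (((c : ℕ) : ℝ) : ℂ)) *
        et ((Q : ℂ) * I) (N * m + (((c : ℕ) : ℝ) : ℂ)) w) ∘ (Equiv.addLeft m₀)) j - n * φ j := by
      funext j
      have h5 : ((n + N * j : ℝ) : ℂ) = N * ((m₀ + j : ℤ) : ℂ) + (((c : ℕ) : ℝ) : ℂ) := by
        rw [hn]
        push_cast
        ring
      simp only [φ, Function.comp_apply, Equiv.coe_addLeft]
      rw [← h5]
      push_cast
      ring
    rw [h4]
    exact h3
  -- general upper bounds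
  have u1 : ∀ j, ‖φ j‖ ≤ (Real.exp 1 * ‖φ 0‖) * Real.exp (-|(j : ℝ)|) := by
    intro j
    rw [hφn, hφ0]
    have := ex2 (N := N) hQ (decay2 hN hxN j)
    calc E * Real.exp (-(Real.pi * Q * (x + N * j) ^ 2)) ≤ E * (Real.exp (-(Real.pi * Q * x ^ 2)) *
      (Real.exp 1 * Real.exp (-|(j : ℝ)|))) := by gcongr
      _ = _ := by ring
  have tw1 : ∀ j : ℤ, Real.exp (-|(j : ℝ)|) ≤ tw N j := by
    intro j
    unfold tw
    have h1 : (1 : ℝ) ≤ (N + 1) * (1 + |(j : ℝ)|) := by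
      have := abs_nonneg (j : ℝ)
      nlinarith
    calc Real.exp (-|(j : ℝ)|) = 1 * Real.exp (-|(j : ℝ)|) := by ring
      _ ≤ ((N + 1) * (1 + |(j : ℝ)|)) * Real.exp (-|(j : ℝ)|) := by gcongr
      _ = _ := by ring
  have tw2 : ∀ j : ℤ, (N * (1 + |(j : ℝ)|)) * Real.exp (-|(j : ℝ)|) ≤ tw N j := by
    intro j
    unfold tw
    have := abs_nonneg (j : ℝ)
    calc (N * (1 + |(j : ℝ)|)) * Real.exp (-|(j : ℝ)|)
        ≤ ((N + 1) * (1 + |(j : ℝ)|)) * Real.exp (-|(j : ℝ)|) := by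
          gcongr
          linarith
      _ = _ := by ring
  have hNj : ∀ j : ℤ, ‖((N * j : ℝ) : ℂ)‖ ≤ N * (1 + |(j : ℝ)|) := by
    intro j
    rw [Complex.norm_real, Real.norm_eq_abs, abs_mul, abs_of_pos hN']
    gcongr
    linarith
  refine ⟨n, ⟨m₀, by rw [hn]; ring⟩, hxN, ?_, ?_, ?_, ?_⟩
  · rw [← hφ0]
    have := all_le e1 N (Real.exp 1 * ‖φ 0‖) fun j => (u1 j).trans (by gcongr; exact tw1 j)
    linarith
  · rw [← hφ0]
    have := all_le e2 N (Real.exp 1 * ‖φ 0‖) fun j => by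
      rw [norm_mul]
      calc ‖((N * j : ℝ) : ℂ)‖ * ‖φ j‖
          ≤ (N * (1 + |(j : ℝ)|)) * ((Real.exp 1 * ‖φ 0‖) * Real.exp (-|(j : ℝ)|)) := by
            gcongr
            · exact hNj j
            · exact u1 j
        _ = (Real.exp 1 * ‖φ 0‖) * ((N * (1 + |(j : ℝ)|)) * Real.exp (-|(j : ℝ)|)) := by ring
        _ ≤ _ := by gcongr; exact tw2 j
    linarith
  · intro hx4
    have v1 : ∀ j : ℤ, j ≠ 0 → ‖φ j‖ ≤ (‖φ 0‖ * Real.exp (1 - Real.pi * Q / 2)) *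
        Real.exp (-|(j : ℝ)|) := by
      intro j hj
      rw [hφn, hφ0]
      have := ex1 (j := j) hQ hj (decay1 hN hx4 j)
      calc E * Real.exp (-(Real.pi * Q * (x + N * j) ^ 2)) ≤
        E * (Real.exp (-(Real.pi * Q * x ^ 2)) *
        (Real.exp (1 - Real.pi * Q / 2) * Real.exp (-|(j : ℝ)|))) := by gcongr
        _ = _ := by ring
    have w1 := tail_le e1 N (‖φ 0‖ * Real.exp (1 - Real.pi * Q / 2)) (by positivity)
      fun j hj => (v1 j hj).trans (by gcongr; exact tw1 j)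
    have w2 := tail_le e2 N (‖φ 0‖ * Real.exp (1 - Real.pi * Q / 2)) (by positivity)
      fun j hj => by
        rw [norm_mul]
        calc ‖((N * j : ℝ) : ℂ)‖ * ‖φ j‖
          ≤ (N * (1 + |(j : ℝ)|)) * ((‖φ 0‖ * Real.exp (1 - Real.pi * Q / 2)) *
            Real.exp (-|(j : ℝ)|)) := mul_le_mul (hNj j) (v1 j hj) (norm_nonneg _) (by positivity)
          _ = (‖φ 0‖ * Real.exp (1 - Real.pi * Q / 2)) *
            ((N * (1 + |(j : ℝ)|)) * Real.exp (-|(j : ℝ)|)) := by ring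
          _ ≤ _ := by gcongr; exact tw2 j
    have w3 : d - n * y - ((N * ((0 : ℤ) : ℝ) : ℝ) : ℂ) * φ 0 = d - n * y := by simp
    rw [w3] at w2
    have w4 : ‖φ 0‖ ≤ 2 * ‖y‖ := by
      have h1 : ‖φ 0‖ ≤ ‖y‖ + ‖y - φ 0‖ := by
        have := norm_sub_norm_le (φ 0) y
        rw [norm_sub_rev] at this
        linarith
      have h2 : ‖φ 0‖ * Real.exp (1 - Real.pi * Q / 2) * kap N ≤ ‖φ 0‖ * (1 / 2) := by
        rw [mul_assoc]
        gcongr
        linarith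
      linarith
    refine ⟨by rw [← hφ0]; exact w4, w2.trans ?_⟩
    have : 0 ≤ Real.exp (1 - Real.pi * Q / 2) * kap N := by positivity
    nlinarith
  · intro hx4
    -- the second nearest point
    obtain ⟨σ, hσ, hσx⟩ : ∃ σ : ℤ, (σ = 1 ∨ σ = -1) ∧ σ * x = -|x| := by
      rcases le_or_gt x 0 with h | h
      · exact ⟨1, Or.inl rfl, by rw [abs_of_nonpos h]; push_cast; ring⟩
      · exact ⟨-1, Or.inr rfl, by rw [abs_of_pos h]; push_cast; ring⟩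
    have hσ2 : (σ : ℝ) * σ = 1 := by
      rcases hσ with h | h <;> rw [h] <;> norm_num
    set x' : ℝ := x + N * σ with hx'
    have hσx' : σ * x' = N - |x| := by
      rw [hx', mul_add, hσx]
      linear_combination (N : ℝ) * hσ2
    have hx'abs : |x'| = N - |x| := by
      have h1 : |(σ : ℝ) * x'| = |x'| := by
        rw [abs_mul]
        rcases hσ with h | h <;> rw [h] <;> simp
      rw [← h1, hσx', abs_of_nonneg]
      linarith
    have hx'1 : |x'| ≤ N / 2 + 1 / 4 := by rw [hx'abs]; linarith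
    let ψ : ℤ → ℂ := fun j => ((N * (σ + j : ℤ) : ℝ) : ℂ) * φ (σ + j)
    have e3 : HasSum ψ (d - n * y) := by
      have h1 := (Equiv.addLeft σ).hasSum_iff.2 e2
      have h2 : ψ = (fun j : ℤ => ((N * j : ℝ) : ℂ) * φ j) ∘ (Equiv.addLeft σ) := by
        funext j
        simp only [ψ, Function.comp_apply, Equiv.coe_addLeft]
      rw [h2]
      exact h1
    have hψn : ∀ j : ℤ, ‖φ (σ + j)‖ = E * Real.exp (-(Real.pi * Q * (x' + N * j) ^ 2)) := by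
      intro j
      rw [hφn, hx']
      congr 3
      push_cast
      ring
    have hψ0 : ‖φ (σ + 0)‖ = E * Real.exp (-(Real.pi * Q * x' ^ 2)) := by
      rw [hψn 0]; simp
    have hψp : 0 < ‖φ (σ + 0)‖ := by rw [hψ0]; positivity
    have v1 : ∀ j : ℤ, j ≠ 0 → ‖ψ j‖ ≤ (‖φ (σ + 0)‖ * Real.exp (1 - Real.pi * Q / 2)) * tw N j := by
      intro j hj
      by_cases hjσ : j = -σ
      · have : ψ j = 0 := by
          simp only [ψ, hjσ]
          simp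
        rw [this, norm_zero]
        exact mul_nonneg (by positivity) (tw_nonneg N j)
      · have hcase : 0 < (j : ℝ) * x' ∨ 2 ≤ |j| := by
          by_cases h2 : 2 ≤ |j|
          · exact Or.inr h2
          · left
            have h3 : |j| = 1 := by
              have := Int.one_le_abs hj
              omega
            have h4 : j = σ := by
              rcases hσ with h | h
              · subst h
                rcases (abs_eq (by norm_num : (0 : ℤ) ≤ 1)).1 h3 with h5 | h5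
                · exact h5
                · exact absurd h5 hjσ
              · subst h
                rcases (abs_eq (by norm_num : (0 : ℤ) ≤ 1)).1 h3 with h5 | h5
                · exact absurd h5 (by simpa using hjσ)
                · exact h5
            rw [h4, hσx']
            linarith
        have h5 := ex1 (j := j) hQ hj (decay3 hN hx'1 j hcase)
        have h6 : ‖φ (σ + j)‖ ≤ (‖φ (σ + 0)‖ * Real.exp (1 - Real.pi * Q / 2)) *
            Real.exp (-|(j : ℝ)|) := by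
          rw [hψn, hψ0]
          calc E * Real.exp (-(Real.pi * Q * (x' + N * j) ^ 2)) ≤
            E * (Real.exp (-(Real.pi * Q * x' ^ 2)) *
            (Real.exp (1 - Real.pi * Q / 2) * Real.exp (-|(j : ℝ)|))) := by gcongr
            _ = _ := by ring
        have h7 : ‖((N * (σ + j : ℤ) : ℝ) : ℂ)‖ ≤ N * (1 + |(j : ℝ)|) := by
          rw [Complex.norm_real, Real.norm_eq_abs, abs_mul, abs_of_pos hN']
          gcongr
          push_cast
          refine (abs_add_le _ _).trans ?_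
          have : |(σ : ℝ)| = 1 := by
            rcases hσ with h | h <;> rw [h] <;> simp
          rw [this]
        simp only [ψ]
        rw [norm_mul]
        calc ‖((N * (σ + j : ℤ) : ℝ) : ℂ)‖ * ‖φ (σ + j)‖
          ≤ (N * (1 + |(j : ℝ)|)) * ((‖φ (σ + 0)‖ * Real.exp (1 - Real.pi * Q / 2)) *
            Real.exp (-|(j : ℝ)|)) := by gcongr
          _ = (‖φ (σ + 0)‖ * Real.exp (1 - Real.pi * Q / 2)) *
            ((N * (1 + |(j : ℝ)|)) * Real.exp (-|(j : ℝ)|)) := by ring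
          _ ≤ _ := by gcongr; exact tw2 j
    have w1 := tail_le e3 N _ (by positivity) v1
    have w2 : ‖ψ 0‖ = N * ‖φ (σ + 0)‖ := by
      simp only [ψ]
      rw [norm_mul, Complex.norm_real, Real.norm_eq_abs, abs_mul, abs_of_pos hN']
      have : |((σ + 0 : ℤ) : ℝ)| = 1 := by
        rcases hσ with h | h <;> rw [h] <;> simp
      rw [this]
      ring
    have w3 : ‖φ (σ + 0)‖ * Real.exp (1 - Real.pi * Q / 2) * kap N ≤ ‖φ (σ + 0)‖ * (1 / 2) := by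
      rw [mul_assoc]
      gcongr
      linarith
    have w4 : ‖ψ 0‖ ≤ ‖d - n * y‖ + ‖d - n * y - ψ 0‖ := by
      have := norm_sub_norm_le (ψ 0) (d - n * y)
      rw [norm_sub_rev (ψ 0)] at this
      linarith
    have w5 : ‖φ (σ + 0)‖ ≤ 2 * ‖d - n * y‖ := by
      have : ‖φ (σ + 0)‖ ≤ N * ‖φ (σ + 0)‖ := by nlinarith
      linarith
    refine le_trans ?_ w5
    rw [hψ0]
    have h8 : x' ^ 2 ≤ (N : ℝ) ^ 2 := by
      rw [← sq_abs]
      apply pow_le_pow_left₀ (abs_nonneg _)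
      linarith
    gcongr

theorem Y_loc {N : ℕ} (hN : 0 < N) {Q : ℝ} (hQ0 : 0 < Q) (hQ : 2 ≤ Real.pi * Q)
    (hδ : kap N * Real.exp (1 - Real.pi * Q / 2) ≤ 1 / 2) (w : ℂ) :
    Loc N Q (Real.exp 1 * kap N) (2 * (kap N * Real.exp (1 - Real.pi * Q / 2)))
      (fun c => Y ((Q : ℂ) * I) N (((c : ℕ) : ℝ) : ℂ) w)
      (fun c => deriv (Y ((Q : ℂ) * I) N (((c : ℕ) : ℝ) : ℂ)) w / (2 * Real.pi * I)) := by
  have h := fun c : Fin N => loc_one hN hQ0 hQ hδ w (c : ℕ)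
  choose n h1 h2 h3 h4 h5 h6 using h
  exact ⟨-(w.im / Q), _, n, Real.exp_pos _, h1, h2, h3, h4, h5, h6⟩

end Pool.Agent.H70.AM
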