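import Pool.Agent.H70.AM.Dom
import Pool.Agent.H70.AM.Even

/-!
Sums of products with a two dimensional block: definitions and derivatives.
-/

set_option autoImplicit false
set_option linter.unusedSectionVars false

open Set Topology Filter
open scoped ENNReal NNReal

namespace Pool.Agent.H70.AM

/-- the two by two determinant -/
noncomputable def W2 {N : ℕ} (y z : Fin N → ℂ → ℂ) (a b : Fin N) (u : ℂ) : ℂ :=
  y a u * z b u - z a u * y b u

/-- the derivative of the determinant -/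
noncomputable def W2' {N : ℕ} (y z : Fin N → ℂ → ℂ) (a b : Fin N) (u : ℂ) : ℂ :=
  deriv (y a) u * z b u + y a u * deriv (z b) u - deriv (z a) u * y b u - z a u * deriv (y b) u

/-- the hypotheses on the functions of the block -/
structure Pend (N : ℕ) (x0 x1 : ℂ → ℂ) (y z : Fin N → ℂ → ℂ) : Prop where
  dx0 : Differentiable ℂ x0
  dx1 : Differentiable ℂ x1
  dy : ∀ c, Differentiable ℂ (y c)
  dz : ∀ c, Differentiable ℂ (z c)
  hx : ∀ v, ¬ (x0 v = 0 ∧ x1 v = 0)
  hy : ∀ c u, ¬ (y c u = 0 ∧ z c u = 0)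
  indep : ∀ α β : ℂ, ¬ (α = 0 ∧ β = 0) → ∃ v, α * x0 v + β * x1 v ≠ 0
  omega : ∃ v, x0 v * deriv x1 v - x1 v * deriv x0 v ≠ 0
  wsimple : ∀ a b, a ≠ b → ∀ u, W2 y z a b u = 0 → W2' y z a b u ≠ 0
  wdisj : ∀ a b c u, a ≠ b → a ≠ c → W2 y z a b u = 0 → W2 y z a c u = 0 → b = c
  wzero : ∀ a b, a ≠ b → ∃ u, W2 y z a b u = 0
  wr : ∀ c₁ : Fin N, ∃ a b, a ≠ c₁ ∧ b ≠ c₁ ∧ a ≠ b ∧ ∀ α β : ℂ, ¬ (α = 0 ∧ β = 0) → ∃ u,
    (α * y a u + β * z a u) * (α * deriv (y b) u + β * deriv (z b) u) -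
      (α * y b u + β * z b u) * (α * deriv (y a) u + β * deriv (z a) u) ≠ 0

section

variable {J : Type} [Fintype J] [DecidableEq J] {N : ℕ}

/-- the remaining indices -/
def Jp (j₁ j₂ : J) : Finset J := (Finset.univ.erase j₁).erase j₂

lemma mem_Jp {j₁ j₂ j : J} : j ∈ Jp j₁ j₂ ↔ j ≠ j₂ ∧ j ≠ j₁ := by
  unfold Jp
  rw [Finset.mem_erase, Finset.mem_erase]
  simp

/-- the block functions -/
noncomputable def QQ (x0 x1 : ℂ → ℂ) (y z : Fin N → ℂ → ℂ) (c : Fin N) (u v : ℂ) : ℂ :=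
  x0 v * y c u + x1 v * z c u

/-- the remaining product -/
noncomputable def RR (j₁ j₂ : J) (X : J → Fin N → ℂ → ℂ) (c : Fin N) (w : J → ℂ) : ℂ :=
  ∏ j ∈ Jp j₁ j₂, X j c (w j)

/-- the function -/
noncomputable def GF (j₁ j₂ : J) (x0 x1 : ℂ → ℂ) (y z : Fin N → ℂ → ℂ)
    (X : J → Fin N → ℂ → ℂ) (w : J → ℂ) : ℂ :=
  ∑ c, QQ x0 x1 y z c (w j₁) (w j₂) * RR j₁ j₂ X c w

lemma fderiv_zero_iff {F : (J → ℂ) → ℂ} {w : J → ℂ} (hF : DifferentiableAt ℂ F w) (d : J → ℂ)
    (hd : ∀ j, HasDerivAt (fun x => F (Function.update w j x)) (d j) (w j)) :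
    fderiv ℂ F w = 0 ↔ ∀ j, d j = 0 := by
  have h1 : ∀ j, fderiv ℂ F w (Pi.single j 1) = d j := by
    intro j
    have h2 : HasDerivAt (fun x => Function.update w j x) (Pi.single j (1 : ℂ)) (w j) :=
      hasDerivAt_update w j (w j)
    have h3 : HasFDerivAt F (fderiv ℂ F w) (Function.update w j (w j)) := by
      rw [Function.update_eq_self]
      exact hF.hasFDerivAt
    exact (h3.comp_hasDerivAt (w j) h2).unique (hd j)
  constructor
  · intro h j
    rw [← h1, h]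
    rfl
  · intro h
    ext v
    have h4 : v = ∑ j, v j • (Pi.single j (1 : ℂ) : J → ℂ) := by
      funext i
      simp [Finset.sum_apply, Pi.single_apply]
    rw [h4, map_sum]
    simp only [map_smul, h1, h, smul_zero, Finset.sum_const_zero]
    rfl

variable {j₁ j₂ : J} {x0 x1 : ℂ → ℂ} {y z : Fin N → ℂ → ℂ} {X : J → Fin N → ℂ → ℂ}

lemma QQ_analytic (hP : Pend N x0 x1 y z) (c : Fin N) (q : ℂ × ℂ) :
    AnalyticAt ℂ (fun q : ℂ × ℂ => QQ x0 x1 y z c q.1 q.2) q := by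
  unfold QQ
  have h1 : AnalyticAt ℂ (fun q : ℂ × ℂ => x0 q.2) q := (hP.dx0.analyticAt q.2).comp analyticAt_snd
  have h2 : AnalyticAt ℂ (fun q : ℂ × ℂ => x1 q.2) q := (hP.dx1.analyticAt q.2).comp analyticAt_snd
  have h3 : AnalyticAt ℂ (fun q : ℂ × ℂ => y c q.1) q :=
    ((hP.dy c).analyticAt q.1).comp analyticAt_fst
  have h4 : AnalyticAt ℂ (fun q : ℂ × ℂ => z c q.1) q :=
    ((hP.dz c).analyticAt q.1).comp analyticAt_fst
  exact (h1.mul h3).add (h2.mul h4)

lemma coord_analytic (j : J) (w : J → ℂ) : AnalyticAt ℂ (fun w : J → ℂ => w j) w :=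
  (ContinuousLinearMap.proj (R := ℂ) (φ := fun _ : J => ℂ) j).analyticAt w

lemma RR_analytic (hX : ∀ j c, Differentiable ℂ (X j c)) (c : Fin N) (w : J → ℂ) :
    AnalyticAt ℂ (RR j₁ j₂ X c) w := by
  unfold RR
  refine Finset.analyticAt_fun_prod _ fun j _ => ?_
  exact AnalyticAt.comp (g := X j c) (f := fun w : J → ℂ => w j) ((hX j c).analyticAt (w j))
    (coord_analytic j w)

lemma GF_analytic (hP : Pend N x0 x1 y z) (hX : ∀ j c, Differentiable ℂ (X j c)) (w : J → ℂ) :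
    AnalyticAt ℂ (GF j₁ j₂ x0 x1 y z X) w := by
  unfold GF
  refine Finset.analyticAt_fun_sum _ fun c _ => ?_
  refine AnalyticAt.mul ?_ (RR_analytic hX c w)
  exact AnalyticAt.comp (g := fun q : ℂ × ℂ => QQ x0 x1 y z c q.1 q.2)
    (f := fun w : J → ℂ => (w j₁, w j₂)) (QQ_analytic hP c (w j₁, w j₂))
    ((coord_analytic j₁ w).prod (coord_analytic j₂ w))

/-- the partial derivatives -/
noncomputable def GD (j₁ j₂ : J) (x0 x1 : ℂ → ℂ) (y z : Fin N → ℂ → ℂ)
    (X : J → Fin N → ℂ → ℂ) (w : J → ℂ) (j : J) : ℂ :=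
  if j = j₁ then ∑ c, (x0 (w j₂) * deriv (y c) (w j₁) + x1 (w j₂) * deriv (z c) (w j₁)) *
    RR j₁ j₂ X c w
  else if j = j₂ then ∑ c, (deriv x0 (w j₂) * y c (w j₁) + deriv x1 (w j₂) * z c (w j₁)) *
    RR j₁ j₂ X c w
  else ∑ c, QQ x0 x1 y z c (w j₁) (w j₂) *
    (deriv (X j c) (w j) * ∏ i ∈ (Jp j₁ j₂).erase j, X i c (w i))

lemma RR_update_of_notMem (c : Fin N) (w : J → ℂ) (j : J) (hj : j ∉ Jp j₁ j₂) (x : ℂ) :
    RR j₁ j₂ X c (Function.update w j x) = RR j₁ j₂ X c w := by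
  unfold RR
  refine Finset.prod_congr rfl fun i hi => ?_
  have : i ≠ j := fun h => hj (h ▸ hi)
  rw [Function.update_of_ne this]

lemma GD_spec (hj : j₁ ≠ j₂) (hP : Pend N x0 x1 y z) (hX : ∀ j c, Differentiable ℂ (X j c))
    (w : J → ℂ) (j : J) :
    HasDerivAt (fun x => GF j₁ j₂ x0 x1 y z X (Function.update w j x))
      (GD j₁ j₂ x0 x1 y z X w j) (w j) := by
  by_cases h1 : j = j₁
  · subst h1
    have hn : j ∉ Jp j j₂ := by simp [mem_Jp]
    have e1 : (fun x => GF j j₂ x0 x1 y z X (Function.update w j x)) = fun x =>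
        ∑ c, (x0 (w j₂) * y c x + x1 (w j₂) * z c x) * RR j j₂ X c w := by
      funext x
      unfold GF QQ
      refine Finset.sum_congr rfl fun c _ => ?_
      rw [RR_update_of_notMem c w j hn, Function.update_self, Function.update_of_ne hj.symm]
    rw [e1]
    unfold GD
    rw [if_pos rfl]
    refine HasDerivAt.fun_sum fun c _ => ?_
    exact (((hP.dy c (w j)).hasDerivAt.const_mul _).add
      ((hP.dz c (w j)).hasDerivAt.const_mul _)).mul_const _
  · by_cases h2 : j = j₂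
    · subst h2
      have hn : j ∉ Jp j₁ j := by simp [mem_Jp]
      have e1 : (fun x => GF j₁ j x0 x1 y z X (Function.update w j x)) = fun x =>
          ∑ c, (x0 x * y c (w j₁) + x1 x * z c (w j₁)) * RR j₁ j X c w := by
        funext x
        unfold GF QQ
        refine Finset.sum_congr rfl fun c _ => ?_
        rw [RR_update_of_notMem c w j hn, Function.update_self, Function.update_of_ne hj]
      rw [e1]
      unfold GD
      rw [if_neg h1, if_pos rfl]
      refine HasDerivAt.fun_sum fun c _ => ?_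
      exact (((hP.dx0 (w j)).hasDerivAt.mul_const _).add
        ((hP.dx1 (w j)).hasDerivAt.mul_const _)).mul_const _
    · have hm : j ∈ Jp j₁ j₂ := mem_Jp.2 ⟨h2, h1⟩
      have e1 : (fun x => GF j₁ j₂ x0 x1 y z X (Function.update w j x)) = fun x =>
          ∑ c, QQ x0 x1 y z c (w j₁) (w j₂) *
            (X j c x * ∏ i ∈ (Jp j₁ j₂).erase j, X i c (w i)) := by
        funext x
        unfold GF
        refine Finset.sum_congr rfl fun c _ => ?_
        rw [Function.update_of_ne (Ne.symm h1), Function.update_of_ne (Ne.symm h2)]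
        congr 1
        unfold RR
        rw [← Finset.mul_prod_erase _ _ hm, Function.update_self]
        congr 1
        refine Finset.prod_congr rfl fun i hi => ?_
        rw [Function.update_of_ne (Finset.ne_of_mem_erase hi)]
      rw [e1]
      unfold GD
      rw [if_neg h1, if_neg h2]
      refine HasDerivAt.fun_sum fun c _ => ?_
      exact ((hX j c (w j)).hasDerivAt.mul_const _).const_mul _

lemma GF_fderiv_zero_iff (hj : j₁ ≠ j₂) (hP : Pend N x0 x1 y z)
    (hX : ∀ j c, Differentiable ℂ (X j c)) (w : J → ℂ) :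
    fderiv ℂ (GF j₁ j₂ x0 x1 y z X) w = 0 ↔ ∀ j, GD j₁ j₂ x0 x1 y z X w j = 0 :=
  fderiv_zero_iff (GF_analytic hP hX w).differentiableAt _ (GD_spec hj hP hX w)

end

end Pool.Agent.H70.AM
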