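import Pool.Agent.H70.AM.OddA

/-!
The part of the singular locus where all products vanish.
-/

set_option autoImplicit false
set_option linter.unusedSectionVars false

open Set Topology Filter
open scoped ENNReal NNReal

namespace Pool.Agent.H70.AM

section gen

variable {J : Type} [Fintype J] [DecidableEq J]

/-- restriction to the complement of `R` -/
def rs (R : Finset J) (w : J → ℂ) (i : {i // i ∉ R}) : ℂ := w i

lemma rs_continuous (R : Finset J) : Continuous (rs R) :=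
  continuous_pi fun j => continuous_apply (A := fun _ : J => ℂ) (j : J)

lemma dom_rs {s : Set (J → ℂ)} (R : Finset J) (j : J) (hj : j ∉ R) :
    Dom s (fun w => w j) (rs R) := by
  refine Dom.of_lipschitz 1 fun a _ b _ => ?_
  rw [ENNReal.coe_one, one_mul]
  exact edist_le_pi_edist (rs R a) (rs R b) ⟨j, hj⟩

lemma card_notMem (R : Finset J) : Fintype.card {i // i ∉ R} = Fintype.card J - R.card := by
  rw [Fintype.card_subtype]
  have : (Finset.univ.filter fun i => i ∉ R) = Rᶜ := by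
    ext i
    simp
  rw [this, Finset.card_compl]

lemma dimH_le_of_dom (s : Set (J → ℂ)) (R : Finset J)
    (h : ∀ j ∈ R, Dom s (fun w => w j) (rs R)) :
    dimH s ≤ ((2 * (Fintype.card J - R.card) : ℕ) : ℝ≥0∞) := by
  have h1 : Dom s id (rs R) := by
    refine Dom.pi (f := id) fun j => ?_
    by_cases hj : j ∈ R
    · exact h j hj
    · exact dom_rs R j hj
  refine h1.dimH_le.trans ((dimH_le_card _).trans (le_of_eq ?_))
  rw [card_notMem]

lemma dimH_le_of_dom' (s : Set (J → ℂ)) (R : Finset J)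
    (h : ∀ j ∈ R, Dom s (fun w => w j) (rs R)) {k m : ℕ} (hm : m ≤ R.card)
    (hk : Fintype.card J ≤ k + m) : dimH s ≤ ((2 * k : ℕ) : ℝ≥0∞) := by
  refine (dimH_le_of_dom s R h).trans ?_
  exact_mod_cast Nat.mul_le_mul_left 2 (by omega)

/-- a coordinate that is a zero of a fixed function is dominated by anything -/
lemma dom_const {E : Type*} [NormedAddCommGroup E] [NormedSpace ℂ E] {s : Set (J → ℂ)} {j : J}
    {f : ℂ → ℂ} (hf : Differentiable ℂ f) (hne : ∃ x, f x ≠ 0) (h0 : ∀ w ∈ s, f (w j) = 0)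
    {q : (J → ℂ) → E} (hq : Continuous q) : Dom s (fun w => w j) q := by
  refine Dom.solve (fun z : E × ℂ => f z.2) ?_ ?_ ?_ h0 ?_
  · intro z _
    exact AnalyticAt.comp (g := f) (f := fun z : E × ℂ => z.2) (hf.analyticAt z.2) analyticAt_snd
  · exact fun w _ => (continuous_apply j).continuousWithinAt
  · exact fun w _ => hq.continuousWithinAt
  · exact fun w _ => hne

end gen

section

variable {J : Type} [Fintype J] [DecidableEq J] {N : ℕ}
variable {j₁ j₂ : J} {x0 x1 : ℂ → ℂ} {y z : Fin N → ℂ → ℂ} {X : J → Fin N → ℂ → ℂ}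

lemma W2_differentiable (hP : Pend N x0 x1 y z) (a b : Fin N) : Differentiable ℂ (W2 y z a b) := by
  unfold W2
  exact ((hP.dy a).mul (hP.dz b)).sub ((hP.dz a).mul (hP.dy b))

lemma W2_hasDerivAt (hP : Pend N x0 x1 y z) (a b : Fin N) (u : ℂ) :
    HasDerivAt (W2 y z a b) (W2' y z a b u) u := by
  unfold W2 W2'
  have h := ((hP.dy a u).hasDerivAt.mul (hP.dz b u).hasDerivAt).sub
    ((hP.dz a u).hasDerivAt.mul (hP.dy b u).hasDerivAt)
  refine h.congr_deriv ?_
  ring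

lemma W2_ne (hP : Pend N x0 x1 y z) {a b : Fin N} (hab : a ≠ b) : ∃ u, W2 y z a b u ≠ 0 := by
  by_contra hcon
  push Not at hcon
  have h1 : W2 y z a b = fun _ => 0 := funext hcon
  have h2 := hP.wsimple a b hab 0 (hcon 0)
  have h3 := W2_hasDerivAt hP a b 0
  rw [h1] at h3
  exact h2 (h3.unique (hasDerivAt_const 0 0))

lemma W2_of_QQ (hP : Pend N x0 x1 y z) {a b : Fin N} {u v : ℂ} (ha : QQ x0 x1 y z a u v = 0)
    (hb : QQ x0 x1 y z b u v = 0) : W2 y z a b u = 0 := by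
  unfold QQ at ha hb
  unfold W2
  have h0 : x0 v * (y a u * z b u - z a u * y b u) = 0 := by
    linear_combination z b u * ha - z a u * hb
  have h1 : x1 v * (y a u * z b u - z a u * y b u) = 0 := by
    linear_combination y a u * hb - y b u * ha
  by_contra h
  exact hP.hx v ⟨(mul_eq_zero.1 h0).resolve_right h, (mul_eq_zero.1 h1).resolve_right h⟩

lemma no_triple (hP : Pend N x0 x1 y z) {a b c : Fin N} {u v : ℂ} (hab : a ≠ b) (hac : a ≠ c)
    (ha : QQ x0 x1 y z a u v = 0) (hb : QQ x0 x1 y z b u v = 0) (hc : QQ x0 x1 y z c u v = 0) :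
    b = c :=
  hP.wdisj a b c u hab hac (W2_of_QQ hP ha hb) (W2_of_QQ hP ha hc)

/-- the first partial derivative of a block function -/
noncomputable def Q1 (x0 x1 : ℂ → ℂ) (y z : Fin N → ℂ → ℂ) (c : Fin N) (u v : ℂ) : ℂ :=
  x0 v * deriv (y c) u + x1 v * deriv (z c) u

lemma Q1_ne (hP : Pend N x0 x1 y z) {a b : Fin N} (hab : a ≠ b) {u v : ℂ}
    (ha : QQ x0 x1 y z a u v = 0) (hb : QQ x0 x1 y z b u v = 0) :
    ¬ (Q1 x0 x1 y z a u v = 0 ∧ Q1 x0 x1 y z b u v = 0) := by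
  rintro ⟨h1, h2⟩
  have hw := hP.wsimple a b hab u (W2_of_QQ hP ha hb)
  unfold QQ at ha hb
  unfold Q1 at h1 h2
  have e0 : x0 v * W2' y z a b u = 0 := by
    unfold W2'
    linear_combination z b u * h1 + deriv (z b) u * ha - deriv (z a) u * hb - z a u * h2
  have e1 : x1 v * W2' y z a b u = 0 := by
    unfold W2'
    linear_combination deriv (y a) u * hb + y a u * h2 - y b u * h1 - deriv (y b) u * ha
  exact hP.hx v ⟨(mul_eq_zero.1 e0).resolve_right hw, (mul_eq_zero.1 e1).resolve_right hw⟩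

/-- positions of the killing coordinates -/
structure Kil (j₁ j₂ : J) (Z : Finset (Fin N)) where
  a : {q : Fin N × Bool // q.1 ∉ Z} → J
  inj : Function.Injective a
  mem : ∀ q, a q ∈ Jp j₁ j₂

/-- the corresponding set -/
def KS (X : J → Fin N → ℂ → ℂ) {Z : Finset (Fin N)} (κ : Kil j₁ j₂ Z) : Set (J → ℂ) :=
  {w | ∀ q, X (κ.a q) q.1.1 (w (κ.a q)) = 0}

open Classical in
/-- the set of positions -/
noncomputable def Kil.R {Z : Finset (Fin N)} (κ : Kil j₁ j₂ Z) : Finset J :=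
  Finset.univ.image κ.a

lemma Kil.R_card {Z : Finset (Fin N)} (κ : Kil j₁ j₂ Z) : κ.R.card = 2 * (N - Z.card) := by
  classical
  unfold Kil.R
  rw [Finset.card_image_of_injective _ κ.inj, Finset.card_univ, Fintype.card_subtype]
  have : (Finset.univ.filter fun q : Fin N × Bool => q.1 ∉ Z) = Zᶜ ×ˢ (Finset.univ : Finset Bool) := by
    ext q
    simp
  rw [this, Finset.card_product, Finset.card_compl, Fintype.card_fin]
  simp [mul_comm]

lemma Kil.mem_R {Z : Finset (Fin N)} (κ : Kil j₁ j₂ Z) {j : J} :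
    j ∈ κ.R ↔ ∃ q, κ.a q = j := by
  classical
  unfold Kil.R
  simp

lemma Kil.R_sub {Z : Finset (Fin N)} (κ : Kil j₁ j₂ Z) {j : J} (hj : j ∈ κ.R) :
    j ≠ j₂ ∧ j ≠ j₁ := by
  obtain ⟨q, rfl⟩ := κ.mem_R.1 hj
  exact mem_Jp.1 (κ.mem q)

lemma Kil.dom {Z : Finset (Fin N)} (κ : Kil j₁ j₂ Z) (hX : Good X) {s : Set (J → ℂ)}
    (hs : s ⊆ KS X κ) {E : Type*} [NormedAddCommGroup E] [NormedSpace ℂ E]
    {q : (J → ℂ) → E} (hq : Continuous q) {j : J} (hj : j ∈ κ.R) :
    Dom s (fun w => w j) q := by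
  obtain ⟨q', rfl⟩ := κ.mem_R.1 hj
  exact dom_const (hX.diff _ _) (not_identically hX _ _) (fun w hw => hs hw q') hq

/-- the killing positions exist -/
lemma exists_kil (hX : Good X) {w : J → ℂ} {Z : Finset (Fin N)}
    (h : ∀ c ∉ Z, ∃ i₁ i₂, i₁ ∈ Jp j₁ j₂ ∧ i₂ ∈ Jp j₁ j₂ ∧ i₁ ≠ i₂ ∧ X i₁ c (w i₁) = 0 ∧
      X i₂ c (w i₂) = 0) : ∃ κ : Kil j₁ j₂ Z, w ∈ KS X κ := by
  choose i₁ i₂ h1 h2 hne h3 h4 using h
  let a : {q : Fin N × Bool // q.1 ∉ Z} → J := fun q =>
    if q.1.2 then i₁ q.1.1 q.2 else i₂ q.1.1 q.2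
  have ha0 : ∀ q, X (a q) q.1.1 (w (a q)) = 0 := by
    rintro ⟨⟨c, b⟩, hc⟩
    cases b
    · exact h4 c hc
    · exact h3 c hc
  have hmem : ∀ q, a q ∈ Jp j₁ j₂ := by
    rintro ⟨⟨c, b⟩, hc⟩
    cases b
    · exact h2 c hc
    · exact h1 c hc
  have hinj : Function.Injective a := by
    intro q q' hqq
    have e1 := ha0 q
    have e2 := ha0 q'
    rw [← hqq] at e2
    have e3 : q.1.1 = q'.1.1 := hX.disj _ _ _ _ e1 e2
    obtain ⟨⟨c, b⟩, hc⟩ := q
    obtain ⟨⟨c', b'⟩, hc'⟩ := q'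
    simp only at e3
    subst e3
    cases b <;> cases b'
    · rfl
    · exact absurd hqq.symm (hne c hc)
    · exact absurd hqq (hne c hc)
    · rfl
  exact ⟨⟨a, hinj, hmem⟩, ha0⟩

/-- classes with nonzero block function are killed twice -/
lemma killed_twice (hX : Good X) {w : J → ℂ}
    (hd : ∀ j, GD j₁ j₂ x0 x1 y z X w j = 0)
    (hP0 : ∀ c, QQ x0 x1 y z c (w j₁) (w j₂) * RR j₁ j₂ X c w = 0) (c : Fin N)
    (hc : QQ x0 x1 y z c (w j₁) (w j₂) ≠ 0) :
    ∃ i₁ i₂, i₁ ∈ Jp j₁ j₂ ∧ i₂ ∈ Jp j₁ j₂ ∧ i₁ ≠ i₂ ∧ X i₁ c (w i₁) = 0 ∧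
      X i₂ c (w i₂) = 0 := by
  have h1 : RR j₁ j₂ X c w = 0 := (mul_eq_zero.1 (hP0 c)).resolve_left hc
  unfold RR at h1
  rw [Finset.prod_eq_zero_iff] at h1
  obtain ⟨j, hj, hj0⟩ := h1
  obtain ⟨hj2, hj1⟩ := mem_Jp.1 hj
  have h2 := hd j
  unfold GD at h2
  rw [if_neg hj1, if_neg hj2, Finset.sum_eq_single c] at h2
  · have h3 := (mul_eq_zero.1 ((mul_eq_zero.1 h2).resolve_left hc)).resolve_left
      (hX.simple j c _ hj0)
    rw [Finset.prod_eq_zero_iff] at h3
    obtain ⟨i, hi, hi0⟩ := h3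
    exact ⟨j, i, hj, Finset.mem_of_mem_erase hi, (Finset.ne_of_mem_erase hi).symm, hj0, hi0⟩
  · intro c' _ hc'
    have h4 : X j c' (w j) ≠ 0 := fun h => hc' (hX.disj j c' c _ h hj0)
    have h5 := hP0 c'
    unfold RR at h5
    rw [← Finset.mul_prod_erase _ _ hj] at h5
    have h6 : QQ x0 x1 y z c' (w j₁) (w j₂) *
        ∏ i ∈ (Jp j₁ j₂).erase j, X i c' (w i) = 0 := by
      have h7 : X j c' (w j) * (QQ x0 x1 y z c' (w j₁) (w j₂) *
        ∏ i ∈ (Jp j₁ j₂).erase j, X i c' (w i)) = 0 := by linear_combination h5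
      exact (mul_eq_zero.1 h7).resolve_left h4
    linear_combination deriv (X j c') (w j) * h6
  · simp

/-- case 0 -/
lemma T0_dim (hX : Good X) (κ : Kil j₁ j₂ (∅ : Finset (Fin N))) {k : ℕ}
    (hk : Fintype.card J ≤ k + (2 * N - 1)) : dimH (KS X κ) ≤ ((2 * k : ℕ) : ℝ≥0∞) := by
  refine dimH_le_of_dom' _ κ.R (fun j hj => κ.dom hX Subset.rfl (rs_continuous _) hj)
    (m := 2 * N - 1) ?_ hk
  rw [κ.R_card]
  simp

/-- case 1 -/
lemma T1_dim (hj : j₁ ≠ j₂) (hP : Pend N x0 x1 y z) (hX : Good X) (a : Fin N)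
    (κ : Kil j₁ j₂ ({a} : Finset (Fin N))) {k : ℕ}
    (hk : Fintype.card J ≤ k + (2 * N - 1)) :
    dimH (KS X κ ∩ {w | QQ x0 x1 y z a (w j₁) (w j₂) = 0}) ≤ ((2 * k : ℕ) : ℝ≥0∞) := by
  classical
  have hn2 : j₂ ∉ κ.R := fun h => (κ.R_sub h).1 rfl
  have hn1 : j₁ ∉ insert j₂ κ.R := by
    rw [Finset.mem_insert, not_or]
    exact ⟨hj, fun h => (κ.R_sub h).2 rfl⟩
  refine dimH_le_of_dom' _ (insert j₂ κ.R) (fun j hj' => ?_) (m := 2 * N - 1) ?_ hk
  · rcases Finset.mem_insert.1 hj' with rfl | h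
    · refine Dom.trans (g := fun w : J → ℂ => w j₁) ?_ (dom_rs _ j₁ hn1)
      refine Dom.solve (fun q : ℂ × ℂ => QQ x0 x1 y z a q.1 q.2)
        (fun q _ => QQ_analytic hP a q) ?_ ?_ (fun w hw => hw.2) ?_
      · exact fun w _ => (continuous_apply _).continuousWithinAt
      · exact fun w _ => (continuous_apply _).continuousWithinAt
      · intro w _
        obtain ⟨v, hv⟩ := hP.indep (y a (w j₁)) (z a (w j₁)) (hP.hy a (w j₁))
        refine ⟨v, ?_⟩
        unfold QQ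
        intro h
        apply hv
        linear_combination h
    · exact κ.dom hX inter_subset_left (rs_continuous _) h
  · rw [Finset.card_insert_of_notMem hn2, κ.R_card, Finset.card_singleton]
    have : 0 < N := a.pos
    omega

/-- case 2, one more killed coordinate -/
lemma T2a_dim (hj : j₁ ≠ j₂) (hP : Pend N x0 x1 y z) (hX : Good X) {a b : Fin N} (hab : a ≠ b)
    (κ : Kil j₁ j₂ ({a, b} : Finset (Fin N))) {k : ℕ}
    (hk : Fintype.card J ≤ k + (2 * N - 1)) (j₀ : J) (hj₀ : j₀ ∈ Jp j₁ j₂) (hj₀R : j₀ ∉ κ.R)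
    (c : Fin N) :
    dimH (KS X κ ∩ {w | QQ x0 x1 y z a (w j₁) (w j₂) = 0 ∧ QQ x0 x1 y z b (w j₁) (w j₂) = 0 ∧
      X j₀ c (w j₀) = 0}) ≤ ((2 * k : ℕ) : ℝ≥0∞) := by
  classical
  obtain ⟨h02, h01⟩ := mem_Jp.1 hj₀
  set R := insert j₀ (insert j₁ (insert j₂ κ.R)) with hR
  have hn2 : j₂ ∉ κ.R := fun h => (κ.R_sub h).1 rfl
  have hn1 : j₁ ∉ insert j₂ κ.R := by
    rw [Finset.mem_insert, not_or]
    exact ⟨hj, fun h => (κ.R_sub h).2 rfl⟩
  have hn0 : j₀ ∉ insert j₁ (insert j₂ κ.R) := by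
    rw [Finset.mem_insert, not_or, Finset.mem_insert, not_or]
    exact ⟨h01, h02, hj₀R⟩
  set s := KS X κ ∩ {w | QQ x0 x1 y z a (w j₁) (w j₂) = 0 ∧
    QQ x0 x1 y z b (w j₁) (w j₂) = 0 ∧ X j₀ c (w j₀) = 0} with hs
  have hD1 : Dom s (fun w => w j₁) (rs R) :=
    dom_const (W2_differentiable hP a b) (W2_ne hP hab)
      (fun w hw => W2_of_QQ hP hw.2.1 hw.2.2.1) (rs_continuous _)
  have hD2 : Dom s (fun w => w j₂) (fun w : J → ℂ => w j₁) := by
    refine Dom.solve (fun q : ℂ × ℂ => QQ x0 x1 y z a q.1 q.2)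
      (fun q _ => QQ_analytic hP a q) ?_ ?_ (fun w hw => hw.2.1) ?_
    · exact fun w _ => (continuous_apply _).continuousWithinAt
    · exact fun w _ => (continuous_apply _).continuousWithinAt
    · intro w _
      obtain ⟨v, hv⟩ := hP.indep (y a (w j₁)) (z a (w j₁)) (hP.hy a (w j₁))
      refine ⟨v, ?_⟩
      unfold QQ
      intro h
      apply hv
      linear_combination h
  refine dimH_le_of_dom' s R (fun j hj' => ?_) (m := 2 * N - 1) ?_ hk
  · rw [hR, Finset.mem_insert, Finset.mem_insert, Finset.mem_insert] at hj'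
    rcases hj' with rfl | rfl | rfl | h
    · exact dom_const (hX.diff _ _) (not_identically hX _ _) (fun w hw => hw.2.2.2)
        (rs_continuous _)
    · exact hD1
    · exact hD2.trans hD1
    · exact κ.dom hX inter_subset_left (rs_continuous _) h
  · rw [hR, Finset.card_insert_of_notMem hn0, Finset.card_insert_of_notMem hn1,
      Finset.card_insert_of_notMem hn2, κ.R_card, Finset.card_pair hab]
    have : 0 < N := a.pos
    have h2 : 2 ≤ N := by
      by_contra hN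
      have : N = 1 := by omega
      subst this
      exact hab (Subsingleton.elim a b)
    omega

/-- the relation function -/
noncomputable def relH (j₁ j₂ j₀ : J) (x0 x1 : ℂ → ℂ) (y z : Fin N → ℂ → ℂ)
    (X : J → Fin N → ℂ → ℂ) (a b : Fin N) (q : (J → ℂ) × ℂ) : ℂ :=
  (Q1 x0 x1 y z a (q.1 j₁) (q.1 j₂) * ∏ i ∈ (Jp j₁ j₂).erase j₀, X i a (q.1 i)) * X j₀ a q.2 +
  (Q1 x0 x1 y z b (q.1 j₁) (q.1 j₂) * ∏ i ∈ (Jp j₁ j₂).erase j₀, X i b (q.1 i)) * X j₀ b q.2

lemma Q1_analytic (hP : Pend N x0 x1 y z) (c : Fin N) (q : ℂ × ℂ) :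
    AnalyticAt ℂ (fun q : ℂ × ℂ => Q1 x0 x1 y z c q.1 q.2) q := by
  unfold Q1
  have h1 : AnalyticAt ℂ (fun q : ℂ × ℂ => x0 q.2) q := (hP.dx0.analyticAt q.2).comp analyticAt_snd
  have h2 : AnalyticAt ℂ (fun q : ℂ × ℂ => x1 q.2) q := (hP.dx1.analyticAt q.2).comp analyticAt_snd
  have h3 : AnalyticAt ℂ (fun q : ℂ × ℂ => deriv (y c) q.1) q :=
    ((hP.dy c).analyticAt q.1).deriv.comp analyticAt_fst
  have h4 : AnalyticAt ℂ (fun q : ℂ × ℂ => deriv (z c) q.1) q :=
    ((hP.dz c).analyticAt q.1).deriv.comp analyticAt_fst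
  exact (h1.mul h3).add (h2.mul h4)

lemma relH_analytic (hP : Pend N x0 x1 y z) (hX : Good X) (j₀ : J) (a b : Fin N) :
    AnalyticOnNhd ℂ (relH j₁ j₂ j₀ x0 x1 y z X a b) univ := by
  intro q _
  have hc : ∀ j : J, AnalyticAt ℂ (fun q : (J → ℂ) × ℂ => q.1 j) q := fun j =>
    AnalyticAt.comp (g := fun w : J → ℂ => w j) (f := fun q : (J → ℂ) × ℂ => q.1)
      (coord_analytic j q.1) analyticAt_fst
  have hQ : ∀ c, AnalyticAt ℂ (fun q : (J → ℂ) × ℂ => Q1 x0 x1 y z c (q.1 j₁) (q.1 j₂)) q :=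
    fun c => AnalyticAt.comp (g := fun q : ℂ × ℂ => Q1 x0 x1 y z c q.1 q.2)
      (f := fun q : (J → ℂ) × ℂ => (q.1 j₁, q.1 j₂)) (Q1_analytic hP c (q.1 j₁, q.1 j₂))
      ((hc j₁).prod (hc j₂))
  have hpr : ∀ c, AnalyticAt ℂ
      (fun q : (J → ℂ) × ℂ => ∏ i ∈ (Jp j₁ j₂).erase j₀, X i c (q.1 i)) q := fun c =>
    Finset.analyticAt_fun_prod _ fun i _ =>
      AnalyticAt.comp (g := X i c) (f := fun q : (J → ℂ) × ℂ => q.1 i)
        ((hX.diff i c).analyticAt (q.1 i)) (hc i)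
  have hx : ∀ c, AnalyticAt ℂ (fun q : (J → ℂ) × ℂ => X j₀ c q.2) q := fun c =>
    AnalyticAt.comp (g := X j₀ c) (f := fun q : (J → ℂ) × ℂ => q.2)
      ((hX.diff j₀ c).analyticAt q.2) analyticAt_snd
  exact (((hQ a).mul (hpr a)).mul (hx a)).add (((hQ b).mul (hpr b)).mul (hx b))

/-- case 2, generic -/
lemma T2b_dim (hj : j₁ ≠ j₂) (hP : Pend N x0 x1 y z) (hX : Good X) {a b : Fin N} (hab : a ≠ b)
    (κ : Kil j₁ j₂ ({a, b} : Finset (Fin N))) {k : ℕ}
    (hk : Fintype.card J ≤ k + (2 * N - 1)) (j₀ : J) (hj₀ : j₀ ∈ Jp j₁ j₂) (hj₀R : j₀ ∉ κ.R) :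
    dimH (KS X κ ∩ {w | QQ x0 x1 y z a (w j₁) (w j₂) = 0 ∧ QQ x0 x1 y z b (w j₁) (w j₂) = 0 ∧
      Q1 x0 x1 y z a (w j₁) (w j₂) * RR j₁ j₂ X a w +
        Q1 x0 x1 y z b (w j₁) (w j₂) * RR j₁ j₂ X b w = 0 ∧
      RR j₁ j₂ X a w ≠ 0 ∧ RR j₁ j₂ X b w ≠ 0}) ≤ ((2 * k : ℕ) : ℝ≥0∞) := by
  classical
  obtain ⟨h02, h01⟩ := mem_Jp.1 hj₀
  set R := insert j₀ (insert j₁ (insert j₂ κ.R)) with hR
  have hn2 : j₂ ∉ κ.R := fun h => (κ.R_sub h).1 rfl
  have hn1 : j₁ ∉ insert j₂ κ.R := by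
    rw [Finset.mem_insert, not_or]
    exact ⟨hj, fun h => (κ.R_sub h).2 rfl⟩
  have hn0 : j₀ ∉ insert j₁ (insert j₂ κ.R) := by
    rw [Finset.mem_insert, not_or, Finset.mem_insert, not_or]
    exact ⟨h01, h02, hj₀R⟩
  set s := KS X κ ∩ {w | QQ x0 x1 y z a (w j₁) (w j₂) = 0 ∧
    QQ x0 x1 y z b (w j₁) (w j₂) = 0 ∧ Q1 x0 x1 y z a (w j₁) (w j₂) * RR j₁ j₂ X a w +
        Q1 x0 x1 y z b (w j₁) (w j₂) * RR j₁ j₂ X b w = 0 ∧
      RR j₁ j₂ X a w ≠ 0 ∧ RR j₁ j₂ X b w ≠ 0} with hs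
  have hD1 : Dom s (fun w => w j₁) (rs R) :=
    dom_const (W2_differentiable hP a b) (W2_ne hP hab)
      (fun w hw => W2_of_QQ hP hw.2.1 hw.2.2.1) (rs_continuous _)
  have hD2 : Dom s (fun w => w j₂) (fun w : J → ℂ => w j₁) := by
    refine Dom.solve (fun q : ℂ × ℂ => QQ x0 x1 y z a q.1 q.2)
      (fun q _ => QQ_analytic hP a q) ?_ ?_ (fun w hw => hw.2.1) ?_
    · exact fun w _ => (continuous_apply _).continuousWithinAt
    · exact fun w _ => (continuous_apply _).continuousWithinAt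
    · intro w _
      obtain ⟨v, hv⟩ := hP.indep (y a (w j₁)) (z a (w j₁)) (hP.hy a (w j₁))
      refine ⟨v, ?_⟩
      unfold QQ
      intro h
      apply hv
      linear_combination h
  have hupc : Continuous fun w : J → ℂ => Function.update w j₀ (0 : ℂ) :=
    continuous_id.update j₀ continuous_const
  have hD0 : Dom s (fun w => w j₀) (fun w : J → ℂ => Function.update w j₀ (0 : ℂ)) := by
    refine Dom.solve (relH j₁ j₂ j₀ x0 x1 y z X a b) (relH_analytic hP hX j₀ a b) ?_ ?_ ?_ ?_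
    · exact fun w _ => (continuous_apply _).continuousWithinAt
    · exact fun w _ => hupc.continuousWithinAt
    · rintro w ⟨-, -, -, h, -⟩
      unfold relH
      simp only
      rw [Function.update_of_ne (Ne.symm h01), Function.update_of_ne (Ne.symm h02)]
      have e : ∀ c, ∏ i ∈ (Jp j₁ j₂).erase j₀, X i c (Function.update w j₀ 0 i) =
          ∏ i ∈ (Jp j₁ j₂).erase j₀, X i c (w i) := by
        intro c
        refine Finset.prod_congr rfl fun i hi => ?_
        rw [Function.update_of_ne (Finset.ne_of_mem_erase hi)]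
      rw [e, e]
      unfold RR at h
      rw [← Finset.mul_prod_erase _ (fun i => X i a (w i)) hj₀,
        ← Finset.mul_prod_erase _ (fun i => X i b (w i)) hj₀] at h
      linear_combination h
    · rintro w ⟨-, ha, hb, -, hra, hrb⟩
      have hne := Q1_ne hP hab ha hb
      have e : ∀ c, ∏ i ∈ (Jp j₁ j₂).erase j₀, X i c (Function.update w j₀ 0 i) =
          ∏ i ∈ (Jp j₁ j₂).erase j₀, X i c (w i) := by
        intro c
        refine Finset.prod_congr rfl fun i hi => ?_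
        rw [Function.update_of_ne (Finset.ne_of_mem_erase hi)]
      unfold RR at hra hrb
      rw [← Finset.mul_prod_erase _ (fun i => X i a (w i)) hj₀] at hra
      rw [← Finset.mul_prod_erase _ (fun i => X i b (w i)) hj₀] at hrb
      have ra := right_ne_zero_of_mul hra
      have rb := right_ne_zero_of_mul hrb
      by_cases hqa : Q1 x0 x1 y z a (w j₁) (w j₂) = 0
      · have hqb : Q1 x0 x1 y z b (w j₁) (w j₂) ≠ 0 := fun h => hne ⟨hqa, h⟩
        obtain ⟨x, hx⟩ := hX.zero j₀ a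
        refine ⟨x, ?_⟩
        unfold relH
        simp only
        rw [Function.update_of_ne (Ne.symm h01), Function.update_of_ne (Ne.symm h02), e, e, hx,
          mul_zero, zero_add]
        refine mul_ne_zero (mul_ne_zero hqb rb) ?_
        intro h
        exact hab (hX.disj j₀ a b x hx h)
      · obtain ⟨x, hx⟩ := hX.zero j₀ b
        refine ⟨x, ?_⟩
        unfold relH
        simp only
        rw [Function.update_of_ne (Ne.symm h01), Function.update_of_ne (Ne.symm h02), e, e, hx,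
          mul_zero, add_zero]
        refine mul_ne_zero (mul_ne_zero hqa ra) ?_
        intro h
        exact hab (hX.disj j₀ a b x h hx)
  have hDu : Dom s (fun w : J → ℂ => Function.update w j₀ (0 : ℂ)) (rs R) := by
    refine Dom.pi (f := fun w : J → ℂ => Function.update w j₀ (0 : ℂ)) fun j => ?_
    by_cases h0 : j = j₀
    · subst h0
      simp only [Function.update_self]
      exact Dom.of_countable ((countable_singleton (0 : ℂ)).mono (by rintro _ ⟨_, _, rfl⟩; rfl))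
    · have : (fun w : J → ℂ => Function.update w j₀ (0 : ℂ) j) = fun w => w j := by
        funext w
        rw [Function.update_of_ne h0]
      rw [this]
      by_cases h1 : j = j₁
      · subst h1
        exact hD1
      · by_cases h2 : j = j₂
        · subst h2
          exact hD2.trans hD1
        · by_cases h3 : j ∈ κ.R
          · exact κ.dom hX inter_subset_left (rs_continuous _) h3
          · refine dom_rs _ j ?_
            rw [hR, Finset.mem_insert, Finset.mem_insert, Finset.mem_insert]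
            tauto
  refine dimH_le_of_dom' s R (fun j hj' => ?_) (m := 2 * N - 1) ?_ hk
  · rw [hR, Finset.mem_insert, Finset.mem_insert, Finset.mem_insert] at hj'
    rcases hj' with rfl | rfl | rfl | h
    · exact hD0.trans hDu
    · exact hD1
    · exact hD2.trans hD1
    · exact κ.dom hX inter_subset_left (rs_continuous _) h
  · rw [hR, Finset.card_insert_of_notMem hn0, Finset.card_insert_of_notMem hn1,
      Finset.card_insert_of_notMem hn2, κ.R_card, Finset.card_pair hab]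
    have : 0 < N := a.pos
    have h2 : 2 ≤ N := by
      by_contra hN
      have : N = 1 := by omega
      subst this
      exact hab (Subsingleton.elim a b)
    omega

end

end Pool.Agent.H70.AM
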