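import Pool.Agent.H70.AM.OddB

/-!
The part of the singular locus where all products vanish, continued; the lower bound.
-/

set_option autoImplicit false
set_option linter.unusedSectionVars false

open Set Topology Filter
open scoped ENNReal NNReal

namespace Pool.Agent.H70.AM

section

variable {J : Type} [Fintype J] [DecidableEq J] {N : ℕ}
variable {j₁ j₂ : J} {x0 x1 : ℂ → ℂ} {y z : Fin N → ℂ → ℂ} {X : J → Fin N → ℂ → ℂ}

instance (Z : Finset (Fin N)) : Countable (Kil j₁ j₂ Z) := by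
  classical
  have h : Function.Injective (Kil.a : Kil j₁ j₂ Z → _) := by
    rintro ⟨a, _, _⟩ ⟨a', _, _⟩ h
    simp only at h
    subst h
    rfl
  exact h.countable

lemma card_Jp (hj : j₁ ≠ j₂) : (Jp j₁ j₂).card = Fintype.card J - 2 := by
  unfold Jp
  rw [Finset.card_erase_of_mem (Finset.mem_erase.2 ⟨hj.symm, Finset.mem_univ _⟩),
    Finset.card_erase_of_mem (Finset.mem_univ _), Finset.card_univ]
  omega

lemma exists_free (hj : j₁ ≠ j₂) {a b : Fin N} (hab : a ≠ b)
    (κ : Kil j₁ j₂ ({a, b} : Finset (Fin N))) (hk : 2 * N - 1 ≤ Fintype.card J) :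
    ∃ j₀ ∈ Jp j₁ j₂, j₀ ∉ κ.R := by
  by_contra hcon
  push Not at hcon
  have h1 : Jp j₁ j₂ ⊆ κ.R := hcon
  have h2 := Finset.card_le_card h1
  rw [card_Jp hj, κ.R_card, Finset.card_pair hab] at h2
  have h3 : 2 ≤ N := by
    by_contra hN
    have : 0 < N := a.pos
    have : N = 1 := by omega
    subst this
    exact hab (Subsingleton.elim a b)
  omega

/-- the part where all products vanish -/
theorem P0_dim (hj : j₁ ≠ j₂) (hP : Pend N x0 x1 y z) (hX : Good X) {k : ℕ}
    (hk : Fintype.card J = k + (2 * N - 1)) :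
    dimH {w | (∀ j, GD j₁ j₂ x0 x1 y z X w j = 0) ∧
      ∀ c, QQ x0 x1 y z c (w j₁) (w j₂) * RR j₁ j₂ X c w = 0} ≤ ((2 * k : ℕ) : ℝ≥0∞) := by
  classical
  let A : Set (J → ℂ) := ⋃ κ : Kil j₁ j₂ (∅ : Finset (Fin N)), KS X κ
  let B : Set (J → ℂ) := ⋃ (a : Fin N) (κ : Kil j₁ j₂ ({a} : Finset (Fin N))),
    (KS X κ ∩ {w | QQ x0 x1 y z a (w j₁) (w j₂) = 0})
  let C : Set (J → ℂ) := ⋃ (a : Fin N) (b : Fin N) (_ : a ≠ b)
    (κ : Kil j₁ j₂ ({a, b} : Finset (Fin N))) (j₀ : J) (_ : j₀ ∈ Jp j₁ j₂) (_ : j₀ ∉ κ.R)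
    (c : Fin N), (KS X κ ∩ {w | QQ x0 x1 y z a (w j₁) (w j₂) = 0 ∧
      QQ x0 x1 y z b (w j₁) (w j₂) = 0 ∧ X j₀ c (w j₀) = 0})
  let D : Set (J → ℂ) := ⋃ (a : Fin N) (b : Fin N) (_ : a ≠ b)
    (κ : Kil j₁ j₂ ({a, b} : Finset (Fin N))) (j₀ : J) (_ : j₀ ∈ Jp j₁ j₂) (_ : j₀ ∉ κ.R),
    (KS X κ ∩ {w | QQ x0 x1 y z a (w j₁) (w j₂) = 0 ∧ QQ x0 x1 y z b (w j₁) (w j₂) = 0 ∧
      Q1 x0 x1 y z a (w j₁) (w j₂) * RR j₁ j₂ X a w +
        Q1 x0 x1 y z b (w j₁) (w j₂) * RR j₁ j₂ X b w = 0 ∧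
      RR j₁ j₂ X a w ≠ 0 ∧ RR j₁ j₂ X b w ≠ 0})
  have hsub : {w | (∀ j, GD j₁ j₂ x0 x1 y z X w j = 0) ∧
      ∀ c, QQ x0 x1 y z c (w j₁) (w j₂) * RR j₁ j₂ X c w = 0} ⊆ A ∪ (B ∪ (C ∪ D)) := by
    rintro w ⟨hd, hP0⟩
    by_cases hall : ∀ c, QQ x0 x1 y z c (w j₁) (w j₂) ≠ 0
    · left
      obtain ⟨κ, hκ⟩ := exists_kil (Z := ∅) hX (fun c _ => killed_twice hX hd hP0 c (hall c))
      exact mem_iUnion.2 ⟨κ, hκ⟩
    · right
      push Not at hall
      obtain ⟨a, ha⟩ := hall
      by_cases hb : ∃ b, a ≠ b ∧ QQ x0 x1 y z b (w j₁) (w j₂) = 0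
      · right
        obtain ⟨b, hab, hb⟩ := hb
        have hc : ∀ c ∉ ({a, b} : Finset (Fin N)), QQ x0 x1 y z c (w j₁) (w j₂) ≠ 0 := by
          intro c hc h
          rw [Finset.mem_insert, Finset.mem_singleton, not_or] at hc
          exact hc.2 (no_triple hP hab (Ne.symm hc.1) ha hb h).symm
        obtain ⟨κ, hκ⟩ := exists_kil (Z := {a, b}) hX
          (fun c hc' => killed_twice hX hd hP0 c (hc c hc'))
        have hfree : ∀ j ∈ Jp j₁ j₂, ∀ c ∈ ({a, b} : Finset (Fin N)), X j c (w j) = 0 →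
            j ∉ κ.R := by
          intro j _ c hc' h0 hjR
          obtain ⟨q, rfl⟩ := κ.mem_R.1 hjR
          have h1 := hX.disj _ _ _ _ (hκ q) h0
          apply q.2
          rw [h1]
          exact hc'
        by_cases hra : RR j₁ j₂ X a w = 0
        · left
          unfold RR at hra
          rw [Finset.prod_eq_zero_iff] at hra
          obtain ⟨j, hjm, hj0⟩ := hra
          simp only [C, mem_iUnion]
          exact ⟨a, b, hab, κ, j, hjm, hfree j hjm a (by simp) hj0, a, hκ, ha, hb, hj0⟩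
        · by_cases hrb : RR j₁ j₂ X b w = 0
          · left
            unfold RR at hrb
            rw [Finset.prod_eq_zero_iff] at hrb
            obtain ⟨j, hjm, hj0⟩ := hrb
            simp only [C, mem_iUnion]
            exact ⟨a, b, hab, κ, j, hjm, hfree j hjm b (by simp) hj0, b, hκ, ha, hb, hj0⟩
          · right
            obtain ⟨j₀, hj₀, hj₀R⟩ := exists_free hj hab κ (by omega)
            simp only [D, mem_iUnion]
            refine ⟨a, b, hab, κ, j₀, hj₀, hj₀R, hκ, ha, hb, ?_, hra, hrb⟩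
            have h1 := hd j₁
            unfold GD at h1
            rw [if_pos rfl, Finset.sum_eq_add a b hab] at h1
            · exact h1
            · rintro c - ⟨hca, hcb⟩
              have hcq : QQ x0 x1 y z c (w j₁) (w j₂) ≠ 0 := hc c (by simp [hca, hcb])
              rw [(mul_eq_zero.1 (hP0 c)).resolve_left hcq, mul_zero]
            · simp
            · simp
      · left
        push Not at hb
        obtain ⟨κ, hκ⟩ := exists_kil (Z := {a}) hX (fun c hc' => killed_twice hX hd hP0 c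
          (hb c (by rintro rfl; simp at hc')))
        simp only [B, mem_iUnion]
        exact ⟨a, κ, hκ, ha⟩
  refine (dimH_mono hsub).trans ?_
  rw [dimH_union, dimH_union, dimH_union]
  refine max_le ?_ (max_le ?_ (max_le ?_ ?_))
  · rw [dimH_iUnion]
    exact iSup_le fun κ => T0_dim hX κ hk.le
  · simp only [B, dimH_iUnion]
    exact iSup_le fun a => iSup_le fun κ => T1_dim hj hP hX a κ hk.le
  · simp only [C, dimH_iUnion]
    refine iSup_le fun a => iSup_le fun b => iSup_le fun hab => iSup_le fun κ =>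
      iSup_le fun j₀ => iSup_le fun h1 => iSup_le fun h2 => iSup_le fun c => ?_
    exact T2a_dim hj hP hX hab κ hk.le j₀ h1 h2 c
  · simp only [D, dimH_iUnion]
    refine iSup_le fun a => iSup_le fun b => iSup_le fun hab => iSup_le fun κ =>
      iSup_le fun j₀ => iSup_le fun h1 => iSup_le fun h2 => ?_
    exact T2b_dim hj hP hX hab κ hk.le j₀ h1 h2

/-- killing positions exist when there is enough room -/
lemma exists_Kil (hj : j₁ ≠ j₂) {a b : Fin N} (hab : a ≠ b) (hk : 2 * N - 1 ≤ Fintype.card J) :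
    Nonempty (Kil j₁ j₂ ({a, b} : Finset (Fin N))) := by
  classical
  have hcard : Fintype.card {q : Fin N × Bool // q.1 ∉ ({a, b} : Finset (Fin N))} ≤
      Fintype.card (↥(Jp j₁ j₂)) := by
    rw [Fintype.card_coe, card_Jp hj, Fintype.card_subtype]
    have : (Finset.univ.filter fun q : Fin N × Bool => q.1 ∉ ({a, b} : Finset (Fin N))) =
        ({a, b} : Finset (Fin N))ᶜ ×ˢ (Finset.univ : Finset Bool) := by
      ext q
      simp
    rw [this, Finset.card_product, Finset.card_compl, Fintype.card_fin, Finset.card_pair hab]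
    simp only [Finset.card_univ, Fintype.card_bool]
    have : 0 < N := a.pos
    omega
  obtain ⟨e⟩ := Function.Embedding.nonempty_of_card_le hcard
  exact ⟨⟨fun q => (e q : J), fun q q' h => e.injective (Subtype.ext h), fun q => (e q).2⟩⟩

/-- the lower bound -/
theorem le_odd_dim (hj : j₁ ≠ j₂) (hP : Pend N x0 x1 y z) (hX : Good X) {k : ℕ}
    (hk : Fintype.card J = k + (2 * N - 1)) {a b : Fin N} (hab : a ≠ b) {u v : ℂ}
    (ha : QQ x0 x1 y z a u v = 0) (hb : QQ x0 x1 y z b u v = 0)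
    (h0 : deriv x0 v = 0) (h1 : deriv x1 v = 0)
    (hsol : ∀ (j : J) (a b : Fin N), a ≠ b → ∀ α β : ℂ, ∃ x, α * X j a x + β * X j b x = 0) :
    {w | GF j₁ j₂ x0 x1 y z X w = 0 ∧ fderiv ℂ (GF j₁ j₂ x0 x1 y z X) w = 0}.Nonempty ∧
    ((2 * k : ℕ) : ℝ≥0∞) ≤
      dimH {w | GF j₁ j₂ x0 x1 y z X w = 0 ∧ fderiv ℂ (GF j₁ j₂ x0 x1 y z X) w = 0} := by
  classical
  set S : Set (J → ℂ) :=
    {w | GF j₁ j₂ x0 x1 y z X w = 0 ∧ fderiv ℂ (GF j₁ j₂ x0 x1 y z X) w = 0} with hS
  obtain ⟨κ⟩ := exists_Kil (j₁ := j₁) (j₂ := j₂) hj hab (by omega)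
  obtain ⟨j₀, hj₀, hj₀R⟩ := exists_free hj hab κ (by omega)
  obtain ⟨h02, h01⟩ := mem_Jp.1 hj₀
  set R := insert j₀ (insert j₁ (insert j₂ κ.R)) with hR
  have hn2 : j₂ ∉ κ.R := fun h => (κ.R_sub h).1 rfl
  have hn1' : j₁ ∉ κ.R := fun h => (κ.R_sub h).2 rfl
  have hn1 : j₁ ∉ insert j₂ κ.R := by
    rw [Finset.mem_insert, not_or]
    exact ⟨hj, hn1'⟩
  have hn0 : j₀ ∉ insert j₁ (insert j₂ κ.R) := by
    rw [Finset.mem_insert, not_or, Finset.mem_insert, not_or]
    exact ⟨h01, h02, hj₀R⟩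
  choose β hβ using hX.zero
  have hq : ∀ j : J, j ∈ κ.R → ∃ q, κ.a q = j := fun j hj => κ.mem_R.1 hj
  have hRn : ∀ i : J, i ∉ R → i ≠ j₀ ∧ i ≠ j₁ ∧ i ≠ j₂ ∧ i ∉ κ.R := by
    intro i hi
    rw [hR, Finset.mem_insert, Finset.mem_insert, Finset.mem_insert, not_or, not_or,
        not_or] at hi
    exact hi
  have hfill : ∀ t : {i // i ∉ R} → ℂ, ∃ w ∈ S, rs R w = t := by
    intro t
    let w₀ : J → ℂ := fun j => if h : j ∈ κ.R then β j (hq j h).choose.1.1 else
      if j = j₁ then u else if j = j₂ then v else if h' : j ∉ R then t ⟨j, h'⟩ else 0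
    obtain ⟨x, hx⟩ := hsol j₀ a b hab
      (Q1 x0 x1 y z a u v * ∏ i ∈ (Jp j₁ j₂).erase j₀, X i a (w₀ i))
      (Q1 x0 x1 y z b u v * ∏ i ∈ (Jp j₁ j₂).erase j₀, X i b (w₀ i))
    set w : J → ℂ := Function.update w₀ j₀ x with hw
    have hw0 : ∀ i, i ≠ j₀ → w i = w₀ i := fun i hi => Function.update_of_ne hi _ _
    have hwj0 : w j₀ = x := Function.update_self _ _ _
    have hw1 : w j₁ = u := by
      rw [hw0 j₁ (Ne.symm h01)]
      simp only [w₀, dif_neg hn1', if_true]
    have hw2 : w j₂ = v := by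
      rw [hw0 j₂ (Ne.symm h02)]
      simp only [w₀, dif_neg hn2, if_neg hj.symm, if_true]
    have hkill : ∀ q, X (κ.a q) q.1.1 (w (κ.a q)) = 0 := by
      intro q
      have hqR : κ.a q ∈ κ.R := κ.mem_R.2 ⟨q, rfl⟩
      have hne : κ.a q ≠ j₀ := fun h => hj₀R (h ▸ hqR)
      rw [hw0 _ hne]
      have h2 : (hq (κ.a q) hqR).choose = q := κ.inj (hq (κ.a q) hqR).choose_spec
      simp only [w₀, dif_pos hqR]
      rw [h2]
      exact hβ _ _
    have hRRc : ∀ c ∉ ({a, b} : Finset (Fin N)), RR j₁ j₂ X c w = 0 := by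
      intro c hc
      exact Finset.prod_eq_zero (κ.mem ⟨(c, true), hc⟩) (hkill ⟨(c, true), hc⟩)
    have hpr : ∀ c ∉ ({a, b} : Finset (Fin N)), ∀ j,
        ∏ i ∈ (Jp j₁ j₂).erase j, X i c (w i) = 0 := by
      intro c hc j
      by_cases hjc : κ.a ⟨(c, true), hc⟩ = j
      · refine Finset.prod_eq_zero (Finset.mem_erase.2 ⟨?_, κ.mem ⟨(c, false), hc⟩⟩)
          (hkill ⟨(c, false), hc⟩)
        rw [← hjc]
        intro h
        have := κ.inj h
        simp at this
      · exact Finset.prod_eq_zero (Finset.mem_erase.2 ⟨hjc, κ.mem ⟨(c, true), hc⟩⟩)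
          (hkill ⟨(c, true), hc⟩)
    have hnotin : ∀ c, c ≠ a ∧ c ≠ b → c ∉ ({a, b} : Finset (Fin N)) := by
      rintro c ⟨h, h'⟩
      simp [h, h']
    have hGF : GF j₁ j₂ x0 x1 y z X w = 0 := by
      unfold GF
      rw [Finset.sum_eq_add a b hab]
      · rw [hw1, hw2, ha, hb]; ring
      · rintro c - hc
        rw [hRRc c (hnotin c hc), mul_zero]
      · simp
      · simp
    have hprod : ∀ c, RR j₁ j₂ X c w =
        X j₀ c x * ∏ i ∈ (Jp j₁ j₂).erase j₀, X i c (w₀ i) := by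
      intro c
      unfold RR
      rw [← Finset.mul_prod_erase _ _ hj₀, hwj0]
      congr 1
      refine Finset.prod_congr rfl fun i hi => ?_
      rw [hw0 i (Finset.ne_of_mem_erase hi)]
    refine ⟨w, ⟨hGF, (GF_fderiv_zero_iff hj hP hX.diff w).2 fun j => ?_⟩, ?_⟩
    · unfold GD
      by_cases hj1 : j = j₁
      · rw [if_pos hj1, Finset.sum_eq_add a b hab]
        · rw [hprod, hprod, hw1, hw2]
          have : Q1 x0 x1 y z a u v = x0 v * deriv (y a) u + x1 v * deriv (z a) u := rfl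
          rw [← this]
          have : Q1 x0 x1 y z b u v = x0 v * deriv (y b) u + x1 v * deriv (z b) u := rfl
          rw [← this]
          linear_combination hx
        · rintro c - hc
          rw [hRRc c (hnotin c hc), mul_zero]
        · simp
        · simp
      · by_cases hj2 : j = j₂
        · rw [if_neg hj1, if_pos hj2]
          refine Finset.sum_eq_zero fun c _ => ?_
          rw [hw2, h0, h1]
          ring
        · rw [if_neg hj1, if_neg hj2]
          refine Finset.sum_eq_zero fun c _ => ?_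
          by_cases hca : c = a
          · rw [hca, hw1, hw2, ha, zero_mul]
          · by_cases hcb : c = b
            · rw [hcb, hw1, hw2, hb, zero_mul]
            · rw [hpr c (hnotin c ⟨hca, hcb⟩) j, mul_zero, mul_zero]
    · funext i
      have hiR := hRn i i.2
      unfold rs
      rw [hw0 _ hiR.1]
      have hi' : (i : J) ∉ R := i.2
      simp only [w₀, dif_neg hiR.2.2.2, if_neg hiR.2.1, if_neg hiR.2.2.1, dif_pos hi']
  refine ⟨?_, ?_⟩
  · obtain ⟨w, hw, -⟩ := hfill 0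
    exact ⟨w, hw⟩
  · have hp : LipschitzWith 1 (rs (J := J) R) := by
      refine LipschitzWith.of_dist_le_mul fun w w' => ?_
      rw [NNReal.coe_one, one_mul, dist_pi_le_iff dist_nonneg]
      intro j
      exact dist_le_pi_dist w w' j
    have h3 := hp.dimH_image_le S
    have h4 : rs R '' S = univ := by
      rw [eq_univ_iff_forall]
      intro t
      obtain ⟨w, hw, hwt⟩ := hfill t
      exact ⟨w, hw, hwt⟩
    rw [h4, Real.dimH_univ_eq_finrank, finrank_fun, card_notMem] at h3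
    refine le_trans (le_of_eq ?_) h3
    congr 2
    rw [hR, Finset.card_insert_of_notMem hn0, Finset.card_insert_of_notMem hn1,
      Finset.card_insert_of_notMem hn2, κ.R_card, Finset.card_pair hab, hk]
    have : 0 < N := a.pos
    have h2 : 2 ≤ N := by
      by_contra hN
      have : N = 1 := by omega
      subst this
      exact hab (Subsingleton.elim a b)
    omega

end

end Pool.Agent.H70.AM
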