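import Pool.Agent.H70.AM.OddC

/-!
The residual part of the singular locus.
-/

set_option autoImplicit false
set_option linter.unusedSectionVars false

open Set Topology Filter
open scoped ENNReal NNReal

namespace Pool.Agent.H70.AM

section gen

variable {X : Type*} [TopologicalSpace X] {T : Type} [Fintype T] [DecidableEq T]

/-- masking the coordinates in `R` -/
def msk (R : Finset T) (g : T → ℂ) (t : T) : ℂ := if t ∈ R then 0 else g t

lemma msk_continuous (R : Finset T) : Continuous (msk R) := by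
  refine continuous_pi fun t => ?_
  unfold msk
  by_cases h : t ∈ R
  · simp only [h, if_true]
    exact continuous_const
  · simp only [h, if_false]
    exact continuous_apply (A := fun _ : T => ℂ) t

lemma dom_msk {E : Type*} [PseudoEMetricSpace E] {s : Set X} {G : X → T → ℂ} {q : X → E}
    (R : Finset T) (h : ∀ t ∉ R, Dom s (fun w => G w t) q) :
    Dom s (fun w => msk R (G w)) q := by
  refine Dom.pi (f := fun w => msk R (G w)) fun t => ?_
  unfold msk
  by_cases ht : t ∈ R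
  · simp only [ht, if_true]
    exact Dom.of_countable ((countable_singleton (0 : ℂ)).mono (by rintro _ ⟨_, _, rfl⟩; rfl))
  · simp only [ht, if_false]
    exact h t ht

/-- restriction to the complement of `R`, composed with `G` -/
def rsG (G : X → T → ℂ) (R : Finset T) (w : X) : {i // i ∉ R} → ℂ := rs R (G w)

lemma dom_rsG {s : Set X} (G : X → T → ℂ) (R : Finset T) (t : T) (ht : t ∉ R) :
    Dom s (fun w => G w t) (rsG G R) := by
  refine Dom.of_lipschitz 1 fun a _ b _ => ?_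
  rw [ENNReal.coe_one, one_mul]
  exact edist_le_pi_edist (rs R (G a)) (rs R (G b)) ⟨t, ht⟩

lemma rsG_cont {s : Set X} {G : X → T → ℂ} (hG : ∀ w ∈ s, ContinuousWithinAt G s w)
    (R : Finset T) : ∀ w ∈ s, ContinuousWithinAt (rsG G R) s w :=
  fun w hw => (rs_continuous R).continuousAt.comp_continuousWithinAt (hG w hw)

/-- a coordinate given by an analytic function of the masked vector -/
lemma dom_fn {s : Set X} {G : X → T → ℂ} (hG : ∀ w ∈ s, ContinuousWithinAt G s w)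
    {R : Finset T} (R₀ : Finset T) (hR₀ : ∀ t ∉ R₀, Dom s (fun w => G w t) (rsG G R))
    (f : X → ℂ) (h : (T → ℂ) → ℂ) (hh : ∀ w ∈ s, AnalyticAt ℂ h (msk R₀ (G w)))
    (hf : ∀ w ∈ s, f w = h (msk R₀ (G w))) : Dom s f (rsG G R) := by
  refine Dom.trans (g := fun w => msk R₀ (G w)) ?_ (dom_msk R₀ hR₀)
  exact Dom.of_analytic h (fun w hw =>
    (msk_continuous R₀).continuousAt.comp_continuousWithinAt (hG w hw)) hh hf

end gen

section gen2

variable {X : Type} [EMetricSpace X] [SecondCountableTopology X] {T : Type} [Fintype T]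
  [DecidableEq T]

lemma dimH_le_of_G {s : Set X} {G : X → T → ℂ} (h : Dom s id G) (R : Finset T)
    (hR : ∀ t ∈ R, Dom s (fun w => G w t) (rsG G R)) {m : ℕ} (hm : Fintype.card T ≤ m + R.card) :
    dimH s ≤ ((2 * m : ℕ) : ℝ≥0∞) := by
  have h1 : Dom s G (rsG G R) := by
    refine Dom.pi (f := G) fun t => ?_
    by_cases ht : t ∈ R
    · exact hR t ht
    · exact dom_rsG G R t ht
  refine (h.trans h1).dimH_le.trans ((dimH_le_card _).trans ?_)
  rw [card_notMem]
  exact_mod_cast Nat.mul_le_mul_left 2 (by omega)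

end gen2

section

variable {J : Type} [Fintype J] [DecidableEq J] {N : ℕ}
variable {j₁ j₂ : J} {x0 x1 : ℂ → ℂ} {y z : Fin N → ℂ → ℂ} {X : J → Fin N → ℂ → ℂ}

/-- index type of the parameters: `inl c` for the ratios, `inr false` and `inr true` for the
block coordinates -/
abbrev TT (N : ℕ) := Fin N ⊕ Bool

/-- the parameters -/
noncomputable def Gm (j₁ j₂ : J) (X : J → Fin N → ℂ → ℂ) (c₁ : Fin N) (w : J → ℂ) : TT N → ℂ :=
  Sum.elim (fun c => RR j₁ j₂ X c w / RR j₁ j₂ X c₁ w) (fun b => if b then w j₂ else w j₁)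

/-- the residual set for `c₁` -/
def Rs (j₁ j₂ : J) (x0 x1 : ℂ → ℂ) (y z : Fin N → ℂ → ℂ) (X : J → Fin N → ℂ → ℂ)
    (c₁ : Fin N) : Set (J → ℂ) :=
  {w | GF j₁ j₂ x0 x1 y z X w = 0 ∧ (∀ j, GD j₁ j₂ x0 x1 y z X w j = 0) ∧
    QQ x0 x1 y z c₁ (w j₁) (w j₂) ≠ 0 ∧ RR j₁ j₂ X c₁ w ≠ 0}

/-- a linear form in the ratios with coefficients depending on the first block coordinate -/
noncomputable def LL (f : Fin N → ℂ → ℂ) (g : TT N → ℂ) : ℂ :=
  ∑ c, f c (g (Sum.inr false)) * g (Sum.inl c)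

/-- the same with coefficients depending on both -/
noncomputable def LQ (f : Fin N → ℂ → ℂ → ℂ) (g : TT N → ℂ) : ℂ :=
  ∑ c, f c (g (Sum.inr false)) (g (Sum.inr true)) * g (Sum.inl c)

lemma Gm_continuous (hX : Good X) (c₁ : Fin N) {s : Set (J → ℂ)}
    (hs : s ⊆ Rs j₁ j₂ x0 x1 y z X c₁) :
    ∀ w ∈ s, ContinuousWithinAt (Gm j₁ j₂ X c₁) s w := by
  intro w hw
  refine ContinuousAt.continuousWithinAt (continuousAt_pi.2 fun t => ?_)
  rcases t with c | b
  · exact ((RR_analytic hX.diff c w).continuousAt).div ((RR_analytic hX.diff c₁ w).continuousAt)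
      (hs hw).2.2.2
  · cases b
    · exact (continuous_apply j₁).continuousAt
    · exact (continuous_apply j₂).continuousAt

section rel

variable {c₁ : Fin N} {w : J → ℂ} (hw : w ∈ Rs j₁ j₂ x0 x1 y z X c₁)

include hw

lemma Gm_c₁ : Gm j₁ j₂ X c₁ w (Sum.inl c₁) = 1 := div_self hw.2.2.2

lemma LQ_zero : LQ (QQ x0 x1 y z) (Gm j₁ j₂ X c₁ w) = 0 := by
  have h := hw.1
  unfold GF at h
  unfold LQ Gm
  simp only [Sum.elim_inl, Sum.elim_inr, if_true, Bool.false_eq_true, if_false]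
  have : ∀ c, QQ x0 x1 y z c (w j₁) (w j₂) * (RR j₁ j₂ X c w / RR j₁ j₂ X c₁ w) =
      (QQ x0 x1 y z c (w j₁) (w j₂) * RR j₁ j₂ X c w) / RR j₁ j₂ X c₁ w := fun c => by ring
  rw [Finset.sum_congr rfl fun c _ => this c, ← Finset.sum_div, h, zero_div]

lemma LQ1_zero : LQ (Q1 x0 x1 y z) (Gm j₁ j₂ X c₁ w) = 0 := by
  have h := hw.2.1 j₁
  unfold GD at h
  rw [if_pos rfl] at h
  unfold LQ Gm
  simp only [Sum.elim_inl, Sum.elim_inr, if_true, Bool.false_eq_true, if_false]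
  have : ∀ c, Q1 x0 x1 y z c (w j₁) (w j₂) * (RR j₁ j₂ X c w / RR j₁ j₂ X c₁ w) =
      ((x0 (w j₂) * deriv (y c) (w j₁) + x1 (w j₂) * deriv (z c) (w j₁)) *
        RR j₁ j₂ X c w) / RR j₁ j₂ X c₁ w := fun c => by unfold Q1; ring
  rw [Finset.sum_congr rfl fun c _ => this c, ← Finset.sum_div, h, zero_div]

lemma rel0 : x0 (w j₂) * LL y (Gm j₁ j₂ X c₁ w) + x1 (w j₂) * LL z (Gm j₁ j₂ X c₁ w) = 0 := by
  rw [← LQ_zero hw]
  unfold LQ LL QQ Gm
  simp only [Sum.elim_inl, Sum.elim_inr, if_true, Bool.false_eq_true, if_false]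
  rw [Finset.mul_sum, Finset.mul_sum, ← Finset.sum_add_distrib]
  exact Finset.sum_congr rfl fun c _ => by ring

lemma rel1 : x0 (w j₂) * LL (fun c => deriv (y c)) (Gm j₁ j₂ X c₁ w) +
    x1 (w j₂) * LL (fun c => deriv (z c)) (Gm j₁ j₂ X c₁ w) = 0 := by
  rw [← LQ1_zero hw]
  unfold LQ LL Q1 Gm
  simp only [Sum.elim_inl, Sum.elim_inr, if_true, Bool.false_eq_true, if_false]
  rw [Finset.mul_sum, Finset.mul_sum, ← Finset.sum_add_distrib]
  exact Finset.sum_congr rfl fun c _ => by ring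

lemma rel2 (hj : j₁ ≠ j₂) : deriv x0 (w j₂) * LL y (Gm j₁ j₂ X c₁ w) +
    deriv x1 (w j₂) * LL z (Gm j₁ j₂ X c₁ w) = 0 := by
  have h := hw.2.1 j₂
  unfold GD at h
  rw [if_neg hj.symm, if_pos rfl] at h
  unfold LL Gm
  simp only [Sum.elim_inl, Sum.elim_inr, Bool.false_eq_true, if_false]
  rw [Finset.mul_sum, Finset.mul_sum, ← Finset.sum_add_distrib]
  have : ∀ c, deriv x0 (w j₂) * (y c (w j₁) * (RR j₁ j₂ X c w / RR j₁ j₂ X c₁ w)) +
      deriv x1 (w j₂) * (z c (w j₁) * (RR j₁ j₂ X c w / RR j₁ j₂ X c₁ w)) =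
      ((deriv x0 (w j₂) * y c (w j₁) + deriv x1 (w j₂) * z c (w j₁)) *
        RR j₁ j₂ X c w) / RR j₁ j₂ X c₁ w := fun c => by ring
  rw [Finset.sum_congr rfl fun c _ => this c, ← Finset.sum_div, h, zero_div]

end rel

/-- all coordinates are dominated by the parameters -/
lemma Rs_dom (hP : Pend N x0 x1 y z) (hX : Good X) (c₁ : Fin N) :
    Dom (Rs j₁ j₂ x0 x1 y z X c₁) id (Gm j₁ j₂ X c₁) := by
  refine Dom.pi (f := id) fun j => ?_
  have hGc := Gm_continuous (j₁ := j₁) (j₂ := j₂) (x0 := x0) (x1 := x1) (y := y) (z := z)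
    hX c₁ (s := Rs j₁ j₂ x0 x1 y z X c₁) Subset.rfl
  by_cases h1 : j = j₁
  · subst h1
    refine Dom.of_lipschitz 1 fun a _ b _ => ?_
    rw [ENNReal.coe_one, one_mul]
    exact edist_le_pi_edist (Gm j j₂ X c₁ a) (Gm j j₂ X c₁ b) (Sum.inr false)
  by_cases h2 : j = j₂
  · subst h2
    refine Dom.of_lipschitz 1 fun a _ b _ => ?_
    rw [ENNReal.coe_one, one_mul]
    exact edist_le_pi_edist (Gm j₁ j X c₁ a) (Gm j₁ j X c₁ b) (Sum.inr true)
  have hm : j ∈ Jp j₁ j₂ := mem_Jp.2 ⟨h2, h1⟩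
  let H : (TT N → ℂ) × ℂ → ℂ := fun q =>
    ∑ c, QQ x0 x1 y z c (q.1 (Sum.inr false)) (q.1 (Sum.inr true)) * q.1 (Sum.inl c) *
      VV X j c q.2
  refine Dom.solve H ?_ (fun w _ => (continuous_apply j).continuousWithinAt) hGc ?_ ?_
  · intro q _
    have hc : ∀ t : TT N, AnalyticAt ℂ (fun q : (TT N → ℂ) × ℂ => q.1 t) q := fun t =>
      AnalyticAt.comp (g := fun g : TT N → ℂ => g t) (f := fun q : (TT N → ℂ) × ℂ => q.1)
        (coord_analytic t q.1) analyticAt_fst
    refine Finset.analyticAt_fun_sum _ fun c _ => ?_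
    refine AnalyticAt.mul (AnalyticAt.mul ?_ (hc _)) ?_
    · exact AnalyticAt.comp (g := fun q : ℂ × ℂ => QQ x0 x1 y z c q.1 q.2)
        (f := fun q : (TT N → ℂ) × ℂ => (q.1 (Sum.inr false), q.1 (Sum.inr true)))
        (QQ_analytic hP c _) ((hc _).prod (hc _))
    · exact AnalyticAt.comp (g := VV X j c) (f := fun q : (TT N → ℂ) × ℂ => q.2)
        (VV_analytic hX j c q.2) analyticAt_snd
  · intro w hw
    have h := hw.2.1 j
    unfold GD at h
    rw [if_neg h1, if_neg h2] at h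
    simp only [H, Gm, Sum.elim_inl, Sum.elim_inr, if_true, Bool.false_eq_true, if_false, id]
    have h5 : ∀ c, QQ x0 x1 y z c (w j₁) (w j₂) * (RR j₁ j₂ X c w / RR j₁ j₂ X c₁ w) *
        VV X j c (w j) = ((∏ c', X j c' (w j)) / RR j₁ j₂ X c₁ w) *
        (QQ x0 x1 y z c (w j₁) (w j₂) *
          (deriv (X j c) (w j) * ∏ i ∈ (Jp j₁ j₂).erase j, X i c (w i))) := by
      intro c
      have e1 : RR j₁ j₂ X c w = X j c (w j) * ∏ i ∈ (Jp j₁ j₂).erase j, X i c (w i) := by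
        unfold RR
        rw [Finset.mul_prod_erase _ (fun i => X i c (w i)) hm]
      rw [e1]
      unfold VV
      rw [← Finset.mul_prod_erase _ (fun c' => X j c' (w j)) (Finset.mem_univ c)]
      ring
    rw [Finset.sum_congr rfl fun c _ => h5 c, ← Finset.mul_sum, h, mul_zero]
  · intro w hw
    obtain ⟨x, hx⟩ := hX.zero j c₁
    refine ⟨x, ?_⟩
    simp only [H, Gm, Sum.elim_inl, Sum.elim_inr, if_true, Bool.false_eq_true, if_false]
    rw [Finset.sum_eq_single c₁]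
    · rw [div_self hw.2.2.2, mul_one]
      refine mul_ne_zero hw.2.2.1 ?_
      unfold VV
      refine mul_ne_zero (hX.simple j c₁ x hx) ?_
      rw [Finset.prod_ne_zero_iff]
      intro c' hc' h7
      exact (Finset.ne_of_mem_erase hc') (hX.disj j c' c₁ x h7 hx)
    · intro c _ hcc
      have h8 : VV X j c x = 0 := by
        unfold VV
        rw [Finset.prod_eq_zero (Finset.mem_erase.2 ⟨Ne.symm hcc, Finset.mem_univ _⟩) hx, mul_zero]
      rw [h8, mul_zero]
    · simp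

end

end Pool.Agent.H70.AM
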