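import Pool.Agent.H70.AM.OddD

/-!
The residual part of the singular locus: dimension bound.
-/

set_option autoImplicit false
set_option linter.unusedSectionVars false

open Set Topology Filter
open scoped ENNReal NNReal

namespace Pool.Agent.H70.AM

section

variable {J : Type} [Fintype J] [DecidableEq J] {N : ℕ}
variable {j₁ j₂ : J} {x0 x1 : ℂ → ℂ} {y z : Fin N → ℂ → ℂ} {X : J → Fin N → ℂ → ℂ}

lemma sum_msk (F : Fin N → ℂ) (g : TT N → ℂ) (R : Finset (TT N)) (S : Finset (Fin N))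
    (h : ∀ c, Sum.inl c ∈ R ↔ c ∈ S) :
    ∑ c, F c * g (Sum.inl c) =
      ∑ c ∈ S, F c * g (Sum.inl c) + ∑ c, F c * msk R g (Sum.inl c) := by
  have h1 : ∀ c, F c * msk R g (Sum.inl c) =
      F c * g (Sum.inl c) - (if c ∈ S then F c * g (Sum.inl c) else 0) := by
    intro c
    unfold msk
    by_cases hc : c ∈ S
    · rw [if_pos ((h c).2 hc), if_pos hc]; ring
    · rw [if_neg (fun hh => hc ((h c).1 hh)), if_neg hc]; ring
  rw [Finset.sum_congr rfl fun c _ => h1 c, Finset.sum_sub_distrib, Finset.sum_ite_mem,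
    Finset.univ_inter]
  ring

lemma LL_msk (f : Fin N → ℂ → ℂ) (g : TT N → ℂ) (R : Finset (TT N)) (S : Finset (Fin N))
    (h : ∀ c, Sum.inl c ∈ R ↔ c ∈ S) (hf : Sum.inr false ∉ R) :
    LL f g = ∑ c ∈ S, f c (g (Sum.inr false)) * g (Sum.inl c) + LL f (msk R g) := by
  unfold LL
  rw [sum_msk _ g R S h]
  congr 1
  have : msk R g (Sum.inr false) = g (Sum.inr false) := by
    unfold msk; rw [if_neg hf]
  rw [this]

lemma LQ_msk (f : Fin N → ℂ → ℂ → ℂ) (g : TT N → ℂ) (R : Finset (TT N)) (S : Finset (Fin N))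
    (h : ∀ c, Sum.inl c ∈ R ↔ c ∈ S) (hf : Sum.inr false ∉ R) (ht : Sum.inr true ∉ R) :
    LQ f g = ∑ c ∈ S, f c (g (Sum.inr false)) (g (Sum.inr true)) * g (Sum.inl c) +
      LQ f (msk R g) := by
  unfold LQ
  rw [sum_msk _ g R S h]
  congr 1
  have h1 : msk R g (Sum.inr false) = g (Sum.inr false) := by
    unfold msk; rw [if_neg hf]
  have h2 : msk R g (Sum.inr true) = g (Sum.inr true) := by
    unfold msk; rw [if_neg ht]
  rw [h1, h2]

lemma fn_analytic {f : ℂ → ℂ} (hf : Differentiable ℂ f) (t : TT N) (g : TT N → ℂ) :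
    AnalyticAt ℂ (fun g : TT N → ℂ => f (g t)) g :=
  AnalyticAt.comp (g := f) (f := fun g : TT N → ℂ => g t) (hf.analyticAt (g t))
    (coord_analytic t g)

lemma fn2_analytic {f : ℂ → ℂ → ℂ} (hf : ∀ q, AnalyticAt ℂ (fun q : ℂ × ℂ => f q.1 q.2) q)
    (g : TT N → ℂ) :
    AnalyticAt ℂ (fun g : TT N → ℂ => f (g (Sum.inr false)) (g (Sum.inr true))) g :=
  AnalyticAt.comp (g := fun q : ℂ × ℂ => f q.1 q.2)
    (f := fun g : TT N → ℂ => (g (Sum.inr false), g (Sum.inr true))) (hf _)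
    ((coord_analytic _ g).prod (coord_analytic _ g))

lemma LL_analytic {f : Fin N → ℂ → ℂ} (hf : ∀ c, Differentiable ℂ (f c)) (g : TT N → ℂ) :
    AnalyticAt ℂ (LL f) g := by
  unfold LL
  exact Finset.analyticAt_fun_sum _ fun c _ => (fn_analytic (hf c) _ g).mul (coord_analytic _ g)

lemma LQ_analytic {f : Fin N → ℂ → ℂ → ℂ}
    (hf : ∀ c q, AnalyticAt ℂ (fun q : ℂ × ℂ => f c q.1 q.2) q) (g : TT N → ℂ) :
    AnalyticAt ℂ (LQ f) g := by
  unfold LQ
  exact Finset.analyticAt_fun_sum _ fun c _ => (fn2_analytic (hf c) g).mul (coord_analytic _ g)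

lemma diff_deriv {f : ℂ → ℂ} (hf : Differentiable ℂ f) : Differentiable ℂ (deriv f) :=
  fun x => (hf.analyticAt x).deriv.differentiableAt

/-- the three term determinant -/
noncomputable def Dt (y z f : Fin N → ℂ → ℂ) (a b c : Fin N) (u : ℂ) : ℂ :=
  deriv (f a) u * W2 y z b c u - deriv (f b) u * W2 y z a c u + deriv (f c) u * W2 y z a b u

lemma Dt_a (f : Fin N → ℂ → ℂ) (a b : Fin N) (u : ℂ) : Dt y z f a b a u = 0 := by
  unfold Dt W2; ring

lemma Dt_b (f : Fin N → ℂ → ℂ) (a b : Fin N) (u : ℂ) : Dt y z f a b b u = 0 := by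
  unfold Dt W2; ring

lemma Dt_diff (hP : Pend N x0 x1 y z) {f : Fin N → ℂ → ℂ} (hf : ∀ c, Differentiable ℂ (f c))
    (a b c : Fin N) : Differentiable ℂ (Dt y z f a b c) := by
  unfold Dt
  exact (((diff_deriv (hf a)).mul (W2_differentiable hP b c)).sub
    ((diff_deriv (hf b)).mul (W2_differentiable hP a c))).add
    ((diff_deriv (hf c)).mul (W2_differentiable hP a b))

lemma Dt_ident (a b c : Fin N) (u : ℂ) :
    W2 y z a b u * W2' y z b c u - W2 y z b c u * W2' y z a b u =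
      -(z b u) * Dt y z y a b c u + y b u * Dt y z z a b c u := by
  unfold Dt W2 W2'; ring

lemma Dt_ne (hP : Pend N x0 x1 y z) {a b c : Fin N} (hab : a ≠ b) (hac : a ≠ c) (hbc : b ≠ c) :
    ∃ u, ¬ (Dt y z y a b c u = 0 ∧ Dt y z z a b c u = 0) := by
  obtain ⟨u, hu⟩ := hP.wzero b c hbc
  refine ⟨u, ?_⟩
  rintro ⟨h1, h2⟩
  have h := Dt_ident (y := y) (z := z) a b c u
  rw [h1, h2, hu] at h
  have h3 : W2 y z a b u * W2' y z b c u = 0 := by linear_combination h
  have h4 := (mul_eq_zero.1 h3).resolve_right (hP.wsimple b c hbc u hu)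
  have h5 : W2 y z b a u = 0 := by
    unfold W2 at h4 ⊢; linear_combination -h4
  exact hac (hP.wdisj b c a u hbc hab.symm hu h5).symm

lemma Dt_rel {f : Fin N → ℂ → ℂ} {g : TT N → ℂ} (hA : LL y g = 0) (hB : LL z g = 0)
    (hf : LL (fun c => deriv (f c)) g = 0) (a b : Fin N) :
    ∑ c, Dt y z f a b c (g (Sum.inr false)) * g (Sum.inl c) = 0 := by
  set u := g (Sum.inr false) with hu
  have e : ∀ c, Dt y z f a b c u * g (Sum.inl c) =
      (deriv (f a) u * y b u - deriv (f b) u * y a u) * (z c u * g (Sum.inl c)) +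
      (deriv (f b) u * z a u - deriv (f a) u * z b u) * (y c u * g (Sum.inl c)) +
      W2 y z a b u * (deriv (f c) u * g (Sum.inl c)) := by
    intro c
    unfold Dt W2; ring
  rw [Finset.sum_congr rfl fun c _ => e c, Finset.sum_add_distrib, Finset.sum_add_distrib,
    ← Finset.mul_sum, ← Finset.mul_sum, ← Finset.mul_sum]
  unfold LL at hA hB hf
  rw [← hu] at hA hB hf
  rw [hA, hB, hf]
  ring

section bound

variable {c₁ : Fin N} {s : Set (J → ℂ)}

lemma dom_c₁ (hs : s ⊆ Rs j₁ j₂ x0 x1 y z X c₁) {E : Type*} [PseudoEMetricSpace E]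
    (q : (J → ℂ) → E) : Dom s (fun w => Gm j₁ j₂ X c₁ w (Sum.inl c₁)) q := by
  refine Dom.of_countable ((countable_singleton (1 : ℂ)).mono ?_)
  rintro _ ⟨w, hw, rfl⟩
  exact Gm_c₁ (hs hw)

/-- the two ratios `a`, `b` over the masked vector, first stratum -/
lemma dom_ab (hP : Pend N x0 x1 y z) (hX : Good X) (hs : s ⊆ Rs j₁ j₂ x0 x1 y z X c₁)
    {a b : Fin N} (hab : a ≠ b) (hW : ∀ w ∈ s, W2 y z a b (w j₁) ≠ 0)
    (hA : ∀ w ∈ s, LL y (Gm j₁ j₂ X c₁ w) = 0) (hB : ∀ w ∈ s, LL z (Gm j₁ j₂ X c₁ w) = 0)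
    {R : Finset (TT N)}
    (hR : ∀ t, t ≠ Sum.inl a → t ≠ Sum.inl b → t ≠ Sum.inr true →
      Dom s (fun w => Gm j₁ j₂ X c₁ w t) (rsG (Gm j₁ j₂ X c₁) R)) :
    Dom s (fun w => Gm j₁ j₂ X c₁ w (Sum.inl a)) (rsG (Gm j₁ j₂ X c₁) R) ∧
      Dom s (fun w => Gm j₁ j₂ X c₁ w (Sum.inl b)) (rsG (Gm j₁ j₂ X c₁) R) := by
  set G := Gm j₁ j₂ X c₁ with hG
  have hGc : ∀ w ∈ s, ContinuousWithinAt G s w :=
    Gm_continuous (j₁ := j₁) (j₂ := j₂) (x0 := x0) (x1 := x1) (y := y) (z := z) hX c₁ hs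
  set R₀ : Finset (TT N) := {Sum.inl a, Sum.inl b, Sum.inr true} with hR₀
  have hf : (Sum.inr false : TT N) ∉ R₀ := by simp [hR₀]
  have hS : ∀ c, (Sum.inl c : TT N) ∈ R₀ ↔ c ∈ ({a, b} : Finset (Fin N)) := by
    intro c; simp [hR₀]
  have hd : ∀ t ∉ R₀, Dom s (fun w => G w t) (rsG G R) := by
    intro t ht
    simp only [hR₀, Finset.mem_insert, Finset.mem_singleton, not_or] at ht
    exact hR t ht.1 ht.2.1 ht.2.2
  have hu : ∀ w, msk R₀ (G w) (Sum.inr false) = w j₁ := by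
    intro w
    unfold msk
    rw [if_neg hf]
    rfl
  have hGu : ∀ w, G w (Sum.inr false) = w j₁ := fun w => rfl
  have hey : ∀ w ∈ s, y a (w j₁) * G w (Sum.inl a) + y b (w j₁) * G w (Sum.inl b) +
      LL y (msk R₀ (G w)) = 0 := by
    intro w hw
    have h := hA w hw
    rw [LL_msk y (G w) R₀ {a, b} hS hf, Finset.sum_pair hab, hGu] at h
    exact h
  have hez : ∀ w ∈ s, z a (w j₁) * G w (Sum.inl a) + z b (w j₁) * G w (Sum.inl b) +
      LL z (msk R₀ (G w)) = 0 := by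
    intro w hw
    have h := hB w hw
    rw [LL_msk z (G w) R₀ {a, b} hS hf, Finset.sum_pair hab, hGu] at h
    exact h
  have hWan : ∀ g : TT N → ℂ, AnalyticAt ℂ (fun g : TT N → ℂ => W2 y z a b (g (Sum.inr false))) g :=
    fun g => fn_analytic (W2_differentiable hP a b) _ g
  constructor
  · refine dom_fn (s := s) hGc R₀ hd (fun w => G w (Sum.inl a))
      (fun g => (LL z g * y b (g (Sum.inr false)) - LL y g * z b (g (Sum.inr false))) /
        W2 y z a b (g (Sum.inr false))) ?_ ?_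
    · intro w hw
      refine AnalyticAt.div ?_ (hWan _) ?_
      · exact ((LL_analytic hP.dz _).mul (fn_analytic (hP.dy b) _ _)).sub
          ((LL_analytic hP.dy _).mul (fn_analytic (hP.dz b) _ _))
      · rw [hu]; exact hW w hw
    · intro w hw
      have h1 := hey w hw
      have h2 := hez w hw
      have h3 := hW w hw
      simp only [hu]
      rw [eq_div_iff h3]
      unfold W2
      linear_combination z b (w j₁) * h1 - y b (w j₁) * h2
  · refine dom_fn (s := s) hGc R₀ hd (fun w => G w (Sum.inl b))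
      (fun g => (LL y g * z a (g (Sum.inr false)) - LL z g * y a (g (Sum.inr false))) /
        W2 y z a b (g (Sum.inr false))) ?_ ?_
    · intro w hw
      refine AnalyticAt.div ?_ (hWan _) ?_
      · exact ((LL_analytic hP.dy _).mul (fn_analytic (hP.dz a) _ _)).sub
          ((LL_analytic hP.dz _).mul (fn_analytic (hP.dy a) _ _))
      · rw [hu]; exact hW w hw
    · intro w hw
      have h1 := hey w hw
      have h2 := hez w hw
      have h3 := hW w hw
      simp only [hu]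
      rw [eq_div_iff h3]
      unfold W2
      linear_combination y a (w j₁) * h2 - z a (w j₁) * h1

/-- case Ia -/
lemma caseIa (hP : Pend N x0 x1 y z) (hX : Good X) (hs : s ⊆ Rs j₁ j₂ x0 x1 y z X c₁)
    {a b : Fin N} (hab : a ≠ b) (hac : a ≠ c₁) (hbc : b ≠ c₁)
    (hW : ∀ w ∈ s, W2 y z a b (w j₁) ≠ 0)
    (hA : ∀ w ∈ s, LL y (Gm j₁ j₂ X c₁ w) = 0) (hB : ∀ w ∈ s, LL z (Gm j₁ j₂ X c₁ w) = 0)
    (hne : ∀ w ∈ s, ¬ (LL (fun c => deriv (y c)) (Gm j₁ j₂ X c₁ w) = 0 ∧
      LL (fun c => deriv (z c)) (Gm j₁ j₂ X c₁ w) = 0)) {k : ℕ} (hk : N ≤ k + 2) :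
    dimH s ≤ ((2 * k : ℕ) : ℝ≥0∞) := by
  set G := Gm j₁ j₂ X c₁ with hG
  have hGc : ∀ w ∈ s, ContinuousWithinAt G s w :=
    Gm_continuous (j₁ := j₁) (j₂ := j₂) (x0 := x0) (x1 := x1) (y := y) (z := z) hX c₁ hs
  set R : Finset (TT N) := {Sum.inl c₁, Sum.inl a, Sum.inl b, Sum.inr true} with hR
  have hRc : R.card = 4 := by
    rw [hR, Finset.card_insert_of_notMem (by simp [hac.symm, hbc.symm]),
      Finset.card_insert_of_notMem (by simp [hab]), Finset.card_insert_of_notMem (by simp),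
      Finset.card_singleton]
  have h0 : ∀ t, t ≠ Sum.inl a → t ≠ Sum.inl b → t ≠ Sum.inr true →
      Dom s (fun w => G w t) (rsG G R) := by
    intro t h1 h2 h3
    by_cases h4 : t = Sum.inl c₁
    · subst h4
      exact dom_c₁ hs _
    · exact dom_rsG G R t (by simp [hR, h1, h2, h3, h4])
  have hab' := dom_ab hP hX hs hab hW hA hB (R := R) h0
  have hv : Dom s (fun w => G w (Sum.inr true)) (rsG G R) := by
    refine Dom.trans (g := fun w => msk {Sum.inr true} (G w)) ?_ (dom_msk _ ?_)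
    · let H : (TT N → ℂ) × ℂ → ℂ := fun q =>
        LL (fun c => deriv (y c)) q.1 * x0 q.2 + LL (fun c => deriv (z c)) q.1 * x1 q.2
      have hLm : ∀ (f : Fin N → ℂ → ℂ) w, LL f (msk {Sum.inr true} (G w)) = LL f (G w) := by
        intro f w
        rw [LL_msk f (G w) {Sum.inr true} ∅ (by simp) (by simp), Finset.sum_empty, zero_add]
      refine Dom.solve H ?_ ?_ ?_ ?_ ?_
      · intro q _
        have h1 : AnalyticAt ℂ (fun q : (TT N → ℂ) × ℂ => x0 q.2) q :=
          (hP.dx0.analyticAt q.2).comp analyticAt_snd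
        have h2 : AnalyticAt ℂ (fun q : (TT N → ℂ) × ℂ => x1 q.2) q :=
          (hP.dx1.analyticAt q.2).comp analyticAt_snd
        have h3 : AnalyticAt ℂ (fun q : (TT N → ℂ) × ℂ => LL (fun c => deriv (y c)) q.1) q :=
          (LL_analytic (fun c => diff_deriv (hP.dy c)) q.1).comp analyticAt_fst
        have h4 : AnalyticAt ℂ (fun q : (TT N → ℂ) × ℂ => LL (fun c => deriv (z c)) q.1) q :=
          (LL_analytic (fun c => diff_deriv (hP.dz c)) q.1).comp analyticAt_fst
        exact (h3.mul h1).add (h4.mul h2)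
      · exact fun w _ => (continuous_apply j₂).continuousWithinAt
      · exact fun w hw => (msk_continuous _).continuousAt.comp_continuousWithinAt (hGc w hw)
      · intro w hw
        simp only [H, hLm]
        have := rel1 (hs hw)
        rw [← hG] at this
        change LL (fun c => deriv (y c)) (G w) * x0 (w j₂) +
          LL (fun c => deriv (z c)) (G w) * x1 (w j₂) = 0
        linear_combination this
      · intro w hw
        simp only [H, hLm]
        exact hP.indep _ _ (hne w hw)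
    · intro t ht
      rw [Finset.mem_singleton] at ht
      by_cases h1 : t = Sum.inl a
      · subst h1; exact hab'.1
      by_cases h2 : t = Sum.inl b
      · subst h2; exact hab'.2
      exact h0 t h1 h2 ht
  refine dimH_le_of_G (G := G) ((Rs_dom hP hX c₁).mono hs) R ?_ ?_
  · intro t ht
    simp only [hR, Finset.mem_insert, Finset.mem_singleton] at ht
    rcases ht with rfl | rfl | rfl | rfl
    · exact dom_c₁ hs _
    · exact hab'.1
    · exact hab'.2
    · exact hv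
  · rw [hRc, Fintype.card_sum, Fintype.card_fin, Fintype.card_bool]
    omega

/-- case Ib1 -/
lemma caseIb1 (hP : Pend N x0 x1 y z) (hX : Good X) (hs : s ⊆ Rs j₁ j₂ x0 x1 y z X c₁)
    {a b d : Fin N} (hab : a ≠ b) (hac : a ≠ c₁) (hbc : b ≠ c₁) (hda : d ≠ a) (hdb : d ≠ b)
    (hdc : d ≠ c₁) (hW : ∀ w ∈ s, W2 y z a b (w j₁) ≠ 0)
    (hA : ∀ w ∈ s, LL y (Gm j₁ j₂ X c₁ w) = 0) (hB : ∀ w ∈ s, LL z (Gm j₁ j₂ X c₁ w) = 0)
    {f : Fin N → ℂ → ℂ} (hf : ∀ c, Differentiable ℂ (f c))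
    (hA' : ∀ w ∈ s, LL (fun c => deriv (f c)) (Gm j₁ j₂ X c₁ w) = 0)
    (hne : ∀ w ∈ s, Dt y z f a b d (w j₁) ≠ 0) {k : ℕ} (hk : N ≤ k + 2) :
    dimH s ≤ ((2 * k : ℕ) : ℝ≥0∞) := by
  set G := Gm j₁ j₂ X c₁ with hG
  have hGc : ∀ w ∈ s, ContinuousWithinAt G s w :=
    Gm_continuous (j₁ := j₁) (j₂ := j₂) (x0 := x0) (x1 := x1) (y := y) (z := z) hX c₁ hs
  set R : Finset (TT N) := {Sum.inl c₁, Sum.inl a, Sum.inl b, Sum.inl d} with hR
  have hRc : R.card = 4 := by
    rw [hR, Finset.card_insert_of_notMem (by simp [hac.symm, hbc.symm, hdc.symm]),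
      Finset.card_insert_of_notMem (by simp [hab, hda.symm]),
      Finset.card_insert_of_notMem (by simp [hdb.symm]), Finset.card_singleton]
  have h0 : ∀ t, t ≠ Sum.inl a → t ≠ Sum.inl b → t ≠ Sum.inl d →
      Dom s (fun w => G w t) (rsG G R) := by
    intro t h1 h2 h3
    by_cases h4 : t = Sum.inl c₁
    · subst h4
      exact dom_c₁ hs _
    · exact dom_rsG G R t (by simp [hR, h1, h2, h3, h4])
  have hd : Dom s (fun w => G w (Sum.inl d)) (rsG G R) := by
    set R₀ : Finset (TT N) := {Sum.inl a, Sum.inl b, Sum.inl d} with hR₀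
    have hff : (Sum.inr false : TT N) ∉ R₀ := by simp [hR₀]
    have hS : ∀ c, (Sum.inl c : TT N) ∈ R₀ ↔ c ∈ ({a, b, d} : Finset (Fin N)) := by
      intro c; simp [hR₀]
    have hu : ∀ w, msk R₀ (G w) (Sum.inr false) = w j₁ := by
      intro w
      unfold msk
      rw [if_neg hff]
      rfl
    have hGu : ∀ w, G w (Sum.inr false) = w j₁ := fun w => rfl
    refine dom_fn (s := s) hGc R₀ ?_ (fun w => G w (Sum.inl d))
      (fun g => -(∑ c, Dt y z f a b c (g (Sum.inr false)) * g (Sum.inl c)) /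
        Dt y z f a b d (g (Sum.inr false))) ?_ ?_
    · intro t ht
      simp only [hR₀, Finset.mem_insert, Finset.mem_singleton, not_or] at ht
      exact h0 t ht.1 ht.2.1 ht.2.2
    · intro w hw
      refine AnalyticAt.div (AnalyticAt.neg ?_) (fn_analytic (Dt_diff hP hf a b d) _ _) ?_
      · exact Finset.analyticAt_fun_sum _ fun c _ =>
          (fn_analytic (Dt_diff hP hf a b c) _ _).mul (coord_analytic _ _)
      · rw [hu]; exact hne w hw
    · intro w hw
      have h1 := Dt_rel (hA w hw) (hB w hw) (hA' w hw) a b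
      rw [sum_msk _ (G w) R₀ {a, b, d} hS, hGu,
        Finset.sum_insert (by simp [hab, hda.symm]), Finset.sum_pair hdb.symm,
        Dt_a, Dt_b] at h1
      simp only [hu]
      rw [eq_div_iff (hne w hw)]
      linear_combination h1
  have h0' : ∀ t, t ≠ Sum.inl a → t ≠ Sum.inl b → t ≠ Sum.inr true →
      Dom s (fun w => G w t) (rsG G R) := by
    intro t h1 h2 h3
    by_cases h4 : t = Sum.inl d
    · subst h4; exact hd
    · exact h0 t h1 h2 h4
  have hab' := dom_ab hP hX hs hab hW hA hB (R := R) h0'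
  refine dimH_le_of_G (G := G) ((Rs_dom hP hX c₁).mono hs) R ?_ ?_
  · intro t ht
    simp only [hR, Finset.mem_insert, Finset.mem_singleton] at ht
    rcases ht with rfl | rfl | rfl | rfl
    · exact dom_c₁ hs _
    · exact hab'.1
    · exact hab'.2
    · exact hd
  · rw [hRc, Fintype.card_sum, Fintype.card_fin, Fintype.card_bool]
    omega

/-- case Ib2 -/
lemma caseIb2 (hP : Pend N x0 x1 y z) (hX : Good X) (hs : s ⊆ Rs j₁ j₂ x0 x1 y z X c₁)
    {a b : Fin N} (hab : a ≠ b) (hac : a ≠ c₁) (hbc : b ≠ c₁)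
    (hW : ∀ w ∈ s, W2 y z a b (w j₁) ≠ 0)
    (hA : ∀ w ∈ s, LL y (Gm j₁ j₂ X c₁ w) = 0) (hB : ∀ w ∈ s, LL z (Gm j₁ j₂ X c₁ w) = 0)
    {f : ℂ → ℂ} (hf : Differentiable ℂ f) (hfn : ∃ u, f u ≠ 0)
    (hf0 : ∀ w ∈ s, f (w j₁) = 0) {k : ℕ} (hk : N ≤ k + 2) :
    dimH s ≤ ((2 * k : ℕ) : ℝ≥0∞) := by
  set G := Gm j₁ j₂ X c₁ with hG
  have hGc : ∀ w ∈ s, ContinuousWithinAt G s w :=
    Gm_continuous (j₁ := j₁) (j₂ := j₂) (x0 := x0) (x1 := x1) (y := y) (z := z) hX c₁ hs
  set R : Finset (TT N) := {Sum.inl c₁, Sum.inl a, Sum.inl b, Sum.inr false} with hR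
  have hRc : R.card = 4 := by
    rw [hR, Finset.card_insert_of_notMem (by simp [hac.symm, hbc.symm]),
      Finset.card_insert_of_notMem (by simp [hab]), Finset.card_insert_of_notMem (by simp),
      Finset.card_singleton]
  have hu : ∀ (E : Type) [PseudoEMetricSpace E] (q : (J → ℂ) → E),
      Dom s (fun w => G w (Sum.inr false)) q := by
    intro E _ q
    have h1 : Dom s (fun w : J → ℂ => w j₁) (fun _ => (0 : ℂ)) :=
      dom_const hf hfn hf0 continuous_const
    refine Dom.trans (g := fun _ : J → ℂ => (0 : ℂ)) h1 (Dom.of_countable ?_)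
    exact (countable_singleton (0 : ℂ)).mono (by rintro _ ⟨_, _, rfl⟩; rfl)
  have h0 : ∀ t, t ≠ Sum.inl a → t ≠ Sum.inl b → t ≠ Sum.inr true →
      Dom s (fun w => G w t) (rsG G R) := by
    intro t h1 h2 h3
    by_cases h4 : t = Sum.inl c₁
    · subst h4
      exact dom_c₁ hs _
    · by_cases h5 : t = Sum.inr false
      · subst h5
        exact hu _ _
      · exact dom_rsG G R t (by simp [hR, h1, h2, h4, h5])
  have hab' := dom_ab hP hX hs hab hW hA hB (R := R) h0
  refine dimH_le_of_G (G := G) ((Rs_dom hP hX c₁).mono hs) R ?_ ?_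
  · intro t ht
    simp only [hR, Finset.mem_insert, Finset.mem_singleton] at ht
    rcases ht with rfl | rfl | rfl | rfl
    · exact dom_c₁ hs _
    · exact hab'.1
    · exact hab'.2
    · exact hu _ _
  · rw [hRc, Fintype.card_sum, Fintype.card_fin, Fintype.card_bool]
    omega

end bound

end

end Pool.Agent.H70.AM
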