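import Pool.Agent.H70.AM.OddE

/-!
The residual part of the singular locus: second stratum and conclusion.
-/

set_option autoImplicit false
set_option linter.unusedSectionVars false

open Set Topology Filter
open scoped ENNReal NNReal

namespace Pool.Agent.H70.AM

section

variable {J : Type} [Fintype J] [DecidableEq J] {N : ℕ}
variable {j₁ j₂ : J} {x0 x1 : ℂ → ℂ} {y z : Fin N → ℂ → ℂ} {X : J → Fin N → ℂ → ℂ}

lemma exists_out (hN : 3 ≤ N) (S : Finset (Fin N)) (hS : S.card ≤ 2) : ∃ a, a ∉ S := by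
  by_contra hcon
  push Not at hcon
  have h1 : (Finset.univ : Finset (Fin N)) ⊆ S := fun x _ => hcon x
  have h2 := Finset.card_le_card h1
  rw [Finset.card_univ, Fintype.card_fin] at h2
  omega

lemma exists_pair (hP : Pend N x0 x1 y z) (hN : 3 ≤ N) (c₁ : Fin N) {g : TT N → ℂ}
    (h1 : g (Sum.inl c₁) = 1) (hA : LL y g = 0) (hB : LL z g = 0) :
    ∃ a b, a ≠ b ∧ a ≠ c₁ ∧ b ≠ c₁ ∧ W2 y z a b (g (Sum.inr false)) ≠ 0 := by
  classical
  by_contra hcon
  push Not at hcon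
  obtain ⟨a, ha⟩ := exists_out hN {c₁} (by simp)
  obtain ⟨b, hb⟩ := exists_out hN {c₁, a} Finset.card_le_two
  rw [Finset.mem_singleton] at ha
  rw [Finset.mem_insert, Finset.mem_singleton, not_or] at hb
  set u := g (Sum.inr false) with hu
  have h2 : ∑ c, W2 y z c a u * g (Sum.inl c) = 0 := by
    have e : ∀ c, W2 y z c a u * g (Sum.inl c) =
        z a u * (y c u * g (Sum.inl c)) - y a u * (z c u * g (Sum.inl c)) := by
      intro c; unfold W2; ring
    unfold LL at hA hB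
    rw [← hu] at hA hB
    rw [Finset.sum_congr rfl fun c _ => e c, Finset.sum_sub_distrib, ← Finset.mul_sum,
      ← Finset.mul_sum, hA, hB]
    ring
  rw [Finset.sum_eq_single c₁] at h2
  · rw [h1, mul_one] at h2
    have h3 : W2 y z a c₁ u = 0 := by unfold W2 at h2 ⊢; linear_combination -h2
    have h4 : W2 y z a b u = 0 := hcon a b (Ne.symm hb.2) ha hb.1
    exact hb.1 (hP.wdisj a c₁ b u ha (Ne.symm hb.2) h3 h4).symm
  · intro c _ hc
    by_cases hca : c = a
    · rw [hca]; unfold W2; ring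
    · rw [hcon c a hca hc ha, zero_mul]
  · simp

/-- the Wronskian of two block functions -/
noncomputable def Wr (x0 x1 : ℂ → ℂ) (y z : Fin N → ℂ → ℂ) (a b : Fin N) (u v : ℂ) : ℂ :=
  QQ x0 x1 y z a u v * Q1 x0 x1 y z b u v - QQ x0 x1 y z b u v * Q1 x0 x1 y z a u v

lemma Wr_analytic (hP : Pend N x0 x1 y z) (a b : Fin N) (q : ℂ × ℂ) :
    AnalyticAt ℂ (fun q : ℂ × ℂ => Wr x0 x1 y z a b q.1 q.2) q := by
  unfold Wr
  exact ((QQ_analytic hP a q).mul (Q1_analytic hP b q)).sub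
    ((QQ_analytic hP b q).mul (Q1_analytic hP a q))

/-- the Wronskian of the two functions of the second block coordinate -/
noncomputable def om (x0 x1 : ℂ → ℂ) (v : ℂ) : ℂ := x0 v * deriv x1 v - x1 v * deriv x0 v

lemma om_diff (hP : Pend N x0 x1 y z) : Differentiable ℂ (om x0 x1) := by
  unfold om
  exact (hP.dx0.mul (diff_deriv hP.dx1)).sub (hP.dx1.mul (diff_deriv hP.dx0))

section bound

variable {c₁ : Fin N} {s : Set (J → ℂ)}

lemma dom_v (hP : Pend N x0 x1 y z) (hω : ∀ w ∈ s, om x0 x1 (w j₂) = 0)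
    {E : Type*} [PseudoEMetricSpace E] (q : (J → ℂ) → E) :
    Dom s (fun w => Gm j₁ j₂ X c₁ w (Sum.inr true)) q := by
  have h1 : Dom s (fun w : J → ℂ => w j₂) (fun _ => (0 : ℂ)) :=
    dom_const (om_diff hP) hP.omega hω continuous_const
  refine Dom.trans (g := fun _ : J → ℂ => (0 : ℂ)) h1 (Dom.of_countable ?_)
  exact (countable_singleton (0 : ℂ)).mono (by rintro _ ⟨_, _, rfl⟩; rfl)

/-- case IIa -/
lemma caseIIa (hP : Pend N x0 x1 y z) (hX : Good X) (hs : s ⊆ Rs j₁ j₂ x0 x1 y z X c₁)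
    (hω : ∀ w ∈ s, om x0 x1 (w j₂) = 0)
    {a b : Fin N} (hab : a ≠ b) (hac : a ≠ c₁) (hbc : b ≠ c₁)
    (hW : ∀ w ∈ s, Wr x0 x1 y z a b (w j₁) (w j₂) ≠ 0) {k : ℕ} (hk : N ≤ k + 2) :
    dimH s ≤ ((2 * k : ℕ) : ℝ≥0∞) := by
  set G := Gm j₁ j₂ X c₁ with hG
  have hGc : ∀ w ∈ s, ContinuousWithinAt G s w :=
    Gm_continuous (j₁ := j₁) (j₂ := j₂) (x0 := x0) (x1 := x1) (y := y) (z := z) hX c₁ hs
  set R : Finset (TT N) := {Sum.inl c₁, Sum.inl a, Sum.inl b, Sum.inr true} with hR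
  have hRc : R.card = 4 := by
    rw [hR, Finset.card_insert_of_notMem (by simp [hac.symm, hbc.symm]),
      Finset.card_insert_of_notMem (by simp [hab]), Finset.card_insert_of_notMem (by simp),
      Finset.card_singleton]
  have h0 : ∀ t, t ≠ Sum.inl a → t ≠ Sum.inl b → Dom s (fun w => G w t) (rsG G R) := by
    intro t h1 h2
    by_cases h4 : t = Sum.inl c₁
    · subst h4
      exact dom_c₁ hs _
    · by_cases h5 : t = Sum.inr true
      · subst h5
        exact dom_v hP hω _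
      · exact dom_rsG G R t (by simp [hR, h1, h2, h4, h5])
  set R₀ : Finset (TT N) := {Sum.inl a, Sum.inl b} with hR₀
  have hf : (Sum.inr false : TT N) ∉ R₀ := by simp [hR₀]
  have ht : (Sum.inr true : TT N) ∉ R₀ := by simp [hR₀]
  have hS : ∀ c, (Sum.inl c : TT N) ∈ R₀ ↔ c ∈ ({a, b} : Finset (Fin N)) := by
    intro c; simp [hR₀]
  have hd : ∀ t ∉ R₀, Dom s (fun w => G w t) (rsG G R) := by
    intro t ht
    simp only [hR₀, Finset.mem_insert, Finset.mem_singleton, not_or] at ht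
    exact h0 t ht.1 ht.2
  have hu : ∀ w, msk R₀ (G w) (Sum.inr false) = w j₁ := by
    intro w
    unfold msk
    rw [if_neg hf]
    rfl
  have hv : ∀ w, msk R₀ (G w) (Sum.inr true) = w j₂ := by
    intro w
    unfold msk
    rw [if_neg ht]
    rfl
  have hGu : ∀ w, G w (Sum.inr false) = w j₁ := fun w => rfl
  have hGv : ∀ w, G w (Sum.inr true) = w j₂ := fun w => rfl
  have hey : ∀ w ∈ s, QQ x0 x1 y z a (w j₁) (w j₂) * G w (Sum.inl a) +
      QQ x0 x1 y z b (w j₁) (w j₂) * G w (Sum.inl b) +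
      LQ (QQ x0 x1 y z) (msk R₀ (G w)) = 0 := by
    intro w hw
    have h := LQ_zero (hs hw)
    rw [← hG, LQ_msk (QQ x0 x1 y z) (G w) R₀ {a, b} hS hf ht, Finset.sum_pair hab, hGu, hGv] at h
    exact h
  have hez : ∀ w ∈ s, Q1 x0 x1 y z a (w j₁) (w j₂) * G w (Sum.inl a) +
      Q1 x0 x1 y z b (w j₁) (w j₂) * G w (Sum.inl b) +
      LQ (Q1 x0 x1 y z) (msk R₀ (G w)) = 0 := by
    intro w hw
    have h := LQ1_zero (hs hw)
    rw [← hG, LQ_msk (Q1 x0 x1 y z) (G w) R₀ {a, b} hS hf ht, Finset.sum_pair hab, hGu, hGv] at h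
    exact h
  have hWan : ∀ g : TT N → ℂ, AnalyticAt ℂ
      (fun g : TT N → ℂ => Wr x0 x1 y z a b (g (Sum.inr false)) (g (Sum.inr true))) g :=
    fun g => fn2_analytic (Wr_analytic hP a b) g
  have hQan : ∀ c (g : TT N → ℂ), AnalyticAt ℂ
      (fun g : TT N → ℂ => QQ x0 x1 y z c (g (Sum.inr false)) (g (Sum.inr true))) g :=
    fun c g => fn2_analytic (QQ_analytic hP c) g
  have hQ1an : ∀ c (g : TT N → ℂ), AnalyticAt ℂ
      (fun g : TT N → ℂ => Q1 x0 x1 y z c (g (Sum.inr false)) (g (Sum.inr true))) g :=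
    fun c g => fn2_analytic (Q1_analytic hP c) g
  have hLan : ∀ g, AnalyticAt ℂ (LQ (QQ x0 x1 y z)) g := LQ_analytic (QQ_analytic hP)
  have hL1an : ∀ g, AnalyticAt ℂ (LQ (Q1 x0 x1 y z)) g := LQ_analytic (Q1_analytic hP)
  have hDa : Dom s (fun w => G w (Sum.inl a)) (rsG G R) := by
    refine dom_fn (s := s) hGc R₀ hd (fun w => G w (Sum.inl a))
      (fun g => (LQ (Q1 x0 x1 y z) g * QQ x0 x1 y z b (g (Sum.inr false)) (g (Sum.inr true)) -
        LQ (QQ x0 x1 y z) g * Q1 x0 x1 y z b (g (Sum.inr false)) (g (Sum.inr true))) /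
        Wr x0 x1 y z a b (g (Sum.inr false)) (g (Sum.inr true))) ?_ ?_
    · intro w hw
      refine AnalyticAt.div ?_ (hWan _) ?_
      · exact ((hL1an _).mul (hQan b _)).sub ((hLan _).mul (hQ1an b _))
      · rw [hu, hv]; exact hW w hw
    · intro w hw
      have h1 := hey w hw
      have h2 := hez w hw
      have h3 := hW w hw
      simp only [hu, hv]
      rw [eq_div_iff h3]
      unfold Wr
      linear_combination Q1 x0 x1 y z b (w j₁) (w j₂) * h1 - QQ x0 x1 y z b (w j₁) (w j₂) * h2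
  have hDb : Dom s (fun w => G w (Sum.inl b)) (rsG G R) := by
    refine dom_fn (s := s) hGc R₀ hd (fun w => G w (Sum.inl b))
      (fun g => (LQ (QQ x0 x1 y z) g * Q1 x0 x1 y z a (g (Sum.inr false)) (g (Sum.inr true)) -
        LQ (Q1 x0 x1 y z) g * QQ x0 x1 y z a (g (Sum.inr false)) (g (Sum.inr true))) /
        Wr x0 x1 y z a b (g (Sum.inr false)) (g (Sum.inr true))) ?_ ?_
    · intro w hw
      refine AnalyticAt.div ?_ (hWan _) ?_
      · exact ((hLan _).mul (hQ1an a _)).sub ((hL1an _).mul (hQan a _))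
      · rw [hu, hv]; exact hW w hw
    · intro w hw
      have h1 := hey w hw
      have h2 := hez w hw
      have h3 := hW w hw
      simp only [hu, hv]
      rw [eq_div_iff h3]
      unfold Wr
      linear_combination QQ x0 x1 y z a (w j₁) (w j₂) * h2 - Q1 x0 x1 y z a (w j₁) (w j₂) * h1
  refine dimH_le_of_G (G := G) ((Rs_dom hP hX c₁).mono hs) R ?_ ?_
  · intro t ht
    simp only [hR, Finset.mem_insert, Finset.mem_singleton] at ht
    rcases ht with rfl | rfl | rfl | rfl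
    · exact dom_c₁ hs _
    · exact hDa
    · exact hDb
    · exact dom_v hP hω _
  · rw [hRc, Fintype.card_sum, Fintype.card_fin, Fintype.card_bool]
    omega

/-- case IIb -/
lemma caseIIb (hP : Pend N x0 x1 y z) (hX : Good X) (hs : s ⊆ Rs j₁ j₂ x0 x1 y z X c₁)
    (hω : ∀ w ∈ s, om x0 x1 (w j₂) = 0) {a b c : Fin N} (hcc : c ≠ c₁)
    (hab : ∀ α β : ℂ, ¬ (α = 0 ∧ β = 0) → ∃ u,
    (α * y a u + β * z a u) * (α * deriv (y b) u + β * deriv (z b) u) -
      (α * y b u + β * z b u) * (α * deriv (y a) u + β * deriv (z a) u) ≠ 0)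
    (hW : ∀ w ∈ s, Wr x0 x1 y z a b (w j₁) (w j₂) = 0)
    (hQ : ∀ w ∈ s, QQ x0 x1 y z c (w j₁) (w j₂) ≠ 0) {k : ℕ} (hk : N ≤ k + 2) :
    dimH s ≤ ((2 * k : ℕ) : ℝ≥0∞) := by
  set G := Gm j₁ j₂ X c₁ with hG
  have hGc : ∀ w ∈ s, ContinuousWithinAt G s w :=
    Gm_continuous (j₁ := j₁) (j₂ := j₂) (x0 := x0) (x1 := x1) (y := y) (z := z) hX c₁ hs
  set R : Finset (TT N) := {Sum.inl c₁, Sum.inl c, Sum.inr false, Sum.inr true} with hR
  have hRc : R.card = 4 := by
    rw [hR, Finset.card_insert_of_notMem (by simp [hcc.symm]),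
      Finset.card_insert_of_notMem (by simp), Finset.card_insert_of_notMem (by simp),
      Finset.card_singleton]
  have hu : Dom s (fun w => G w (Sum.inr false)) (rsG G R) := by
    refine Dom.trans (g := fun w : J → ℂ => w j₂) ?_ (dom_v (j₁ := j₁) (c₁ := c₁) (X := X)
      hP hω (rsG G R))
    change Dom s (fun w : J → ℂ => w j₁) (fun w : J → ℂ => w j₂)
    refine Dom.solve (fun q : ℂ × ℂ => Wr x0 x1 y z a b q.2 q.1) ?_
      (fun w _ => (continuous_apply j₁).continuousWithinAt)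
      (fun w _ => (continuous_apply j₂).continuousWithinAt) (fun w hw => hW w hw) ?_
    · intro q _
      exact AnalyticAt.comp (g := fun q : ℂ × ℂ => Wr x0 x1 y z a b q.1 q.2)
        (f := fun q : ℂ × ℂ => (q.2, q.1)) (Wr_analytic hP a b _)
        (analyticAt_snd.prod analyticAt_fst)
    · intro w _
      obtain ⟨u, hu⟩ := hab (x0 (w j₂)) (x1 (w j₂)) (hP.hx (w j₂))
      exact ⟨u, hu⟩
  have h0 : ∀ t, t ≠ Sum.inl c → Dom s (fun w => G w t) (rsG G R) := by
    intro t h1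
    by_cases h4 : t = Sum.inl c₁
    · subst h4
      exact dom_c₁ hs _
    · by_cases h5 : t = Sum.inr true
      · subst h5
        exact dom_v hP hω _
      · by_cases h6 : t = Sum.inr false
        · subst h6
          exact hu
        · exact dom_rsG G R t (by simp [hR, h1, h4, h5, h6])
  have hDc : Dom s (fun w => G w (Sum.inl c)) (rsG G R) := by
    set R₀ : Finset (TT N) := {Sum.inl c} with hR₀
    have hf : (Sum.inr false : TT N) ∉ R₀ := by simp [hR₀]
    have ht : (Sum.inr true : TT N) ∉ R₀ := by simp [hR₀]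
    have hS : ∀ c', (Sum.inl c' : TT N) ∈ R₀ ↔ c' ∈ ({c} : Finset (Fin N)) := by
      intro c'; simp [hR₀]
    have hmu : ∀ w, msk R₀ (G w) (Sum.inr false) = w j₁ := by
      intro w
      unfold msk
      rw [if_neg hf]
      rfl
    have hmv : ∀ w, msk R₀ (G w) (Sum.inr true) = w j₂ := by
      intro w
      unfold msk
      rw [if_neg ht]
      rfl
    have hGu : ∀ w, G w (Sum.inr false) = w j₁ := fun w => rfl
    have hGv : ∀ w, G w (Sum.inr true) = w j₂ := fun w => rfl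
    refine dom_fn (s := s) hGc R₀ ?_ (fun w => G w (Sum.inl c))
      (fun g => -(LQ (QQ x0 x1 y z) g) / QQ x0 x1 y z c (g (Sum.inr false)) (g (Sum.inr true)))
      ?_ ?_
    · intro t ht
      rw [hR₀, Finset.mem_singleton] at ht
      exact h0 t ht
    · intro w hw
      refine AnalyticAt.div (LQ_analytic (QQ_analytic hP) _).neg
        (fn2_analytic (QQ_analytic hP c) _) ?_
      rw [hmu, hmv]; exact hQ w hw
    · intro w hw
      have h := LQ_zero (hs hw)
      rw [← hG, LQ_msk (QQ x0 x1 y z) (G w) R₀ {c} hS hf ht, Finset.sum_singleton, hGu, hGv] at h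
      simp only [hmu, hmv]
      rw [eq_div_iff (hQ w hw)]
      linear_combination h
  refine dimH_le_of_G (G := G) ((Rs_dom hP hX c₁).mono hs) R ?_ ?_
  · intro t ht
    simp only [hR, Finset.mem_insert, Finset.mem_singleton] at ht
    rcases ht with rfl | rfl | rfl | rfl
    · exact dom_c₁ hs _
    · exact hDc
    · exact hu
    · exact dom_v hP hω _
  · rw [hRc, Fintype.card_sum, Fintype.card_fin, Fintype.card_bool]
    omega

end bound

/-- the residual part has small dimension -/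
theorem Rs_dim (hj : j₁ ≠ j₂) (hP : Pend N x0 x1 y z) (hX : Good X) (hN : 3 ≤ N) {k : ℕ}
    (hk : N ≤ k + 2) (c₁ : Fin N) :
    dimH (Rs j₁ j₂ x0 x1 y z X c₁) ≤ ((2 * k : ℕ) : ℝ≥0∞) := by
  classical
  obtain ⟨a₀, b₀, ha₀, hb₀, hab₀, hwr⟩ := hP.wr c₁
  set S := Rs j₁ j₂ x0 x1 y z X c₁ with hS
  set G := Gm j₁ j₂ X c₁ with hG
  let U3 : Set (J → ℂ) := {w | w ∈ S ∧ om x0 x1 (w j₂) = 0 ∧
    Wr x0 x1 y z a₀ b₀ (w j₁) (w j₂) ≠ 0}
  let U4 : Set (J → ℂ) := ⋃ (c : Fin N) (_ : c ≠ c₁), {w | w ∈ S ∧ om x0 x1 (w j₂) = 0 ∧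
    Wr x0 x1 y z a₀ b₀ (w j₁) (w j₂) = 0 ∧ QQ x0 x1 y z c (w j₁) (w j₂) ≠ 0}
  let U0 : Set (J → ℂ) := ⋃ (a : Fin N) (b : Fin N) (_ : a ≠ b) (_ : a ≠ c₁) (_ : b ≠ c₁),
    {w | w ∈ S ∧ W2 y z a b (w j₁) ≠ 0 ∧ LL y (G w) = 0 ∧ LL z (G w) = 0 ∧
      ¬ (LL (fun c => deriv (y c)) (G w) = 0 ∧ LL (fun c => deriv (z c)) (G w) = 0)}
  let U1 : (Fin N → ℂ → ℂ) → Set (J → ℂ) := fun f =>
    ⋃ (a : Fin N) (b : Fin N) (d : Fin N) (_ : a ≠ b) (_ : a ≠ c₁) (_ : b ≠ c₁) (_ : d ≠ a)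
      (_ : d ≠ b) (_ : d ≠ c₁),
    {w | w ∈ S ∧ W2 y z a b (w j₁) ≠ 0 ∧ LL y (G w) = 0 ∧ LL z (G w) = 0 ∧
      LL (fun c => deriv (f c)) (G w) = 0 ∧ Dt y z f a b d (w j₁) ≠ 0}
  let U2 : Set (J → ℂ) := ⋃ (a : Fin N) (b : Fin N) (_ : a ≠ b) (_ : a ≠ c₁) (_ : b ≠ c₁),
    {w | w ∈ S ∧ W2 y z a b (w j₁) ≠ 0 ∧ LL y (G w) = 0 ∧ LL z (G w) = 0 ∧
      Dt y z y a b c₁ (w j₁) = 0 ∧ Dt y z z a b c₁ (w j₁) = 0}
  have hsub : S ⊆ U3 ∪ (U4 ∪ (U0 ∪ (U1 y ∪ (U1 z ∪ U2)))) := by
    intro w hw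
    by_cases hω : om x0 x1 (w j₂) = 0
    · by_cases hW : Wr x0 x1 y z a₀ b₀ (w j₁) (w j₂) = 0
      · right; left
        have hex : ∃ c, c ≠ c₁ ∧ QQ x0 x1 y z c (w j₁) (w j₂) ≠ 0 := by
          by_contra hcon
          push Not at hcon
          have h := LQ_zero hw
          unfold LQ at h
          rw [Finset.sum_eq_single c₁] at h
          · rw [Gm_c₁ hw, mul_one] at h
            exact hw.2.2.1 h
          · intro c _ hc
            have : QQ x0 x1 y z c (Gm j₁ j₂ X c₁ w (Sum.inr false))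
                (Gm j₁ j₂ X c₁ w (Sum.inr true)) = 0 := hcon c hc
            rw [this, zero_mul]
          · simp
        obtain ⟨c, hc, hQ⟩ := hex
        simp only [U4, mem_iUnion]
        exact ⟨c, hc, hw, hω, hW, hQ⟩
      · left
        exact ⟨hw, hω, hW⟩
    · right; right
      have r0 := rel0 hw
      have r2 := rel2 hw hj
      rw [← hG] at r0 r2
      unfold om at hω
      have hA : LL y (G w) = 0 := by
        have : (x0 (w j₂) * deriv x1 (w j₂) - x1 (w j₂) * deriv x0 (w j₂)) * LL y (G w) = 0 := by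
          linear_combination deriv x1 (w j₂) * r0 - x1 (w j₂) * r2
        exact (mul_eq_zero.1 this).resolve_left hω
      have hB : LL z (G w) = 0 := by
        have : (x0 (w j₂) * deriv x1 (w j₂) - x1 (w j₂) * deriv x0 (w j₂)) * LL z (G w) = 0 := by
          linear_combination x0 (w j₂) * r2 - deriv x0 (w j₂) * r0
        exact (mul_eq_zero.1 this).resolve_left hω
      obtain ⟨a, b, hab, hac, hbc, hW⟩ := exists_pair hP hN c₁ (Gm_c₁ hw) hA hB
      have hW' : W2 y z a b (w j₁) ≠ 0 := hW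
      by_cases hAB : LL (fun c => deriv (y c)) (G w) = 0 ∧ LL (fun c => deriv (z c)) (G w) = 0
      · right
        by_cases hy : ∃ d, d ≠ a ∧ d ≠ b ∧ d ≠ c₁ ∧ Dt y z y a b d (w j₁) ≠ 0
        · left
          obtain ⟨d, h1, h2, h3, h4⟩ := hy
          simp only [U1, mem_iUnion]
          exact ⟨a, b, d, hab, hac, hbc, h1, h2, h3, hw, hW', hA, hB, hAB.1, h4⟩
        · right
          by_cases hz : ∃ d, d ≠ a ∧ d ≠ b ∧ d ≠ c₁ ∧ Dt y z z a b d (w j₁) ≠ 0
          · left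
            obtain ⟨d, h1, h2, h3, h4⟩ := hz
            simp only [U1, mem_iUnion]
            exact ⟨a, b, d, hab, hac, hbc, h1, h2, h3, hw, hW', hA, hB, hAB.2, h4⟩
          · right
            push Not at hy hz
            simp only [U2, mem_iUnion]
            refine ⟨a, b, hab, hac, hbc, hw, hW', hA, hB, ?_, ?_⟩
            · have h := Dt_rel hA hB hAB.1 a b
              rw [Finset.sum_eq_single c₁] at h
              · rw [show G w (Sum.inl c₁) = 1 from Gm_c₁ hw, mul_one] at h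
                exact h
              · intro d _ hd
                have : Dt y z y a b d (G w (Sum.inr false)) = 0 := by
                  by_cases h1 : d = a
                  · rw [h1, Dt_a]
                  by_cases h2 : d = b
                  · rw [h2, Dt_b]
                  exact hy d h1 h2 hd
                rw [this, zero_mul]
              · simp
            · have h := Dt_rel hA hB hAB.2 a b
              rw [Finset.sum_eq_single c₁] at h
              · rw [show G w (Sum.inl c₁) = 1 from Gm_c₁ hw, mul_one] at h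
                exact h
              · intro d _ hd
                have : Dt y z z a b d (G w (Sum.inr false)) = 0 := by
                  by_cases h1 : d = a
                  · rw [h1, Dt_a]
                  by_cases h2 : d = b
                  · rw [h2, Dt_b]
                  exact hz d h1 h2 hd
                rw [this, zero_mul]
              · simp
      · left
        simp only [U0, mem_iUnion]
        exact ⟨a, b, hab, hac, hbc, hw, hW', hA, hB, hAB⟩
  have hU1 : ∀ f : Fin N → ℂ → ℂ, (∀ c, Differentiable ℂ (f c)) →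
      dimH (U1 f) ≤ ((2 * k : ℕ) : ℝ≥0∞) := by
    intro f hf
    simp only [U1, dimH_iUnion]
    refine iSup_le fun a => iSup_le fun b => iSup_le fun d => iSup_le fun hab =>
      iSup_le fun hac => iSup_le fun hbc => iSup_le fun hda => iSup_le fun hdb =>
      iSup_le fun hdc => ?_
    exact caseIb1 hP hX (fun w hw => hw.1) hab hac hbc hda hdb hdc (fun w hw => hw.2.1)
      (fun w hw => hw.2.2.1) (fun w hw => hw.2.2.2.1) hf (fun w hw => hw.2.2.2.2.1)
      (fun w hw => hw.2.2.2.2.2) hk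
  refine (dimH_mono hsub).trans ?_
  rw [dimH_union, dimH_union, dimH_union, dimH_union, dimH_union]
  refine max_le ?_ (max_le ?_ (max_le ?_ (max_le (hU1 y hP.dy) (max_le (hU1 z hP.dz) ?_))))
  · exact caseIIa hP hX (fun w hw => hw.1) (fun w hw => hw.2.1) hab₀ ha₀ hb₀
      (fun w hw => hw.2.2) hk
  · simp only [U4, dimH_iUnion]
    refine iSup_le fun c => iSup_le fun hc => ?_
    exact caseIIb hP hX (fun w hw => hw.1) (fun w hw => hw.2.1) hc hwr
      (fun w hw => hw.2.2.1) (fun w hw => hw.2.2.2) hk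
  · simp only [U0, dimH_iUnion]
    refine iSup_le fun a => iSup_le fun b => iSup_le fun hab => iSup_le fun hac =>
      iSup_le fun hbc => ?_
    exact caseIa hP hX (fun w hw => hw.1) hab hac hbc (fun w hw => hw.2.1)
      (fun w hw => hw.2.2.1) (fun w hw => hw.2.2.2.1) (fun w hw => hw.2.2.2.2) hk
  · simp only [U2, dimH_iUnion]
    refine iSup_le fun a => iSup_le fun b => iSup_le fun hab => iSup_le fun hac =>
      iSup_le fun hbc => ?_
    obtain ⟨u, hu⟩ := Dt_ne hP hab hac hbc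
    by_cases h1 : Dt y z y a b c₁ u = 0
    · have h2 : Dt y z z a b c₁ u ≠ 0 := fun h => hu ⟨h1, h⟩
      exact caseIb2 hP hX (fun w hw => hw.1) hab hac hbc (fun w hw => hw.2.1)
        (fun w hw => hw.2.2.1) (fun w hw => hw.2.2.2.1) (Dt_diff hP hP.dz a b c₁) ⟨u, h2⟩
        (fun w hw => hw.2.2.2.2.2) hk
    · exact caseIb2 hP hX (fun w hw => hw.1) hab hac hbc (fun w hw => hw.2.1)
        (fun w hw => hw.2.2.1) (fun w hw => hw.2.2.2.1) (Dt_diff hP hP.dy a b c₁) ⟨u, h1⟩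
        (fun w hw => hw.2.2.2.2.1) hk

/-- the upper bound -/
theorem odd_dim_le (hj : j₁ ≠ j₂) (hP : Pend N x0 x1 y z) (hX : Good X) (hN : 3 ≤ N) {k : ℕ}
    (hk : N ≤ k + 2) (hc : Fintype.card J = k + (2 * N - 1)) :
    dimH {w | GF j₁ j₂ x0 x1 y z X w = 0 ∧ fderiv ℂ (GF j₁ j₂ x0 x1 y z X) w = 0} ≤
      ((2 * k : ℕ) : ℝ≥0∞) := by
  have hsub : {w | GF j₁ j₂ x0 x1 y z X w = 0 ∧ fderiv ℂ (GF j₁ j₂ x0 x1 y z X) w = 0} ⊆
      {w | (∀ j, GD j₁ j₂ x0 x1 y z X w j = 0) ∧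
        ∀ c, QQ x0 x1 y z c (w j₁) (w j₂) * RR j₁ j₂ X c w = 0} ∪
      ⋃ c₁, Rs j₁ j₂ x0 x1 y z X c₁ := by
    rintro w ⟨h1, h2⟩
    rw [GF_fderiv_zero_iff hj hP hX.diff] at h2
    by_cases h3 : ∀ c, QQ x0 x1 y z c (w j₁) (w j₂) * RR j₁ j₂ X c w = 0
    · exact Or.inl ⟨h2, h3⟩
    · push Not at h3
      obtain ⟨c₁, hc₁⟩ := h3
      exact Or.inr (mem_iUnion.2 ⟨c₁, h1, h2, left_ne_zero_of_mul hc₁, right_ne_zero_of_mul hc₁⟩)
  refine (dimH_mono hsub).trans ?_
  rw [dimH_union, dimH_iUnion]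
  exact max_le (P0_dim hj hP hX hc) (iSup_le fun c₁ => Rs_dim hj hP hX hN hk c₁)

end

end Pool.Agent.H70.AM
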