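import Pool.Agent.H70.AM.EvenRT
import Pool.Agent.H70.AM.Liou

/-!
The period matrices of odd codimension.
-/

set_option autoImplicit false

open Set Topology Filter Complex Matrix
open scoped ENNReal NNReal

namespace Pool.Agent.H70.AM

lemma f10 (n : ℕ) : (1 : Fin (n + 3)) ≠ 0 := by simp
lemma f20 (n : ℕ) : (2 : Fin (n + 3)) ≠ 0 := by
  intro h
  have := congrArg Fin.val h
  simp at this
  rw [Nat.mod_eq_of_lt (by omega)] at this
  omega
lemma f12 (n : ℕ) : (1 : Fin (n + 3)) ≠ 2 := by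
  intro h
  have := congrArg Fin.val h
  simp at this
  rw [Nat.mod_eq_of_lt (by omega)] at this
  omega

/-- the lattice matrix over a ring -/
def odM {R : Type*} [CommRing R] (n : ℕ) (a h : R) : Matrix (Fin (n + 3)) (Fin (n + 3)) R :=
  fun j i => if j = 2 then (if i = 2 then 1 else 0) else
    (if i = 0 then 1 else 0) + (if i = j then (if j = 0 then 0 else a) else 0) +
      (if i = 2 then (if j = 1 then h else 0) else 0)

lemma odM_mulVec {R : Type*} [CommRing R] (n : ℕ) (a h : R) (v : Fin (n + 3) → R)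
    (j : Fin (n + 3)) : (odM n a h *ᵥ v) j = if j = 2 then v 2 else
      v 0 + (if j = 0 then 0 else a) * v j + (if j = 1 then h else 0) * v 2 := by
  simp only [mulVec, dotProduct, odM]
  by_cases hj : j = 2
  · simp [hj]
  · simp only [hj, if_false, add_mul, Finset.sum_add_distrib, ite_mul, zero_mul, one_mul,
      Finset.sum_ite_eq', Finset.mem_univ, if_true]

/-- the lattice matrix -/
noncomputable def odA (n N : ℕ) : Matrix (Fin (n + 3)) (Fin (n + 3)) ℝ := odM n (N : ℝ) ((N : ℝ) / 2)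

lemma odA_cx (n N : ℕ) (v : Fin (n + 3) → ℂ) (j : Fin (n + 3)) :
    (cx (odA n N) *ᵥ v) j = if j = 2 then v 2 else
      v 0 + (if j = 0 then 0 else (N : ℂ)) * v j + (if j = 1 then (N : ℂ) / 2 else 0) * v 2 := by
  rw [← odM_mulVec n (N : ℂ) ((N : ℂ) / 2) v j]
  congr 2
  ext j i
  simp only [cx, odA, odM, map_apply]
  split_ifs <;> simp

lemma odA_inj (n N : ℕ) (hN : 0 < N) : Function.Injective (odA n N).mulVec := by
  have h0 : ∀ v : Fin (n + 3) → ℝ, odA n N *ᵥ v = 0 → v = 0 := by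
    intro v hv
    have h1 : ∀ j, (if j = 2 then v 2 else
        v 0 + (if j = 0 then 0 else (N : ℝ)) * v j + (if j = 1 then (N : ℝ) / 2 else 0) * v 2) = 0 := by
      intro j
      rw [← odM_mulVec n (N : ℝ) ((N : ℝ) / 2) v j]
      exact congrFun hv j
    have h2 : v 2 = 0 := by simpa using h1 2
    have h3 : v 0 = 0 := by
      have := h1 0
      rw [if_neg (f20 n).symm, if_pos rfl, if_neg (f10 n).symm] at this
      linarith
    funext j
    by_cases hj0 : j = 0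
    · rw [hj0, h3]; rfl
    by_cases hj2 : j = 2
    · rw [hj2, h2]; rfl
    have := h1 j
    rw [if_neg hj2, if_neg hj0, h2, h3, mul_zero, add_zero, zero_add] at this
    have hN' : (N : ℝ) ≠ 0 := by exact_mod_cast hN.ne'
    exact (mul_eq_zero.1 this).resolve_left hN'
  intro v w hvw
  have : odA n N *ᵥ (v - w) = 0 := by
    rw [mulVec_sub, sub_eq_zero]
    exact hvw
  exact sub_eq_zero.1 (h0 _ this)

/-- the reindexing -/
def odE (n N : ℕ) (hN : 0 < N) :
    ((Fin N × Fin 2) × (Fin (n + 3) → ℤ)) ≃ (Fin (n + 3) → ℤ) where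
  toFun x := fun j => if j = 0 then (N : ℤ) * x.2 0 + (x.1.1 : ℕ) else
    if j = 1 then x.2 1 - x.2 0 - x.2 2 else
    if j = 2 then 2 * x.2 2 + (x.1.2 : ℕ) else x.2 j - x.2 0
  invFun v := ((⟨(v 0 % N).toNat, by
    have h1 : (0 : ℤ) < N := by exact_mod_cast hN
    have h2 := Int.emod_nonneg (v 0) h1.ne'
    have h3 := Int.emod_lt_of_pos (v 0) h1
    omega⟩, ⟨(v 2 % 2).toNat, by omega⟩), fun j => if j = 0 then v 0 / N else
      if j = 1 then v 1 + v 0 / N + v 2 / 2 else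
      if j = 2 then v 2 / 2 else v j + v 0 / N)
  left_inv := by
    rintro ⟨⟨c, ε⟩, m⟩
    have h1 : (0 : ℤ) < N := by exact_mod_cast hN
    have hc : ((c : ℕ) : ℤ) < N := by exact_mod_cast c.2
    have h2 : ((N : ℤ) * m 0 + (c : ℕ)) % N = (c : ℕ) := by
      rw [Int.add_comm, Int.add_mul_emod_self_left]
      exact Int.emod_eq_of_lt (by positivity) hc
    have h3 : ((N : ℤ) * m 0 + (c : ℕ)) / N = m 0 := by
      rw [Int.add_comm, Int.add_mul_ediv_left _ _ h1.ne', Int.ediv_eq_zero_of_lt (by positivity) hc,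
        zero_add]
    have he : (ε : ℕ) < 2 := ε.2
    have h4 : (2 * m 2 + ((ε : ℕ) : ℤ)) % 2 = (ε : ℕ) := by omega
    have h5 : (2 * m 2 + ((ε : ℕ) : ℤ)) / 2 = m 2 := by omega
    have n10 := f10 n
    have n20 := f20 n
    have n12 := f12 n
    have n21 := n12.symm
    refine Prod.ext (Prod.ext ?_ ?_) ?_
    · ext
      simp [h2]
    · ext
      simp [n20, n21, h4]
    · funext j
      by_cases hj0 : j = 0
      · subst hj0
        simp [h3]
      by_cases hj1 : j = 1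
      · subst hj1
        simp [n10, n20, n21, h3, h5]
        ring
      by_cases hj2 : j = 2
      · subst hj2
        simp [n20, n21, h5]
      · simp [hj0, hj1, hj2, h3]
  right_inv := by
    intro v
    have h1 : (0 : ℤ) < N := by exact_mod_cast hN
    have h2 := Int.emod_nonneg (v 0) h1.ne'
    have h4 : (((v 0 % N).toNat : ℕ) : ℤ) = v 0 % N := Int.toNat_of_nonneg h2
    have h5 : (((v 2 % 2).toNat : ℕ) : ℤ) = v 2 % 2 := Int.toNat_of_nonneg (by omega)
    have n10 := f10 n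
    have n20 := f20 n
    have n12 := f12 n
    have n21 := n12.symm
    funext j
    by_cases hj0 : j = 0
    · subst hj0
      simp only [if_true, h4]
      exact Int.mul_ediv_add_emod (v 0) N
    by_cases hj1 : j = 1
    · subst hj1
      simp [n10, n20, n21]
      ring
    by_cases hj2 : j = 2
    · subst hj2
      simp only [n20, n21, if_false, if_true, h5]
      exact Int.mul_ediv_add_emod (v 2) 2
    · simp [hj0, hj1, hj2]

/-- the moduli -/
noncomputable def odD (n : ℕ) (t₁ t₂ : ℝ) (j : Fin (n + 3)) : ℂ :=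
  if j = 1 then t₁ * I else if j = 2 then 1 + t₂ * I else I

lemma odD_im (n : ℕ) {t₁ t₂ : ℝ} (h1 : 0 < t₁) (h2 : 0 < t₂) (j : Fin (n + 3)) :
    0 < (odD n t₁ t₂ j).im := by
  unfold odD
  split_ifs
  · simpa using h1
  · simpa using h2
  · simp

/-- the period matrix -/
noncomputable def odT (n N : ℕ) (t₁ t₂ : ℝ) : Matrix (Fin (n + 3)) (Fin (n + 3)) ℂ :=
  pm (odA n N) (odD n t₁ t₂)

theorem odT_riem (n N : ℕ) (hN : 0 < N) {t₁ t₂ : ℝ} (h1 : 0 < t₁) (h2 : 0 < t₂)
    (w : Fin (n + 3) → ℂ) :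
    riem (odT n N t₁ t₂) ((cx (odA n N))ᵀ *ᵥ w) =
      GF 1 2 (ox (1 + t₂ * I) 0) (ox (1 + t₂ * I) 1) (oy (t₁ * I) N) (oz (t₁ * I) N)
        (evX (n + 2) N) w := by
  have n10 := f10 n
  have n20 := f20 n
  have n12 := f12 n
  have n21 := n12.symm
  unfold odT
  rw [riem_eq (odA n N) (odD n t₁ t₂) (odD_im n h1 h2) (odE n N hN)
    (fun j => if j = 2 then 2 else N) (fun j => by split_ifs <;> omega)
    (fun j x => if j = 2 then ((x.2 : ℕ) : ℝ) else if j = 1 then
      ((x.1 : ℕ) : ℝ) + (N : ℝ) / 2 * ((x.2 : ℕ) : ℝ) else ((x.1 : ℕ) : ℝ))]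
  · rw [Fintype.sum_prod_type]
    unfold GF
    refine Finset.sum_congr rfl fun c _ => ?_
    rw [Fin.sum_univ_two]
    have hprod : ∀ ε : Fin 2, ∏ j : Fin (n + 3), Y (odD n t₁ t₂ j) (if j = 2 then 2 else N)
        (((if j = 2 then ((((c, ε) : Fin N × Fin 2).2 : ℕ) : ℝ) else if j = 1 then
        ((((c, ε) : Fin N × Fin 2).1 : ℕ) : ℝ) + (N : ℝ) / 2 * ((((c, ε) : Fin N × Fin 2).2 : ℕ) : ℝ)
        else ((((c, ε) : Fin N × Fin 2).1 : ℕ) : ℝ) : ℝ)) : ℂ) (w j) =
        Y (t₁ * I) N ((((c : ℕ) : ℝ) + (N : ℝ) / 2 * ((ε : ℕ) : ℝ) : ℝ) : ℂ) (w 1) *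
          (Y (1 + t₂ * I) 2 ((((ε : ℕ) : ℝ)) : ℂ) (w 2) * RR 1 2 (evX (n + 2) N) c w) := by
      intro ε
      rw [← Finset.mul_prod_erase _ _ (Finset.mem_univ (1 : Fin (n + 3))),
        ← Finset.mul_prod_erase _ _ (Finset.mem_erase.2 ⟨n21, Finset.mem_univ (2 : Fin (n + 3))⟩)]
      refine congrArg₂ (· * ·) ?_ (congrArg₂ (· * ·) ?_ ?_)
      · simp [odD, n12]
      · simp [odD, n21]
      · unfold RR
        refine Finset.prod_congr rfl fun j hj => ?_
        obtain ⟨hj2, hj1⟩ := mem_Jp.1 hj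
        simp [odD, hj1, hj2, evX]
    rw [hprod 0, hprod 1]
    unfold QQ ox oy oz
    simp only [Fin.val_zero, Fin.val_one, Nat.cast_zero, Nat.cast_one, mul_zero, add_zero, mul_one]
    ring
  · rintro ⟨c, ε⟩ m j
    rw [odA_cx]
    by_cases hj2 : j = 2
    · subst hj2
      simp [odE, n20, n21]
    · rw [if_neg hj2]
      by_cases hj0 : j = 0
      · subst hj0
        simp [odE, n10.symm, n20.symm]
      · by_cases hj1 : j = 1
        · subst hj1
          simp [odE, n10, n12, n20, n21]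
          ring
        · simp [odE, hj0, hj1, hj2]
          ring

theorem odd_main (k N : ℕ) (hN : 3 ≤ N) (hk : N ≤ k + 2) :
    ∃ τ : Matrix (Fin (k + (2 * N - 1))) (Fin (k + (2 * N - 1))) ℂ, τᵀ = τ ∧
      (τ.map Complex.im).PosDef ∧
      (Sg (riem τ)).Nonempty ∧ dimH (Sg (riem τ)) = ((2 * k : ℕ) : ℝ≥0∞) := by
  obtain ⟨n, hn⟩ : ∃ n, k + (2 * N - 1) = n + 3 := ⟨k + (2 * N - 1) - 3, by omega⟩
  rw [hn]
  have hN0 : 0 < N := by omega
  obtain ⟨t₁, t₂, ht₁, ht₂, a, b, hab, u, v, hq1, hq2, hd1, hd2⟩ := special hN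
  have hX := evX_good (n + 2) N hN0
  have hP : Pend N (ox (1 + t₂ * I) 0) (ox (1 + t₂ * I) 1) (oy (t₁ * I) N) (oz (t₁ * I) N) :=
    pend (by simpa using ht₁) (by simpa using ht₂) hN
  have hinj := odA_inj n N hN0
  have hdiff : Differentiable ℂ (GF (1 : Fin (n + 3)) 2 (ox (1 + t₂ * I) 0) (ox (1 + t₂ * I) 1)
      (oy (t₁ * I) N) (oz (t₁ * I) N) (evX (n + 2) N)) :=
    fun w => (GF_analytic hP hX.diff w).differentiableAt
  obtain ⟨h1, h2⟩ := Sg_transfer ((cx (odA n N))ᵀ) (cx_det_isUnit _ hinj)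
    (riem (odT n N t₁ t₂)) _ (odT_riem n N hN0 ht₁ ht₂) hdiff
  have hcard : Fintype.card (Fin (n + 3)) = k + (2 * N - 1) := by rw [Fintype.card_fin, hn]
  have hsol : ∀ (j : Fin (n + 3)) (a b : Fin N), a ≠ b → ∀ α β : ℂ,
      ∃ x, α * evX (n + 2) N j a x + β * evX (n + 2) N j b x = 0 := by
    intro j a b hab α β
    have := lin_solve hN0 a b hab α β
    exact this
  obtain ⟨h3, h4⟩ := le_odd_dim (f12 n) hP hX hcard hab hq1 hq2 hd1 hd2 hsol
  have h5 := odd_dim_le (f12 n) hP hX hN hk hcard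
  refine ⟨odT n N t₁ t₂, pm_symm _ _, pm_posDef _ hinj _ (odD_im n ht₁ ht₂), h2.2 h3, ?_⟩
  rw [h1]
  exact le_antisymm h5 h4

end Pool.Agent.H70.AM
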