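import Pool.Agent.H70.AM.Theta2

/-!
A two by two determinant of theta functions.
-/

set_option autoImplicit false

open Set Topology Filter Complex

namespace Pool.Agent.H70.AM

/-- rotation of the lattice `ℤ²` -/
def rot : (ℤ × ℤ) ⊕ (ℤ × ℤ) ≃ ℤ × ℤ where
  toFun := Sum.elim (fun p => (p.1 + p.2, p.1 - p.2)) (fun p => (p.1 + p.2, p.1 - p.2 + 1))
  invFun p := if (p.1 + p.2) % 2 = 0 then Sum.inl ((p.1 + p.2) / 2, (p.1 - p.2) / 2)
    else Sum.inr ((p.1 + p.2 - 1) / 2, (p.1 - p.2 + 1) / 2)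
  left_inv := by
    rintro (⟨m, n⟩ | ⟨m, n⟩)
    · have h1 : (m + n + (m - n)) % 2 = 0 := by omega
      simp only [Sum.elim_inl, h1, if_true]
      congr 2 <;> omega
    · have h1 : (m + n + (m - n + 1)) % 2 ≠ 0 := by omega
      simp only [Sum.elim_inr, h1, if_false]
      congr 2 <;> omega
  right_inv := by
    rintro ⟨k, l⟩
    by_cases h : (k + l) % 2 = 0
    · simp only [h, if_true, Sum.elim_inl]
      congr 1 <;> omega
    · simp only [h, if_false, Sum.elim_inr]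
      congr 1 <;> omega

/-- the alternating theta series -/
noncomputable def alt (τ : ℂ) (N : ℕ) (s w : ℂ) : ℂ := ∑' k : ℤ, (-1) ^ k * et τ (N * k + s) w

lemma alt_eq (τ : ℂ) {N : ℕ} (hN : 0 < N) (s w : ℂ) :
    alt τ N s w = cexp (-(Real.pi * I * s / N)) * Y τ N s (w + 1 / (2 * N)) := by
  have hN' : (N : ℂ) ≠ 0 := by exact_mod_cast hN.ne'
  unfold alt Y
  rw [← tsum_mul_left]
  refine tsum_congr fun k => ?_
  have h1 : ((-1 : ℂ)) ^ k = cexp (k * (Real.pi * I)) := by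
    rw [Complex.exp_int_mul, Complex.exp_pi_mul_I]
  rw [h1]
  unfold et
  rw [← Complex.exp_add, ← Complex.exp_add]
  congr 1
  field_simp
  ring

lemma et_mul (τ u v w : ℂ) : et τ u w * et τ v w = et (τ / 2) (u + v) w * et (τ / 2) (u - v) 0 := by
  unfold et
  rw [← Complex.exp_add, ← Complex.exp_add]
  congr 1
  ring

lemma half_im {τ : ℂ} (hτ : 0 < τ.im) : 0 < (τ / 2).im := by
  have : (τ / 2).im = τ.im / 2 := by simp
  rw [this]
  linarith

/-- the summands after rotation -/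
noncomputable def SS (τ : ℂ) (N : ℕ) (a b w : ℂ) (p : ℤ × ℤ) : ℂ :=
  ((-1 : ℂ) ^ p.1 * et (τ / 2) (N * p.1 + (a + b + N / 2)) w) *
    ((-1 : ℂ) ^ p.2 * et (τ / 2) (N * p.2 + (a - b - N / 2)) 0)

lemma SS_inl (τ : ℂ) (N : ℕ) (a b w : ℂ) (p : ℤ × ℤ) :
    et τ (N * p.1 + a) w * et τ (N * p.2 + (b + N / 2)) w = SS τ N a b w (rot (Sum.inl p)) := by
  obtain ⟨m, n⟩ := p
  rw [et_mul]
  change _ = SS τ N a b w (m + n, m - n)
  unfold SS
  have h1 : ((-1 : ℂ)) ^ (m + n) * (-1) ^ (m - n) = 1 := by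
    rw [← zpow_add₀ (by norm_num : (-1 : ℂ) ≠ 0), show m + n + (m - n) = 2 * m by ring, zpow_mul]
    norm_num
  have h2 : (N * (m : ℂ) + a + (N * (n : ℂ) + (b + N / 2))) =
      N * ((m + n : ℤ) : ℂ) + (a + b + N / 2) := by push_cast; ring
  have h3 : (N * (m : ℂ) + a - (N * (n : ℂ) + (b + N / 2))) =
      N * ((m - n : ℤ) : ℂ) + (a - b - N / 2) := by push_cast; ring
  simp only
  rw [h2, h3]
  calc _ = (((-1 : ℂ)) ^ (m + n) * (-1) ^ (m - n)) * (et (τ / 2) (N * ((m + n : ℤ) : ℂ) +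
        (a + b + N / 2)) w * et (τ / 2) (N * ((m - n : ℤ) : ℂ) + (a - b - N / 2)) 0) := by
        rw [h1, one_mul]
    _ = _ := by ring

lemma SS_inr (τ : ℂ) (N : ℕ) (a b w : ℂ) (p : ℤ × ℤ) :
    et τ (N * p.1 + (a + N / 2)) w * et τ (N * p.2 + b) w = -SS τ N a b w (rot (Sum.inr p)) := by
  obtain ⟨m, n⟩ := p
  rw [et_mul]
  change _ = -SS τ N a b w (m + n, m - n + 1)
  unfold SS
  have h1 : ((-1 : ℂ)) ^ (m + n) * (-1) ^ (m - n + 1) = -1 := by
    rw [← zpow_add₀ (by norm_num : (-1 : ℂ) ≠ 0), show m + n + (m - n + 1) = 2 * m + 1 by ring,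
      zpow_add₀ (by norm_num : (-1 : ℂ) ≠ 0), zpow_mul]
    norm_num
  have h2 : (N * (m : ℂ) + (a + N / 2) + (N * (n : ℂ) + b)) =
      N * ((m + n : ℤ) : ℂ) + (a + b + N / 2) := by push_cast; ring
  have h3 : (N * (m : ℂ) + (a + N / 2) - (N * (n : ℂ) + b)) =
      N * ((m - n + 1 : ℤ) : ℂ) + (a - b - N / 2) := by push_cast; ring
  simp only
  rw [h2, h3]
  calc _ = -((((-1 : ℂ)) ^ (m + n) * (-1) ^ (m - n + 1)) * (et (τ / 2) (N * ((m + n : ℤ) : ℂ) +
        (a + b + N / 2)) w * et (τ / 2) (N * ((m - n + 1 : ℤ) : ℂ) + (a - b - N / 2)) 0)) := by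
        rw [h1, neg_one_mul, neg_neg]
    _ = _ := by ring

lemma SS_summable {τ : ℂ} (hτ : 0 < τ.im) {N : ℕ} (hN : 0 < N) (s w : ℂ) :
    Summable fun m : ℤ => ‖(-1 : ℂ) ^ m * et (τ / 2) (N * m + s) w‖ := by
  refine (summable_et (half_im hτ) hN s w).congr fun m => ?_
  rw [norm_mul, norm_zpow, norm_neg, norm_one, one_zpow, one_mul]

theorem tsum_rot (S : ℤ × ℤ → ℂ) (hSs : Summable S) :
    ∑' p, S p = ∑' p : ℤ × ℤ, S (rot (Sum.inl p)) + ∑' p : ℤ × ℤ, S (rot (Sum.inr p)) := by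
  have hSr : Summable (S ∘ rot) := rot.summable_iff.2 hSs
  have hi1 : Summable ((S ∘ rot) ∘ Sum.inl) := hSr.comp_injective Sum.inl_injective
  have hi2 : Summable ((S ∘ rot) ∘ Sum.inr) := hSr.comp_injective Sum.inr_injective
  have h1 : ∑' p, S p = ∑' x, (S ∘ rot) x := (rot.tsum_eq S).symm
  rw [h1, Summable.tsum_sum hi1 hi2]
  rfl

theorem wron_eq {τ : ℂ} (hτ : 0 < τ.im) {N : ℕ} (hN : 0 < N) (a b w : ℂ) :
    Y τ N a w * Y τ N (b + N / 2) w - Y τ N (a + N / 2) w * Y τ N b w =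
      alt (τ / 2) N (a + b + N / 2) w * alt (τ / 2) N (a - b - N / 2) 0 := by
  have hR : alt (τ / 2) N (a + b + N / 2) w * alt (τ / 2) N (a - b - N / 2) 0 =
      ∑' p, SS τ N a b w p := by
    unfold alt
    rw [tsum_mul_tsum_of_summable_norm (SS_summable hτ hN _ _) (SS_summable hτ hN _ _)]
    exact tsum_congr fun p => by rw [SS]
  have hL1 : Y τ N a w * Y τ N (b + N / 2) w = ∑' p : ℤ × ℤ, SS τ N a b w (rot (Sum.inl p)) := by
    unfold Y
    rw [tsum_mul_tsum_of_summable_norm (summable_et hτ hN _ _) (summable_et hτ hN _ _)]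
    exact tsum_congr (SS_inl τ N a b w)
  have hL2 : Y τ N (a + N / 2) w * Y τ N b w =
      -∑' p : ℤ × ℤ, SS τ N a b w (rot (Sum.inr p)) := by
    unfold Y
    rw [tsum_mul_tsum_of_summable_norm (summable_et hτ hN _ _) (summable_et hτ hN _ _), ← tsum_neg]
    exact tsum_congr (SS_inr τ N a b w)
  have hSs : Summable (SS τ N a b w) := by
    have h := summable_mul_of_summable_norm (SS_summable hτ hN (a + b + N / 2) w)
      (SS_summable hτ hN (a - b - N / 2) 0)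
    refine h.congr fun p => ?_
    rw [SS]
  rw [hR, hL1, hL2, tsum_rot _ hSs]
  ring

end Pool.Agent.H70.AM
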