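import Pool.Agent.H70.AM.OddF
import Pool.Agent.H70.AM.Wron

/-!
The block functions satisfy the hypotheses.
-/

set_option autoImplicit false
set_option linter.unusedSectionVars false

open Set Topology Filter Complex
open scoped ENNReal NNReal

namespace Pool.Agent.H70.AM

/-- the function `y_c` -/
noncomputable def oy (τ : ℂ) (N : ℕ) (c : Fin N) : ℂ → ℂ := Y τ N ((((c : ℕ) : ℝ)) : ℂ)

/-- the function `z_c` -/
noncomputable def oz (τ : ℂ) (N : ℕ) (c : Fin N) : ℂ → ℂ :=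
  Y τ N ((((c : ℕ) : ℝ) + (N : ℝ) / 2 : ℝ) : ℂ)

/-- the function `x_ε` -/
noncomputable def ox (τ : ℂ) (ε : ℝ) : ℂ → ℂ := Y τ 2 (ε : ℂ)

lemma fin_eq_of {N : ℕ} (a b : Fin N) (q : ℤ) (h : ((a : ℕ) : ℤ) - ((b : ℕ) : ℤ) = N * q) :
    a = b := by
  have ha : ((a : ℕ) : ℤ) < N := by exact_mod_cast a.2
  have hb : ((b : ℕ) : ℤ) < N := by exact_mod_cast b.2
  have h2 : q = 0 := by
    by_contra hb0
    rcases lt_or_gt_of_ne hb0 with h | h
    · nlinarith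
    · nlinarith
  rw [h2, mul_zero, sub_eq_zero] at h
  exact Fin.ext (by exact_mod_cast h)

section

variable {τ : ℂ} (hτ : 0 < τ.im) {N : ℕ} (hN : 0 < N)

include hτ hN

lemma oW2_eq (a b : Fin N) (u : ℂ) : W2 (oy τ N) (oz τ N) a b u =
    alt (τ / 2) N ((((a : ℕ) : ℝ) + ((b : ℕ) : ℝ) + (N : ℝ) / 2 : ℝ) : ℂ) u *
      alt (τ / 2) N ((((a : ℕ) : ℝ) - ((b : ℕ) : ℝ) - (N : ℝ) / 2 : ℝ) : ℂ) 0 := by
  unfold W2 oy oz
  have h := wron_eq hτ hN ((a : ℕ) : ℂ) ((b : ℕ) : ℂ) u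
  push_cast
  rw [h]

lemma alt_ne {a b : Fin N} (hab : a ≠ b) :
    alt (τ / 2) N ((((a : ℕ) : ℝ) - ((b : ℕ) : ℝ) - (N : ℝ) / 2 : ℝ) : ℂ) 0 ≠ 0 := by
  have hNc : (N : ℂ) ≠ 0 := by exact_mod_cast hN.ne'
  have hNr : (N : ℝ) ≠ 0 := by exact_mod_cast hN.ne'
  rw [alt_eq _ hN]
  refine mul_ne_zero (Complex.exp_ne_zero _) ?_
  rw [Ne, Y_zero_iff (half_im hτ) hN]
  rintro ⟨p, q, h⟩
  have h3 : (((N : ℝ) * (((a : ℕ) : ℝ) - ((b : ℕ) : ℝ) - (N : ℝ) / 2) - N ^ 2 / 2 - q * N ^ 2 : ℝ) : ℂ)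
      * (τ / 2) = ((p : ℝ) : ℂ) := by
    push_cast at h ⊢
    have e : (N : ℂ) * (0 + 1 / (2 * N) + (((a : ℕ) : ℂ) - ((b : ℕ) : ℂ) - N / 2) * (τ / 2)) =
        1 / 2 + N * (((a : ℕ) : ℂ) - ((b : ℕ) : ℂ) - N / 2) * (τ / 2) := by
      field_simp
      ring
    rw [e] at h
    linear_combination h
  have h4 := congrArg Complex.im h3
  rw [Complex.im_ofReal_mul, Complex.ofReal_im] at h4
  have h5 := (mul_eq_zero.1 h4).resolve_right (half_im hτ).ne'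
  have h6 : (N : ℝ) * ((((a : ℕ) : ℝ) - ((b : ℕ) : ℝ)) - N * (1 + q)) = 0 := by
    linear_combination h5
  have h7 := (mul_eq_zero.1 h6).resolve_left hNr
  have h8 : ((a : ℕ) : ℤ) - ((b : ℕ) : ℤ) = N * (1 + q) := by
    have : (((a : ℕ) : ℝ) - ((b : ℕ) : ℝ)) = N * (1 + q) := by linarith
    exact_mod_cast this
  exact hab (fin_eq_of a b _ h8)

lemma oW2_zero_iff {a b : Fin N} (hab : a ≠ b) (u : ℂ) : W2 (oy τ N) (oz τ N) a b u = 0 ↔
    Y (τ / 2) N ((((a : ℕ) : ℝ) + ((b : ℕ) : ℝ) + (N : ℝ) / 2 : ℝ) : ℂ) (u + 1 / (2 * N)) = 0 := by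
  rw [oW2_eq hτ hN, mul_eq_zero, or_iff_left (alt_ne hτ hN hab), alt_eq _ hN, mul_eq_zero,
    or_iff_right (Complex.exp_ne_zero _)]

lemma oW2_hasDerivAt (a b : Fin N) (u : ℂ) :
    HasDerivAt (W2 (oy τ N) (oz τ N) a b) (W2' (oy τ N) (oz τ N) a b u) u := by
  have dy : ∀ c, Differentiable ℂ (oy τ N c) := fun c => Y_differentiable hτ hN _
  have dz : ∀ c, Differentiable ℂ (oz τ N c) := fun c => Y_differentiable hτ hN _
  unfold W2 W2'
  have h := ((dy a u).hasDerivAt.mul (dz b u).hasDerivAt).sub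
    ((dz a u).hasDerivAt.mul (dy b u).hasDerivAt)
  refine h.congr_deriv ?_
  ring

lemma oW2_simple {a b : Fin N} (hab : a ≠ b) (u : ℂ) (h : W2 (oy τ N) (oz τ N) a b u = 0) :
    W2' (oy τ N) (oz τ N) a b u ≠ 0 := by
  rw [oW2_zero_iff hτ hN hab] at h
  set s : ℂ := ((((a : ℕ) : ℝ) + ((b : ℕ) : ℝ) + (N : ℝ) / 2 : ℝ) : ℂ) with hs
  have h1 := Y_simple (half_im hτ) hN s _ h
  have h2 : HasDerivAt (Y (τ / 2) N s) (deriv (Y (τ / 2) N s) (u + 1 / (2 * N)))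
      (u + 1 / (2 * N)) := (Y_differentiable (half_im hτ) hN s _).hasDerivAt
  have h3 : HasDerivAt (fun w : ℂ => w + 1 / (2 * N)) 1 u := (hasDerivAt_id u).add_const _
  have h4 : HasDerivAt (fun w : ℂ => Y (τ / 2) N s (w + 1 / (2 * N)))
      (deriv (Y (τ / 2) N s) (u + 1 / (2 * N)) * 1) u :=
    HasDerivAt.comp (h₂ := Y (τ / 2) N s) (h := fun w : ℂ => w + 1 / (2 * N)) u h2 h3
  set K := alt (τ / 2) N ((((a : ℕ) : ℝ) - ((b : ℕ) : ℝ) - (N : ℝ) / 2 : ℝ) : ℂ) 0 with hK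
  have h5 : HasDerivAt (W2 (oy τ N) (oz τ N) a b)
      ((cexp (-(Real.pi * I * s / N)) * (deriv (Y (τ / 2) N s) (u + 1 / (2 * N)) * 1)) * K) u := by
    have e : W2 (oy τ N) (oz τ N) a b = fun w =>
        (cexp (-(Real.pi * I * s / N)) * Y (τ / 2) N s (w + 1 / (2 * N))) * K := by
      funext w
      rw [oW2_eq hτ hN, alt_eq _ hN]
    rw [e]
    exact (h4.const_mul _).mul_const _
  rw [(oW2_hasDerivAt hτ hN a b u).unique h5, mul_one]
  exact mul_ne_zero (mul_ne_zero (Complex.exp_ne_zero _) h1) (alt_ne hτ hN hab)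

lemma oyz_disj (c : Fin N) (u : ℂ) : ¬ (oy τ N c u = 0 ∧ oz τ N c u = 0) := by
  rintro ⟨h1, h2⟩
  obtain ⟨b, hb⟩ := Y_disjoint hτ hN _ _ u h1 h2
  have hNr : (N : ℝ) ≠ 0 := by exact_mod_cast hN.ne'
  have h3 : (N : ℝ) * (2 * b + 1) = 0 := by linear_combination -2 * hb
  have h4 := (mul_eq_zero.1 h3).resolve_left hNr
  have h5 : (2 * b + 1 : ℤ) = 0 := by exact_mod_cast h4
  omega

lemma oyz_indep (c : Fin N) (α β : ℂ) (h : ¬ (α = 0 ∧ β = 0)) :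
    ∃ u, α * oy τ N c u + β * oz τ N c u ≠ 0 := by
  by_cases hβ : β = 0
  · obtain ⟨u, hu⟩ := Y_exists_zero hτ hN ((((c : ℕ) : ℝ) + (N : ℝ) / 2 : ℝ) : ℂ)
    refine ⟨u, ?_⟩
    rw [hβ, zero_mul, add_zero]
    exact mul_ne_zero (fun h' => h ⟨h', hβ⟩) (fun h' => oyz_disj hτ hN c u ⟨h', hu⟩)
  · obtain ⟨u, hu⟩ := Y_exists_zero hτ hN ((((c : ℕ) : ℝ)) : ℂ)
    refine ⟨u, ?_⟩
    have hu' : oy τ N c u = 0 := hu
    rw [hu', mul_zero, zero_add]
    exact mul_ne_zero hβ (fun h' => oyz_disj hτ hN c u ⟨hu, h'⟩)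

end

lemma et_shift (τ x w d : ℂ) : et τ x (w + d) = et τ x w * cexp (2 * Real.pi * I * x * d) := by
  unfold et
  rw [← Complex.exp_add]
  congr 1
  ring

/-- the eigenvalue of the shift by `2 / N` -/
lemma Y_shift (τ : ℂ) {N : ℕ} (hN : 0 < N) (c : ℤ) (δ : ℤ) (w : ℂ) :
    Y τ N (((c : ℝ) + δ * ((N : ℝ) / 2) : ℝ) : ℂ) (w + 2 / N) =
      cexp (4 * Real.pi * I * c / N) * Y τ N (((c : ℝ) + δ * ((N : ℝ) / 2) : ℝ) : ℂ) w := by
  have hNc : (N : ℂ) ≠ 0 := by exact_mod_cast hN.ne'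
  unfold Y
  rw [← tsum_mul_left]
  refine tsum_congr fun m => ?_
  rw [et_shift, mul_comm]
  congr 1
  push_cast
  have : 2 * Real.pi * I * (N * m + (c + δ * (N / 2))) * (2 / N) =
      4 * Real.pi * I * c / N + ((2 * m + δ : ℤ) : ℂ) * (2 * Real.pi * I) := by
    push_cast
    field_simp
    ring
  rw [this, Complex.exp_add, Complex.exp_int_mul_two_pi_mul_I, mul_one]

/-- two entire functions with vanishing Wronskian are proportional -/
lemma prop_of_wronskian {f g : ℂ → ℂ} (hf : Differentiable ℂ f) (hg : Differentiable ℂ g)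
    (h : ∀ u, f u * deriv g u - g u * deriv f u = 0) (hne : ∃ u, g u ≠ 0) :
    ∃ l : ℂ, ∀ u, f u = l * g u := by
  obtain ⟨u₀, hu₀⟩ := hne
  have hcont := hg.continuous
  have hop : IsOpen {u | g u ≠ 0} := isOpen_ne_fun hcont continuous_const
  obtain ⟨r, hr, hball⟩ := Metric.isOpen_iff.1 hop u₀ hu₀
  have hd : DifferentiableOn ℂ (fun u => f u / g u) (Metric.ball u₀ r) := fun u hu =>
    ((hf u).div (hg u) (hball hu)).differentiableWithinAt
  have hd' : (Metric.ball u₀ r).EqOn (deriv fun u => f u / g u) 0 := by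
    intro u hu
    have hgu : g u ≠ 0 := hball hu
    have h1 := ((hf u).hasDerivAt.div (hg u).hasDerivAt hgu).deriv
    have h2 : deriv (fun u => f u / g u) u = (deriv f u * g u - f u * deriv g u) / g u ^ 2 := h1
    rw [h2, Pi.zero_apply, div_eq_zero_iff]
    left
    linear_combination -h u
  refine ⟨f u₀ / g u₀, ?_⟩
  have h3 : ∀ u ∈ Metric.ball u₀ r, f u / g u = f u₀ / g u₀ := fun u hu =>
    Metric.isOpen_ball.is_const_of_deriv_eq_zero (Metric.isPreconnected_ball) hd hd' hu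
      (Metric.mem_ball_self hr)
  have h4 : f =ᶠ[𝓝 u₀] fun u => f u₀ / g u₀ * g u := by
    filter_upwards [Metric.ball_mem_nhds u₀ hr] with u hu
    rw [← h3 u hu, div_mul_cancel₀ _ (hball hu)]
  have h5 : AnalyticOnNhd ℂ f univ := fun u _ => hf.analyticAt u
  have h6 : AnalyticOnNhd ℂ (fun u => f u₀ / g u₀ * g u) univ := fun u _ =>
    ((hg.const_mul _).analyticAt u)
  intro u
  exact congrFun (h5.eq_of_eventuallyEq h6 h4) u

/-- choice of the pair -/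
lemma exists_pair_fin {N : ℕ} (hN : 3 ≤ N) (c₁ : Fin N) : ∃ a b : Fin N, a ≠ c₁ ∧ b ≠ c₁ ∧
    a ≠ b ∧ ∀ n : ℤ, 2 * (((a : ℕ) : ℤ) - ((b : ℕ) : ℤ)) ≠ N * n := by
  have key : ∀ n : ℤ, (-2 : ℤ) ≠ N * n := by
    intro n h
    have hN' : (3 : ℤ) ≤ N := by exact_mod_cast hN
    rcases lt_trichotomy n 0 with h1 | h1 | h1
    · nlinarith
    · rw [h1] at h; omega
    · nlinarith
  by_cases h2 : 2 ≤ (c₁ : ℕ)
  · refine ⟨⟨0, by omega⟩, ⟨1, by omega⟩, ?_, ?_, ?_, ?_⟩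
    · intro h; rw [← h] at h2; simp at h2
    · intro h; rw [← h] at h2; simp at h2
    · intro h; simp at h
    · intro n h
      exact key n (by simpa using h)
  by_cases h0 : (c₁ : ℕ) = 0
  · refine ⟨⟨1, by omega⟩, ⟨2, by omega⟩, ?_, ?_, ?_, ?_⟩
    · intro h; rw [← h] at h0; simp at h0
    · intro h; rw [← h] at h0; simp at h0
    · intro h; simp at h
    · intro n h
      exact key n (by simpa using h)
  have h1 : (c₁ : ℕ) = 1 := by omega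
  by_cases h4 : 4 ≤ N
  · refine ⟨⟨2, by omega⟩, ⟨3, by omega⟩, ?_, ?_, ?_, ?_⟩
    · intro h; rw [← h] at h1; simp at h1
    · intro h; rw [← h] at h1; simp at h1
    · intro h; simp at h
    · intro n h
      refine key n ?_
      push_cast at h
      linarith
  · have h3 : N = 3 := by omega
    subst h3
    refine ⟨⟨0, by omega⟩, ⟨2, by omega⟩, ?_, ?_, ?_, ?_⟩
    · intro h; rw [← h] at h1; simp at h1
    · intro h; rw [← h] at h1; simp at h1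
    · intro h; simp at h
    · intro n h
      push_cast at h
      omega

theorem pend {τ₁ τ₂ : ℂ} (h₁ : 0 < τ₁.im) (h₂ : 0 < τ₂.im) {N : ℕ} (hN : 3 ≤ N) :
    Pend N (ox τ₂ 0) (ox τ₂ 1) (oy τ₁ N) (oz τ₁ N) := by
  have hN0 : 0 < N := by omega
  have hxd : ∀ v, ¬ (ox τ₂ 0 v = 0 ∧ ox τ₂ 1 v = 0) := by
    rintro v ⟨ha, hb⟩
    obtain ⟨b, hb'⟩ := Y_disjoint h₂ two_pos _ _ v ha hb
    have : (2 * b + 1 : ℤ) = 0 := by
      have h3 : (2 * b + 1 : ℝ) = 0 := by push_cast at hb'; linarith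
      exact_mod_cast h3
    omega
  refine ⟨Y_differentiable h₂ two_pos _, Y_differentiable h₂ two_pos _,
    fun c => Y_differentiable h₁ hN0 _, fun c => Y_differentiable h₁ hN0 _, hxd,
    fun c u => oyz_disj h₁ hN0 c u, ?_, ?_, fun a b hab u h => oW2_simple h₁ hN0 hab u h, ?_, ?_, ?_⟩
  · intro α β h
    by_cases hβ : β = 0
    · obtain ⟨v, hv⟩ := Y_exists_zero h₂ two_pos (((1 : ℝ)) : ℂ)
      refine ⟨v, ?_⟩
      rw [hβ, zero_mul, add_zero]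
      exact mul_ne_zero (fun h' => h ⟨h', hβ⟩) (fun h' => hxd v ⟨h', hv⟩)
    · obtain ⟨v, hv⟩ := Y_exists_zero h₂ two_pos (((0 : ℝ)) : ℂ)
      refine ⟨v, ?_⟩
      have hv' : ox τ₂ 0 v = 0 := hv
      rw [hv', mul_zero, zero_add]
      exact mul_ne_zero hβ (fun h' => hxd v ⟨hv, h'⟩)
  · obtain ⟨v, hv⟩ := Y_exists_zero h₂ two_pos (((0 : ℝ)) : ℂ)
    refine ⟨v, ?_⟩
    have hv' : ox τ₂ 0 v = 0 := hv
    rw [hv', zero_mul, zero_sub, neg_ne_zero]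
    exact mul_ne_zero (fun h' => hxd v ⟨hv, h'⟩) (Y_simple h₂ two_pos _ v hv)
  · intro a b c u hab hac hb hc
    rw [oW2_zero_iff h₁ hN0 hab] at hb
    rw [oW2_zero_iff h₁ hN0 hac] at hc
    obtain ⟨q, hq⟩ := Y_disjoint (half_im h₁) hN0 _ _ _ hb hc
    refine fin_eq_of b c q ?_
    have : ((b : ℕ) : ℝ) - ((c : ℕ) : ℝ) = N * q := by linarith
    exact_mod_cast this
  · intro a b hab
    obtain ⟨w, hw⟩ := Y_exists_zero (half_im h₁) hN0
      ((((a : ℕ) : ℝ) + ((b : ℕ) : ℝ) + (N : ℝ) / 2 : ℝ) : ℂ)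
    refine ⟨w - 1 / (2 * N), ?_⟩
    rw [oW2_zero_iff h₁ hN0 hab, sub_add_cancel]
    exact hw
  · intro c₁
    obtain ⟨a, b, ha, hb, hab, hn⟩ := exists_pair_fin hN c₁
    refine ⟨a, b, ha, hb, hab, ?_⟩
    intro α β hαβ
    by_contra hcon
    push Not at hcon
    have hNc : (N : ℂ) ≠ 0 := by exact_mod_cast hN0.ne'
    let P : Fin N → ℂ → ℂ := fun c u => α * oy τ₁ N c u + β * oz τ₁ N c u
    have dy : ∀ c, Differentiable ℂ (oy τ₁ N c) := fun c => Y_differentiable h₁ hN0 _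
    have dz : ∀ c, Differentiable ℂ (oz τ₁ N c) := fun c => Y_differentiable h₁ hN0 _
    have hPd : ∀ c, Differentiable ℂ (P c) := fun c =>
      ((dy c).const_mul α).add ((dz c).const_mul β)
    have hPder : ∀ c u, deriv (P c) u = α * deriv (oy τ₁ N c) u + β * deriv (oz τ₁ N c) u := by
      intro c u
      exact (((dy c u).hasDerivAt.const_mul α).add ((dz c u).hasDerivAt.const_mul β)).deriv
    have hPne : ∀ c, ∃ u, P c u ≠ 0 := fun c => oyz_indep h₁ hN0 c α β hαβ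
    have hPs : ∀ c u, P c (u + 2 / N) = cexp (4 * Real.pi * I * ((c : ℕ) : ℤ) / N) * P c u := by
      intro c u
      have e1 := Y_shift τ₁ hN0 ((c : ℕ) : ℤ) 0 u
      have e2 := Y_shift τ₁ hN0 ((c : ℕ) : ℤ) 1 u
      have i1 : (((((c : ℕ) : ℤ) : ℝ) + ((0 : ℤ) : ℝ) * ((N : ℝ) / 2) : ℝ)) = ((c : ℕ) : ℝ) := by
        push_cast; ring
      have i2 : (((((c : ℕ) : ℤ) : ℝ) + ((1 : ℤ) : ℝ) * ((N : ℝ) / 2) : ℝ)) =
          ((c : ℕ) : ℝ) + (N : ℝ) / 2 := by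
        push_cast; ring
      rw [i1] at e1
      rw [i2] at e2
      simp only [P, oy, oz]
      rw [e1, e2]
      ring
    obtain ⟨l, hl⟩ := prop_of_wronskian (hPd a) (hPd b) (by
      intro u
      rw [hPder, hPder]
      exact hcon u) (hPne b)
    obtain ⟨u, hu⟩ := hPne a
    have k1 := hl (u + 2 / N)
    rw [hPs, hPs] at k1
    have k2 : (cexp (4 * Real.pi * I * ((a : ℕ) : ℤ) / N) -
        cexp (4 * Real.pi * I * ((b : ℕ) : ℤ) / N)) * P a u = 0 := by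
      have := hl u
      linear_combination k1 - cexp (4 * Real.pi * I * ((b : ℕ) : ℤ) / N) * this
    have k3 := sub_eq_zero.1 ((mul_eq_zero.1 k2).resolve_right hu)
    rw [Complex.exp_eq_exp_iff_exists_int] at k3
    obtain ⟨n, hn'⟩ := k3
    apply hn n
    have hpi : (Real.pi : ℂ) ≠ 0 := by exact_mod_cast Real.pi_ne_zero
    have k4 : (2 * (((a : ℕ) : ℤ) - ((b : ℕ) : ℤ)) : ℂ) = N * n := by
      have h5 : (2 * Real.pi * I : ℂ) ≠ 0 := by simp [Real.pi_ne_zero, I_ne_zero]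
      have h6 : (2 * Real.pi * I : ℂ) * (2 * (((a : ℕ) : ℤ) - ((b : ℕ) : ℤ))) =
          (2 * Real.pi * I : ℂ) * (N * n) := by
        have h7 : (4 * Real.pi * I * ((a : ℕ) : ℤ) / N : ℂ) * N =
            (4 * Real.pi * I * ((b : ℕ) : ℤ) / N + n * (2 * Real.pi * I) : ℂ) * N := by rw [hn']
        have h8 : (4 * Real.pi * I * ((a : ℕ) : ℤ) / N : ℂ) * N = 4 * Real.pi * I * ((a : ℕ) : ℤ) := by
          field_simp
        have h9 : (4 * Real.pi * I * ((b : ℕ) : ℤ) / N + n * (2 * Real.pi * I) : ℂ) * N =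
            4 * Real.pi * I * ((b : ℕ) : ℤ) + n * (2 * Real.pi * I) * N := by
          field_simp
        rw [h8, h9] at h7
        linear_combination h7
      exact mul_left_cancel₀ h5 h6
    exact_mod_cast k4

end Pool.Agent.H70.AM
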