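import Pool.Agent.H70.AM.Loc

/-!
The residual part of the singular locus is empty if one of the elliptic curves is degenerate.
-/

set_option autoImplicit false

open Set Topology Filter Complex

namespace Pool.Agent.H70.AM

/-- if one class is near the antipode, the others are not -/
lemma near_anti {N : ℕ} {c l : Fin N} (hcl : c ≠ l) {nc nl : ℤ} {t : ℝ}
    (h1 : (N : ℤ) ∣ nc - ((c : ℕ) : ℤ)) (h2 : (N : ℤ) ∣ nl - ((l : ℕ) : ℤ))
    (h3 : |(nc : ℝ) - t| ≤ N / 2) (h4 : |(nl : ℝ) - t| ≤ N / 2)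
    (h5 : N / 2 - 1 / 4 < |(nl : ℝ) - t|) : |(nc : ℝ) - t| ≤ N / 2 - 3 / 4 := by
  have hN0 : (0 : ℝ) < N := by
    have : 0 < N := lt_of_le_of_lt (Nat.zero_le _) c.2
    exact_mod_cast this
  have hnd : ¬ (N : ℤ) ∣ nc - nl := by
    intro h
    have h6 : (N : ℤ) ∣ ((c : ℕ) : ℤ) - ((l : ℕ) : ℤ) := by
      have : ((c : ℕ) : ℤ) - ((l : ℕ) : ℤ) = (nc - nl) - (nc - ((c : ℕ) : ℤ)) +
        (nl - ((l : ℕ) : ℤ)) := by ring
      rw [this]
      exact dvd_add (dvd_sub h h1) h2
    have h7 : ((c : ℕ) : ℤ) - ((l : ℕ) : ℤ) = 0 := by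
      refine Int.eq_zero_of_abs_lt_dvd h6 ?_
      have := c.2
      have := l.2
      rw [abs_lt]
      omega
    exact hcl (Fin.ext (by omega))
  have hk0 : nc ≠ nl := by
    intro h
    exact hnd (by rw [h, sub_self]; exact dvd_zero _)
  rw [abs_le] at h3 h4 ⊢
  rcases lt_abs.1 h5 with h6 | h6
  · have hk1 : nc < nl + 1 := by
      have : (nc : ℝ) < nl + 1 := by linarith [h3.2]
      exact_mod_cast this
    have hk2 : nc ≤ nl - 1 := by omega
    have hk3 : nl - N ≤ nc := by
      have : (nl : ℝ) - N ≤ nc := by linarith [h3.1, h4.2]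
      exact_mod_cast this
    have hk4 : nl - N ≠ nc := by
      intro h
      exact hnd ⟨-1, by rw [← h]; ring⟩
    have hk5 : nl - N + 1 ≤ nc := by omega
    have e1 : (nc : ℝ) ≤ nl - 1 := by exact_mod_cast hk2
    have e2 : (nl : ℝ) - N + 1 ≤ nc := by exact_mod_cast hk5
    constructor
    · linarith
    · linarith [h4.2]
  · have hk1 : nl - 1 < nc := by
      have : (nl : ℝ) - 1 < nc := by linarith [h3.1]
      exact_mod_cast this
    have hk2 : nl + 1 ≤ nc := by omega
    have hk3 : nc ≤ nl + N := by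
      have : (nc : ℝ) ≤ nl + N := by linarith [h3.2, h4.1]
      exact_mod_cast this
    have hk4 : nc ≠ nl + N := by
      intro h
      exact hnd ⟨1, by rw [h]; ring⟩
    have hk5 : nc ≤ nl + N - 1 := by omega
    have e1 : (nl : ℝ) + 1 ≤ nc := by exact_mod_cast hk2
    have e2 : (nc : ℝ) ≤ nl + N - 1 := by exact_mod_cast hk5
    constructor
    · linarith [h4.1]
    · linarith

lemma eq_of_n_eq {N : ℕ} {c l : Fin N} {n : ℤ} (h1 : (N : ℤ) ∣ n - ((c : ℕ) : ℤ))
    (h2 : (N : ℤ) ∣ n - ((l : ℕ) : ℤ)) : c = l := by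
  have h6 : (N : ℤ) ∣ ((c : ℕ) : ℤ) - ((l : ℕ) : ℤ) := by
    have : ((c : ℕ) : ℤ) - ((l : ℕ) : ℤ) = (n - ((l : ℕ) : ℤ)) - (n - ((c : ℕ) : ℤ)) := by ring
    rw [this]
    exact dvd_sub h2 h1
  have h7 : ((c : ℕ) : ℤ) - ((l : ℕ) : ℤ) = 0 := by
    refine Int.eq_zero_of_abs_lt_dvd h6 ?_
    have := c.2
    have := l.2
    rw [abs_lt]
    omega
  exact Fin.ext (by omega)

lemma exists_second {N : ℕ} (u : Fin N → ℂ) (hu : ∑ c, u c = 0) (a : Fin N) (ha : u a ≠ 0) :
    ∃ b, b ≠ a ∧ ‖u a‖ ≤ N * ‖u b‖ := by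
  by_contra h
  push Not at h
  have hU : 0 < ‖u a‖ := norm_pos_iff.2 ha
  have h1 : ‖u a‖ ≤ ∑ c ∈ Finset.univ.erase a, ‖u c‖ := by
    have h2 := Finset.add_sum_erase Finset.univ u (Finset.mem_univ a)
    rw [hu] at h2
    have h3 : u a = -∑ c ∈ Finset.univ.erase a, u c := eq_neg_of_add_eq_zero_left h2
    rw [h3, norm_neg]
    exact norm_sum_le _ _
  have hN : 0 < N := lt_of_le_of_lt (Nat.zero_le _) a.2
  have h4 : (N : ℝ) * ∑ c ∈ Finset.univ.erase a, ‖u c‖ ≤ ((N : ℝ) - 1) * ‖u a‖ := by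
    rw [Finset.mul_sum]
    calc ∑ c ∈ Finset.univ.erase a, (N : ℝ) * ‖u c‖ ≤ ∑ c ∈ Finset.univ.erase a, ‖u a‖ :=
          Finset.sum_le_sum fun c hc => (h c (Finset.ne_of_mem_erase hc)).le
      _ = ((N : ℝ) - 1) * ‖u a‖ := by
          rw [Finset.sum_const, Finset.card_erase_of_mem (Finset.mem_univ _), Finset.card_univ,
            Fintype.card_fin, nsmul_eq_mul, Nat.cast_sub hN, Nat.cast_one]
  have h5 : (N : ℝ) * ‖u a‖ ≤ N * ∑ c ∈ Finset.univ.erase a, ‖u c‖ := by gcongr
  nlinarith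

/-- lower bound for the theta functions of the nonnegligible classes -/
lemma loc_lower {N : ℕ} (hN : 0 < N) {Q K δ H : ℝ} (hQ : 0 < Q) (hδ : δ ≤ 1) (hH : 1 ≤ H)
    (hK : 0 ≤ K) {y d : Fin N → ℂ} (hL : Loc N Q K δ y d) :
    ∃ E : ℝ, 0 < E ∧ (∀ c, ‖y c‖ ≤ K * E) ∧ ∀ B : Fin N → ℂ, ∑ c, y c * B c = 0 →
      ∑ c, d c * B c = 0 → ∀ l, y l * B l ≠ 0 → (∀ c, ‖y c * B c‖ ≤ H * ‖y l * B l‖) →
      Real.exp (-(Real.pi * Q * (N : ℝ) ^ 2)) / (2 * N * (N + 1) * H) * E ≤ ‖y l‖ := by
  obtain ⟨t, E, n, hE, hdvd, hn, hU, -, hA, hT⟩ := hL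
  have hN1 : (1 : ℝ) ≤ N := by exact_mod_cast hN
  have hpi := Real.pi_pos
  have hpQ : 0 < Real.pi * Q := by positivity
  refine ⟨E, hE, fun c => (hU c).trans ?_, ?_⟩
  · have h1 : Real.exp (-(Real.pi * Q * ((n c : ℝ) - t) ^ 2)) ≤ 1 := by
      rw [Real.exp_le_one_iff]
      have : 0 ≤ Real.pi * Q * ((n c : ℝ) - t) ^ 2 := by positivity
      linarith
    calc K * (E * Real.exp (-(Real.pi * Q * ((n c : ℝ) - t) ^ 2))) ≤ K * (E * 1) := by gcongr
      _ = K * E := by ring
  · intro B hB1 hB2 l hl hmax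
    have hyl : y l ≠ 0 := left_ne_zero_of_mul hl
    have hBl : B l ≠ 0 := right_ne_zero_of_mul hl
    have hBl' : 0 < ‖B l‖ := norm_pos_iff.2 hBl
    have hden : (0 : ℝ) < 2 * N * (N + 1) * H := by positivity
    rw [div_mul_eq_mul_div, div_le_iff₀ hden]
    set e : ℝ := Real.exp (-(Real.pi * Q * (N : ℝ) ^ 2)) with he
    by_cases hl4 : |(n l : ℝ) - t| ≤ N / 2 - 1 / 4
    · have h1 := (hA l hl4).1
      have h2 : e ≤ Real.exp (-(Real.pi * Q * ((n l : ℝ) - t) ^ 2)) := by
        apply Real.exp_le_exp.2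
        have h3 : ((n l : ℝ) - t) ^ 2 ≤ (N : ℝ) ^ 2 := by
          rw [← sq_abs]
          apply pow_le_pow_left₀ (abs_nonneg _)
          linarith
        have := mul_le_mul_of_nonneg_left h3 hpQ.le
        linarith
      have h3 : e * E ≤ 2 * ‖y l‖ := by
        calc e * E = E * e := mul_comm _ _
          _ ≤ E * Real.exp (-(Real.pi * Q * ((n l : ℝ) - t) ^ 2)) := by gcongr
          _ ≤ _ := h1
      have h4 : (2 : ℝ) ≤ 2 * N * (N + 1) * H := by
        have : (1 : ℝ) ≤ N * (N + 1) := by nlinarith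
        have : (1 : ℝ) ≤ N * (N + 1) * H := by nlinarith
        linarith
      have h5 : 0 ≤ ‖y l‖ := norm_nonneg _
      nlinarith
    · push Not at hl4
      have h1 := hT l hl4
      -- the combination of the two equations
      have h2 : ∑ c, (d c - n l * y c) * B c = 0 := by
        have : ∑ c, (d c - n l * y c) * B c = ∑ c, d c * B c - n l * ∑ c, y c * B c := by
          rw [Finset.mul_sum, ← Finset.sum_sub_distrib]
          exact Finset.sum_congr rfl fun c _ => by ring
        rw [this, hB1, hB2]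
        ring
      have h3 := Finset.add_sum_erase Finset.univ (fun c => (d c - n l * y c) * B c)
        (Finset.mem_univ l)
      rw [h2] at h3
      have h4 : ‖(d l - n l * y l) * B l‖ ≤ ∑ c ∈ Finset.univ.erase l, ‖(d c - n l * y c) * B c‖ := by
        have : (d l - n l * y l) * B l = -∑ c ∈ Finset.univ.erase l, (d c - n l * y c) * B c :=
          eq_neg_of_add_eq_zero_left h3
        rw [this, norm_neg]
        exact norm_sum_le _ _
      have h5 : ∀ c ∈ Finset.univ.erase l, ‖(d c - n l * y c) * B c‖ ≤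
          (N + 1) * (H * ‖y l * B l‖) := by
        intro c hc
        have hcl := Finset.ne_of_mem_erase hc
        have h6 := near_anti hcl (hdvd c) (hdvd l) (hn c) (hn l) hl4
        have h7 := (hA c (by linarith)).2
        have h8 : ‖d c - n l * y c‖ ≤ (N + 1) * ‖y c‖ := by
          have h9 : d c - n l * y c = (d c - n c * y c) + (((n c : ℝ) - n l : ℝ) : ℂ) * y c := by
            push_cast
            ring
          rw [h9]
          refine (norm_add_le _ _).trans ?_
          rw [norm_mul, Complex.norm_real, Real.norm_eq_abs]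
          have h10 : |(n c : ℝ) - n l| ≤ N := by
            have h11 := abs_sub_le (n c : ℝ) t (n l)
            have h12 := hn c
            have h13 := hn l
            rw [abs_sub_comm] at h13
            linarith
          have h14 : 0 ≤ ‖y c‖ := norm_nonneg _
          nlinarith
        calc ‖(d c - n l * y c) * B c‖ = ‖d c - n l * y c‖ * ‖B c‖ := norm_mul _ _
          _ ≤ ((N + 1) * ‖y c‖) * ‖B c‖ := by gcongr
          _ = (N + 1) * ‖y c * B c‖ := by rw [norm_mul]; ring
          _ ≤ _ := by gcongr; exact hmax c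
      have h6 : ‖(d l - n l * y l) * B l‖ ≤ N * ((N + 1) * (H * ‖y l * B l‖)) := by
        refine h4.trans ((Finset.sum_le_card_nsmul _ _ _ h5).trans ?_)
        rw [Finset.card_erase_of_mem (Finset.mem_univ _), Finset.card_univ, Fintype.card_fin,
          nsmul_eq_mul]
        gcongr
        exact_mod_cast Nat.sub_le N 1
      rw [norm_mul, norm_mul] at h6
      have h7 : ‖d l - n l * y l‖ ≤ N * (N + 1) * H * ‖y l‖ := by
        have : ‖d l - n l * y l‖ * ‖B l‖ ≤ (N * (N + 1) * H * ‖y l‖) * ‖B l‖ := by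
          calc _ ≤ _ := h6
            _ = _ := by ring
        exact le_of_mul_le_mul_right this hBl'
      calc e * E = E * e := mul_comm _ _
        _ ≤ 2 * ‖d l - n l * y l‖ := h1
        _ ≤ 2 * (N * (N + 1) * H * ‖y l‖) := by gcongr
        _ = ‖y l‖ * (2 * N * (N + 1) * H) := by ring

/-- if the curve is very degenerate compared with the other factors there are no residual
solutions -/
theorem loc_zero {N : ℕ} (hN : 0 < N) {Q K δ H A G : ℝ} (hQ : 0 < Q) (hδ : δ ≤ 1 / 16)
    (hH : 8 * ((N : ℝ) + 1) ^ 2 ≤ H) (hK : 0 < K) (hA : 0 < A) (hG : 0 < G)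
    {y d : Fin N → ℂ} (hL : Loc N Q K δ y d)
    (hq : 2 * (N + 1) * H * (K * A ^ 2 * Real.exp (-(Real.pi * Q / 2))) < 1)
    (B : Fin N → ℂ) (hB1 : ∑ c, y c * B c = 0) (hB2 : ∑ c, d c * B c = 0)
    (hBu : ∀ c, ‖B c‖ ≤ A * G)
    (hBl : ∀ c, y c * B c ≠ 0 → (∀ c', ‖y c' * B c'‖ ≤ H * ‖y c * B c‖) → G ≤ A * ‖B c‖) :
    ∀ c, y c * B c = 0 := by
  by_contra hcon
  push Not at hcon
  obtain ⟨c₀, hc₀⟩ := hcon
  obtain ⟨a, -, hamax⟩ := Finset.exists_max_image Finset.univ (fun c => ‖y c * B c‖)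
    ⟨c₀, Finset.mem_univ _⟩
  have hamax' : ∀ c, ‖y c * B c‖ ≤ ‖y a * B a‖ := fun c => hamax c (Finset.mem_univ c)
  set U : ℝ := ‖y a * B a‖ with hU
  have hU0 : 0 < U := lt_of_lt_of_le (norm_pos_iff.2 hc₀) (hamax' c₀)
  obtain ⟨t, E, n, hE, hdvd, hn, hUp, hUd, hNt, hT⟩ := hL
  have hpi := Real.pi_pos
  have hpQ : 0 < Real.pi * Q := by positivity
  have hN1 : (1 : ℝ) ≤ N := by exact_mod_cast hN
  set q : ℝ := Real.exp (-(Real.pi * Q / 2)) with hq'
  have hq0 : 0 < q := Real.exp_pos _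
  set Z : ℝ := K * A ^ 2 * q with hZ
  have hZ0 : 0 < Z := by positivity
  have hH8 : (8 : ℝ) ≤ H := by nlinarith
  have hHN : (N : ℝ) ≤ H := by nlinarith
  have hZ1 : 2 * H * Z < 1 := by
    have : 2 * H * Z ≤ 2 * (N + 1) * H * Z := by
      have : 0 ≤ H * Z := by positivity
      nlinarith
    linarith
  have hZ2 : 2 * Z < 1 := by
    have : 2 * Z ≤ 2 * H * Z := by nlinarith
    linarith
  obtain ⟨F, hFdef⟩ : ∃ F : Fin N → ℝ, ∀ c, F c =
    E * Real.exp (-(Real.pi * Q * ((n c : ℝ) - t) ^ 2)) := ⟨_, fun _ => rfl⟩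
  have hF0 : ∀ c, 0 < F c := by intro c; rw [hFdef]; positivity
  have hUp' : ∀ c, ‖y c‖ ≤ K * F c := by intro c; rw [hFdef]; exact hUp c
  have hUd' : ∀ c, ‖d c - n c * y c‖ ≤ K * F c := by intro c; rw [hFdef]; exact hUd c
  have hFq : ∀ l c, ((n c : ℝ) - t) ^ 2 + 1 / 2 ≤ ((n l : ℝ) - t) ^ 2 → F l ≤ q * F c := by
    intro l c h
    rw [hFdef, hFdef, hq']
    have h1 : Real.exp (-(Real.pi * Q * ((n l : ℝ) - t) ^ 2)) ≤
        Real.exp (-(Real.pi * Q / 2)) * Real.exp (-(Real.pi * Q * ((n c : ℝ) - t) ^ 2)) := by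
      rw [← Real.exp_add]
      apply Real.exp_le_exp.2
      have := mul_le_mul_of_nonneg_left h hpQ.le
      linarith
    calc E * Real.exp (-(Real.pi * Q * ((n l : ℝ) - t) ^ 2)) ≤
      E * (Real.exp (-(Real.pi * Q / 2)) * Real.exp (-(Real.pi * Q * ((n c : ℝ) - t) ^ 2))) := by
          gcongr
      _ = _ := by ring
  have hanti : ∀ l c, c ≠ l → N / 2 - 1 / 4 < |(n l : ℝ) - t| →
      |(n c : ℝ) - t| ≤ N / 2 - 3 / 4 ∧ F l ≤ q * F c := by
    intro l c hcl hl
    have h1 := near_anti hcl (hdvd c) (hdvd l) (hn c) (hn l) hl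
    refine ⟨h1, hFq l c ?_⟩
    have hN2 : (2 : ℝ) ≤ N := by
      have : 2 ≤ N := by
        by_contra hlt
        have h2 := c.2
        have h3 := l.2
        exact hcl (Fin.ext (by omega))
      exact_mod_cast this
    rw [← sq_abs ((n c : ℝ) - t), ← sq_abs ((n l : ℝ) - t)]
    have h2 := abs_nonneg ((n c : ℝ) - t)
    have h3 : |(n c : ℝ) - t| ^ 2 ≤ (N / 2 - 3 / 4) ^ 2 := pow_le_pow_left₀ h2 h1 2
    have h4 : (N / 2 - 1 / 4 : ℝ) ^ 2 ≤ |(n l : ℝ) - t| ^ 2 :=
      pow_le_pow_left₀ (by linarith) hl.le 2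
    nlinarith
  have bigB : ∀ c, U ≤ H * ‖y c * B c‖ → G ≤ A * ‖B c‖ := by
    intro c h
    refine hBl c ?_ fun c' => (hamax' c').trans h
    intro h0
    rw [h0, norm_zero, mul_zero] at h
    linarith
  have biga : G ≤ A * ‖B a‖ := bigB a (by rw [← hU]; nlinarith)
  -- the second largest term
  obtain ⟨b, hba, hb⟩ := exists_second (fun c => y c * B c) hB1 a (norm_pos_iff.1 hU0)
  have hbU : U ≤ N * ‖y b * B b‖ := hb
  have hbig_b : U ≤ H * ‖y b * B b‖ := by
    refine hbU.trans ?_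
    gcongr
  -- `F c G ≤ 2 A U` for the big nontransitional classes
  have hFG : ∀ c, U ≤ H * ‖y c * B c‖ → |(n c : ℝ) - t| ≤ N / 2 - 1 / 4 →
      F c * G ≤ 2 * A * ‖y c * B c‖ := by
    intro c h1 h2
    have h3 := (hNt c h2).1
    rw [← hFdef] at h3
    calc F c * G ≤ (2 * ‖y c‖) * (A * ‖B c‖) :=
          mul_le_mul h3 (bigB c h1) hG.le (by positivity)
      _ = _ := by rw [norm_mul]; ring
  have hUF : ∀ c, ‖y c * B c‖ ≤ K * A * (F c * G) := by
    intro c
    rw [norm_mul]
    calc ‖y c‖ * ‖B c‖ ≤ (K * F c) * (A * G) :=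
          mul_le_mul (hUp' c) (hBu c) (norm_nonneg _) (by have := hF0 c; positivity)
      _ = _ := by ring
  -- `a` is not transitional
  have hna : |(n a : ℝ) - t| ≤ N / 2 - 1 / 4 := by
    by_contra hlt
    push Not at hlt
    obtain ⟨h1, h2⟩ := hanti a b hba hlt
    have h3 := hFG b hbig_b (by linarith)
    have h4 := hUF a
    have h5 : F a * G ≤ q * (F b * G) := by
      calc F a * G ≤ (q * F b) * G := by gcongr
        _ = _ := by ring
    have h6 : U ≤ K * A * (q * (2 * A * U)) := by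
      calc U ≤ K * A * (F a * G) := h4
        _ ≤ K * A * (q * (F b * G)) := by gcongr
        _ ≤ K * A * (q * (2 * A * ‖y b * B b‖)) := by gcongr
        _ ≤ K * A * (q * (2 * A * U)) := by gcongr; exact hamax' b
    have h7 : K * A * (q * (2 * A * U)) = (2 * Z) * U := by rw [hZ]; ring
    rw [h7] at h6
    nlinarith
  have hFaG : F a * G ≤ 2 * A * U := hFG a (by rw [← hU]; nlinarith) hna
  have hnd : ∀ c, |(n c : ℝ) - n a| ≤ N := by
    intro c
    have h11 := abs_sub_le (n c : ℝ) t (n a)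
    have h12 := hn c
    have h13 := hn a
    rw [abs_sub_comm] at h13
    linarith
  -- the transitional class is negligible
  have htr : ∀ l, l ≠ a → N / 2 - 1 / 4 < |(n l : ℝ) - t| →
      H * ‖y l * B l‖ < U ∧ H * ‖(d l - n a * y l) * B l‖ ≤ U := by
    intro l hla hl
    obtain ⟨-, h2⟩ := hanti l a (Ne.symm hla) hl
    have h3 : F l * G ≤ q * (2 * A * U) := by
      calc F l * G ≤ (q * F a) * G := by gcongr
        _ = q * (F a * G) := by ring
        _ ≤ _ := by gcongr
    constructor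
    · have h4 : ‖y l * B l‖ ≤ 2 * Z * U := by
        calc ‖y l * B l‖ ≤ K * A * (F l * G) := hUF l
          _ ≤ K * A * (q * (2 * A * U)) := by gcongr
          _ = _ := by rw [hZ]; ring
      calc H * ‖y l * B l‖ ≤ H * (2 * Z * U) := by gcongr
        _ = (2 * H * Z) * U := by ring
        _ < 1 * U := by gcongr
        _ = U := one_mul U
    · have h5 : ‖d l - n a * y l‖ ≤ (N + 1) * (K * F l) := by
        have h9 : d l - n a * y l = (d l - n l * y l) + (((n l : ℝ) - n a : ℝ) : ℂ) * y l := by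
          push_cast
          ring
        rw [h9]
        refine (norm_add_le _ _).trans ?_
        rw [norm_mul, Complex.norm_real, Real.norm_eq_abs]
        calc ‖d l - n l * y l‖ + |(n l : ℝ) - n a| * ‖y l‖ ≤ K * F l + N * (K * F l) := by
              gcongr
              · exact hUd' l
              · exact hnd l
              · exact hUp' l
          _ = _ := by ring
      have h4 : ‖(d l - n a * y l) * B l‖ ≤ 2 * (N + 1) * Z * U := by
        rw [norm_mul]
        have hFl := hF0 l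
        calc ‖d l - n a * y l‖ * ‖B l‖ ≤ ((N + 1) * (K * F l)) * (A * G) :=
              mul_le_mul h5 (hBu l) (norm_nonneg _) (by positivity)
          _ = (N + 1) * (K * A) * (F l * G) := by ring
          _ ≤ (N + 1) * (K * A) * (q * (2 * A * U)) := by gcongr
          _ = _ := by rw [hZ]; ring
      calc H * ‖(d l - n a * y l) * B l‖ ≤ H * (2 * (N + 1) * Z * U) := by gcongr
        _ = (2 * (N + 1) * H * Z) * U := by ring
        _ ≤ 1 * U := by gcongr
        _ = U := one_mul U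
  -- the big classes
  have hbig : ∀ c, c ≠ a → U ≤ H * ‖y c * B c‖ → |(n c : ℝ) - t| ≤ N / 2 - 1 / 4 ∧
      |(n c : ℝ) + n a - 2 * t| < 1 / 2 := by
    intro c hca hc
    have hnc : |(n c : ℝ) - t| ≤ N / 2 - 1 / 4 := by
      by_contra hlt
      push Not at hlt
      have := (htr c hca hlt).1
      linarith
    refine ⟨hnc, ?_⟩
    by_contra hge
    push Not at hge
    have hne : n c ≠ n a := by
      intro h
      have h1 := hdvd c
      rw [h] at h1
      exact hca (eq_of_n_eq h1 (hdvd a))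
    have h1 : (1 : ℝ) ≤ |(n c : ℝ) - n a| := by
      have : 1 ≤ |n c - n a| := Int.one_le_abs (sub_ne_zero.2 hne)
      exact_mod_cast this
    have h2 : 1 / 2 ≤ |((n c : ℝ) - t) ^ 2 - ((n a : ℝ) - t) ^ 2| := by
      have : ((n c : ℝ) - t) ^ 2 - ((n a : ℝ) - t) ^ 2 =
        ((n c : ℝ) - n a) * ((n c : ℝ) + n a - 2 * t) := by ring
      rw [this, abs_mul]
      nlinarith [abs_nonneg ((n c : ℝ) + n a - 2 * t)]
    have h3 := hFG c hc hnc
    have h4 : F c * G ≤ (2 * K * A ^ 2 * F a) * G := by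
      calc F c * G ≤ 2 * A * ‖y c * B c‖ := h3
        _ ≤ 2 * A * U := by gcongr; exact hamax' c
        _ ≤ 2 * A * (K * A * (F a * G)) := by gcongr; exact hUF a
        _ = _ := by ring
    have h5 : F c ≤ 2 * K * A ^ 2 * F a := le_of_mul_le_mul_right h4 hG
    have h6 : F a * G ≤ (2 * H * K * A ^ 2 * F c) * G := by
      calc F a * G ≤ 2 * A * U := hFaG
        _ ≤ 2 * A * (H * ‖y c * B c‖) := by gcongr
        _ ≤ 2 * A * (H * (K * A * (F c * G))) := by gcongr; exact hUF c
        _ = _ := by ring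
    have h7 : F a ≤ 2 * H * K * A ^ 2 * F c := le_of_mul_le_mul_right h6 hG
    have hFa := hF0 a
    have hFc := hF0 c
    rcases le_abs.1 h2 with h8 | h8
    · have h9 := hFq c a (by linarith)
      have h10 : F a ≤ (2 * H * Z) * F a := by
        calc F a ≤ 2 * H * K * A ^ 2 * F c := h7
          _ ≤ 2 * H * K * A ^ 2 * (q * F a) := by gcongr
          _ = _ := by rw [hZ]; ring
      nlinarith
    · have h9 := hFq a c (by linarith)
      have h10 : F a ≤ (2 * Z) * F a := by
        calc F a ≤ q * F c := h9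
          _ ≤ q * (2 * K * A ^ 2 * F a) := by gcongr
          _ = _ := by rw [hZ]; ring
      nlinarith
  have hsmall : ∀ c, c ≠ a → c ≠ b → H * ‖y c * B c‖ < U := by
    intro c hca hcb
    by_contra hge
    push Not at hge
    have h1 := (hbig c hca hge).2
    have h2 := (hbig b hba hbig_b).2
    have h3 : |((n c - n b : ℤ) : ℝ)| < 1 := by
      push_cast
      have : (n c : ℝ) - n b = ((n c : ℝ) + n a - 2 * t) - ((n b : ℝ) + n a - 2 * t) := by ring
      rw [this]
      have := abs_sub ((n c : ℝ) + n a - 2 * t) ((n b : ℝ) + n a - 2 * t)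
      linarith
    have h4 : |n c - n b| < 1 := by exact_mod_cast h3
    have h5 : n c = n b := by
      have := Int.abs_lt_one_iff.1 h4
      omega
    have h6 := hdvd c
    rw [h5] at h6
    exact hcb (eq_of_n_eq h6 (hdvd b))
  -- the final estimate
  have hz : ∑ c, (d c - n a * y c) * B c = 0 := by
    have : ∑ c, (d c - n a * y c) * B c = ∑ c, d c * B c - n a * ∑ c, y c * B c := by
      rw [Finset.mul_sum, ← Finset.sum_sub_distrib]
      exact Finset.sum_congr rfl fun c _ => by ring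
    rw [this, hB1, hB2]
    ring
  have hbm : b ∈ Finset.univ.erase a := Finset.mem_erase.2 ⟨hba, Finset.mem_univ b⟩
  have hcard : (((Finset.univ.erase a).erase b).card : ℝ) ≤ N := by
    have : ((Finset.univ.erase a).erase b).card ≤ (Finset.univ : Finset (Fin N)).card :=
      Finset.card_le_card ((Finset.erase_subset _ _).trans (Finset.erase_subset _ _))
    rw [Finset.card_univ, Fintype.card_fin] at this
    exact_mod_cast this
  have hz1 : ‖(d b - n a * y b) * B b‖ ≤ ‖(d a - n a * y a) * B a‖ +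
      ∑ c ∈ (Finset.univ.erase a).erase b, ‖(d c - n a * y c) * B c‖ := by
    have h1 := Finset.add_sum_erase Finset.univ (fun c => (d c - n a * y c) * B c)
      (Finset.mem_univ a)
    rw [← Finset.add_sum_erase _ _ hbm, hz] at h1
    have h2 : (d b - n a * y b) * B b = -((d a - n a * y a) * B a +
        ∑ c ∈ (Finset.univ.erase a).erase b, (d c - n a * y c) * B c) := by
      linear_combination h1
    rw [h2, norm_neg]
    exact (norm_add_le _ _).trans (by gcongr; exact norm_sum_le _ _)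
  have hu1 : U ≤ ‖y b * B b‖ + ∑ c ∈ (Finset.univ.erase a).erase b, ‖y c * B c‖ := by
    have h1 := Finset.add_sum_erase Finset.univ (fun c => y c * B c) (Finset.mem_univ a)
    rw [← Finset.add_sum_erase _ _ hbm, hB1] at h1
    have h2 : y a * B a = -(y b * B b +
        ∑ c ∈ (Finset.univ.erase a).erase b, y c * B c) := by
      linear_combination h1
    rw [hU, h2, norm_neg]
    exact (norm_add_le _ _).trans (by gcongr; exact norm_sum_le _ _)
  have hz2 : ‖(d a - n a * y a) * B a‖ ≤ U / 16 := by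
    have h1 := (hNt a hna).2
    have h2 : ‖d a - n a * y a‖ ≤ 1 / 16 * ‖y a‖ := h1.trans (by gcongr)
    rw [norm_mul]
    calc ‖d a - n a * y a‖ * ‖B a‖ ≤ (1 / 16 * ‖y a‖) * ‖B a‖ := by gcongr
      _ = U / 16 := by rw [hU, norm_mul]; ring
  have hz3 : ‖y b * B b‖ ≤ ‖(d b - n a * y b) * B b‖ + U / 16 := by
    have h0 := (hbig b hba hbig_b).1
    have h1 := (hNt b h0).2
    have h2 : ‖d b - n b * y b‖ ≤ 1 / 16 * ‖y b‖ := h1.trans (by gcongr)
    have h3 : ‖(d b - n b * y b) * B b‖ ≤ U / 16 := by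
      rw [norm_mul]
      calc ‖d b - n b * y b‖ * ‖B b‖ ≤ (1 / 16 * ‖y b‖) * ‖B b‖ := by gcongr
        _ = 1 / 16 * ‖y b * B b‖ := by rw [norm_mul]; ring
        _ ≤ 1 / 16 * U := by gcongr; exact hamax' b
        _ = U / 16 := by ring
    have hne : n b ≠ n a := by
      intro h
      have h1 := hdvd b
      rw [h] at h1
      exact hba (eq_of_n_eq h1 (hdvd a))
    have h4 : (1 : ℝ) ≤ |(n b : ℝ) - n a| := by
      have : 1 ≤ |n b - n a| := Int.one_le_abs (sub_ne_zero.2 hne)
      exact_mod_cast this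
    have h5 : (((n b : ℝ) - n a : ℝ) : ℂ) * (y b * B b) = (d b - n a * y b) * B b -
        (d b - n b * y b) * B b := by
      push_cast
      ring
    have h6 := congrArg norm h5
    rw [norm_mul, Complex.norm_real, Real.norm_eq_abs] at h6
    have h7 := norm_sub_le ((d b - n a * y b) * B b) ((d b - n b * y b) * B b)
    have h8 : ‖y b * B b‖ ≤ |(n b : ℝ) - n a| * ‖y b * B b‖ := by
      nlinarith [norm_nonneg (y b * B b)]
    linarith
  have hz4 : H * ∑ c ∈ (Finset.univ.erase a).erase b, ‖(d c - n a * y c) * B c‖ ≤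
      N * ((N + 1) * U) := by
    rw [Finset.mul_sum]
    refine (Finset.sum_le_card_nsmul _ _ ((N + 1) * U) ?_).trans ?_
    · intro c hc
      have hcb := Finset.ne_of_mem_erase hc
      have hca := Finset.ne_of_mem_erase (Finset.mem_of_mem_erase hc)
      by_cases hc4 : |(n c : ℝ) - t| ≤ N / 2 - 1 / 4
      · have h1 := (hNt c hc4).2
        have h8 : ‖d c - n a * y c‖ ≤ (N + 1) * ‖y c‖ := by
          have h9 : d c - n a * y c = (d c - n c * y c) + (((n c : ℝ) - n a : ℝ) : ℂ) * y c := by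
            push_cast
            ring
          rw [h9]
          refine (norm_add_le _ _).trans ?_
          rw [norm_mul, Complex.norm_real, Real.norm_eq_abs]
          have h10 := hnd c
          have h14 : 0 ≤ ‖y c‖ := norm_nonneg _
          nlinarith
        calc H * ‖(d c - n a * y c) * B c‖ = H * (‖d c - n a * y c‖ * ‖B c‖) := by rw [norm_mul]
          _ ≤ H * (((N + 1) * ‖y c‖) * ‖B c‖) := by gcongr
          _ = (N + 1) * (H * ‖y c * B c‖) := by rw [norm_mul]; ring
          _ ≤ (N + 1) * U := by gcongr; exact (hsmall c hca hcb).le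
      · push Not at hc4
        have h1 := (htr c hca hc4).2
        nlinarith
    · rw [nsmul_eq_mul]
      gcongr
  have hu2 : H * ∑ c ∈ (Finset.univ.erase a).erase b, ‖y c * B c‖ ≤ N * U := by
    rw [Finset.mul_sum]
    refine (Finset.sum_le_card_nsmul _ _ U ?_).trans ?_
    · intro c hc
      have hcb := Finset.ne_of_mem_erase hc
      have hca := Finset.ne_of_mem_erase (Finset.mem_of_mem_erase hc)
      exact (hsmall c hca hcb).le
    · rw [nsmul_eq_mul]
      gcongr
  have hH0 : 0 < H := by linarith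
  have h1 : H * ‖y b * B b‖ ≤ H * (U / 8) + N * ((N + 1) * U) := by
    have : H * ‖y b * B b‖ ≤ H * ((U / 16 + ∑ c ∈ (Finset.univ.erase a).erase b,
        ‖(d c - n a * y c) * B c‖) + U / 16) := by
      gcongr
      linarith
    nlinarith
  have h2 : H * U ≤ H * (‖y b * B b‖ + ∑ c ∈ (Finset.univ.erase a).erase b, ‖y c * B c‖) := by
    gcongr
  have h3 : H * U ≤ H * (U / 8) + N * ((N + 1) * U) + N * U := by nlinarith
  have h4 : 8 * ((N : ℝ) + 1) ^ 2 * U ≤ H * U := by gcongr
  nlinarith [mul_pos hU0 (lt_of_lt_of_le one_pos hN1)]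

end Pool.Agent.H70.AM
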