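import Pool.Agent.H70.AM.JTP

/-!
Zeros of the Jacobi theta function in one variable.
-/

set_option autoImplicit false

open Set Topology Filter Complex

namespace Pool.Agent.H70.AM

lemma theta_eq_te (z τ : ℂ) :
    jacobiTheta₂ z τ = ∑' j : ℤ, JTP.te (cexp (2 * Real.pi * I * τ))
      (-cexp (2 * Real.pi * I * z + Real.pi * I * τ)) j := by
  unfold jacobiTheta₂
  congr 1
  funext j
  unfold jacobiTheta₂_term JTP.te
  have h1 : ((-1 : ℂ)) ^ j * (-cexp (2 * Real.pi * I * z + Real.pi * I * τ)) ^ j =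
      cexp (2 * Real.pi * I * z + Real.pi * I * τ) ^ j := by
    rw [← mul_zpow]
    congr 1
    ring
  have h2 : (2 : ℂ) * ((JTP.tri j : ℤ) : ℂ) = (j : ℂ) * (j - 1) := by
    exact_mod_cast JTP.two_tri j
  calc cexp (2 * Real.pi * I * j * z + Real.pi * I * j ^ 2 * τ)
      = cexp (((JTP.tri j : ℤ) : ℂ) * (2 * Real.pi * I * τ)) *
        cexp ((j : ℂ) * (2 * Real.pi * I * z + Real.pi * I * τ)) := by
        rw [← Complex.exp_add]
        congr 1
        linear_combination (-(Real.pi * I * τ)) * h2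
    _ = _ := by
        rw [Complex.exp_int_mul, Complex.exp_int_mul, ← h1]
        ring

lemma norm_q_lt {τ : ℂ} (hτ : 0 < τ.im) : ‖cexp (2 * Real.pi * I * τ)‖ < 1 := by
  rw [Complex.norm_exp]
  have : (2 * Real.pi * I * τ).re = -(2 * Real.pi * τ.im) := by
    simp [mul_re, mul_im]
  rw [this, Real.exp_lt_one_iff]
  have := Real.pi_pos
  nlinarith

lemma theta_ne_zero {τ : ℂ} (hτ : 0 < τ.im) (z : ℂ)
    (h : ∀ a b : ℤ, z ≠ 1 / 2 + τ / 2 + a + b * τ) : jacobiTheta₂ z τ ≠ 0 := by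
  rw [theta_eq_te]
  apply JTP.te_ne (Complex.exp_ne_zero _) (norm_q_lt hτ) (neg_ne_zero.2 (Complex.exp_ne_zero _))
  intro n hn
  have h1 : cexp (Real.pi * I + (2 * Real.pi * I * z + Real.pi * I * τ)) =
      cexp ((n : ℂ) * (2 * Real.pi * I * τ)) := by
    rw [Complex.exp_add, Complex.exp_pi_mul_I, Complex.exp_int_mul, ← hn]
    ring
  rw [Complex.exp_eq_exp_iff_exists_int] at h1
  obtain ⟨m, hm⟩ := h1
  have hpi : (Real.pi : ℂ) * I ≠ 0 := mul_ne_zero (by exact_mod_cast Real.pi_ne_zero) I_ne_zero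
  apply h (m - 1) (n - 1)
  push_cast
  have h2 : (Real.pi : ℂ) * I * (1 + 2 * z + τ) = Real.pi * I * (2 * n * τ + 2 * m) := by
    linear_combination hm
  have h3 := mul_left_cancel₀ hpi h2
  linear_combination h3 / 2

/-- one of the two halves of the triple product -/
noncomputable def hp (q x : ℂ) : ℂ := ∏' k : ℕ, (1 + -(x * q ^ (k + 1)))

lemma hp_continuousAt {q : ℂ} (hq : ‖q‖ < 1) (x : ℂ) : ContinuousAt (hp q) x := by
  have hK : IsOpen (Metric.ball x 1) := Metric.isOpen_ball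
  have hu : Summable fun k : ℕ => (‖x‖ + 1) * ‖q‖ ^ (k + 1) := by
    refine Summable.mul_left _ ?_
    exact (summable_nat_add_iff 1).2 (summable_geometric_of_lt_one (norm_nonneg _) hq)
  have h1 := Summable.hasProdLocallyUniformlyOn_nat_one_add
    (f := fun (k : ℕ) (y : ℂ) => -(y * q ^ (k + 1))) hK hu ?_ ?_
  · have h2 : ContinuousOn (hp q) (Metric.ball x 1) := by
      have h3 := h1.tendstoLocallyUniformlyOn_finsetRange
      refine h3.continuousOn ?_
      refine Filter.Eventually.frequently (Filter.Eventually.of_forall fun n => ?_)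
      refine continuousOn_finsetProd _ fun i _ => ?_
      fun_prop
    exact h2.continuousAt (hK.mem_nhds (Metric.mem_ball_self one_pos))
  · refine Filter.Eventually.of_forall fun k y hy => ?_
    rw [norm_neg, norm_mul, norm_pow]
    gcongr
    have h3 := norm_sub_norm_le y x
    rw [Metric.mem_ball, dist_eq_norm] at hy
    linarith
  · intro k
    fun_prop

lemma hp_one_ne {q : ℂ} (hq : ‖q‖ < 1) : hp q 1 ≠ 0 := by
  unfold hp
  refine tprod_one_add_ne_zero_of_summable (fun k => ?_) ?_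
  · rw [one_mul]
    have := JTP.fac_ne hq k
    intro h
    exact this (by linear_combination h)
  · refine (JTP.summable_pow hq).congr fun k => ?_
    rw [one_mul]

lemma Px_eq {q x : ℂ} (hq : ‖q‖ < 1) : JTP.Px q x = (1 - x) * (hp q x * hp q x⁻¹) := by
  unfold JTP.Px hp
  have h1 : ∏' k : ℕ, (1 + -(x * q ^ k)) = (1 - x) * ∏' k : ℕ, (1 + -(x * q ^ (k + 1))) := by
    have hm : Multipliable fun k : ℕ => (1 + -(x * q ^ (k + 1))) := by
      refine multipliable_one_add_of_summable ?_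
      exact (summable_nat_add_iff 1).2 (JTP.sum1 (x := x) hq)
    have h2 := (hm.hasProd.zero_mul (f := fun k : ℕ => (1 + -(x * q ^ k)))).tprod_eq
    rw [h2]
    simp [sub_eq_add_neg]
  rw [h1, mul_assoc]
  congr 2
  refine tprod_congr fun k => ?_
  ring

lemma hasDerivAt_mul_of_zero {f g : ℂ → ℂ} {f' x : ℂ} (hf : HasDerivAt f f' x) (h0 : f x = 0)
    (hg : ContinuousAt g x) : HasDerivAt (fun y => f y * g y) (f' * g x) x := by
  rw [hasDerivAt_iff_tendsto_slope] at hf ⊢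
  have h1 : Tendsto g (𝓝[≠] x) (𝓝 (g x)) := hg.tendsto.mono_left nhdsWithin_le_nhds
  refine (hf.mul h1).congr fun y => ?_
  simp only [slope_def_field, h0, zero_mul, sub_zero]
  ring

lemma theta_simple_base {τ : ℂ} (hτ : 0 < τ.im) :
    ∃ d : ℂ, d ≠ 0 ∧ HasDerivAt (fun z => jacobiTheta₂ z τ) d (1 / 2 - τ / 2) := by
  set q : ℂ := cexp (2 * Real.pi * I * τ) with hq
  have hq0 : q ≠ 0 := Complex.exp_ne_zero _
  have hq1 : ‖q‖ < 1 := norm_q_lt hτ
  set X : ℂ → ℂ := fun z => -cexp (2 * Real.pi * I * z + Real.pi * I * τ) with hX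
  have hX0 : ∀ z, X z ≠ 0 := fun z => neg_ne_zero.2 (Complex.exp_ne_zero _)
  have e1 : (fun z => jacobiTheta₂ z τ) = fun z => (1 - X z) *
      (JTP.Gi q * (hp q (X z) * hp q (X z)⁻¹)) := by
    funext z
    rw [theta_eq_te, (JTP.jtp hq0 hq1 (hX0 z)).tsum_eq, Px_eq hq1]
    ring
  have hX1 : X (1 / 2 - τ / 2) = 1 := by
    simp only [hX]
    have : (2 * Real.pi * I * (1 / 2 - τ / 2) + Real.pi * I * τ : ℂ) = Real.pi * I := by ring
    rw [this, Complex.exp_pi_mul_I]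
    ring
  have hd : HasDerivAt X (2 * Real.pi * I) (1 / 2 - τ / 2) := by
    have h1 : HasDerivAt (fun z : ℂ => 2 * Real.pi * I * z + Real.pi * I * τ)
        (2 * Real.pi * I) (1 / 2 - τ / 2) := by
      simpa using ((hasDerivAt_id (1 / 2 - τ / 2 : ℂ)).const_mul
        (2 * Real.pi * I)).add_const (Real.pi * I * τ)
    have h2 := h1.cexp.neg
    have h3 : -cexp (2 * Real.pi * I * (1 / 2 - τ / 2) + Real.pi * I * τ) = 1 := hX1
    have h4 : -(cexp (2 * Real.pi * I * (1 / 2 - τ / 2) + Real.pi * I * τ) * (2 * Real.pi * I))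
        = 2 * Real.pi * I := by
      rw [← neg_mul, h3, one_mul]
    rw [h4] at h2
    exact h2
  have hpi : (2 * Real.pi * I : ℂ) ≠ 0 := by
    refine mul_ne_zero (mul_ne_zero two_ne_zero ?_) I_ne_zero
    exact_mod_cast Real.pi_ne_zero
  refine ⟨-(2 * Real.pi * I) * (JTP.Gi q * (hp q (X (1 / 2 - τ / 2)) *
    hp q (X (1 / 2 - τ / 2))⁻¹)), ?_, ?_⟩
  · rw [hX1, inv_one]
    exact mul_ne_zero (neg_ne_zero.2 hpi) (mul_ne_zero (JTP.Gi_ne hq1)
      (mul_ne_zero (hp_one_ne hq1) (hp_one_ne hq1)))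
  · rw [e1]
    refine hasDerivAt_mul_of_zero (f := fun z => 1 - X z)
      (g := fun z => JTP.Gi q * (hp q (X z) * hp q (X z)⁻¹)) ?_ ?_ ?_
    · simpa using hd.const_sub 1
    · simp only [hX1, sub_self]
    · have hc : ContinuousAt X (1 / 2 - τ / 2) := hd.continuousAt
      refine continuousAt_const.mul (ContinuousAt.mul ?_ ?_)
      · exact ContinuousAt.comp (g := hp q) (hp_continuousAt hq1 _) hc
      · exact ContinuousAt.comp (g := hp q) (hp_continuousAt hq1 _) (hc.inv₀ (hX0 _))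

lemma hasDerivAt_shift {f : ℂ → ℂ} {d a x : ℂ} :
    HasDerivAt (fun y => f (y + a)) d x ↔ HasDerivAt f d (x + a) := by
  constructor
  · intro h
    have h1 : HasDerivAt (fun y => f (y + a)) d ((x + a) + -a) := by
      rwa [add_neg_cancel_right]
    have h2 := h1.comp_add_const (x + a) (-a)
    simpa using h2
  · intro h
    exact h.comp_add_const x a

/-- the simple-zero property -/
def SZ (τ z : ℂ) : Prop :=
  jacobiTheta₂ z τ = 0 ∧ ∃ d : ℂ, d ≠ 0 ∧ HasDerivAt (fun z => jacobiTheta₂ z τ) d z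

lemma theta_zero_base (τ : ℂ) : jacobiTheta₂ (1 / 2 - τ / 2) τ = 0 := by
  set z : ℂ := 1 / 2 - τ / 2 with hz
  have h1 := jacobiTheta₂_add_left' z τ
  have h2 := jacobiTheta₂_neg_left z τ
  have h3 := jacobiTheta₂_add_left (-z) τ
  have h4 : z + τ = -z + 1 := by rw [hz]; ring
  rw [h4, h3, h2] at h1
  have h5 : (-(Real.pi : ℂ) * I * (τ + 2 * z)) = -(Real.pi * I) := by rw [hz]; ring
  rw [h5, Complex.exp_neg, Complex.exp_pi_mul_I] at h1
  have h6 : (2 : ℂ) * jacobiTheta₂ z τ = 0 := by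
    have : ((-1 : ℂ))⁻¹ = -1 := by norm_num
    rw [this] at h1
    linear_combination h1
  simpa using h6

lemma SZ_base {τ : ℂ} (hτ : 0 < τ.im) : SZ τ (1 / 2 - τ / 2) :=
  ⟨theta_zero_base τ, theta_simple_base hτ⟩

lemma SZ_add_one {τ z : ℂ} : SZ τ (z + 1) ↔ SZ τ z := by
  unfold SZ
  rw [jacobiTheta₂_add_left]
  refine and_congr Iff.rfl ?_
  refine exists_congr fun d => and_congr Iff.rfl ?_
  rw [← hasDerivAt_shift]
  have : (fun x => jacobiTheta₂ (x + 1) τ) = fun z => jacobiTheta₂ z τ := by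
    funext x
    exact jacobiTheta₂_add_left x τ
  rw [this]

lemma SZ_add_tau {τ z : ℂ} : SZ τ (z + τ) ↔ SZ τ z := by
  have hE : ∀ x, HasDerivAt (fun x : ℂ => cexp (-Real.pi * I * (τ + 2 * x)))
      (cexp (-Real.pi * I * (τ + 2 * x)) * (-(Real.pi : ℂ) * I * (2 * 1))) x := by
    intro x
    have h1 : HasDerivAt (fun x : ℂ => -(Real.pi : ℂ) * I * (τ + 2 * x))
      (-(Real.pi : ℂ) * I * (2 * 1)) x :=
      (((hasDerivAt_id x).const_mul 2).const_add τ).const_mul (-(Real.pi : ℂ) * I)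
    exact h1.cexp
  have hE0 : ∀ x : ℂ, cexp (-Real.pi * I * (τ + 2 * x)) ≠ 0 := fun x => Complex.exp_ne_zero _
  have hfe : (fun x => jacobiTheta₂ (x + τ) τ) =
      fun x => cexp (-Real.pi * I * (τ + 2 * x)) * jacobiTheta₂ x τ := by
    funext x
    exact jacobiTheta₂_add_left' x τ
  have hfe' : (fun x => jacobiTheta₂ x τ) =
      fun x => (cexp (-Real.pi * I * (τ + 2 * x)))⁻¹ * jacobiTheta₂ (x + τ) τ := by
    funext x
    rw [jacobiTheta₂_add_left' x τ, ← mul_assoc, inv_mul_cancel₀ (hE0 x), one_mul]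
  unfold SZ
  constructor
  · rintro ⟨h0, d, hd, hd'⟩
    have h0' : jacobiTheta₂ z τ = 0 := by
      rw [jacobiTheta₂_add_left'] at h0
      exact (mul_eq_zero.1 h0).resolve_left (hE0 z)
    refine ⟨h0', (cexp (-Real.pi * I * (τ + 2 * z)))⁻¹ * d,
      mul_ne_zero (inv_ne_zero (hE0 z)) hd, ?_⟩
    rw [← hasDerivAt_shift] at hd'
    rw [hfe']
    have h3 := ((hE z).inv (hE0 z)).mul hd'
    refine h3.congr_deriv ?_
    rw [h0, mul_zero, zero_add]
    rfl
  · rintro ⟨h0, d, hd, hd'⟩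
    have h0' : jacobiTheta₂ (z + τ) τ = 0 := by
      rw [jacobiTheta₂_add_left', h0, mul_zero]
    refine ⟨h0', cexp (-Real.pi * I * (τ + 2 * z)) * d, mul_ne_zero (hE0 z) hd, ?_⟩
    rw [← hasDerivAt_shift, hfe]
    have h3 := (hE z).mul hd'
    refine h3.congr_deriv ?_
    rw [h0, mul_zero, zero_add]

lemma SZ_add_int {τ z : ℂ} (a : ℤ) : SZ τ (z + a) ↔ SZ τ z := by
  induction a with
  | zero => simp
  | succ n ih => 
    have : z + ((n + 1 : ℤ) : ℂ) = (z + (n : ℤ)) + 1 := by push_cast; ring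
    rw [this, SZ_add_one, ih]
  | pred n ih =>
    have : z + ((-(n : ℤ) : ℤ) : ℂ) = (z + ((-(n : ℤ) - 1 : ℤ) : ℂ)) + 1 := by push_cast; ring
    rw [← ih, this, SZ_add_one]

lemma SZ_add_int_tau {τ z : ℂ} (b : ℤ) : SZ τ (z + b * τ) ↔ SZ τ z := by
  induction b with
  | zero => simp
  | succ n ih => 
    have : z + ((n + 1 : ℤ) : ℂ) * τ = (z + (n : ℤ) * τ) + τ := by push_cast; ring
    rw [this, SZ_add_tau, ih]
  | pred n ih =>
    have : z + ((-(n : ℤ) : ℤ) : ℂ) * τ = (z + ((-(n : ℤ) - 1 : ℤ) : ℂ) * τ) + τ := by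
      push_cast; ring
    rw [← ih, this, SZ_add_tau]

/-- the zeros of `jacobiTheta₂ · τ` -/
theorem theta_zero_iff {τ : ℂ} (hτ : 0 < τ.im) (z : ℂ) :
    jacobiTheta₂ z τ = 0 ↔ ∃ a b : ℤ, z = 1 / 2 + τ / 2 + a + b * τ := by
  constructor
  · intro h
    by_contra hcon
    push Not at hcon
    exact theta_ne_zero hτ z hcon h
  · rintro ⟨a, b, rfl⟩
    have h1 : SZ τ (1 / 2 + τ / 2 + a + b * τ) := by
      have : (1 / 2 + τ / 2 + a + b * τ : ℂ) = (1 / 2 - τ / 2) + τ + a + b * τ := by ring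
      rw [this, SZ_add_int_tau, SZ_add_int, SZ_add_tau]
      exact SZ_base hτ
    exact h1.1

/-- the zeros of `jacobiTheta₂ · τ` are simple -/
theorem theta_simple {τ : ℂ} (hτ : 0 < τ.im) (z : ℂ) (h : jacobiTheta₂ z τ = 0) : SZ τ z := by
  obtain ⟨a, b, rfl⟩ := (theta_zero_iff hτ z).1 h
  have : (1 / 2 + τ / 2 + a + b * τ : ℂ) = (1 / 2 - τ / 2) + τ + a + b * τ := by ring
  rw [this, SZ_add_int_tau, SZ_add_int, SZ_add_tau]
  exact SZ_base hτ

end Pool.Agent.H70.AM
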