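import Pool.Agent.H70.AM.Theta1

/-!
One variable theta functions with characteristics.
-/

set_option autoImplicit false

open Set Topology Filter Complex

namespace Pool.Agent.H70.AM

/-- the exponential term -/
noncomputable def et (τ x w : ℂ) : ℂ := cexp (Real.pi * I * τ * x ^ 2 + 2 * Real.pi * I * x * w)

/-- the theta function of the progression `N ℤ + s` -/
noncomputable def Y (τ : ℂ) (N : ℕ) (s w : ℂ) : ℂ := ∑' m : ℤ, et τ (N * m + s) w

lemma et_eq (τ s w : ℂ) (N : ℕ) (m : ℤ) :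
    et τ (N * m + s) w = et τ s w * jacobiTheta₂_term m (N * (w + s * τ)) (N ^ 2 * τ) := by
  unfold et jacobiTheta₂_term
  rw [← Complex.exp_add]
  congr 1
  ring

lemma Y_eq (τ : ℂ) (N : ℕ) (s w : ℂ) :
    Y τ N s w = et τ s w * jacobiTheta₂ (N * (w + s * τ)) (N ^ 2 * τ) := by
  unfold Y jacobiTheta₂
  rw [← tsum_mul_left]
  exact tsum_congr fun m => et_eq τ s w N m

lemma et_ne (τ x w : ℂ) : et τ x w ≠ 0 := Complex.exp_ne_zero _

lemma im_pos {τ : ℂ} (hτ : 0 < τ.im) {N : ℕ} (hN : 0 < N) : 0 < ((N : ℂ) ^ 2 * τ).im := by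
  have : ((N : ℂ) ^ 2 * τ).im = (N : ℝ) ^ 2 * τ.im := by
    have : ((N : ℂ) ^ 2) = (((N : ℝ) ^ 2 : ℝ) : ℂ) := by push_cast; rfl
    rw [this, Complex.im_ofReal_mul]
  rw [this]
  positivity

lemma summable_et {τ : ℂ} (hτ : 0 < τ.im) {N : ℕ} (hN : 0 < N) (s w : ℂ) :
    Summable fun m : ℤ => ‖et τ (N * m + s) w‖ := by
  have h1 := ((summable_jacobiTheta₂_term_iff (N * (w + s * τ)) (N ^ 2 * τ)).2
    (im_pos hτ hN)).norm.mul_left ‖et τ s w‖
  refine h1.congr fun m => ?_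
  rw [et_eq, norm_mul]

lemma et_hasDerivAt (τ x w : ℂ) :
    HasDerivAt (fun w => et τ x w) (et τ x w * (2 * Real.pi * I * x)) w := by
  unfold et
  have h1 : HasDerivAt (fun w : ℂ => Real.pi * I * τ * x ^ 2 + 2 * Real.pi * I * x * w)
      (2 * Real.pi * I * x) w := by
    simpa using ((hasDerivAt_id w).const_mul (2 * Real.pi * I * x)).const_add
      (Real.pi * I * τ * x ^ 2)
  exact h1.cexp

lemma Y_differentiable {τ : ℂ} (hτ : 0 < τ.im) {N : ℕ} (hN : 0 < N) (s : ℂ) :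
    Differentiable ℂ (Y τ N s) := by
  have h1 : Y τ N s = fun w => et τ s w * jacobiTheta₂ (N * (w + s * τ)) (N ^ 2 * τ) := by
    funext w
    exact Y_eq τ N s w
  rw [h1]
  intro w
  refine (et_hasDerivAt τ s w).differentiableAt.mul ?_
  have h2 := differentiableAt_jacobiTheta₂_fst (N * (w + s * τ)) (im_pos hτ hN)
  refine DifferentiableAt.comp (g := fun z => jacobiTheta₂ z (N ^ 2 * τ)) w h2 ?_
  fun_prop

lemma Y_zero_iff {τ : ℂ} (hτ : 0 < τ.im) {N : ℕ} (hN : 0 < N) (s w : ℂ) :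
    Y τ N s w = 0 ↔ ∃ a b : ℤ, N * (w + s * τ) = 1 / 2 + N ^ 2 * τ / 2 + a + b * (N ^ 2 * τ) := by
  rw [Y_eq, mul_eq_zero, or_iff_right (et_ne τ s w), theta_zero_iff (im_pos hτ hN)]

lemma Y_simple {τ : ℂ} (hτ : 0 < τ.im) {N : ℕ} (hN : 0 < N) (s w : ℂ) (h : Y τ N s w = 0) :
    deriv (Y τ N s) w ≠ 0 := by
  have hN' : (N : ℂ) ≠ 0 := by exact_mod_cast hN.ne'
  have h0 : jacobiTheta₂ (N * (w + s * τ)) (N ^ 2 * τ) = 0 := by
    rw [Y_eq, mul_eq_zero] at h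
    exact h.resolve_left (et_ne τ s w)
  obtain ⟨-, d, hd, hd'⟩ := theta_simple (im_pos hτ hN) _ h0
  have h1 : HasDerivAt (fun w : ℂ => (N : ℂ) * (w + s * τ)) (N : ℂ) w := by
    simpa using ((hasDerivAt_id w).add_const (s * τ)).const_mul (N : ℂ)
  have h2 : HasDerivAt (fun w => jacobiTheta₂ (N * (w + s * τ)) (N ^ 2 * τ)) (d * N) w :=
    HasDerivAt.comp (h₂ := fun z => jacobiTheta₂ z (N ^ 2 * τ)) w hd' h1
  have h3 := (et_hasDerivAt τ s w).mul h2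
  have h4 : HasDerivAt (Y τ N s) (et τ s w * (d * N)) w := by
    have e1 : Y τ N s = fun w => et τ s w * jacobiTheta₂ (N * (w + s * τ)) (N ^ 2 * τ) := by
      funext w
      exact Y_eq τ N s w
    rw [e1]
    refine h3.congr_deriv ?_
    rw [h0, mul_zero, zero_add]
  rw [h4.deriv]
  exact mul_ne_zero (et_ne τ s w) (mul_ne_zero hd hN')

lemma Y_exists_zero {τ : ℂ} (hτ : 0 < τ.im) {N : ℕ} (hN : 0 < N) (s : ℂ) :
    ∃ w, Y τ N s w = 0 := by
  have hN' : (N : ℂ) ≠ 0 := by exact_mod_cast hN.ne'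
  refine ⟨(1 / 2 + N ^ 2 * τ / 2) / N - s * τ, ?_⟩
  rw [Y_zero_iff hτ hN]
  refine ⟨0, 0, ?_⟩
  push_cast
  field_simp
  ring

lemma Y_disjoint {τ : ℂ} (hτ : 0 < τ.im) {N : ℕ} (hN : 0 < N) (s s' : ℝ) (w : ℂ)
    (h : Y τ N s w = 0) (h' : Y τ N s' w = 0) : ∃ b : ℤ, s - s' = N * b := by
  rw [Y_zero_iff hτ hN] at h h'
  obtain ⟨a, b, h1⟩ := h
  obtain ⟨a', b', h2⟩ := h'
  have h3 : (((N : ℝ) * (s - s') - (b - b') * N ^ 2 : ℝ) : ℂ) * τ = ((a - a' : ℝ) : ℂ) := by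
    push_cast
    linear_combination h1 - h2
  have h4 := congrArg Complex.im h3
  rw [Complex.im_ofReal_mul, Complex.ofReal_im] at h4
  have h5 := (mul_eq_zero.1 h4).resolve_right hτ.ne'
  refine ⟨b - b', ?_⟩
  have hN' : (N : ℝ) ≠ 0 := by exact_mod_cast hN.ne'
  have h6 : (N : ℝ) * (s - s') = N * (N * (b - b')) := by linear_combination h5
  have h7 := mul_left_cancel₀ hN' h6
  rw [h7]
  push_cast
  ring

end Pool.Agent.H70.AM
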